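import Pool.Agent.FTB.Defs

/-!
# FTL: the matching lower bound for the average of the 5-torsion (half W: counting points)

Notation of FTB: a point is a tuple `(N, k, c, v, u, e, w, z)` with
`u e = v² N - c² k`, `v w = u² - c² N`, `c z = v² k - e²`.
The box: `c ≠ v` primes in `[V, 1.001 V]`, `u, e ∈ [V a, 1.001 V a]`, `z ∈ [V a², 1.001 V a²]`
(centre, in these units: `c = v = u = e = z = 1`, `w = -2`, `N = 3 a²`, `k = 2 a²`).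
The map `(N, k, c, v, u, e, w, z) ↦ (k, N, v, c, e, -u, -z, -w)` preserves the three equations; `Fr`
describes a point of the box (`s = 1`) or its mirror image (`s = -1`) in a symmetric way.
-/

set_option autoImplicit false

namespace Pool.Agent.FTL

open Pool.Agent.FTB

/-- a point of the box -/
structure GP (V a N k c v : ℕ) (u e w z : ℤ) : Prop where
  pc : c.Prime
  pv : v.Prime
  ne : c ≠ v
  c1 : V ≤ c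
  c2 : 1000 * c ≤ 1001 * V
  v1 : V ≤ v
  v2 : 1000 * v ≤ 1001 * V
  u1 : (V : ℤ) * a ≤ u
  u2 : 1000 * u ≤ 1001 * ((V : ℤ) * a)
  e1 : (V : ℤ) * a ≤ e
  e2 : 1000 * e ≤ 1001 * ((V : ℤ) * a)
  z1 : (V : ℤ) * a ^ 2 ≤ z
  z2 : 1000 * z ≤ 1001 * ((V : ℤ) * a ^ 2)
  t1 : u * e = (v : ℤ) ^ 2 * N - (c : ℤ) ^ 2 * k
  t2 : (v : ℤ) * w = u ^ 2 - (c : ℤ) ^ 2 * N
  t3 : (c : ℤ) * z = (v : ℤ) ^ 2 * k - e ^ 2

/-- a point of the box (`s = 1`) or its mirror image (`s = -1`), with rough sizes -/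
structure Fr (V a : ℕ) (s : ℤ) (N k c v : ℕ) (u e w z : ℤ) : Prop where
  hs : s = 1 ∨ s = -1
  pc : c.Prime
  pv : v.Prime
  ne : c ≠ v
  c1 : V ≤ c
  c2 : 1000 * c ≤ 1001 * V
  v1 : V ≤ v
  v2 : 1000 * v ≤ 1001 * V
  u1 : (V : ℤ) * a ≤ u
  u2 : 1000 * u ≤ 1001 * ((V : ℤ) * a)
  e1 : (V : ℤ) * a ≤ s * e
  e2 : 1000 * (s * e) ≤ 1001 * ((V : ℤ) * a)
  z1 : 0 < z
  z2 : z ≤ 3 * ((V : ℤ) * a ^ 2)
  w1 : w < 0
  w2 : -(3 * ((V : ℤ) * a ^ 2)) ≤ w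
  N1 : 1 ≤ N
  N2 : N ≤ 4 * a ^ 2
  k1 : 1 ≤ k
  k2 : k ≤ 4 * a ^ 2
  t1 : u * e = (v : ℤ) ^ 2 * N - (c : ℤ) ^ 2 * k
  t2 : (v : ℤ) * w = u ^ 2 - (c : ℤ) ^ 2 * N
  t3 : (c : ℤ) * z = (v : ℤ) ^ 2 * k - e ^ 2

/-- `GP` for a tuple -/
def GPq (V a : ℕ) (q : Pt) : Prop :=
  GP V a q.1 q.2.1 q.2.2.1 q.2.2.2.1 q.2.2.2.2.1 q.2.2.2.2.2.1 q.2.2.2.2.2.2.1 q.2.2.2.2.2.2.2

/-- `Fr` for a tuple -/
def Frq (V a : ℕ) (s : ℤ) (q : Pt) : Prop :=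
  Fr V a s q.1 q.2.1 q.2.2.1 q.2.2.2.1 q.2.2.2.2.1 q.2.2.2.2.2.1 q.2.2.2.2.2.2.1 q.2.2.2.2.2.2.2

/-- the mirror image -/
def mir (q : Pt) : Pt :=
  (q.2.1, q.1, q.2.2.2.1, q.2.2.1, q.2.2.2.2.2.1, -q.2.2.2.2.1, -q.2.2.2.2.2.2.2,
    -q.2.2.2.2.2.2.1)

/-- the value of the quadratic form at `(v² u, c² e)` -/
def Fq (c v u e : ℤ) : ℤ := v ^ 4 * u ^ 2 - c ^ 2 * v ^ 2 * u * e - c ^ 4 * e ^ 2

/-- the primes in `[V, 1.001 V]` -/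
def Pr (V : ℕ) : Finset ℕ := (Finset.Icc V (1001 * V / 1000)).filter Nat.Prime

theorem mem_Pr (V p : ℕ) : p ∈ Pr V ↔ (V ≤ p ∧ 1000 * p ≤ 1001 * V) ∧ p.Prime := by
  unfold Pr
  rw [Finset.mem_filter, Finset.mem_Icc, Nat.le_div_iff_mul_le (by norm_num), mul_comm p 1000]

/-- the pairs of distinct primes in `[V, 1.001 V]` -/
def PP (V : ℕ) : Finset (ℕ × ℕ) := (Pr V ×ˢ Pr V).filter fun x => x.1 ≠ x.2

theorem mem_PP (V : ℕ) (x : ℕ × ℕ) : x ∈ PP V ↔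
    ((V ≤ x.1 ∧ 1000 * x.1 ≤ 1001 * V) ∧ x.1.Prime) ∧
    ((V ≤ x.2 ∧ 1000 * x.2 ≤ 1001 * V) ∧ x.2.Prime) ∧ x.1 ≠ x.2 := by
  unfold PP
  rw [Finset.mem_filter, Finset.mem_product, mem_Pr, mem_Pr, and_assoc]

/-- the parameter `C` of FTB for the box -/
def CV (V : ℕ) : ℕ := 1001 * V / 1000

theorem PP_sub (V : ℕ) (hV : 1001 ≤ V) : PP V ⊆ Cv (CV V) V := by
  intro x hx
  rw [mem_PP] at hx
  obtain ⟨⟨⟨h1, h2⟩, h3⟩, ⟨⟨h4, h5⟩, h6⟩, h7⟩ := hx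
  rw [mem_Cv]
  refine ⟨⟨h3.one_lt.le, ?_⟩, ⟨h4, by omega⟩, (Nat.coprime_primes h3 h6).2 h7⟩
  unfold CV
  rw [Nat.le_div_iff_mul_le (by norm_num)]
  omega

open Classical in
/-- the quadruples of `Bc` with `p ∣ K` -/
noncomputable def BK (p s n c v : ℕ) : Finset (ℤ × ℤ × ℤ × ℤ) :=
  (Bc s n c v).filter fun b => (p : ℤ) ∣ b.2.2.2

open Classical in
theorem mem_BK (p s n c v : ℕ) (b : ℤ × ℤ × ℤ × ℤ) :
    b ∈ BK p s n c v ↔ b ∈ Bc s n c v ∧ (p : ℤ) ∣ b.2.2.2 := by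
  unfold BK
  exact Finset.mem_filter

open Classical in
/-- the quadruples of `Q4` with `p ∣ K` -/
noncomputable def QK (p s : ℕ) : Finset (ℤ × ℤ × ℤ × ℤ) :=
  (Q4 s).filter fun b => (p : ℤ) ∣ b.2.2.2

open Classical in
theorem mem_QK (p s : ℕ) (b : ℤ × ℤ × ℤ × ℤ) : b ∈ QK p s ↔ b ∈ Q4 s ∧ (p : ℤ) ∣ b.2.2.2 := by
  unfold QK
  exact Finset.mem_filter

/-- the set `H0` of FTB for the multiple `j` of the quadratic form attached to `(c, v)` and `p`;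
`cb` is an inverse of `c` modulo `p v⁵` -/
noncomputable def H5 (c v p j : ℕ) (cb : ℤ) (U E : ℕ) : Finset (ℤ × ℤ) :=
  H0 ((j : ℝ) * ((cb : ℝ) ^ 5 * p / v)) ((j : ℝ) * (-(cb : ℝ) ^ 5 * c ^ 2 / v ^ 3))
    ((j : ℝ) * (-(cb : ℝ) ^ 5 * c ^ 4 / (p * v ^ 5))) U E

/-- conditions on the parameters: `P` bounds the primes `p` of the sieve, `R` is the modulus of the
congruence conditions on `u` and `e` -/
structure PW (V a R P Z : ℕ) (T Q L : ℝ) : Prop where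
  hR : 1 ≤ R
  hP : 1 ≤ P
  hRP : 12000 * R * P ≤ V
  hV : 10 ^ 6 ≤ V
  hVa : V ≤ a
  haV : 10 ^ 5 * a ≤ V ^ 2
  hT : TauB Z T
  hQ : UniB Z Q
  hZ : (200 * V ^ 5) ^ 8 ≤ Z
  hL : 6 + 6 * Real.log V ≤ L

/-- the parameter `s` for a prime `p` (or `p = 1`) -/
noncomputable def sp (V a R p : ℕ) : ℕ := ⌈80000 * (p : ℝ) * R * V ^ 2 / a⌉₊

/-- the error term for a prime `p` (or `p = 1`) -/
noncomputable def Er (V a R : ℕ) (T Q L : ℝ) (p : ℕ) : ℝ :=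
  10 ^ 15 * (R : ℝ) * T ^ 2 * Q * L ^ 2 * (√(p : ℝ) * (V : ℝ) ^ 4 + (V : ℝ) ^ 3 * a)

end Pool.Agent.FTL
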