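import Pool.Agent.FTB.DefsI
import Pool.Agent.FTL.DefsW

/-!
# FTL: definitions for the half L (from points to classes)

A point of the box gives `b = (k u + N e) / v`, `t = (b w - 2 N ^ 2 u) / c`,
`D = (4 N ^ 2 k - b ^ 2) / c ^ 2` with `t ^ 2 + D w ^ 2 = 4 N ^ 5`, `-D` a discriminant.
`D = f ^ 2 D_K` for `K = Kf D`, `f = cf D`.
-/

set_option autoImplicit false

namespace Pool.Agent.FTL

open NumberField Pool.Agent.FTA Pool.Agent.FTB nonZeroDivisors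

/-- the data `(D, N, w, t)` -/
abbrev Qt : Type := ℕ × ℕ × ℤ × ℤ

/-- the conditions on the data `(D, N, w, t)` of a point -/
structure Qd (X a : ℕ) (R : ℝ) (D N : ℕ) (w t : ℤ) : Prop where
  D1 : X ≤ 2 * D
  D2 : D ≤ X
  D3 : D % 4 = 0 ∨ D % 4 = 3
  N1 : 2 ≤ N
  N2 : N ≤ 4 * a ^ 2
  w0 : w ≠ 0
  eq : t ^ 2 + (D : ℤ) * w ^ 2 = 4 * (N : ℤ) ^ 5
  bad : ∀ p : ℕ, p.Prime → p ∣ N → (p : ℤ) ∣ t → R < p ∧ p ^ 2 ∣ D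

/-- `Qd` for a tuple -/
def Qdq (X a : ℕ) (R : ℝ) (q : Qt) : Prop := Qd X a R q.1 q.2.1 q.2.2.1 q.2.2.2

/-- the field `ℚ(√-D)` -/
noncomputable def Kf (D : ℕ) : IntermediateField ℚ ℂ :=
  IntermediateField.adjoin ℚ {((√(D : ℝ) : ℝ) : ℂ) * Complex.I}

/-- the conductor of the order of discriminant `-D` -/
noncomputable def cf (D : ℕ) : ℕ := Nat.sqrt (D / aD (Kf D))

/-- the part of `N` composed of the primes dividing `t` -/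
def nS (N : ℕ) (t : ℤ) : ℕ :=
  ∏ p ∈ N.primeFactors.filter (fun p : ℕ => (p : ℤ) ∣ t), p ^ N.factorization p

/-- `b = (k u + N e) / v` for a point -/
def bP (q : Pt) : ℤ :=
  ((q.2.1 : ℤ) * q.2.2.2.2.1 + (q.1 : ℤ) * q.2.2.2.2.2.1) / (q.2.2.2.1 : ℤ)

/-- `t = (b w - 2 N ^ 2 u) / c` for a point -/
def tP (q : Pt) : ℤ :=
  (bP q * q.2.2.2.2.2.2.1 - 2 * (q.1 : ℤ) ^ 2 * q.2.2.2.2.1) / (q.2.2.1 : ℤ)

/-- `D = (4 N ^ 2 k - b ^ 2) / c ^ 2` for a point -/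
def dP (q : Pt) : ℕ := ((4 * (q.1 : ℤ) ^ 2 * q.2.1 - bP q ^ 2) / (q.2.2.1 : ℤ) ^ 2).toNat

/-- the data of a point -/
def qP (q : Pt) : Qt := (dP q, q.1, q.2.2.2.2.2.2.1, tP q)

/-- what is used about the points of the box: `gcd (c v, u e) = 1` and no prime `p ≤ R` divides
`N` and `k` -/
def GPr (V a : ℕ) (R : ℝ) (q : Pt) : Prop :=
  GPq V a q ∧ IsCoprime ((q.2.2.1 : ℤ) * q.2.2.2.1) (q.2.2.2.2.1 * q.2.2.2.2.2.1) ∧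
    ∀ p : ℕ, p.Prime → (p : ℝ) ≤ R → ¬ (p ∣ q.1 ∧ p ∣ q.2.1)

/-- the parameters -/
structure PL (X V a : ℕ) (R : ℝ) : Prop where
  hV : 1 ≤ V
  ha : 1 ≤ a
  hX1 : 49 * a ^ 6 ≤ X * V ^ 2
  hX2 : X * V ^ 2 ≤ 50 * a ^ 6
  haX : a ^ 4 ≤ X
  hR : 2 ≤ R

/-- the ideal data of `q = (D, N, w, t)` in `K = Kf D` (`f = cf D`): `n = nS N t`, `G` is the part of
the content of `α = (t + w √-D) / 2` over the primes of `n`, `α = G β`, `G ^ 2 m = n ^ 5`,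
`(β) = (β, m) I ^ 5` with `I` primitive of norm `N / n`; `r = t1 / y1` modulo `m` -/
structure DQ (K : IntermediateField ℚ ℂ) [NumberField K] (a n G m r : ℕ) (q : Qt) (β : 𝓞 K)
    (t1 y1 : ℤ) (I : (Ideal (𝓞 K))⁰) : Prop where
  cβ : Co K β t1 y1
  ht : q.2.2.2 = G * t1
  hy : q.2.2.1 * (cf q.1 : ℤ) = G * y1
  hD : q.1 = cf q.1 ^ 2 * aD K
  hf : 1 ≤ cf q.1
  w0 : q.2.2.1 ≠ 0
  hn : 1 ≤ n
  hG : 1 ≤ G
  hGd : G ∣ n ^ 5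
  hm : G ^ 2 * m = n ^ 5
  om : Odd m
  cy : IsCoprime y1 (m : ℤ)
  hr : r < m
  hr2 : (m : ℤ) ∣ t1 - r * y1
  hr3 : m ∣ r ^ 2 + aD K
  hN : q.2.1 = n * Ideal.absNorm (I : Ideal (𝓞 K))
  hN2 : q.2.1 ≤ 4 * a ^ 2
  hN3 : 2 ≤ q.2.1
  hs : Ideal.span {β} = (Ideal.span {β} ⊔ Ideal.span {(m : 𝓞 K)}) * (I : Ideal (𝓞 K)) ^ 5
  hI : ∀ l : ℕ, 2 ≤ l → ¬ ((I : Ideal (𝓞 K)) ≤ Ideal.span {(l : 𝓞 K)})
  yb : ((G : ℤ) * y1).natAbs ≤ 64 * a ^ 5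

end Pool.Agent.FTL
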