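import Pool.Agent.FTA.Cnt
import Pool.Agent.FTA.Fib
import Pool.Agent.FTL.DefsL

/-!
# FTL/LPl: counting lattice points

PROOF of `lpl`.  Split `S` into the part `y = 0` (at most 1 element, `h0`) and the part `y ≥ 1`.
In the second part `D y ^ 2 ≤ 4 B n`, so `y ≤ Y = 2 √(B n / D)`; there are at most `Y` values of
`y` (`y ∈ Icc 1 ⌊Y⌋`).  For fixed `y` the integers `t` lie in `[-2 √(B n), 2 √(B n)]` and are congruent
modulo `2 n` (`h2`), so there are at most `1 + 4 √(B n) / (2 n) = 1 + 2 √(B / n)` of them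
(`Pool.Agent.FTA.cnt`; see its use in Pool/Agent/FTB/Bx1.lean).  So
`card S ≤ 1 + 2 √(B n / D) (1 + 2 √(B / n)) = 1 + 2 √(B n / D) + 4 B / √D`, and `n ≤ √D` gives
`2 √(B n / D) ≤ 2 √(B / √D) ≤ 1 + B / √D`.
-/

set_option autoImplicit false

namespace Pool.Agent.FTL

theorem lpl (D n : ℕ) (B : ℝ) (hn : 1 ≤ n) (hnD : n ^ 2 ≤ D) (hB : 0 ≤ B) (S : Finset (ℤ × ℤ))
    (hy : ∀ q ∈ S, 0 ≤ q.2) (h1 : ∀ q ∈ S, (q.1 : ℝ) ^ 2 + D * (q.2 : ℝ) ^ 2 ≤ 4 * B * n)
    (h2 : ∀ q ∈ S, ∀ q' ∈ S, q.2 = q'.2 → (2 * n : ℤ) ∣ q.1 - q'.1)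
    (h0 : ∀ q ∈ S, ∀ q' ∈ S, q.2 = 0 → q'.2 = 0 → q = q') :
    (S.card : ℝ) ≤ 5 + 12 * B / √(D : ℝ) := by
  classical
  have hn0 : (1 : ℝ) ≤ n := by exact_mod_cast hn
  have hnD' : (n : ℝ) ^ 2 ≤ D := by exact_mod_cast hnD
  have hD0 : (0 : ℝ) < D := by nlinarith
  set r : ℝ := √(D : ℝ) with hr
  have hr0 : 0 < r := Real.sqrt_pos.2 hD0
  have hr2 : r ^ 2 = D := Real.sq_sqrt hD0.le
  have hnr : (n : ℝ) ≤ r := Real.le_sqrt_of_sq_le hnD'
  set s : ℝ := √(B * n) with hs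
  have hs0 : 0 ≤ s := Real.sqrt_nonneg _
  have hs2 : s ^ 2 = B * n := Real.sq_sqrt (by positivity)
  set Y : ℝ := 2 * s / r with hY
  have hY0 : 0 ≤ Y := by positivity
  -- bounds on the members
  have hyb : ∀ q ∈ S, (q.2 : ℝ) ≤ Y := by
    intro q hq
    have a1 := h1 q hq
    have a2 : (r * q.2) ^ 2 ≤ (2 * s) ^ 2 := by
      have : (r * (q.2 : ℝ)) ^ 2 = D * (q.2 : ℝ) ^ 2 := by rw [mul_pow, hr2]
      rw [this]
      nlinarith [sq_nonneg (q.1 : ℝ)]
    have a4 := (abs_le_of_sq_le_sq' a2 (by positivity)).2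
    rw [hY, le_div_iff₀ hr0]
    linarith
  have htb : ∀ q ∈ S, |(q.1 : ℝ)| ≤ 2 * s := by
    intro q hq
    have a1 := h1 q hq
    have a2 : (q.1 : ℝ) ^ 2 ≤ (2 * s) ^ 2 := by
      have : 0 ≤ (D : ℝ) * (q.2 : ℝ) ^ 2 := by positivity
      nlinarith
    exact abs_le.2 (abs_le_of_sq_le_sq' a2 (by positivity))
  set S0 := S.filter (fun q => q.2 = 0) with hS0
  set S1 := S.filter (fun q => ¬ q.2 = 0) with hS1
  have hcard : (S.card : ℝ) = S0.card + S1.card := by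
    have := Finset.card_filter_add_card_filter_not (s := S) (fun q : ℤ × ℤ => q.2 = 0)
    rw [← this]
    push_cast
    rfl
  have hc0 : (S0.card : ℝ) ≤ 1 := by
    have : S0.card ≤ 1 := by
      rw [Finset.card_le_one]
      intro a ha b hb
      rw [hS0, Finset.mem_filter] at ha hb
      exact h0 a ha.1 b hb.1 ha.2 hb.2
    exact_mod_cast this
  have hc1 : (S1.card : ℝ) ≤ Y * (4 * s / (2 * n : ℕ) + 1) := by
    have hb0 : (0 : ℝ) ≤ 4 * s / (2 * n : ℕ) + 1 := by positivity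
    have a1 := Pool.Agent.FTA.fib_const S1 (fun q => q.2) (Finset.Icc 1 ⌊Y⌋) ?_
      (4 * s / (2 * n : ℕ) + 1) ?_
    · refine a1.trans (mul_le_mul_of_nonneg_right ?_ hb0)
      rw [Int.card_Icc]
      have a2 : (⌊Y⌋ + 1 - 1).toNat = ⌊Y⌋.toNat := by congr 1; ring
      rw [a2]
      have a3 : 0 ≤ ⌊Y⌋ := Int.floor_nonneg.2 hY0
      have a4 : ((⌊Y⌋.toNat : ℕ) : ℝ) = (⌊Y⌋ : ℝ) := by
        have : ((⌊Y⌋.toNat : ℕ) : ℤ) = ⌊Y⌋ := Int.toNat_of_nonneg a3
        exact_mod_cast this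
      rw [a4]
      exact Int.floor_le Y
    · intro q hq
      rw [hS1, Finset.mem_filter] at hq
      have := hy q hq.1
      rw [Finset.mem_Icc]
      refine ⟨by omega, Int.le_floor.2 (hyb q hq.1)⟩
    · intro y _
      set T := S1.filter (fun q => q.2 = y) with hT
      have hTS : ∀ q ∈ T, q ∈ S ∧ q.2 = y := by
        intro q hq
        rw [hT, Finset.mem_filter, hS1, Finset.mem_filter] at hq
        exact ⟨hq.1.1, hq.2⟩
      have hinj : Set.InjOn (fun q : ℤ × ℤ => q.1) (T : Set (ℤ × ℤ)) := by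
        intro a ha b hb hab
        have ha' := hTS a (Finset.mem_coe.1 ha)
        have hb' := hTS b (Finset.mem_coe.1 hb)
        exact Prod.ext hab (ha'.2.trans hb'.2.symm)
      rw [← Finset.card_image_of_injOn hinj]
      refine Pool.Agent.FTA.cnt (T.image fun q : ℤ × ℤ => q.1) (2 * n) (by omega) (4 * s)
        (by positivity) ?_ ?_
      · intro x hx z hz
        obtain ⟨q, hq, rfl⟩ := Finset.mem_image.1 hx
        obtain ⟨q', hq', rfl⟩ := Finset.mem_image.1 hz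
        have b1 := hTS q hq
        have b2 := hTS q' hq'
        have := h2 q b1.1 q' b2.1 (b1.2.trans b2.2.symm)
        push_cast
        exact this
      · intro x hx z hz
        obtain ⟨q, hq, rfl⟩ := Finset.mem_image.1 hx
        obtain ⟨q', hq', rfl⟩ := Finset.mem_image.1 hz
        have b1 := abs_le.1 (htb q (hTS q hq).1)
        have b2 := abs_le.1 (htb q' (hTS q' hq').1)
        push_cast
        linarith [b1.2, b2.1]
  have hfin1 : Y * (4 * s / (2 * n : ℕ) + 1) = 4 * B / r + Y := by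
    have hn1 : (n : ℝ) ≠ 0 := by positivity
    have hr1 : r ≠ 0 := hr0.ne'
    rw [hY]
    push_cast
    field_simp
    have : s * s = B * n := by rw [← sq, hs2]
    nlinarith [this]
  have hfin2 : Y ≤ 1 + B / r := by
    have b1 : (s / r) ^ 2 ≤ B / r := by
      rw [div_pow, div_le_div_iff₀ (by positivity) hr0, hs2]
      nlinarith [mul_le_mul_of_nonneg_left hnr (mul_nonneg hB hr0.le)]
    have b2 : Y = 2 * (s / r) := by rw [hY]; ring
    rw [b2]
    nlinarith [sq_nonneg (s / r - 1)]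
  have hBr : 0 ≤ B / r := by positivity
  have e1 : 12 * B / r = 12 * (B / r) := by ring
  have e2 : 4 * B / r = 4 * (B / r) := by ring
  rw [hcard, e1]
  rw [hfin1, e2] at hc1
  linarith

end Pool.Agent.FTL
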