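import Pool.Agent.FTL.LPb
import Pool.Agent.FTL.LPl

/-!
# FTL/LPc: the number of primitive ideals of bounded norm in a class

PROOF of `prc`.  `cmn` for the class `x⁻¹` gives `I0`, `n0 = absNorm I0`, `n0 ^ 2 ≤ aD K`, minimal,
so `I0` is primitive (`prm1`), and its complementary ideal `I1` (`cpl`, `I0 * I1 = span {n0}`) is
primitive (`prm2`).  For `I ∈ T` the ideal `I * I0` is principal, `= span {l}`, `l ≠ 0`; let `(t, y)` be
the coordinates of `l`; replacing `l` by `-l` we may assume `y > 0`, or `y = 0` and `t > 0`.  Let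
`F I = (t, y)`.  `co_norm`: `t ^ 2 + aD y ^ 2 = 4 absNorm I * n0 ≤ 4 B n0`.  `F` is injective on `T`:
`(t, y)` determines `l` (`co_inj`), so `I * I0`, so `I` (cancel `I0`).  Apply `lpl` to the image
of `T` with `D = aD K`, `n = n0`:
(h2) if `y = y'`, then `l - l' = (t - t') / 2 =: s` is an element of `𝓞 K ∩ ℚ`, an integer
(`4 absNorm (span {l - l'}) = (t - t') ^ 2`, so `t - t'` is even, and `l - l' = ((t - t') / 2 : ℤ)` by
`co_inj`), and it is in `I0`, so `n0 ∣ s` by `pib`.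
(h0) if `y = 0`, `l = s` is a positive integer and `I * I0 = span {s}`; multiply by `I1`:
`span {n0} * I = span {s} * I1`.  As `I` and `I1` are primitive, `s = n0`: let `g = gcd (n0, s)`,
`n0 = g n1`, `s = g s1`; cancel `g`: `span {n1} * I = span {s1} * I1`; `n1, s1` are coprime so
`I ≤ span {s1}` (`I = I * (span {n1} ⊔ span {s1}) ≤ span {s1}`) and `I1 ≤ span {n1}`, hence
`s1 = n1 = 1`.  So `t = 2 s = 2 n0` is the same for all these `I`.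
-/

set_option autoImplicit false

namespace Pool.Agent.FTL

open NumberField Pool.Agent.FTA Pool.Agent.FTB nonZeroDivisors

private theorem LPc_sub (K : IntermediateField ℚ ℂ) [NumberField K] (a b : 𝓞 K) (t y t' y' : ℤ)
    (h : Co K a t y) (h' : Co K b t' y') : Co K (a - b) (t - t') (y - y') := by
  unfold Co at *
  push_cast
  rw [mul_sub, h, h']
  ring

private theorem LPc_int (K : IntermediateField ℚ ℂ) [NumberField K] (z : ℤ) :
    Co K (z : 𝓞 K) (2 * z) 0 := by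
  have hc : ((((z : ℤ) : 𝓞 K) : K) : ℂ) = (z : ℂ) := by simp
  unfold Co
  rw [hc]
  push_cast
  ring

/-- an integer with second coordinate `0` is a rational integer -/
private theorem LPc_zero (K : IntermediateField ℚ ℂ) [NumberField K]
    (h2 : Module.finrank ℚ K = 2) (him : ∃ x : K, (x : ℂ).im ≠ 0) (a : 𝓞 K) (t : ℤ)
    (h : Co K a t 0) : ∃ s : ℤ, t = 2 * s ∧ a = (s : 𝓞 K) := by
  have h3 := co_norm K h2 him _ _ _ h
  have h4 : (2 : ℤ) ∣ t := by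
    have h5 : (2 : ℤ) ∣ t ^ 2 := ⟨2 * (Ideal.absNorm (Ideal.span {a}) : ℤ), by linarith⟩
    exact Int.prime_two.dvd_of_dvd_pow h5
  obtain ⟨s, rfl⟩ := h4
  exact ⟨s, rfl, co_inj K _ _ _ _ h (LPc_int K s)⟩

private theorem LPc_key (K : IntermediateField ℚ ℂ) [NumberField K] (h2 : Module.finrank ℚ K = 2)
    (him : ∃ x : K, (x : ℂ).im ≠ 0) (A : (Ideal (𝓞 K))⁰) (hA : ClassGroup.mk0 A = 1) :
    ∃ l : 𝓞 K, ∃ t y : ℤ, (A : Ideal (𝓞 K)) = Ideal.span {l} ∧ Co K l t y ∧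
      (0 < y ∨ (y = 0 ∧ 0 < t)) := by
  rw [ClassGroup.mk0_eq_one_iff] at hA
  obtain ⟨l0, hl0⟩ := hA
  have hl : (A : Ideal (𝓞 K)) = Ideal.span {l0} := hl0
  obtain ⟨t, y, hty⟩ := co_exists K h2 him l0
  have hne : ¬ (t = 0 ∧ y = 0) := by
    rintro ⟨rfl, rfl⟩
    have h0 : l0 = 0 := by
      have h5 := co_inj K _ _ _ _ hty (LPc_int K 0)
      simpa using h5
    rw [h0] at hl
    have h6 : (A : Ideal (𝓞 K)) = 0 := by rw [hl]; simp
    exact nonZeroDivisors.coe_ne_zero A h6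
  have hneg : (A : Ideal (𝓞 K)) = Ideal.span {-l0} := by
    rw [Ideal.span_singleton_neg]; exact hl
  rcases lt_trichotomy y 0 with hy | hy | hy
  · exact ⟨-l0, -t, -y, hneg, co_neg K _ _ _ hty, Or.inl (by omega)⟩
  · rcases lt_trichotomy t 0 with ht | ht | ht
    · refine ⟨-l0, -t, -y, hneg, co_neg K _ _ _ hty, Or.inr ⟨by omega, by omega⟩⟩
    · exact absurd ⟨ht, hy⟩ hne
    · exact ⟨l0, t, y, hl, hty, Or.inr ⟨hy, ht⟩⟩
  · exact ⟨l0, t, y, hl, hty, Or.inl hy⟩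

private theorem LPc_cop (K : IntermediateField ℚ ℂ) [NumberField K] (n m : ℕ)
    (h : Nat.Coprime n m) :
    Ideal.span {(n : 𝓞 K)} ⊔ Ideal.span {(m : 𝓞 K)} = ⊤ := by
  have h1 : IsCoprime ((n : ℤ)) (m : ℤ) := Nat.isCoprime_iff_coprime.2 h
  have h2 : IsCoprime (n : 𝓞 K) (m : 𝓞 K) := by
    have := h1.map (Int.castRingHom (𝓞 K))
    simpa using this
  exact (Ideal.isCoprime_span_singleton_iff _ _).2 h2 |>.sup_eq

private theorem LPc_eq (K : IntermediateField ℚ ℂ) [NumberField K]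
    (I I0 I1 : Ideal (𝓞 K)) (n0 m : ℕ) (hn0 : 1 ≤ n0) (hm : 1 ≤ m)
    (h01 : I0 * I1 = Ideal.span {(n0 : 𝓞 K)}) (hI : I * I0 = Ideal.span {(m : 𝓞 K)})
    (p1 : ∀ l : ℕ, 2 ≤ l → ¬ (I ≤ Ideal.span {(l : 𝓞 K)}))
    (p2 : ∀ l : ℕ, 2 ≤ l → ¬ (I1 ≤ Ideal.span {(l : 𝓞 K)})) : n0 = m := by
  obtain ⟨g, n1, m1, hg, hc, hn, hm'⟩ := Nat.exists_coprime' (m := n0) (n := m)
    (Nat.gcd_pos_of_pos_left _ hn0)
  have h3 : I * Ideal.span {(n0 : 𝓞 K)} = Ideal.span {(m : 𝓞 K)} * I1 := by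
    rw [← h01, ← mul_assoc, hI]
  rw [hn, hm'] at h3
  push_cast at h3
  rw [← Ideal.span_singleton_mul_span_singleton, ← Ideal.span_singleton_mul_span_singleton,
    ← mul_assoc, mul_right_comm (Ideal.span {(m1 : 𝓞 K)})] at h3
  have hg0 : Ideal.span {(g : 𝓞 K)} ≠ 0 := by
    rw [Ne, Ideal.zero_eq_bot, Ideal.span_singleton_eq_bot]
    have : g ≠ 0 := by omega
    exact_mod_cast this
  have h4 : I * Ideal.span {(n1 : 𝓞 K)} = Ideal.span {(m1 : 𝓞 K)} * I1 :=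
    mul_right_cancel₀ hg0 h3
  have htop := LPc_cop K n1 m1 hc
  have h5 : I ≤ Ideal.span {(m1 : 𝓞 K)} := by
    calc I = I * (Ideal.span {(n1 : 𝓞 K)} ⊔ Ideal.span {(m1 : 𝓞 K)}) := by
          rw [htop, Ideal.mul_top]
      _ = I * Ideal.span {(n1 : 𝓞 K)} ⊔ I * Ideal.span {(m1 : 𝓞 K)} := Ideal.mul_sup _ _ _
      _ ≤ Ideal.span {(m1 : 𝓞 K)} := by
          refine sup_le ?_ Ideal.mul_le_right
          rw [h4]
          exact Ideal.mul_le_left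
  have h6 : I1 ≤ Ideal.span {(n1 : 𝓞 K)} := by
    calc I1 = (Ideal.span {(n1 : 𝓞 K)} ⊔ Ideal.span {(m1 : 𝓞 K)}) * I1 := by
          rw [htop, Ideal.top_mul]
      _ = Ideal.span {(n1 : 𝓞 K)} * I1 ⊔ Ideal.span {(m1 : 𝓞 K)} * I1 := Ideal.sup_mul _ _ _
      _ ≤ Ideal.span {(n1 : 𝓞 K)} := by
          refine sup_le Ideal.mul_le_left ?_
          rw [← h4]
          exact Ideal.mul_le_right
  have hm1 : m1 = 1 := by
    have h7 : m1 ≠ 0 := by rintro rfl; omega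
    by_contra h8
    exact p1 m1 (by omega) h5
  have hn1 : n1 = 1 := by
    have h7 : n1 ≠ 0 := by rintro rfl; omega
    by_contra h8
    exact p2 n1 (by omega) h6
  rw [hn, hm', hm1, hn1]

theorem prc (K : IntermediateField ℚ ℂ) [NumberField K] (h2 : Module.finrank ℚ K = 2)
    (him : ∃ x : K, (x : ℂ).im ≠ 0) (x : ClassGroup (𝓞 K)) (B : ℝ) (hB : 0 ≤ B)
    (T : Finset ((Ideal (𝓞 K))⁰))
    (hT : ∀ I ∈ T, ClassGroup.mk0 I = x ∧ (Ideal.absNorm (I : Ideal (𝓞 K)) : ℝ) ≤ B ∧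
      ∀ l : ℕ, 2 ≤ l → ¬ ((I : Ideal (𝓞 K)) ≤ Ideal.span {(l : 𝓞 K)})) :
    (T.card : ℝ) ≤ 5 + 12 * B / √(aD K : ℝ) := by
  classical
  obtain ⟨I0, hI0c, hn2, hmin⟩ := cmn K h2 x⁻¹
  obtain ⟨I1, hI1, -, -⟩ := cpl K h2 I0
  have hI00 : (I0 : Ideal (𝓞 K)) ≠ 0 := nonZeroDivisors.coe_ne_zero I0
  obtain ⟨n0, hn0⟩ : ∃ n0 : ℕ, n0 = Ideal.absNorm (I0 : Ideal (𝓞 K)) := ⟨_, rfl⟩
  have hn1 : 1 ≤ n0 := by
    have : Ideal.absNorm (I0 : Ideal (𝓞 K)) ≠ 0 := by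
      rw [Ne, Ideal.absNorm_eq_zero_iff]
      exact hI00
    omega
  have hkey : ∀ I : (Ideal (𝓞 K))⁰, ∃ l : 𝓞 K, ∃ t y : ℤ, I ∈ T →
      ((I : Ideal (𝓞 K)) * (I0 : Ideal (𝓞 K)) = Ideal.span {l} ∧ Co K l t y ∧
      (0 < y ∨ (y = 0 ∧ 0 < t))) := by
    intro I
    by_cases hI : I ∈ T
    · obtain ⟨l, t, y, h⟩ := LPc_key K h2 him (I * I0) (by
        rw [map_mul, (hT I hI).1, hI0c, mul_inv_cancel])
      exact ⟨l, t, y, fun _ => h⟩
    · exact ⟨0, 0, 0, fun h => absurd h hI⟩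
  choose l t y hl using hkey
  have hcard : (T.image fun I => (t I, y I)).card = T.card := by
    refine Finset.card_image_of_injOn fun I hI J hJ hIJ => ?_
    simp only [Prod.mk.injEq] at hIJ
    obtain ⟨a1, a2, -⟩ := hl I hI
    obtain ⟨b1, b2, -⟩ := hl J hJ
    rw [hIJ.1, hIJ.2] at a2
    rw [co_inj K _ _ _ _ a2 b2, ← b1] at a1
    exact Subtype.ext (mul_right_cancel₀ hI00 a1)
  rw [← hcard]
  have hmem : ∀ I ∈ T, l I ∈ (I0 : Ideal (𝓞 K)) := by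
    intro I hI
    have h5 : l I ∈ (I : Ideal (𝓞 K)) * (I0 : Ideal (𝓞 K)) := by
      rw [(hl I hI).1]
      exact Ideal.mem_span_singleton_self _
    exact Ideal.mul_le_right h5
  have hzero : ∀ I ∈ T, y I = 0 → t I = 2 * n0 := by
    intro I hI hy
    obtain ⟨a1, a2, a3⟩ := hl I hI
    rw [hy] at a2
    obtain ⟨s, hs1, hs2⟩ := LPc_zero K h2 him _ _ a2
    have hs : 0 < s := by omega
    obtain ⟨m, rfl⟩ := Int.eq_ofNat_of_zero_le hs.le
    have h6 := LPc_eq K (I : Ideal (𝓞 K)) I0 I1 n0 m hn1 (by omega) (by rw [hn0]; exact hI1)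
      (by rw [a1, hs2]; simp) (hT I hI).2.2 (prm2 K h2 I0 I1 hmin hI1)
    rw [hs1, h6]
  refine lpl (aD K) n0 B hn1 (by rw [hn0]; exact hn2) hB _ ?_ ?_ ?_ ?_
  · intro q hq
    obtain ⟨I, hI, rfl⟩ := Finset.mem_image.1 hq
    obtain ⟨-, -, a3⟩ := hl I hI
    show 0 ≤ y I
    omega
  · intro q hq
    obtain ⟨I, hI, rfl⟩ := Finset.mem_image.1 hq
    obtain ⟨a1, a2, -⟩ := hl I hI
    have h5 := co_norm K h2 him _ _ _ a2
    rw [← a1, map_mul, ← hn0] at h5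
    have h6 : ((t I : ℤ) : ℝ) ^ 2 + (aD K : ℝ) * ((y I : ℤ) : ℝ) ^ 2 =
        4 * ((Ideal.absNorm (I : Ideal (𝓞 K)) : ℝ) * n0) := by
      exact_mod_cast h5.symm
    show ((t I : ℤ) : ℝ) ^ 2 + (aD K : ℝ) * ((y I : ℤ) : ℝ) ^ 2 ≤ 4 * B * n0
    rw [h6]
    have h7 := (hT I hI).2.1
    have h8 : (0 : ℝ) ≤ n0 := Nat.cast_nonneg _
    nlinarith
  · intro q hq q' hq' hyy
    obtain ⟨I, hI, rfl⟩ := Finset.mem_image.1 hq
    obtain ⟨J, hJ, rfl⟩ := Finset.mem_image.1 hq'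
    have hyy' : y I = y J := hyy
    show (2 * (n0 : ℤ)) ∣ t I - t J
    have h5 := LPc_sub K _ _ _ _ _ _ (hl I hI).2.1 (hl J hJ).2.1
    rw [hyy', sub_self] at h5
    obtain ⟨s, hs1, hs2⟩ := LPc_zero K h2 him _ _ h5
    have h6 : (s : 𝓞 K) ∈ (I0 : Ideal (𝓞 K)) := by
      rw [← hs2]
      exact Ideal.sub_mem _ (hmem I hI) (hmem J hJ)
    have h7 := pib K h2 him I0 (prm1 K h2 I0 hmin) s h6
    rw [hs1, hn0]
    exact mul_dvd_mul_left 2 h7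
  · intro q hq q' hq' h0 h0'
    obtain ⟨I, hI, rfl⟩ := Finset.mem_image.1 hq
    obtain ⟨J, hJ, rfl⟩ := Finset.mem_image.1 hq'
    have e1 : y I = 0 := h0
    have e2 : y J = 0 := h0'
    show (t I, y I) = (t J, y J)
    rw [e1, e2, hzero I hI e1, hzero J hJ e2]

end Pool.Agent.FTL
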