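import Pool.Agent.FTL.DefsL

/-!
# FTL/LAl: the integers `b, t, D` of a point

PROOF of `lal`.  `h1, h2, h3` are the three equations.
(b) `c ^ 2 (k u + N e) = v (u v N - e w)`: from `u (u e) = e (u ^ 2)`, i.e.
`u (v ^ 2 N - c ^ 2 k) = e (v w + c ^ 2 N)`.  `c ^ 2` is prime to `v`, so `v ∣ k u + N e`; let
`v b = k u + N e`.
(κ) `v ^ 2 (N e - k u) = c (c k e - u z)`: from `e (u e) = u e ^ 2`.  So `c ∣ k u - N e`; let
`c κ = k u - N e`.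
`v ^ 2 b ^ 2 - c ^ 2 κ ^ 2 = 4 k N u e = 4 k N (v ^ 2 N - c ^ 2 k)`, so
`v ^ 2 (4 N ^ 2 k - b ^ 2) = c ^ 2 (4 k ^ 2 N - κ ^ 2)` and `c ^ 2 ∣ 4 N ^ 2 k - b ^ 2`; let
`D c ^ 2 = 4 N ^ 2 k - b ^ 2`; then also `D v ^ 2 = 4 k ^ 2 N - κ ^ 2` (cancel `c ^ 2`).
`u b = k w + N ^ 2 v`: `v (u b) = k u ^ 2 + N u e = k (v w + c ^ 2 N) + N (v ^ 2 N - c ^ 2 k)`;
cancel `v`.
(t) `c ^ 2 (4 N ^ 5 - D w ^ 2) = (b w - 2 N ^ 2 u) ^ 2`:
`4 N ^ 5 c ^ 2 - w ^ 2 (4 N ^ 2 k - b ^ 2) = b ^ 2 w ^ 2 + 4 N ^ 2 (N ^ 3 c ^ 2 - k w ^ 2)` and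
`(b w - 2 N ^ 2 u) ^ 2 = b ^ 2 w ^ 2 + 4 N ^ 2 (N ^ 2 u ^ 2 - u b w)`, and
`u b w - k w ^ 2 = N ^ 2 v w = N ^ 2 (u ^ 2 - c ^ 2 N)`.  So `c ^ 2 ∣ (b w - 2 N ^ 2 u) ^ 2`, hence
`c ∣ b w - 2 N ^ 2 u` (`Int.pow_dvd_pow_iff`); let `c t = b w - 2 N ^ 2 u` and cancel `c ^ 2`.
(mod 4) `D c ^ 2 ≡ - b ^ 2` and `D v ^ 2 ≡ - κ ^ 2` modulo 4, and `c` or `v` is odd (coprime); an odd
square is `1` and every square is `0` or `1` modulo 4.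
-/

set_option autoImplicit false

namespace Pool.Agent.FTL

open Pool.Agent.FTB

theorem lal (N k c v u e w z : ℤ) (hc : 0 < c) (hv : 0 < v) (hcv : IsCoprime c v)
    (h1 : u * e = v ^ 2 * N - c ^ 2 * k) (h2 : v * w = u ^ 2 - c ^ 2 * N)
    (h3 : c * z = v ^ 2 * k - e ^ 2) :
    ∃ b t D : ℤ, v * b = k * u + N * e ∧ c * t = b * w - 2 * N ^ 2 * u ∧
      D * c ^ 2 = 4 * N ^ 2 * k - b ^ 2 ∧ t ^ 2 + D * w ^ 2 = 4 * N ^ 5 ∧
      (D % 4 = 0 ∨ D % 4 = 3) := by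
  have hc0 : c ≠ 0 := hc.ne'
  have hv0 : v ≠ 0 := hv.ne'
  have e1 : c ^ 2 * (k * u + N * e) = v * (u * v * N - e * w) := by
    linear_combination u * h1 + e * h2
  have e2 : v ^ 2 * (k * u - N * e) = c * (u * z - c * k * e) := by
    linear_combination e * h1 - u * h3
  have d1 : v ∣ k * u + N * e :=
    (hcv.symm.pow_right (n := 2)).dvd_of_dvd_mul_left ⟨_, e1⟩
  have d2 : c ∣ k * u - N * e :=
    (hcv.pow_right (n := 2)).dvd_of_dvd_mul_left ⟨_, e2⟩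
  obtain ⟨b, hb⟩ := d1
  obtain ⟨κ, hκ⟩ := d2
  have e3 : v ^ 2 * (4 * N ^ 2 * k - b ^ 2) = c ^ 2 * (4 * k ^ 2 * N - κ ^ 2) := by
    linear_combination (-4 * N * k) * h1 + (v * b + (k * u + N * e)) * hb -
      (c * κ + (k * u - N * e)) * hκ
  have d3 : c ^ 2 ∣ 4 * N ^ 2 * k - b ^ 2 :=
    ((hcv.pow_left (m := 2)).pow_right (n := 2)).dvd_of_dvd_mul_left ⟨_, e3⟩
  obtain ⟨D, hD⟩ := d3
  have e4 : D * v ^ 2 = 4 * k ^ 2 * N - κ ^ 2 := by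
    have : c ^ 2 * (D * v ^ 2) = c ^ 2 * (4 * k ^ 2 * N - κ ^ 2) := by
      rw [← e3, hD]; ring
    exact mul_left_cancel₀ (pow_ne_zero 2 hc0) this
  have e5 : u * b = k * w + N ^ 2 * v := by
    have : v * (u * b) = v * (k * w + N ^ 2 * v) := by
      linear_combination (-u) * hb + N * h1 - k * h2
    exact mul_left_cancel₀ hv0 this
  have e6 : (b * w - 2 * N ^ 2 * u) ^ 2 = c ^ 2 * (4 * N ^ 5 - D * w ^ 2) := by
    linear_combination (-4 * N ^ 2 * w) * e5 - 4 * N ^ 4 * h2 - w ^ 2 * hD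
  have d4 : c ∣ b * w - 2 * N ^ 2 * u := by
    rw [← Int.pow_dvd_pow_iff (two_ne_zero)]
    exact ⟨_, e6⟩
  obtain ⟨t, ht⟩ := d4
  have e7 : t ^ 2 = 4 * N ^ 5 - D * w ^ 2 := by
    have : c ^ 2 * t ^ 2 = c ^ 2 * (4 * N ^ 5 - D * w ^ 2) := by
      rw [← e6, ht]; ring
    exact mul_left_cancel₀ (pow_ne_zero 2 hc0) this
  refine ⟨b, t, D, hb.symm, ht.symm, ?_, ?_, ?_⟩
  · linear_combination -hD
  · linear_combination e7
  · have m1 : (D * c ^ 2 + b ^ 2) % 4 = 0 := by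
      have : D * c ^ 2 + b ^ 2 = 4 * (N ^ 2 * k) := by linear_combination -hD
      omega
    have m2 : (D * v ^ 2 + κ ^ 2) % 4 = 0 := by
      have : D * v ^ 2 + κ ^ 2 = 4 * (k ^ 2 * N) := by linear_combination e4
      omega
    have key : ∀ x y : ℤ, x % 2 = 1 → (D * x ^ 2 + y ^ 2) % 4 = 0 → (D % 4 = 0 ∨ D % 4 = 3) := by
      intro x y hx hxy
      obtain ⟨x', rfl⟩ : ∃ x', x = 2 * x' + 1 := ⟨x / 2, by omega⟩
      have hx2 : D * (2 * x' + 1) ^ 2 = 4 * (D * (x' ^ 2 + x')) + D := by ring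
      rcases Int.even_or_odd' y with ⟨y', hy | hy⟩
      · have hy2 : y ^ 2 = 4 * y' ^ 2 := by rw [hy]; ring
        rw [hx2, hy2] at hxy
        omega
      · have hy2 : y ^ 2 = 4 * (y' ^ 2 + y') + 1 := by rw [hy]; ring
        rw [hx2, hy2] at hxy
        omega
    have hodd : c % 2 = 1 ∨ v % 2 = 1 := by
      by_contra hcon
      push Not at hcon
      have h2c : (2 : ℤ) ∣ c := by omega
      have h2v : (2 : ℤ) ∣ v := by omega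
      have := hcv.isUnit_of_dvd' h2c h2v
      rw [Int.isUnit_iff] at this
      omega
    rcases hodd with h | h
    · exact key c b h m1
    · exact key v κ h m2

end Pool.Agent.FTL
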