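import Pool.Agent.FTL.DefsL

/-!
# FTL/LBx: sizes for a point of the box

PROOF.  Everything over `ℝ` (`x = V`, all variables cast), using `V ≤ c, v ≤ 1.001 V`,
`V a ≤ u, e ≤ 1.001 V a`, `V a ^ 2 ≤ z ≤ 1.001 V a ^ 2`.
`v ^ 2 k = e ^ 2 + c z` lies in `[2 V ^ 2 a ^ 2, 1.001 ^ 2 * 2 V ^ 2 a ^ 2]`, so
`1.996 a ^ 2 ≤ k ≤ 2.0041 a ^ 2`.  `v ^ 2 N = u e + c ^ 2 k` lies in
`[(1 + 1.996) V ^ 2 a ^ 2, 1.001 ^ 2 (1 + 2.0041) V ^ 2 a ^ 2]`, so `2.99 a ^ 2 ≤ N ≤ 3.0102 a ^ 2`.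
`v b = k u + N e` lies in `[4.986 V a ^ 3, 1.001 * 5.0143 V a ^ 3]`, so
`4.981 a ^ 3 ≤ b ≤ 5.0194 a ^ 3`.  `v w = u ^ 2 - c ^ 2 N` lies in
`[(1 - 1.001 ^ 2 * 3.0102) V ^ 2 a ^ 2, (1.001 ^ 2 - 2.99) V ^ 2 a ^ 2]`, so
`-2.02 V a ^ 2 ≤ w ≤ -1.98 V a ^ 2`.  `D c ^ 2 = 4 N ^ 2 k - b ^ 2` lies in `[46.1 a ^ 6, 47.9 a ^ 6]`, so
`46 a ^ 6 ≤ D V ^ 2 ≤ 47.9 a ^ 6` and, with `49 a ^ 6 ≤ X V ^ 2 ≤ 50 a ^ 6`, `D ≤ X ≤ 2 D`.
-/

set_option autoImplicit false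

namespace Pool.Agent.FTL

open Pool.Agent.FTB

private theorem LBx_k (c v u e z k n : ℝ) (c1 : 1 ≤ c) (c2 : c ≤ 1001 / 1000) (v1 : 1 ≤ v)
    (v2 : v ≤ 1001 / 1000) (u1 : 1 ≤ u) (u2 : u ≤ 1001 / 1000) (e1 : 1 ≤ e) (e2 : e ≤ 1001 / 1000)
    (z1 : 1 ≤ z) (z2 : z ≤ 1001 / 1000) (t1 : u * e = v ^ 2 * n - c ^ 2 * k)
    (t3 : c * z = v ^ 2 * k - e ^ 2) :
    1996 / 1000 ≤ k ∧ k ≤ 20041 / 10000 ∧ 299 / 100 ≤ n ∧ n ≤ 30102 / 10000 := by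
  have hcz1 : 1 ≤ c * z := by nlinarith
  have hcz2 : c * z ≤ (1001 / 1000) ^ 2 := by nlinarith
  have he1 : 1 ≤ e ^ 2 := by nlinarith
  have he2 : e ^ 2 ≤ (1001 / 1000) ^ 2 := by nlinarith
  have hv1 : 1 ≤ v ^ 2 := by nlinarith
  have hv2 : v ^ 2 ≤ (1001 / 1000) ^ 2 := by nlinarith
  have hc1 : 1 ≤ c ^ 2 := by nlinarith
  have hc2 : c ^ 2 ≤ (1001 / 1000) ^ 2 := by nlinarith
  have hue1 : 1 ≤ u * e := by nlinarith
  have hue2 : u * e ≤ (1001 / 1000) ^ 2 := by nlinarith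
  have hk0 : 0 < k := by
    by_contra hk
    have : v ^ 2 * k ≤ 0 := mul_nonpos_of_nonneg_of_nonpos (by positivity) (not_lt.1 hk)
    linarith
  have hk1 : 1996 / 1000 ≤ k := by
    have : v ^ 2 * k ≤ (1001 / 1000) ^ 2 * k := mul_le_mul_of_nonneg_right hv2 hk0.le
    linarith
  have hk2 : k ≤ 20041 / 10000 := by
    have : 1 * k ≤ v ^ 2 * k := mul_le_mul_of_nonneg_right hv1 hk0.le
    linarith
  have hck1 : 1 * k ≤ c ^ 2 * k := mul_le_mul_of_nonneg_right hc1 hk0.le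
  have hck2 : c ^ 2 * k ≤ (1001 / 1000) ^ 2 * k := mul_le_mul_of_nonneg_right hc2 hk0.le
  have hn0 : 0 < n := by
    by_contra hk
    have : v ^ 2 * n ≤ 0 := mul_nonpos_of_nonneg_of_nonpos (by positivity) (not_lt.1 hk)
    linarith
  have hn1 : v ^ 2 * n ≤ (1001 / 1000) ^ 2 * n := mul_le_mul_of_nonneg_right hv2 hn0.le
  have hn2 : 1 * n ≤ v ^ 2 * n := mul_le_mul_of_nonneg_right hv1 hn0.le
  refine ⟨hk1, hk2, ?_, ?_⟩
  · linarith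
  · linarith

private theorem LBx_b (c v u e z k n b w D : ℝ) (c1 : 1 ≤ c) (c2 : c ≤ 1001 / 1000) (v1 : 1 ≤ v)
    (v2 : v ≤ 1001 / 1000) (u1 : 1 ≤ u) (u2 : u ≤ 1001 / 1000) (e1 : 1 ≤ e) (e2 : e ≤ 1001 / 1000)
    (z1 : 1 ≤ z) (z2 : z ≤ 1001 / 1000) (t1 : u * e = v ^ 2 * n - c ^ 2 * k)
    (t2 : v * w = u ^ 2 - c ^ 2 * n) (t3 : c * z = v ^ 2 * k - e ^ 2)
    (hb : v * b = k * u + n * e) (hD : D * c ^ 2 = 4 * n ^ 2 * k - b ^ 2) :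
    299 / 100 ≤ n ∧ n ≤ 30102 / 10000 ∧ -(202 / 100) ≤ w ∧ w ≤ -(198 / 100) ∧ 46 ≤ D ∧
      D ≤ 479 / 10 := by
  obtain ⟨hk1, hk2, hn1, hn2⟩ := LBx_k c v u e z k n c1 c2 v1 v2 u1 u2 e1 e2 z1 z2 t1 t3
  refine ⟨hn1, hn2, ?_⟩
  have hc1 : 1 ≤ c ^ 2 := by nlinarith
  have hc2 : c ^ 2 ≤ (1001 / 1000) ^ 2 := by nlinarith
  have hu1 : 1 ≤ u ^ 2 := by nlinarith
  have hu2 : u ^ 2 ≤ (1001 / 1000) ^ 2 := by nlinarith
  have hcn1 : 299 / 100 ≤ c ^ 2 * n := by nlinarith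
  have hcn2 : c ^ 2 * n ≤ (1001 / 1000) ^ 2 * (30102 / 10000) :=
    mul_le_mul hc2 hn2 (by linarith) (by norm_num)
  have hw0 : w < 0 := by
    by_contra hw
    have : 0 ≤ v * w := mul_nonneg (by linarith) (not_lt.1 hw)
    linarith
  have hw1 : -(202 / 100) ≤ w := by
    have h1 : (v - 1) * w ≤ 0 := mul_nonpos_of_nonneg_of_nonpos (by linarith) hw0.le
    linarith
  have hw2 : w ≤ -(198 / 100) := by
    have h1 : 0 ≤ (v - 1001 / 1000) * w :=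
      mul_nonneg_of_nonpos_of_nonpos (by linarith) hw0.le
    linarith
  have hku1 : 1996 / 1000 ≤ k * u := by nlinarith
  have hku2 : k * u ≤ 20041 / 10000 * (1001 / 1000) :=
    mul_le_mul hk2 u2 (by linarith) (by norm_num)
  have hne1 : 299 / 100 ≤ n * e := by nlinarith
  have hne2 : n * e ≤ 30102 / 10000 * (1001 / 1000) :=
    mul_le_mul hn2 e2 (by linarith) (by norm_num)
  have hb0 : 0 < b := by
    by_contra hw
    have : v * b ≤ 0 := mul_nonpos_of_nonneg_of_nonpos (by linarith) (not_lt.1 hw)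
    linarith
  have hb1 : 498 / 100 ≤ b := by
    have h1 : (v - 1001 / 1000) * b ≤ 0 :=
      mul_nonpos_of_nonpos_of_nonneg (by linarith) hb0.le
    linarith
  have hb2 : b ≤ 5020 / 1000 := by
    have h1 : 0 ≤ (v - 1) * b := mul_nonneg (by linarith) hb0.le
    linarith
  have hbb1 : (498 / 100) ^ 2 ≤ b ^ 2 := pow_le_pow_left₀ (by norm_num) hb1 2
  have hbb2 : b ^ 2 ≤ (5020 / 1000) ^ 2 := pow_le_pow_left₀ hb0.le hb2 2
  have hnn1 : (299 / 100) ^ 2 ≤ n ^ 2 := pow_le_pow_left₀ (by norm_num) hn1 2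
  have hnn2 : n ^ 2 ≤ (30102 / 10000) ^ 2 := pow_le_pow_left₀ (by linarith) hn2 2
  have hnk1 : (299 / 100) ^ 2 * (1996 / 1000) ≤ n ^ 2 * k :=
    mul_le_mul hnn1 hk1 (by norm_num) (by positivity)
  have hnk2 : n ^ 2 * k ≤ (30102 / 10000) ^ 2 * (20041 / 10000) :=
    mul_le_mul hnn2 hk2 (by linarith) (by norm_num)
  have hD0 : 0 < D := by
    by_contra hw
    have : D * c ^ 2 ≤ 0 := mul_nonpos_of_nonpos_of_nonneg (not_lt.1 hw) (by linarith)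
    linarith
  refine ⟨hw1, hw2, ?_, ?_⟩
  · have h1 : D * (c ^ 2 - (1001 / 1000) ^ 2) ≤ 0 :=
      mul_nonpos_of_nonneg_of_nonpos hD0.le (by linarith)
    linarith
  · have h1 : 0 ≤ D * (c ^ 2 - 1) := mul_nonneg hD0.le (by linarith)
    linarith

theorem lbx (X V a : ℕ) (R : ℝ) (hP : PL X V a R) (N k c v : ℕ) (u e w z b D : ℤ)
    (h : GP V a N k c v u e w z) (hb : (v : ℤ) * b = k * u + N * e)
    (hD : D * (c : ℤ) ^ 2 = 4 * (N : ℤ) ^ 2 * k - b ^ 2) :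
    2 ≤ N ∧ N ≤ 4 * a ^ 2 ∧ w < 0 ∧ 19 * (V * a ^ 2) ≤ 10 * w.natAbs ∧
      w.natAbs ≤ 3 * (V * a ^ 2) ∧ 0 < D ∧ (X : ℤ) ≤ 2 * D ∧ D ≤ X := by
  have hVr : (1 : ℝ) ≤ (V : ℝ) := by exact_mod_cast hP.hV
  have har : (1 : ℝ) ≤ (a : ℝ) := by exact_mod_cast hP.ha
  have hV0 : (0 : ℝ) < (V : ℝ) := by linarith
  have ha0 : (0 : ℝ) < (a : ℝ) := by linarith
  have c1 : (V : ℝ) ≤ c := by exact_mod_cast h.c1
  have c2 : 1000 * (c : ℝ) ≤ 1001 * V := by exact_mod_cast h.c2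
  have v1 : (V : ℝ) ≤ v := by exact_mod_cast h.v1
  have v2 : 1000 * (v : ℝ) ≤ 1001 * V := by exact_mod_cast h.v2
  have u1 : (V : ℝ) * a ≤ u := by exact_mod_cast h.u1
  have u2 : 1000 * (u : ℝ) ≤ 1001 * (V * a) := by exact_mod_cast h.u2
  have e1 : (V : ℝ) * a ≤ e := by exact_mod_cast h.e1
  have e2 : 1000 * (e : ℝ) ≤ 1001 * (V * a) := by exact_mod_cast h.e2
  have z1 : (V : ℝ) * a ^ 2 ≤ z := by exact_mod_cast h.z1
  have z2 : 1000 * (z : ℝ) ≤ 1001 * (V * a ^ 2) := by exact_mod_cast h.z2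
  have t1 : (u : ℝ) * e = v ^ 2 * N - c ^ 2 * k := by exact_mod_cast h.t1
  have t2 : (v : ℝ) * w = u ^ 2 - c ^ 2 * N := by exact_mod_cast h.t2
  have t3 : (c : ℝ) * z = v ^ 2 * k - e ^ 2 := by exact_mod_cast h.t3
  have hbr : (v : ℝ) * b = k * u + N * e := by exact_mod_cast hb
  have hDr : (D : ℝ) * c ^ 2 = 4 * N ^ 2 * k - b ^ 2 := by exact_mod_cast hD
  have hVa : (0 : ℝ) < V * a := by positivity
  have hVa2 : (0 : ℝ) < V * a ^ 2 := by positivity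
  obtain ⟨h1, h2, h3, h4, h5, h6⟩ := LBx_b (c / V) (v / V) (u / (V * a)) (e / (V * a))
    (z / (V * a ^ 2)) (k / a ^ 2) (N / a ^ 2) (b / a ^ 3) (w / (V * a ^ 2)) (D * V ^ 2 / a ^ 6)
    ((one_le_div hV0).2 c1) ((div_le_iff₀ hV0).2 (by linarith))
    ((one_le_div hV0).2 v1) ((div_le_iff₀ hV0).2 (by linarith))
    ((one_le_div hVa).2 u1) ((div_le_iff₀ hVa).2 (by linarith))
    ((one_le_div hVa).2 e1) ((div_le_iff₀ hVa).2 (by linarith))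
    ((one_le_div hVa2).2 z1) ((div_le_iff₀ hVa2).2 (by linarith))
    (by field_simp; linarith) (by field_simp; linarith) (by field_simp; linarith)
    (by field_simp; linarith) (by field_simp; linarith)
  have hN1 : 299 / 100 * (a : ℝ) ^ 2 ≤ N := (le_div_iff₀ (by positivity)).1 h1
  have hN2 : (N : ℝ) ≤ 30102 / 10000 * (a : ℝ) ^ 2 := (div_le_iff₀ (by positivity)).1 h2
  have hw1 : -(202 / 100) * ((V : ℝ) * a ^ 2) ≤ w := (le_div_iff₀ (by positivity)).1 h3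
  have hw2 : (w : ℝ) ≤ -(198 / 100) * ((V : ℝ) * a ^ 2) := (div_le_iff₀ (by positivity)).1 h4
  have hD1 : 46 * (a : ℝ) ^ 6 ≤ D * V ^ 2 := (le_div_iff₀ (by positivity)).1 h5
  have hD2 : (D : ℝ) * V ^ 2 ≤ 479 / 10 * (a : ℝ) ^ 6 := (div_le_iff₀ (by positivity)).1 h6
  have hX1 : 49 * (a : ℝ) ^ 6 ≤ X * V ^ 2 := by exact_mod_cast hP.hX1
  have hX2 : (X : ℝ) * V ^ 2 ≤ 50 * (a : ℝ) ^ 6 := by exact_mod_cast hP.hX2
  have ha2 : (1 : ℝ) ≤ (a : ℝ) ^ 2 := one_le_pow₀ har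
  have ha6 : (1 : ℝ) ≤ (a : ℝ) ^ 6 := one_le_pow₀ har
  have hw0 : w < 0 := by
    have : (w : ℝ) < 0 := by linarith
    exact_mod_cast this
  have hwa : ((w.natAbs : ℕ) : ℝ) = -(w : ℝ) := by
    have h7 : ((w.natAbs : ℕ) : ℤ) = -w := Int.ofNat_natAbs_of_nonpos hw0.le
    have h8 : (((w.natAbs : ℕ) : ℤ) : ℝ) = ((-w : ℤ) : ℝ) := congrArg _ h7
    rw [Int.cast_natCast, Int.cast_neg] at h8
    exact h8
  refine ⟨?_, ?_, hw0, ?_, ?_, ?_, ?_, ?_⟩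
  · have : (2 : ℝ) ≤ N := by linarith
    exact_mod_cast this
  · have : (N : ℝ) ≤ 4 * (a : ℝ) ^ 2 := by linarith
    exact_mod_cast this
  · have : 19 * ((V : ℝ) * a ^ 2) ≤ 10 * (w.natAbs : ℕ) := by
      rw [hwa]
      linarith
    exact_mod_cast this
  · have : ((w.natAbs : ℕ) : ℝ) ≤ 3 * ((V : ℝ) * a ^ 2) := by
      rw [hwa]
      linarith
    exact_mod_cast this
  · have : (0 : ℝ) < D := by
      by_contra hD0
      have : (D : ℝ) * V ^ 2 ≤ 0 := mul_nonpos_of_nonpos_of_nonneg (not_lt.1 hD0) (by positivity)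
      linarith
    exact_mod_cast this
  · have : (X : ℝ) ≤ 2 * D := by
      by_contra hX
      have : 2 * (D : ℝ) * V ^ 2 < X * V ^ 2 :=
        mul_lt_mul_of_pos_right (not_le.1 hX) (by positivity)
      linarith
    exact_mod_cast this
  · have : (D : ℝ) ≤ X := by
      by_contra hX
      have : (X : ℝ) * V ^ 2 < D * V ^ 2 :=
        mul_lt_mul_of_pos_right (not_le.1 hX) (by positivity)
      linarith
    exact_mod_cast this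

end Pool.Agent.FTL
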