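import Pool.Agent.FTB.ImZ
import Pool.Agent.FTL.DefsL

/-!
# FTL/LHd: the ideal `(β, m)` is determined by the ratio of the coordinates modulo `m`

PROOF of `hdq`.  By symmetry it is enough to show `β ∈ span {β'} ⊔ span {m}` (then
`span {β} ⊔ span {m} ≤ span {β'} ⊔ span {m}`).  `y' β - y β'` has coordinates `(t y' - t' y, 0)`
(`iz`-like computations: use `Co` directly: `2 (y' β - y β') = t y' - t' y` in `ℂ`).  By `co_norm` its
first coordinate is even (`(t y' - t' y) ^ 2 = 4 norm`), so `y' β - y β' = s` is the integer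
`s = (t y' - t' y) / 2`, divisible by `m` since `m` is odd.  So `y' β ∈ span {β'} ⊔ span {m}`, and `y'` is
invertible modulo `m`: `a y' + b m = 1` gives `β = a (y' β) + b m β`.
-/

set_option autoImplicit false

namespace Pool.Agent.FTL

open NumberField Pool.Agent.FTA Pool.Agent.FTB nonZeroDivisors

private theorem LHd_sub (K : IntermediateField ℚ ℂ) [NumberField K] (a b : 𝓞 K) (t y t' y' : ℤ)
    (h : Co K a t y) (h' : Co K b t' y') : Co K (a - b) (t - t') (y - y') := by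
  unfold Co at *
  push_cast
  rw [mul_sub, h, h']
  ring

private theorem LHd_mul (K : IntermediateField ℚ ℂ) [NumberField K] (a : 𝓞 K) (t y n : ℤ)
    (h : Co K a t y) : Co K ((n : 𝓞 K) * a) (n * t) (n * y) := by
  have hc : ((((n : ℤ) : 𝓞 K) : K) : ℂ) = (n : ℂ) := by simp
  unfold Co at *
  push_cast
  rw [hc, mul_left_comm, h]
  ring

private theorem LHd_int (K : IntermediateField ℚ ℂ) [NumberField K] (z : ℤ) :
    Co K (z : 𝓞 K) (2 * z) 0 := by
  have hc : ((((z : ℤ) : 𝓞 K) : K) : ℂ) = (z : ℂ) := by simp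
  unfold Co
  rw [hc]
  push_cast
  ring

private theorem LHd_mem (K : IntermediateField ℚ ℂ) [NumberField K] (h2 : Module.finrank ℚ K = 2)
    (him : ∃ x : K, (x : ℂ).im ≠ 0) (m : ℕ) (hm : Odd m) (β β' : 𝓞 K) (t y t' y' : ℤ)
    (h : Co K β t y) (h' : Co K β' t' y') (hy' : IsCoprime y' (m : ℤ))
    (hd : (m : ℤ) ∣ t * y' - t' * y) :
    β ∈ Ideal.span {β'} ⊔ Ideal.span {(m : 𝓞 K)} := by
  have hc : Co K ((y' : 𝓞 K) * β - (y : 𝓞 K) * β') (t * y' - t' * y) 0 := by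
    have := LHd_sub K _ _ _ _ _ _ (LHd_mul K β t y y' h) (LHd_mul K β' t' y' y h')
    have e1 : y' * t - y * t' = t * y' - t' * y := by ring
    have e2 : y' * y - y * y' = 0 := by ring
    rwa [e1, e2] at this
  have hn := co_norm K h2 him _ _ _ hc
  have heven : (2 : ℤ) ∣ t * y' - t' * y := by
    have h4 : (2 : ℤ) ∣ (t * y' - t' * y) ^ 2 := by
      have e : (t * y' - t' * y) ^ 2 + (aD K : ℤ) * 0 ^ 2 = (t * y' - t' * y) ^ 2 := by ring
      rw [e] at hn
      rw [← hn]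
      exact ⟨2 * (Ideal.absNorm (Ideal.span {(y' : 𝓞 K) * β - (y : 𝓞 K) * β'}) : ℤ), by ring⟩
    exact Int.prime_two.dvd_of_dvd_pow h4
  have hcop : IsCoprime (2 : ℤ) (m : ℤ) := by
    obtain ⟨k, hk⟩ := hm
    exact ⟨-k, 1, by rw [hk]; push_cast; ring⟩
  obtain ⟨s, hs⟩ := hcop.mul_dvd heven hd
  have heq : (y' : 𝓞 K) * β - (y : 𝓞 K) * β' = (((m : ℤ) * s : ℤ) : 𝓞 K) := by
    apply co_inj K _ _ (t * y' - t' * y) 0 hc
    have := LHd_int K ((m : ℤ) * s)
    have e : 2 * ((m : ℤ) * s) = t * y' - t' * y := by rw [hs]; ring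
    rwa [e] at this
  obtain ⟨u, v, huv⟩ := hy'
  have huv' : (u : 𝓞 K) * (y' : 𝓞 K) + (v : 𝓞 K) * (m : 𝓞 K) = 1 := by
    have := congrArg (fun z : ℤ => (z : 𝓞 K)) huv
    push_cast at this
    exact this
  have hb : β = ((u : 𝓞 K) * (y : 𝓞 K)) * β' + ((u : 𝓞 K) * (s : 𝓞 K) + (v : 𝓞 K) * β) * (m : 𝓞 K) := by
    have h5 : (y' : 𝓞 K) * β = (y : 𝓞 K) * β' + (m : 𝓞 K) * (s : 𝓞 K) := by
      push_cast at heq
      linear_combination heq
    linear_combination (-β) * huv' + (u : 𝓞 K) * h5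
  rw [hb]
  exact Submodule.add_mem _
    (Submodule.mem_sup_left (Ideal.mul_mem_left _ _ (Ideal.mem_span_singleton_self _)))
    (Submodule.mem_sup_right (Ideal.mul_mem_left _ _ (Ideal.mem_span_singleton_self _)))

theorem hdq (K : IntermediateField ℚ ℂ) [NumberField K] (h2 : Module.finrank ℚ K = 2)
    (him : ∃ x : K, (x : ℂ).im ≠ 0) (m : ℕ) (hm : Odd m) (β β' : 𝓞 K) (t y t' y' : ℤ)
    (h : Co K β t y) (h' : Co K β' t' y') (hy : IsCoprime y (m : ℤ)) (hy' : IsCoprime y' (m : ℤ))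
    (hd : (m : ℤ) ∣ t * y' - t' * y) :
    Ideal.span {β} ⊔ Ideal.span {(m : 𝓞 K)} = Ideal.span {β'} ⊔ Ideal.span {(m : 𝓞 K)} := by
  apply le_antisymm
  · refine sup_le ?_ le_sup_right
    rw [Ideal.span_singleton_le_iff_mem]
    exact LHd_mem K h2 him m hm β β' t y t' y' h h' hy' hd
  · refine sup_le ?_ le_sup_right
    rw [Ideal.span_singleton_le_iff_mem]
    refine LHd_mem K h2 him m hm β' β t' y' t y h' h hy ?_
    obtain ⟨k, hk⟩ := hd
    exact ⟨-k, by rw [mul_neg, ← hk]; ring⟩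

end Pool.Agent.FTL
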