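import Pool.Agent.FTB.Cor
import Pool.Agent.FTL.DefsL

/-!
# FTL/LUn: few generators of a principal ideal

PROOF of `unt`.  For `γ ∈ T` there is a unit `ε` with `γ = β ε` (`Ideal.span_singleton_eq_span_singleton`,
`Associated`).  Let `(t, y)` be the coordinates of `ε` (`co_exists`); `absNorm (span {ε}) = 1`, so
`t ^ 2 + aD K y ^ 2 = 4` (`co_norm`), and `aD K ≥ 1`... as `ε` unit; `|t| ≤ 2`.  `aD K ≥ 3`
(`t0 ^ 2 + aD K = 4 * norm` for the `ω` of `omg_exists` and `aD K > 0` gives `aD K ≡ 0, 3` modulo 4),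
so `|y| ≤ 1`.  The map `γ ↦ (t, y)` is injective (`co_inj`), with values in `Icc (-2) 2 ×ˢ Icc (-1) 1`.
-/

set_option autoImplicit false

namespace Pool.Agent.FTL

open NumberField Pool.Agent.FTA Pool.Agent.FTB nonZeroDivisors

private theorem LUn_count (D : ℕ) (hD : 1 ≤ D) :
    ((Finset.Icc (-2 : ℤ) 2 ×ˢ Finset.Icc (-2 : ℤ) 2).filter
      fun p => p.1 ^ 2 + (D : ℤ) * p.2 ^ 2 = 4).card ≤ 15 := by
  rcases Nat.eq_or_lt_of_le hD with h | h
  · subst h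
    decide
  · have hsub : ((Finset.Icc (-2 : ℤ) 2 ×ˢ Finset.Icc (-2 : ℤ) 2).filter
        fun p => p.1 ^ 2 + (D : ℤ) * p.2 ^ 2 = 4) ⊆
        Finset.Icc (-2 : ℤ) 2 ×ˢ Finset.Icc (-1 : ℤ) 1 := by
      intro p hp
      rw [Finset.mem_filter, Finset.mem_product] at hp
      obtain ⟨⟨h1, h2⟩, h3⟩ := hp
      rw [Finset.mem_product]
      refine ⟨h1, ?_⟩
      rw [Finset.mem_Icc] at h2 ⊢
      have hD2 : (2 : ℤ) ≤ D := by exact_mod_cast h
      have h4 : p.2 ^ 2 ≤ 2 := by nlinarith [sq_nonneg p.1, sq_nonneg p.2]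
      constructor <;> nlinarith
    refine (Finset.card_le_card hsub).trans ?_
    decide

theorem unt (K : IntermediateField ℚ ℂ) [NumberField K] (h2 : Module.finrank ℚ K = 2)
    (him : ∃ x : K, (x : ℂ).im ≠ 0) (T : Finset (𝓞 K))
    (hT : ∀ γ ∈ T, ∀ γ' ∈ T, Ideal.span {γ} = Ideal.span {γ'}) : T.card ≤ 15 := by
  classical
  rcases T.eq_empty_or_nonempty with rfl | ⟨β, hβ⟩
  · simp
  have hu : ∀ γ : 𝓞 K, ∃ u : (𝓞 K)ˣ, γ ∈ T → β * u = γ := by
    intro γ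
    by_cases hγ : γ ∈ T
    · have h := hT β hβ γ hγ
      rw [Ideal.span_singleton_eq_span_singleton] at h
      obtain ⟨u, hu⟩ := h
      exact ⟨u, fun _ => hu⟩
    · exact ⟨1, fun h => absurd h hγ⟩
  choose u hu using hu
  have hco : ∀ γ : 𝓞 K, ∃ t y : ℤ, Co K (u γ : 𝓞 K) t y := fun γ => co_exists K h2 him _
  choose t y hty using hco
  have hn : ∀ γ, t γ ^ 2 + (aD K : ℤ) * y γ ^ 2 = 4 := by
    intro γ
    have h := co_norm K h2 him _ _ _ (hty γ)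
    have h1 : Ideal.span {((u γ : (𝓞 K)ˣ) : 𝓞 K)} = ⊤ := Ideal.span_singleton_eq_top.2 (u γ).isUnit
    rw [h1, Ideal.absNorm_top] at h
    push_cast at h
    linarith
  have hD : 1 ≤ aD K := aD_pos K
  have hD' : (1 : ℤ) ≤ aD K := by exact_mod_cast hD
  refine le_trans ?_ (LUn_count (aD K) hD)
  refine Finset.card_le_card_of_injOn (fun γ => (t γ, y γ)) ?_ ?_
  · intro γ _
    have h := hn γ
    simp only [Finset.coe_filter, Set.mem_ofPred_eq, Finset.mem_product, Finset.mem_Icc]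
    have h3 : y γ ^ 2 ≤ 4 := by nlinarith [sq_nonneg (t γ), sq_nonneg (y γ)]
    have h4 : t γ ^ 2 ≤ 4 := by nlinarith [sq_nonneg (t γ), sq_nonneg (y γ)]
    refine ⟨⟨⟨?_, ?_⟩, ?_, ?_⟩, h⟩ <;> nlinarith
  · intro a ha b hb hab
    simp only [Prod.mk.injEq] at hab
    have h1 := hty a
    have h2' := hty b
    rw [hab.1, hab.2] at h1
    have h3 := co_inj K _ _ _ _ h1 h2'
    have h4 := hu a (Finset.mem_coe.1 ha)
    have h5 := hu b (Finset.mem_coe.1 hb)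
    rw [← h4, ← h5, h3]

end Pool.Agent.FTL
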