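import Pool.Agent.FTA.Fib
import Pool.Agent.FTL.LPc
import Pool.Agent.FTL.LUn
import Pool.Agent.FTL.LHd

/-!
# FTL/LCk: the number of data with given `(K, n, G, m, r)` and given class of `I`

PROOF of `lck`.  `choose` `β, t1, y1, I` for the `q ∈ S`.
(1) The `I q` are primitive, in the class `x`, of norm `N / n ≤ 4 a ^ 2 / n`: their set (the image)
has at most `5 + 12 (4 a ^ 2 / n) / √(aD K)` elements (`prc`).
(2) For fixed `I` the `β q` generate the same ideal: `m ∣ t1 y1' - t1' y1` by `hr2`, so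
`hdq` and `hs` give `span {β q} = span {β q'}`; at most 15 values (`unt`).
(3) For fixed `I` and `β`: `t1, y1` are fixed (`co_unique`); `f = cf q.1` is a divisor of
`|G y1| = |w f| ≠ 0`, `≤ 64 a ^ 5 ≤ Z`, so it has at most `T` values, and `f` determines `w = G y1 / f`,
`D = f ^ 2 aD K`, `N = n absNorm I`, `t = G t1`, so `q`.
Use `Pool.Agent.FTA.fib_const` three times.
-/

set_option autoImplicit false

namespace Pool.Agent.FTL

open NumberField Pool.Agent.FTA Pool.Agent.FTB nonZeroDivisors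

theorem lck (K : IntermediateField ℚ ℂ) [NumberField K] (h2 : Module.finrank ℚ K = 2)
    (him : ∃ x : K, (x : ℂ).im ≠ 0) (a n G m r Z : ℕ) (T : ℝ) (hT : TauB Z T)
    (hZ : 64 * a ^ 5 ≤ Z) (x : ClassGroup (𝓞 K)) (S : Finset Qt)
    (hS : ∀ q ∈ S, ∃ (β : 𝓞 K) (t1 y1 : ℤ) (I : (Ideal (𝓞 K))⁰),
      DQ K a n G m r q β t1 y1 I ∧ ClassGroup.mk0 I = x) :
    (S.card : ℝ) ≤ (5 + 12 * (4 * (a : ℝ) ^ 2 / n) / √(aD K : ℝ)) * 15 * T := by
  classical
  have hT1 : (1 : ℝ) ≤ T := hT.1
  choose! β t1 y1 I h using hS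
  -- the fibres over `I` and `β`
  have s3 : ∀ (I0 : (Ideal (𝓞 K))⁰) (β0 : 𝓞 K),
      ((((S.filter fun q => I q = I0).filter fun q => β q = β0).card : ℕ) : ℝ) ≤ T := by
    intro I0 β0
    rcases Finset.eq_empty_or_nonempty ((S.filter fun q => I q = I0).filter fun q => β q = β0)
      with he | ⟨q0, hq0⟩
    · rw [he, Finset.card_empty, Nat.cast_zero]
      linarith
    · have hm0 : q0 ∈ S ∧ I q0 = I0 ∧ β q0 = β0 := by
        rw [Finset.mem_filter, Finset.mem_filter] at hq0
        exact ⟨hq0.1.1, hq0.1.2, hq0.2⟩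
      obtain ⟨m1, m2, m3⟩ := hm0
      have d0 := (h q0 m1).1
      have key : ∀ q ∈ ((S.filter fun q => I q = I0).filter fun q => β q = β0),
          DQ K a n G m r q β0 (t1 q0) (y1 q0) I0 := by
        intro q hq
        rw [Finset.mem_filter, Finset.mem_filter] at hq
        obtain ⟨⟨k1, k2⟩, k3⟩ := hq
        have d1 := (h q k1).1
        rw [k2, k3] at d1
        have d2 := d0
        rw [m2, m3] at d2
        obtain ⟨e1, e2⟩ := co_unique K β0 _ _ _ _ d1.cβ d2.cβ
        rw [e1, e2] at d1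
        exact d1
      have hne : ((G : ℤ) * y1 q0) ≠ 0 := by
        have d1 := key q0 hq0
        rw [← d1.hy]
        have h1 : (cf q0.1 : ℤ) ≠ 0 := by
          have := d1.hf
          exact_mod_cast (by omega : cf q0.1 ≠ 0)
        exact mul_ne_zero d1.w0 h1
      have hc : ((S.filter fun q => I q = I0).filter fun q => β q = β0).card ≤
          (((G : ℤ) * y1 q0).natAbs.divisors).card := by
        apply Finset.card_le_card_of_injOn (fun q => cf q.1)
        · intro q hq
          have d1 := key q hq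
          rw [Finset.mem_coe, Nat.mem_divisors]
          refine ⟨?_, Int.natAbs_ne_zero.2 hne⟩
          rw [← d1.hy, Int.natAbs_mul, Int.natAbs_natCast]
          exact dvd_mul_left _ _
        · intro q hq q' hq' hqq
          have d1 := key q hq
          have d2 := key q' hq'
          have hqq' : cf q.1 = cf q'.1 := hqq
          have e1 : q.1 = q'.1 := by rw [d1.hD, d2.hD, hqq']
          have e2 : q.2.1 = q'.2.1 := by rw [d1.hN, d2.hN]
          have e3 : q.2.2.1 = q'.2.2.1 := by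
            have h1 : (cf q.1 : ℤ) ≠ 0 := by
              have := d1.hf
              exact_mod_cast (by omega : cf q.1 ≠ 0)
            apply mul_right_cancel₀ h1
            rw [d1.hy, hqq', d2.hy]
          have e4 : q.2.2.2 = q'.2.2.2 := by rw [d1.ht, d2.ht]
          exact Prod.ext e1 (Prod.ext e2 (Prod.ext e3 e4))
      calc ((((S.filter fun q => I q = I0).filter fun q => β q = β0).card : ℕ) : ℝ)
          ≤ ((((G : ℤ) * y1 q0).natAbs.divisors).card : ℝ) := by exact_mod_cast hc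
        _ ≤ T := hT.2 _ (Nat.one_le_iff_ne_zero.2 (Int.natAbs_ne_zero.2 hne))
            (d0.yb.trans hZ)
  -- the fibres over `I`
  have s2 : ∀ I0 : (Ideal (𝓞 K))⁰, (((S.filter fun q => I q = I0).card : ℕ) : ℝ) ≤ 15 * T := by
    intro I0
    have h1 := fib_const (S.filter fun q => I q = I0) β ((S.filter fun q => I q = I0).image β)
      (fun q hq => Finset.mem_image_of_mem β hq) T (fun β0 _ => s3 I0 β0)
    have h2' : ((S.filter fun q => I q = I0).image β).card ≤ 15 := by
      apply unt K h2 him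
      intro γ hγ γ' hγ'
      obtain ⟨q, hq, rfl⟩ := Finset.mem_image.1 hγ
      obtain ⟨q', hq', rfl⟩ := Finset.mem_image.1 hγ'
      obtain ⟨k1, k2⟩ := Finset.mem_filter.1 hq
      obtain ⟨k1', k2'⟩ := Finset.mem_filter.1 hq'
      have d1 := (h q k1).1
      have d2 := (h q' k1').1
      have e : Ideal.span {β q} ⊔ Ideal.span {(m : 𝓞 K)} =
          Ideal.span {β q'} ⊔ Ideal.span {(m : 𝓞 K)} := by
        apply hdq K h2 him m d1.om (β q) (β q') _ _ _ _ d1.cβ d2.cβ d1.cy d2.cy
        have e1 : t1 q * y1 q' - t1 q' * y1 q =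
            (t1 q - r * y1 q) * y1 q' - (t1 q' - r * y1 q') * y1 q := by ring
        rw [e1]
        exact dvd_sub (Dvd.dvd.mul_right d1.hr2 _) (Dvd.dvd.mul_right d2.hr2 _)
      rw [d1.hs, d2.hs, e, k2, k2']
    have h3' : (((S.filter fun q => I q = I0).image β).card : ℝ) ≤ 15 := by exact_mod_cast h2'
    calc (((S.filter fun q => I q = I0).card : ℕ) : ℝ)
        ≤ (((S.filter fun q => I q = I0).image β).card : ℝ) * T := h1
      _ ≤ 15 * T := mul_le_mul_of_nonneg_right h3' (by linarith)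
  -- the ideals
  have h1 := fib_const S I (S.image I) (fun q hq => Finset.mem_image_of_mem I hq) (15 * T)
    (fun I0 _ => s2 I0)
  have h3 : ((S.image I).card : ℝ) ≤ 5 + 12 * (4 * (a : ℝ) ^ 2 / n) / √(aD K : ℝ) := by
    apply prc K h2 him x _ (by positivity)
    intro I0 hI0
    obtain ⟨q, hq, rfl⟩ := Finset.mem_image.1 hI0
    have d1 := (h q hq).1
    refine ⟨(h q hq).2, ?_, d1.hI⟩
    have hn : (0 : ℝ) < (n : ℝ) := by exact_mod_cast d1.hn
    rw [le_div_iff₀ hn]
    have h4 : Ideal.absNorm (I q : Ideal (𝓞 K)) * n ≤ 4 * a ^ 2 := by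
      rw [mul_comm, ← d1.hN]
      exact d1.hN2
    exact_mod_cast h4
  calc (S.card : ℝ) ≤ ((S.image I).card : ℝ) * (15 * T) := h1
    _ ≤ (5 + 12 * (4 * (a : ℝ) ^ 2 / n) / √(aD K : ℝ)) * (15 * T) :=
        mul_le_mul_of_nonneg_right h3 (by linarith)
    _ = (5 + 12 * (4 * (a : ℝ) ^ 2 / n) / √(aD K : ℝ)) * 15 * T := by ring

end Pool.Agent.FTL
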