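import Mathlib

/-!
# FTL/LCx: the number of fifth roots in a finite abelian group

PROOF.  If the left set is empty, clear.  Else fix `x0` with `x0 ^ 5 = g`; `x ↦ x * x0⁻¹` is an
injection into `{c | c ^ 5 = 1}`.
PROOF of `lcx1`: `{c // c ^ 5 = 1}` is the disjoint union of `{1}` and `{c | c ^ 5 = 1 ∧ c ≠ 1}`.
-/

set_option autoImplicit false

namespace Pool.Agent.FTL

theorem lcx (G : Type*) [CommGroup G] [Finite G] (g : G) (S : Finset G)
    (hS : ∀ x ∈ S, x ^ 5 = g) : S.card ≤ Nat.card {c : G // c ^ 5 = 1} := by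
  classical
  rcases S.eq_empty_or_nonempty with rfl | ⟨x0, hx0⟩
  · simp
  · have h0 := hS x0 hx0
    let F : S → {c : G // c ^ 5 = 1} := fun x => ⟨x.1 * x0⁻¹, by
      rw [mul_pow, inv_pow, hS x.1 x.2, h0, mul_inv_cancel]⟩
    have hF : Function.Injective F := by
      intro x y hxy
      have := congrArg Subtype.val hxy
      simp only [F] at this
      exact Subtype.ext (mul_right_cancel this)
    have := Nat.card_le_card_of_injective F hF
    simpa using this

theorem lcx1 (G : Type*) [CommGroup G] [Finite G] (S : Finset G)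
    (hS : ∀ x ∈ S, x ^ 5 = 1 ∧ x ≠ 1) : S.card + 1 ≤ Nat.card {c : G // c ^ 5 = 1} := by
  classical
  have h1 : (1 : G) ∉ S := fun h => (hS 1 h).2 rfl
  have := lcx G 1 (insert 1 S) (by
    intro x hx
    rw [Finset.mem_insert] at hx
    rcases hx with rfl | hx
    · exact one_pow 5
    · exact (hS x hx).1)
  rw [Finset.card_insert_of_notMem h1] at this
  exact this

end Pool.Agent.FTL
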