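import Pool.Agent.FTB.ImZ
import Pool.Agent.FTL.DefsL

/-!
# FTL/LEl: integers with given coordinates

PROOF of `elt`.  `omg_exists`: `ω` with `Co K ω t0 1`; `co_norm`: `4 * norm = t0 ^ 2 + aD`.  Modulo 2:
`t ≡ aD y`, `t0 ≡ aD` (squares), so `t - y t0` is even, `= 2 m`.  Put `α = m + y ω`:
`2 α = 2 m + y (t0 + s0 i) = t + y s0 i`.
-/

set_option autoImplicit false

namespace Pool.Agent.FTL

open NumberField Pool.Agent.FTA Pool.Agent.FTB nonZeroDivisors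

theorem elt (K : IntermediateField ℚ ℂ) [NumberField K] (h2 : Module.finrank ℚ K = 2)
    (him : ∃ x : K, (x : ℂ).im ≠ 0) (t y n : ℤ) (h : t ^ 2 + (aD K : ℤ) * y ^ 2 = 4 * n) :
    ∃ α : 𝓞 K, Co K α t y := by
  obtain ⟨ω, t0, hω⟩ := omg_exists K h2 him
  have h3 := co_norm K h2 him ω t0 1 hω
  have h4 : Even (t - y * t0) := by
    have h5 : Even (t ^ 2 + (aD K : ℤ) * y ^ 2) := by
      rw [h]
      exact ⟨2 * n, by ring⟩
    have h6 : Even (t0 ^ 2 + (aD K : ℤ) * 1 ^ 2) := by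
      rw [← h3]
      exact ⟨2 * (Ideal.absNorm (Ideal.span {ω}) : ℤ), by ring⟩
    simp only [Int.even_add, Int.even_sub, Int.even_mul, Int.even_pow, one_pow, mul_one] at *
    tauto
  obtain ⟨m, hm⟩ := h4
  refine ⟨(m : 𝓞 K) + (y : 𝓞 K) * ω, ?_⟩
  unfold Co at hω ⊢
  have hc : ((((m : ℤ) : 𝓞 K) : K) : ℂ) = (m : ℂ) := by simp
  have hc' : ((((y : ℤ) : 𝓞 K) : K) : ℂ) = (y : ℂ) := by simp
  have ht : (t : ℂ) = 2 * m + y * t0 := by
    have : t = 2 * m + y * t0 := by linarith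
    rw [this]
    push_cast
    ring
  rw [ht]
  push_cast
  rw [hc, hc']
  push_cast at hω
  linear_combination (y : ℂ) * hω

end Pool.Agent.FTL
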