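import Mathlib

/-!
# FTL/LGc: the content

PROOF of `lgc`.  `G = gcd (gcd (t, y), n ^ 5) ≥ 1`, odd since `n` is odd.  `t = G t1`, `y = G y1`.
`G ^ 2 ∣ 4 n ^ 5 n1 ^ 5`, `G` is odd and prime to `n1` (`G ∣ n ^ 5`), so `G ^ 2 ∣ n ^ 5`, `G ^ 2 m = n ^ 5`,
`m` odd.  Cancel `G ^ 2`: `t1 ^ 2 + D y1 ^ 2 = 4 m n1 ^ 5`.  `IsCoprime t1 n1` from `IsCoprime t n1`;
`m ∣ n ^ 5` is prime to `n1`.  `IsCoprime y1 m`: let the prime `p` divide `y1` and `m`; then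
`p ∣ n`, `p` is odd, `p ∣ t1 ^ 2`, `p ∣ t1`; so `p G ∣ t, y`, `(p G) ^ 2 ∣ 4 n ^ 5 n1 ^ 5`, `p G` is odd and
prime to `n1`, so `(p G) ^ 2 ∣ n ^ 5`, `p G ∣ n ^ 5` and `p G ∣ G`, a contradiction.
(`Int.isCoprime_iff_gcd_eq_one`, `Nat.Coprime`, `Nat.eq_one_of_self..`: a common prime factor exists
if the gcd is not 1, `Nat.exists_prime_and_dvd`.)
-/

set_option autoImplicit false

namespace Pool.Agent.FTL

private theorem LGc_sq (D n n1 g : ℕ) (t y : ℤ) (og : Odd g) (hg : Nat.Coprime g n1)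
    (h1 : (g : ℤ) ∣ t) (h2 : (g : ℤ) ∣ y)
    (h : t ^ 2 + (D : ℤ) * y ^ 2 = 4 * ((n : ℤ) * n1) ^ 5) : g ^ 2 ∣ n ^ 5 := by
  have h3 : ((g : ℤ)) ^ 2 ∣ t ^ 2 := pow_dvd_pow_of_dvd h1 2
  have h4 : ((g : ℤ)) ^ 2 ∣ y ^ 2 := pow_dvd_pow_of_dvd h2 2
  have h5 : ((g : ℤ)) ^ 2 ∣ 4 * ((n : ℤ) * n1) ^ 5 := by
    rw [← h]
    exact dvd_add h3 (h4.mul_left _)
  have h6 : g ^ 2 ∣ (4 * n1 ^ 5) * n ^ 5 := by
    have h7 : ((g ^ 2 : ℕ) : ℤ) ∣ (((4 * n1 ^ 5) * n ^ 5 : ℕ) : ℤ) := by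
      have h8 : (((4 * n1 ^ 5) * n ^ 5 : ℕ) : ℤ) = 4 * ((n : ℤ) * n1) ^ 5 := by
        push_cast
        ring
      rw [h8]
      push_cast
      exact h5
    exact Int.natCast_dvd_natCast.1 h7
  have h9 : Nat.Coprime (g ^ 2) (4 * n1 ^ 5) := by
    apply Nat.Coprime.pow_left
    apply Nat.Coprime.mul_right
    · have h10 : Nat.Coprime g 2 := (Nat.coprime_two_right).2 og
      exact (Nat.Coprime.pow_right 2 h10 : Nat.Coprime g (2 ^ 2))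
    · exact hg.pow_right 5
  exact h9.dvd_of_dvd_mul_left h6

theorem lgc (D n n1 : ℕ) (t y : ℤ) (hn : 1 ≤ n) (hn1 : 1 ≤ n1) (on : Odd n)
    (hc : Nat.Coprime n n1) (ht : IsCoprime t (n1 : ℤ))
    (h : t ^ 2 + (D : ℤ) * y ^ 2 = 4 * ((n : ℤ) * n1) ^ 5) :
    ∃ (G m : ℕ) (t1 y1 : ℤ), 1 ≤ G ∧ G ∣ n ^ 5 ∧ t = G * t1 ∧ y = G * y1 ∧ G ^ 2 * m = n ^ 5 ∧
      Odd m ∧ 1 ≤ m ∧ IsCoprime y1 (m : ℤ) ∧ IsCoprime t1 (n1 : ℤ) ∧ Nat.Coprime m n1 ∧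
      t1 ^ 2 + (D : ℤ) * y1 ^ 2 = 4 * ((m : ℤ) * n1 ^ 5) := by
  set G : ℕ := Nat.gcd (Int.gcd t y) (n ^ 5) with hG
  have hn5 : 0 < n ^ 5 := by positivity
  have hG1 : 1 ≤ G := Nat.gcd_pos_of_pos_right _ hn5
  have hGn : G ∣ n ^ 5 := Nat.gcd_dvd_right _ _
  have hGi : G ∣ Int.gcd t y := Nat.gcd_dvd_left _ _
  have hGt : (G : ℤ) ∣ t := (Int.natCast_dvd_natCast.2 hGi).trans (Int.gcd_dvd_left _ _)
  have hGy : (G : ℤ) ∣ y := (Int.natCast_dvd_natCast.2 hGi).trans (Int.gcd_dvd_right _ _)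
  have on5 : Odd (n ^ 5) := on.pow
  have oG : Odd G := Odd.of_dvd_nat on5 hGn
  have hc5 : Nat.Coprime (n ^ 5) n1 := hc.pow_left 5
  have cG : Nat.Coprime G n1 := Nat.Coprime.coprime_dvd_left hGn hc5
  obtain ⟨m, hm⟩ := LGc_sq D n n1 G t y oG cG hGt hGy h
  obtain ⟨t1, ht1⟩ := hGt
  obtain ⟨y1, hy1⟩ := hGy
  have hmn : m ∣ n ^ 5 := ⟨G ^ 2, by rw [hm]; ring⟩
  have hm1 : 1 ≤ m := by
    rcases Nat.eq_zero_or_pos m with h0 | h0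
    · rw [h0] at hm
      omega
    · exact h0
  have om : Odd m := Odd.of_dvd_nat on5 hmn
  have cm : Nat.Coprime m n1 := Nat.Coprime.coprime_dvd_left hmn hc5
  have hG0 : (G : ℤ) ≠ 0 := by
    have : (0 : ℤ) < G := by exact_mod_cast hG1
    exact this.ne'
  have heq : t1 ^ 2 + (D : ℤ) * y1 ^ 2 = 4 * ((m : ℤ) * n1 ^ 5) := by
    have h1 : ((n : ℤ)) ^ 5 = (G : ℤ) ^ 2 * m := by exact_mod_cast hm
    have h2 : (G : ℤ) ^ 2 * (t1 ^ 2 + (D : ℤ) * y1 ^ 2) =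
        (G : ℤ) ^ 2 * (4 * ((m : ℤ) * n1 ^ 5)) := by
      calc (G : ℤ) ^ 2 * (t1 ^ 2 + (D : ℤ) * y1 ^ 2) = t ^ 2 + (D : ℤ) * y ^ 2 := by
            rw [ht1, hy1]
            ring
        _ = 4 * ((n : ℤ) * n1) ^ 5 := h
        _ = 4 * ((n : ℤ) ^ 5 * (n1 : ℤ) ^ 5) := by ring
        _ = (G : ℤ) ^ 2 * (4 * ((m : ℤ) * n1 ^ 5)) := by
            rw [h1]
            ring
    exact mul_left_cancel₀ (pow_ne_zero 2 hG0) h2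
  have ct1 : IsCoprime t1 (n1 : ℤ) := by
    rw [ht1] at ht
    exact ht.of_mul_left_right
  refine ⟨G, m, t1, y1, hG1, hGn, ht1, hy1, hm.symm, om, hm1, ?_, ct1, cm, heq⟩
  rw [Int.isCoprime_iff_gcd_eq_one]
  by_contra hne
  obtain ⟨p, pp, hp⟩ := Nat.exists_prime_and_dvd hne
  have hpy : (p : ℤ) ∣ y1 := (Int.natCast_dvd_natCast.2 hp).trans (Int.gcd_dvd_left _ _)
  have hpm' : (p : ℤ) ∣ (m : ℤ) := (Int.natCast_dvd_natCast.2 hp).trans (Int.gcd_dvd_right _ _)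
  have hpm : p ∣ m := Int.natCast_dvd_natCast.1 hpm'
  have hpt : (p : ℤ) ∣ t1 := by
    have h1 : (p : ℤ) ∣ t1 ^ 2 := by
      have h2 : t1 ^ 2 = 4 * ((m : ℤ) * n1 ^ 5) - (D : ℤ) * y1 ^ 2 := by linarith
      rw [h2]
      exact dvd_sub ((hpm'.mul_right _).mul_left _) ((hpy.pow (by norm_num)).mul_left _)
    exact (Nat.prime_iff_prime_int.1 pp).dvd_of_dvd_pow h1
  have hpn : p ∣ n ^ 5 := hpm.trans hmn
  have op : Odd p := Odd.of_dvd_nat on5 hpn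
  have cp : Nat.Coprime p n1 := Nat.Coprime.coprime_dvd_left hpn hc5
  have h1 : (((p * G : ℕ)) : ℤ) ∣ t := by
    rw [ht1, Nat.cast_mul, mul_comm]
    exact mul_dvd_mul_left _ hpt
  have h2 : (((p * G : ℕ)) : ℤ) ∣ y := by
    rw [hy1, Nat.cast_mul, mul_comm]
    exact mul_dvd_mul_left _ hpy
  have h3 : (p * G) ^ 2 ∣ n ^ 5 :=
    LGc_sq D n n1 (p * G) t y (op.mul oG) (Nat.Coprime.mul_left cp cG) h1 h2 h
  have h4 : p * G ∣ n ^ 5 := (dvd_pow_self _ (by norm_num)).trans h3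
  have h5 : p * G ∣ Int.gcd t y := Int.dvd_gcd h1 h2
  have h6 : p * G ∣ G := Nat.dvd_gcd h5 h4
  have h7 := Nat.le_of_dvd hG1 h6
  have h8 := pp.two_le
  nlinarith

end Pool.Agent.FTL
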