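import Pool.Agent.FTL.DefsL

/-!
# FTL/LNs: the part `nS N t` of `N`

PROOF of `lns`.  `nS N t = ∏ p ^ v_p(N)` over the primes `p ∣ N` with `p ∣ t`, and `N = ∏ p ^ v_p(N)`
over all primes `p ∣ N` (`Nat.factorization_prod_pow_eq_self` / `Finset.prod_filter_mul_prod_filter_not`),
so `n1 = ∏ p ^ v_p(N)` over the primes `p ∣ N`, `p ∤ t`.  Coprimality: a prime dividing
`nS` is one of the `p` with `p ∣ t` (`Prime.dvd_finset_prod_iff`, `Nat.Prime.dvd_of_dvd_pow`, primes),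
a prime dividing `n1` does not divide `t`.  `nS` odd: `p = 2` would give `R < 2` by `bad`.
-/

set_option autoImplicit false

namespace Pool.Agent.FTL

theorem lns (X a : ℕ) (R : ℝ) (hR : 2 ≤ R) (D N : ℕ) (w t : ℤ) (hq : Qd X a R D N w t) :
    (∃ n1 : ℕ, 1 ≤ n1 ∧ N = nS N t * n1 ∧ Nat.Coprime (nS N t) n1 ∧ IsCoprime t (n1 : ℤ)) ∧
      1 ≤ nS N t ∧ Odd (nS N t) ∧
      ∀ p : ℕ, p.Prime → p ∣ nS N t → (p : ℤ) ∣ t ∧ p ∣ N ∧ R < p ∧ p ^ 2 ∣ D := by
  have hN0 : N ≠ 0 := by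
    have := hq.N1
    omega
  have key : ∀ p : ℕ, p.Prime → p ∣ nS N t → (p : ℤ) ∣ t ∧ p ∣ N ∧ R < p ∧ p ^ 2 ∣ D := by
    intro p hp hpd
    unfold nS at hpd
    obtain ⟨q, hqm, hqd⟩ := (Prime.dvd_finset_prod_iff hp.prime _).1 hpd
    obtain ⟨h1, h2⟩ := Finset.mem_filter.1 hqm
    obtain ⟨h3, h4, -⟩ := Nat.mem_primeFactors.1 h1
    have h5 : p = q := (Nat.prime_dvd_prime_iff_eq hp h3).1 (hp.dvd_of_dvd_pow hqd)
    subst h5
    obtain ⟨h6, h7⟩ := hq.bad p hp h4 h2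
    exact ⟨h2, h4, h6, h7⟩
  have hpos : 1 ≤ nS N t := by
    unfold nS
    refine Nat.succ_le_of_lt (Finset.prod_pos fun p hp => ?_)
    have h1 : 0 < p := (Nat.prime_of_mem_primeFactors (Finset.mem_filter.1 hp).1).pos
    exact pow_pos h1 _
  refine ⟨⟨∏ p ∈ N.primeFactors.filter (fun p : ℕ => ¬ (p : ℤ) ∣ t), p ^ N.factorization p,
    ?_, ?_, ?_, ?_⟩, hpos, ?_, key⟩
  · refine Nat.succ_le_of_lt (Finset.prod_pos fun p hp => ?_)
    have h1 : 0 < p := (Nat.prime_of_mem_primeFactors (Finset.mem_filter.1 hp).1).pos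
    exact pow_pos h1 _
  · unfold nS
    rw [Finset.prod_filter_mul_prod_filter_not]
    have h := Nat.factorization_prod_pow_eq_self hN0
    rw [Finsupp.prod, Nat.support_factorization] at h
    exact h.symm
  · unfold nS
    refine Nat.Coprime.prod_left fun p hp => ?_
    refine Nat.Coprime.prod_right fun q hqq => ?_
    obtain ⟨h1, h2⟩ := Finset.mem_filter.1 hp
    obtain ⟨h3, h4⟩ := Finset.mem_filter.1 hqq
    refine Nat.Coprime.pow _ _ ?_
    refine (Nat.coprime_primes (Nat.prime_of_mem_primeFactors h1)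
      (Nat.prime_of_mem_primeFactors h3)).2 ?_
    intro h5
    rw [h5] at h2
    exact h4 h2
  · rw [Nat.cast_prod]
    refine IsCoprime.prod_right fun p hp => ?_
    obtain ⟨h1, h2⟩ := Finset.mem_filter.1 hp
    rw [Nat.cast_pow]
    refine IsCoprime.pow_right ?_
    have h3 : Prime (p : ℤ) := Nat.prime_iff_prime_int.1 (Nat.prime_of_mem_primeFactors h1)
    exact ((Prime.coprime_iff_not_dvd h3).2 h2).symm
  · rw [← Nat.not_even_iff_odd, even_iff_two_dvd]
    intro h2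
    have h3 := (key 2 Nat.prime_two h2).2.2.1
    norm_num at h3
    linarith

end Pool.Agent.FTL
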