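import Pool.Agent.FTB.CMn
import Pool.Agent.FTB.Cor
import Pool.Agent.FTL.DefsL

/-!
# FTL/LSp: splitting off a fifth power

PROOF of `spl`.  `co_conj`: `β'` with `β β' = absNorm (span {β}) = m n ^ 5` and `Co K β' t (-y)`, so
`β + β' = t` (add the two `Co` equations).  Write `A = (β)`, `A' = (β')`, `M = (m)`, `P = (n ^ 5)`
(principal ideals), `A A' = M P`, `M ⊔ P = ⊤` (Bezout for `m`, `n ^ 5`).
(1) `(A ⊔ M) * (A ⊔ P) = A`: the product is `A * A ⊔ A * P ⊔ M * A ⊔ M * P =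
A * (A ⊔ P ⊔ M ⊔ A') = A`.
(2) `B = A ⊔ P`, `B' = A' ⊔ P`: `B * B' = A A' ⊔ A P ⊔ P A' ⊔ P P = P * (M ⊔ A ⊔ A' ⊔ P) = P =
span {n} ^ 5`.
(3) `B ⊔ B' = ⊤`: it contains `β + β' = t` and `n ^ 5`, and `t` is prime to `n`.
So `B` and `B'` are coprime ideals with product a fifth power: `B = I ^ 5`
(`exists_eq_pow_of_mul_eq_pow` with the `GCDMonoid` structure of the ideals, or
`Finset.exists_eq_pow_of_mul_eq_pow_of_coprime`; see the Mathlib file on Dedekind domains), `I ≠ ⊥`.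
Norms: `absNorm (A ⊔ M) * absNorm B = m n ^ 5`; `absNorm (A ⊔ M)` divides `absNorm M = m ^ 2`
(`nrm_nat`, `Ideal.absNorm_dvd_absNorm_of_le`), `absNorm B` divides `absNorm P = n ^ 10`; as
`m, n` are coprime, `absNorm B = n ^ 5`, so `absNorm I = n`.
Primitive: if `I ≤ span {l}`, `l ≥ 2`, then `l ^ 2 ∣ n` (norms), and `(β) = (A ⊔ M) I ^ 5 ≤ span {l}`, so
`β = l b`, `l ∣ t` (`co_exists` for `b`, `co_nat`, `co_unique`), which contradicts
`IsCoprime t n`.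
-/

set_option autoImplicit false

namespace Pool.Agent.FTL

open NumberField Pool.Agent.FTA Pool.Agent.FTB nonZeroDivisors

private theorem LSp_sum (K : IntermediateField ℚ ℂ) [NumberField K] (a b : 𝓞 K) (t y : ℤ)
    (ha : Co K a t y) (hb : Co K b t (-y)) : a + b = (t : 𝓞 K) := by
  unfold Co at ha hb
  apply RingOfIntegers.ext
  apply Subtype.ext
  apply mul_left_cancel₀ (two_ne_zero (α := ℂ))
  have e : (((a + b : 𝓞 K) : K) : ℂ) = ((a : K) : ℂ) + ((b : K) : ℂ) := by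
    rfl
  have e2 : (((t : 𝓞 K) : K) : ℂ) = (t : ℂ) := by
    rfl
  rw [e, e2]
  push_cast at hb
  linear_combination ha + hb

private theorem LSp_alg {R : Type*} [CommRing R] (A A' M P : Ideal R) (h : A * A' = M * P)
    (hMP : M ⊔ P = ⊤) (hAP : A ⊔ A' ⊔ P = ⊤) :
    (A ⊔ M) * (A ⊔ P) = A ∧ (A ⊔ P) * (A' ⊔ P) = P ∧ (A ⊔ P) ⊔ (A' ⊔ P) = ⊤ := by
  refine ⟨?_, ?_, ?_⟩
  · have e : (A ⊔ M) * (A ⊔ P) = A * (A ⊔ A' ⊔ P ⊔ M) := by
      simp only [← Ideal.add_eq_sup]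
      calc (A + M) * (A + P) = A * A + A * P + M * A + M * P := by ring
        _ = A * A + A * P + M * A + A * A' := by rw [h]
        _ = _ := by ring
    rw [e, hAP, top_sup_eq, Ideal.mul_top]
  · have e : (A ⊔ P) * (A' ⊔ P) = P * (M ⊔ P ⊔ (A ⊔ A')) := by
      simp only [← Ideal.add_eq_sup]
      calc (A + P) * (A' + P) = A * A' + A * P + P * A' + P * P := by ring
        _ = M * P + A * P + P * A' + P * P := by rw [h]
        _ = _ := by ring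
    rw [e, hMP, top_sup_eq, Ideal.mul_top]
  · have e : (A ⊔ P) ⊔ (A' ⊔ P) = A ⊔ A' ⊔ P := by
      apply le_antisymm
      · apply sup_le
        · exact sup_le (le_sup_of_le_left le_sup_left) le_sup_right
        · exact sup_le (le_sup_of_le_left le_sup_right) le_sup_right
      · apply sup_le
        · exact sup_le (le_sup_of_le_left le_sup_left) (le_sup_of_le_right le_sup_left)
        · exact le_sup_of_le_left le_sup_right
    rw [e, hAP]

private theorem LSp_nat (x y m n : ℕ) (hmn : Nat.Coprime m n)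
    (h : x * y = m * n ^ 5) (hx : x ∣ m ^ 2) (hy : y ∣ (n ^ 5) ^ 2) : y = n ^ 5 := by
  have h1 : Nat.Coprime x (n ^ 5) := by
    apply Nat.Coprime.coprime_dvd_left hx
    exact Nat.Coprime.pow 2 5 hmn
  have h2 : Nat.Coprime y m := by
    apply Nat.Coprime.coprime_dvd_left hy
    rw [← pow_mul]
    exact Nat.Coprime.pow_left _ hmn.symm
  apply Nat.dvd_antisymm
  · have : y ∣ m * n ^ 5 := ⟨x, by rw [← h]; ring⟩
    exact h2.dvd_of_dvd_mul_left this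
  · have : n ^ 5 ∣ x * y := ⟨m, by rw [h]; ring⟩
    exact h1.symm.dvd_of_dvd_mul_left this

theorem spl (K : IntermediateField ℚ ℂ) [NumberField K] (h2 : Module.finrank ℚ K = 2)
    (him : ∃ x : K, (x : ℂ).im ≠ 0) (β : 𝓞 K) (t y : ℤ) (hβ : Co K β t y) (m n : ℕ)
    (hm : 1 ≤ m) (hn : 1 ≤ n) (hmn : Nat.Coprime m n) (ht : IsCoprime t (n : ℤ))
    (hN : Ideal.absNorm (Ideal.span {β}) = m * n ^ 5) :
    ∃ I : (Ideal (𝓞 K))⁰,
      Ideal.span {β} = (Ideal.span {β} ⊔ Ideal.span {(m : 𝓞 K)}) * (I : Ideal (𝓞 K)) ^ 5 ∧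
      Ideal.absNorm (I : Ideal (𝓞 K)) = n ∧
      ∀ l : ℕ, 2 ≤ l → ¬ ((I : Ideal (𝓞 K)) ≤ Ideal.span {(l : 𝓞 K)}) := by
  classical
  obtain ⟨β', hβ', hprod⟩ := co_conj K h2 him β t y hβ
  have hsum := LSp_sum K β β' t y hβ hβ'
  rw [hN] at hprod
  have hAA : Ideal.span {β} * Ideal.span {β'} =
      Ideal.span {(m : 𝓞 K)} * Ideal.span {(((n ^ 5 : ℕ)) : 𝓞 K)} := by
    rw [Ideal.span_singleton_mul_span_singleton, Ideal.span_singleton_mul_span_singleton, hprod]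
    push_cast
    rfl
  have hMP : Ideal.span {(m : 𝓞 K)} ⊔ Ideal.span {(((n ^ 5 : ℕ)) : 𝓞 K)} = ⊤ := by
    rw [Ideal.eq_top_iff_one, Submodule.mem_sup]
    have hc : IsCoprime (m : ℤ) ((n ^ 5 : ℕ) : ℤ) :=
      Nat.isCoprime_iff_coprime.2 (Nat.Coprime.pow_right 5 hmn)
    obtain ⟨a, b, hab⟩ := hc
    refine ⟨(a : 𝓞 K) * m, Ideal.mul_mem_left _ _ (Ideal.mem_span_singleton_self _),
      (b : 𝓞 K) * ((n ^ 5 : ℕ) : 𝓞 K), Ideal.mul_mem_left _ _ (Ideal.mem_span_singleton_self _), ?_⟩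
    have := congrArg (fun z : ℤ => (z : 𝓞 K)) hab
    push_cast at this ⊢
    exact this
  have hAP : Ideal.span {β} ⊔ Ideal.span {β'} ⊔ Ideal.span {(((n ^ 5 : ℕ)) : 𝓞 K)} = ⊤ := by
    rw [Ideal.eq_top_iff_one, Submodule.mem_sup]
    have hc : IsCoprime t ((n ^ 5 : ℕ) : ℤ) := by
      push_cast
      exact ht.pow_right
    obtain ⟨a, b, hab⟩ := hc
    refine ⟨(a : 𝓞 K) * (β + β'), Ideal.mul_mem_left _ _ ?_,
      (b : 𝓞 K) * ((n ^ 5 : ℕ) : 𝓞 K), Ideal.mul_mem_left _ _ (Ideal.mem_span_singleton_self _), ?_⟩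
    · exact Submodule.add_mem_sup (Ideal.mem_span_singleton_self _)
        (Ideal.mem_span_singleton_self _)
    · have := congrArg (fun z : ℤ => (z : 𝓞 K)) hab
      rw [hsum]
      push_cast at this ⊢
      exact this
  obtain ⟨q1, q2, q3⟩ := LSp_alg _ _ _ _ hAA hMP hAP
  have hpow : Ideal.span {(((n ^ 5 : ℕ)) : 𝓞 K)} = Ideal.span {(n : 𝓞 K)} ^ 5 := by
    rw [Ideal.span_singleton_pow]
    push_cast
    rfl
  have hcop : IsCoprime (Ideal.span {β} ⊔ Ideal.span {(((n ^ 5 : ℕ)) : 𝓞 K)})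
      (Ideal.span {β'} ⊔ Ideal.span {(((n ^ 5 : ℕ)) : 𝓞 K)}) := by
    rw [Ideal.isCoprime_iff_sup_eq]
    exact q3
  obtain ⟨I, hI⟩ := exists_eq_pow_of_mul_eq_pow_of_coprime hcop (q2.trans hpow)
  have hn1 := congrArg Ideal.absNorm q1
  rw [map_mul, hN] at hn1
  have hx : Ideal.absNorm (Ideal.span {β} ⊔ Ideal.span {(m : 𝓞 K)}) ∣ m ^ 2 := by
    rw [← nrm_nat K h2 m]
    exact Ideal.absNorm_dvd_absNorm_of_le le_sup_right
  have hy : Ideal.absNorm (Ideal.span {β} ⊔ Ideal.span {(((n ^ 5 : ℕ)) : 𝓞 K)}) ∣ (n ^ 5) ^ 2 := by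
    rw [← nrm_nat K h2 (n ^ 5)]
    exact Ideal.absNorm_dvd_absNorm_of_le le_sup_right
  have hB := LSp_nat _ _ m n hmn hn1 hx hy
  rw [hI, map_pow] at hB
  have hIn : Ideal.absNorm I = n := Nat.pow_left_injective (by norm_num : (5 : ℕ) ≠ 0) hB
  have hI0 : I ≠ 0 := by
    rintro rfl
    rw [Ideal.zero_eq_bot, Ideal.absNorm_bot] at hIn
    omega
  have hA : Ideal.span {β} = (Ideal.span {β} ⊔ Ideal.span {(m : 𝓞 K)}) * I ^ 5 := by
    rw [← hI]
    exact q1.symm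
  refine ⟨⟨I, mem_nonZeroDivisors_iff_ne_zero.2 hI0⟩, hA, hIn, ?_⟩
  intro l hl hle
  have hle' : I ≤ Ideal.span {(l : 𝓞 K)} := hle
  have hmem : β ∈ Ideal.span {(l : 𝓞 K)} := by
    apply hle'
    have h5 : (Ideal.span {β} ⊔ Ideal.span {(m : 𝓞 K)}) * I ^ 5 ≤ I :=
      Ideal.mul_le_right.trans (Ideal.pow_le_self (n := 5) (by norm_num))
    apply h5
    rw [← hA]
    exact Ideal.mem_span_singleton_self β
  obtain ⟨b, hb⟩ := Ideal.mem_span_singleton'.1 hmem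
  obtain ⟨t', y', hb'⟩ := co_exists K h2 him b
  have h6 := co_nat K b t' y' l hb'
  rw [mul_comm, hb] at h6
  obtain ⟨h7, -⟩ := co_unique K β _ _ _ _ hβ h6
  have h8 : l ^ 2 ∣ n := by
    rw [← hIn, ← nrm_nat K h2 l]
    exact Ideal.absNorm_dvd_absNorm_of_le hle'
  have h9 : (l : ℤ) ∣ (n : ℤ) := by
    exact_mod_cast (dvd_pow_self l two_ne_zero).trans h8
  have h10 : (l : ℤ) ∣ t := ⟨t', h7⟩
  have h11 := ht.isUnit_of_dvd' h10 h9
  rw [Int.isUnit_iff] at h11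
  omega

end Pool.Agent.FTL
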