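import Pool.Agent.FTL.LFd
import Pool.Agent.FTL.LEl
import Pool.Agent.FTL.LSp
import Pool.Agent.FTL.LNs
import Pool.Agent.FTL.LGc

/-!
# FTL/LDt: the ideal data of `(D, N, w, t)`

PROOF of `ldt`.  Put `f = cf q.1`, `y = w f`, `n = nS N t`.  `fld` (for `D = q.1`; `D ≥ 1` because
`t ^ 2 + D w ^ 2 = 4 N ^ 5`... or `D = 0` is excluded by `X ≤ 2 D`, `1 ≤ X`) gives `D = f ^ 2 aD K`
(after `subst hK`; `1 ≤ f`).  `t ^ 2 + aD y ^ 2 = 4 N ^ 5`.  `lns` gives `n1`, `N = n n1`.  `lgc` (with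
`D := aD K`) gives `G, m, t1, y1`.  `elt` gives `β` with coordinates `(t1, y1)`, `co_norm` gives
`absNorm (span {β}) = m n1 ^ 5`, `spl` (with `n := n1`) gives `I`.
`r`: `IsCoprime y1 m`, so there is `r` with `0 ≤ r < m`, `m ∣ t1 - r y1` (`a y1 + b m = 1`,
`r = (a t1) mod m`); then `m ∣ y1 ^ 2 (r ^ 2 + aD)` since `t1 ^ 2 + aD y1 ^ 2 ≡ 0`, and `m ∣ r ^ 2 + aD`.
`yb`: `(G y1) ^ 2 = y ^ 2 ≤ aD y ^ 2 ≤ 4 N ^ 5 ≤ 4 (4 a ^ 2) ^ 5 = (64 a ^ 5) ^ 2`.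
-/

set_option autoImplicit false

namespace Pool.Agent.FTL

open NumberField Pool.Agent.FTA Pool.Agent.FTB nonZeroDivisors

theorem ldt (X a : ℕ) (R : ℝ) (hX : 1 ≤ X) (hR : 2 ≤ R) (K : IntermediateField ℚ ℂ)
    [NumberField K] (h2 : Module.finrank ℚ K = 2) (him : ∃ x : K, (x : ℂ).im ≠ 0) (q : Qt)
    (hq : Qdq X a R q) (hK : Kf q.1 = K) :
    ∃ (G m r : ℕ) (β : 𝓞 K) (t1 y1 : ℤ) (I : (Ideal (𝓞 K))⁰),
      DQ K a (nS q.2.1 q.2.2.2) G m r q β t1 y1 I := by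
  have hq' : Qd X a R q.1 q.2.1 q.2.2.1 q.2.2.2 := hq
  obtain ⟨D1, D2, D3, N1, N2, w0, eq, bad⟩ := hq
  have hD1 : 1 ≤ q.1 := by omega
  obtain ⟨-, -, h3, h4, -⟩ := fld q.1 hD1 D3
  rw [hK] at h3
  obtain ⟨⟨n1, hn1, hNn, hcn, htn⟩, hn, on, -⟩ := lns X a R hR q.1 q.2.1 q.2.2.1 q.2.2.2 hq'
  have haD : 1 ≤ aD K := by
    rcases Nat.eq_zero_or_pos (aD K) with h | h
    · rw [h, mul_zero] at h3
      omega
    · exact h
  have h3' : (q.1 : ℤ) = (cf q.1 : ℤ) ^ 2 * (aD K : ℤ) := by exact_mod_cast h3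
  have hNn' : (q.2.1 : ℤ) = (nS q.2.1 q.2.2.2 : ℤ) * n1 := by exact_mod_cast hNn
  have heq : q.2.2.2 ^ 2 + (aD K : ℤ) * (q.2.2.1 * (cf q.1 : ℤ)) ^ 2 =
      4 * ((nS q.2.1 q.2.2.2 : ℤ) * n1) ^ 5 := by
    rw [← hNn', ← eq, h3']
    ring
  obtain ⟨G, m, t1, y1, hG, hGd, ht, hy, hm, om, hm1, cy, ct, cm, h5⟩ :=
    lgc (aD K) (nS q.2.1 q.2.2.2) n1 q.2.2.2 (q.2.2.1 * (cf q.1 : ℤ)) hn hn1 on hcn htn heq
  obtain ⟨β, hβ⟩ := elt K h2 him t1 y1 ((m : ℤ) * (n1 : ℤ) ^ 5) h5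
  have hnorm : Ideal.absNorm (Ideal.span {β}) = m * n1 ^ 5 := by
    have h := co_norm K h2 him β t1 y1 hβ
    rw [h5] at h
    have h' : (Ideal.absNorm (Ideal.span {β}) : ℤ) = ((m * n1 ^ 5 : ℕ) : ℤ) := by
      push_cast
      linarith
    exact_mod_cast h'
  obtain ⟨I, hI1, hI2, hI3⟩ := spl K h2 him β t1 y1 hβ m n1 hm1 hn1 cm ct hnorm
  obtain ⟨u, v, huv⟩ := cy
  have hm0 : (0 : ℤ) < (m : ℤ) := by exact_mod_cast hm1
  have r0 : 0 ≤ (u * t1) % (m : ℤ) := Int.emod_nonneg _ hm0.ne'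
  have r1 : (u * t1) % (m : ℤ) < m := Int.emod_lt_of_pos _ hm0
  obtain ⟨r, hr⟩ := Int.eq_ofNat_of_zero_le r0
  have hrm : r < m := by
    rw [hr] at r1
    exact_mod_cast r1
  have hr2 : (m : ℤ) ∣ t1 - r * y1 := by
    have e1 : (u * t1) = (m : ℤ) * ((u * t1) / m) + r := by
      have := Int.mul_ediv_add_emod (u * t1) (m : ℤ)
      rw [hr] at this
      exact this.symm
    refine ⟨t1 * v + ((u * t1) / m) * y1, ?_⟩
    have e2 : (r : ℤ) = u * t1 - (m : ℤ) * ((u * t1) / m) := by linarith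
    rw [e2]
    generalize (u * t1) / (m : ℤ) = z
    linear_combination (-t1) * huv
  have hr3 : m ∣ r ^ 2 + aD K := by
    have h6 : (m : ℤ) ∣ y1 ^ 2 * ((r : ℤ) ^ 2 + aD K) := by
      have e : y1 ^ 2 * ((r : ℤ) ^ 2 + aD K) =
          (m : ℤ) * (4 * (n1 : ℤ) ^ 5) - (t1 - r * y1) * (t1 + r * y1) := by
        linear_combination h5
      rw [e]
      exact dvd_sub (dvd_mul_right _ _) (Dvd.dvd.mul_right hr2 _)
    have h7 : IsCoprime (m : ℤ) (y1 ^ 2) := (IsCoprime.pow_right ⟨v, u, by linarith⟩)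
    have h8 := h7.dvd_of_dvd_mul_left h6
    exact_mod_cast h8
  have hyb : ((G : ℤ) * y1).natAbs ≤ 64 * a ^ 5 := by
    have h6 : ((G : ℤ) * y1) ^ 2 ≤ (((64 * a ^ 5 : ℕ) : ℤ)) ^ 2 := by
      rw [← hy]
      have h7 : (q.2.2.1 * (cf q.1 : ℤ)) ^ 2 ≤ (aD K : ℤ) * (q.2.2.1 * (cf q.1 : ℤ)) ^ 2 := by
        have h8 : (1 : ℤ) ≤ (aD K : ℤ) := by exact_mod_cast haD
        nlinarith [sq_nonneg (q.2.2.1 * (cf q.1 : ℤ))]
      have h9 : (q.2.1 : ℤ) ^ 5 ≤ (4 * (a : ℤ) ^ 2) ^ 5 := by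
        have h10 : (q.2.1 : ℤ) ≤ 4 * (a : ℤ) ^ 2 := by exact_mod_cast N2
        exact pow_le_pow_left₀ (by positivity) h10 5
      rw [← hNn'] at heq
      have h11 : (0 : ℤ) ≤ q.2.2.2 ^ 2 := sq_nonneg _
      push_cast
      nlinarith
    have h12 := abs_le_of_sq_le_sq h6 (by positivity)
    zify
    exact_mod_cast h12
  refine ⟨G, m, r, β, t1, y1, I, ?_⟩
  exact
    { cβ := hβ
      ht := ht
      hy := hy
      hD := h3
      hf := h4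
      w0 := w0
      hn := hn
      hG := hG
      hGd := hGd
      hm := hm
      om := om
      cy := ⟨u, v, huv⟩
      hr := hrm
      hr2 := hr2
      hr3 := hr3
      hN := by rw [hI2]; exact hNn
      hN2 := N2
      hN3 := N1
      hs := hI1
      hI := hI3
      yb := hyb }

end Pool.Agent.FTL
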