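import Pool.Agent.FTL.DefsL

/-!
# FTL/LFa: the field `ℚ(√-D)`

PROOF.  Let `s = √D i` (`D ≥ 1`), so `s ^ 2 = -D`.  `s` is algebraic (root of `X ^ 2 + D`), so
`Kf D = ℚ⟮s⟯` is finite over `ℚ` (`IntermediateField.adjoin.finiteDimensional`), hence a number
field (characteristic zero: subfield of `ℂ`).  The degree is the degree of the minimal polynomial
(`IntermediateField.adjoin.finrank`), which divides `X ^ 2 + D`, so it is `≤ 2`; it is not 1 because
`s` is not rational (`s.im = √D ≠ 0`).  (Compare the proof of `uniq` in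
Pool/Agent/FTA/Uniq.lean, which has the same computation.)  `s ∈ Kf D` is `mem_adjoin_simple_self`.
-/

set_option autoImplicit false

namespace Pool.Agent.FTL

open NumberField Pool.Agent.FTA Pool.Agent.FTB nonZeroDivisors

theorem lfa (D : ℕ) (hD : 1 ≤ D) :
    (∃ _ : NumberField (Kf D), Module.finrank ℚ (Kf D) = 2) ∧
      (∃ x : Kf D, (x : ℂ).im ≠ 0) ∧ ((√(D : ℝ) : ℝ) : ℂ) * Complex.I ∈ Kf D := by
  obtain ⟨s, hs⟩ : ∃ s : ℂ, s = ((√(D : ℝ) : ℝ) : ℂ) * Complex.I := ⟨_, rfl⟩
  have hsq : s ^ 2 = -(D : ℂ) := by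
    rw [hs, mul_pow, Complex.I_sq, ← Complex.ofReal_pow, Real.sq_sqrt (Nat.cast_nonneg D)]
    push_cast
    ring
  have him : s.im ≠ 0 := by
    rw [hs, Complex.mul_I_im, Complex.ofReal_re]
    have : (0 : ℝ) < D := by exact_mod_cast hD
    exact (Real.sqrt_pos.2 this).ne'
  have hK : Kf D = IntermediateField.adjoin ℚ {s} := by rw [hs]; rfl
  have hmem : s ∈ Kf D := by
    rw [hK]
    exact IntermediateField.mem_adjoin_simple_self ℚ s
  have hroot : Polynomial.aeval s (Polynomial.X ^ 2 + Polynomial.C (D : ℚ)) = 0 := by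
    rw [map_add, map_pow, Polynomial.aeval_X, Polynomial.aeval_C, hsq, map_natCast]
    ring
  have hmon : (Polynomial.X ^ 2 + Polynomial.C (D : ℚ)).Monic :=
    Polynomial.monic_X_pow_add_C _ two_ne_zero
  have hint : IsIntegral ℚ s := ⟨_, hmon, by rw [← Polynomial.aeval_def]; exact hroot⟩
  have hfd : FiniteDimensional ℚ (Kf D) := by
    rw [hK]
    exact IntermediateField.adjoin.finiteDimensional hint
  have hnf : NumberField (Kf D) := { to_charZero := inferInstance, to_finiteDimensional := hfd }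
  rw [← hs]
  refine ⟨⟨hnf, ?_⟩, ⟨⟨s, hmem⟩, him⟩, hmem⟩
  have hle : Module.finrank ℚ (Kf D) ≤ 2 := by
    rw [hK, IntermediateField.adjoin.finrank hint]
    have h := Polynomial.natDegree_le_of_dvd (minpoly.dvd ℚ s hroot) hmon.ne_zero
    rwa [Polynomial.natDegree_X_pow_add_C] at h
  have hpos : 0 < Module.finrank ℚ (Kf D) := Module.finrank_pos
  have h1 : Module.finrank ℚ (Kf D) ≠ 1 := by
    intro h4
    rw [IntermediateField.finrank_eq_one_iff] at h4
    rw [h4, IntermediateField.mem_bot] at hmem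
    obtain ⟨q, hq⟩ := hmem
    have h6 := congrArg Complex.im hq
    rw [eq_ratCast, Complex.ratCast_im] at h6
    exact him h6.symm
  omega

end Pool.Agent.FTL
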