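import Pool.Agent.FTB.ImZ
import Pool.Agent.FTL.DefsL

/-!
# FTL/LFb: square roots in an imaginary quadratic field

Let `s0 = √(aD K) > 0`.
PROOF of `mem_sq`: by `omg_exists` there is `ω` with `2 ω = t0 + s0 i` in `ℂ`, so `s0 i ∈ K`.
PROOF of `lfb1`.  `x = √E i ∈ K` has `x ^ 2 = -E`, so it is an algebraic integer: an element of
`𝓞 K`; by `co_exists` `2 √E i = t + y s0 i`, compare imaginary parts: `2 √E = y s0`, so `y > 0` and
`4 E = y ^ 2 aD K` (square; use `y.toNat`).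
PROOF of `lfb2`.  `x = (D + √D i) / 2` is a root of `X ^ 2 - D X + (D ^ 2 + D) / 4` (an integer
polynomial: `D ≡ 0` or `3` modulo 4 gives `4 ∣ D ^ 2 + D`), so it is an element of `𝓞 K`, and
`co_exists` gives `D + √D i = t + y s0 i`, so `√D = y s0`, `D = y ^ 2 aD K`.
PROOF of `lfb3`.  If `p ^ 2 ∣ aD K`, `E = aD K / p ^ 2`, then `√E i = s0 i / p ∈ K`, so by `lfb1`
`4 E = y ^ 2 aD K = y ^ 2 p ^ 2 E`, so `p ^ 2 ∣ 4`, impossible for an odd prime.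
-/

set_option autoImplicit false

namespace Pool.Agent.FTL

open NumberField Pool.Agent.FTA Pool.Agent.FTB nonZeroDivisors

private theorem LFb_int (K : IntermediateField ℚ ℂ) [NumberField K]
    (h2 : Module.finrank ℚ K = 2) (him : ∃ x : K, (x : ℂ).im ≠ 0) (x : K) (hx : IsIntegral ℤ x) :
    ∃ y : ℤ, 2 * (x : ℂ).im = y * √(aD K : ℝ) := by
  obtain ⟨a, ha⟩ : ∃ a : 𝓞 K, (a : K) = x := ⟨⟨x, hx⟩, rfl⟩
  obtain ⟨t, y, h⟩ := co_exists K h2 him a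
  refine ⟨y, ?_⟩
  unfold Co at h
  have h1 := congrArg Complex.im h
  simp only [Complex.add_im, Complex.intCast_re, Complex.intCast_im,
    Complex.ofReal_re, Complex.ofReal_im, Complex.I_re, Complex.I_im, Complex.mul_im,
    Complex.mul_re, Complex.re_ofNat, Complex.im_ofNat] at h1
  rw [ha] at h1
  linarith

private theorem LFb_sq (K : IntermediateField ℚ ℂ) [NumberField K] (m : ℕ) (hm : 1 ≤ m) (y : ℤ)
    (h : √(m : ℝ) = y * √(aD K : ℝ)) : ∃ y : ℕ, 1 ≤ y ∧ m = y ^ 2 * aD K := by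
  have hs : (0 : ℝ) < √(aD K : ℝ) := Real.sqrt_pos.2 (by exact_mod_cast aD_pos K)
  have hm0 : (0 : ℝ) < √(m : ℝ) := Real.sqrt_pos.2 (by exact_mod_cast hm)
  have hy : (0 : ℝ) < (y : ℝ) := by
    rw [h] at hm0
    exact pos_of_mul_pos_left hm0 hs.le
  have hy' : 0 < y := by exact_mod_cast hy
  obtain ⟨n, rfl⟩ := Int.eq_ofNat_of_zero_le hy'.le
  refine ⟨n, by omega, ?_⟩
  have h3 := congrArg (fun z : ℝ => z ^ 2) h
  simp only [mul_pow] at h3
  rw [Real.sq_sqrt (by positivity), Real.sq_sqrt (by positivity)] at h3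
  exact_mod_cast h3

theorem mem_sq (K : IntermediateField ℚ ℂ) [NumberField K] (h2 : Module.finrank ℚ K = 2)
    (him : ∃ x : K, (x : ℂ).im ≠ 0) : ((√(aD K : ℝ) : ℝ) : ℂ) * Complex.I ∈ K := by
  obtain ⟨ω, t, hω⟩ := omg_exists K h2 him
  unfold Co at hω
  have h1 : ((√(aD K : ℝ) : ℝ) : ℂ) * Complex.I = 2 * ((ω : K) : ℂ) - (t : ℂ) := by
    rw [hω]
    push_cast
    ring
  rw [h1]
  exact sub_mem (mul_mem (ofNat_mem K 2) (ω : K).2) (intCast_mem K t)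

theorem lfb1 (K : IntermediateField ℚ ℂ) [NumberField K] (h2 : Module.finrank ℚ K = 2)
    (him : ∃ x : K, (x : ℂ).im ≠ 0) (E : ℕ) (hE : 1 ≤ E)
    (h : ((√(E : ℝ) : ℝ) : ℂ) * Complex.I ∈ K) : ∃ y : ℕ, 1 ≤ y ∧ 4 * E = y ^ 2 * aD K := by
  have hE2 : (((√(E : ℝ) : ℝ) : ℂ) * Complex.I) ^ 2 = -(E : ℂ) := by
    rw [mul_pow, Complex.I_sq, ← Complex.ofReal_pow, Real.sq_sqrt (by positivity)]
    simp
  have hint : IsIntegral ℤ (⟨_, h⟩ : K) := by
    refine IsIntegral.of_pow (n := 2) (by norm_num) ?_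
    have h3 : (⟨_, h⟩ : K) ^ 2 = algebraMap ℤ K (-(E : ℤ)) := by
      apply Subtype.ext
      push_cast
      rw [hE2]
    rw [h3]
    exact isIntegral_algebraMap
  obtain ⟨y, hy⟩ := LFb_int K h2 him _ hint
  apply LFb_sq K (4 * E) (by omega) y
  rw [← hy]
  push_cast
  rw [Real.sqrt_mul (by norm_num), show (4 : ℝ) = 2 ^ 2 by norm_num,
    Real.sqrt_sq (by norm_num)]
  simp

theorem lfb2 (K : IntermediateField ℚ ℂ) [NumberField K] (h2 : Module.finrank ℚ K = 2)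
    (him : ∃ x : K, (x : ℂ).im ≠ 0) (D : ℕ) (hD : 1 ≤ D) (h4 : D % 4 = 0 ∨ D % 4 = 3)
    (h : ((√(D : ℝ) : ℝ) : ℂ) * Complex.I ∈ K) : ∃ y : ℕ, 1 ≤ y ∧ D = y ^ 2 * aD K := by
  have hE2 : (((√(D : ℝ) : ℝ) : ℂ) * Complex.I) ^ 2 = -(D : ℂ) := by
    rw [mul_pow, Complex.I_sq, ← Complex.ofReal_pow, Real.sq_sqrt (by positivity)]
    simp
  obtain ⟨m, hm⟩ : ∃ m : ℕ, 4 * m = D ^ 2 + D := by
    have h5 : 4 ∣ D ^ 2 + D := by
      rcases h4 with h4 | h4 <;>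
      · apply Nat.dvd_of_mod_eq_zero
        simp [Nat.add_mod, Nat.pow_mod, h4]
    obtain ⟨m, hm⟩ := h5
    exact ⟨m, hm.symm⟩
  have hmC : 4 * (m : ℂ) = (D : ℂ) ^ 2 + D := by exact_mod_cast congrArg (Nat.cast (R := ℂ)) hm
  have hx : ((D : ℂ) + ((√(D : ℝ) : ℝ) : ℂ) * Complex.I) / 2 ∈ K :=
    div_mem (add_mem (natCast_mem K D) h) (ofNat_mem K 2)
  have hint : IsIntegral ℤ (⟨_, hx⟩ : K) := by
    refine ⟨Polynomial.X ^ 2 - Polynomial.C (D : ℤ) * Polynomial.X + Polynomial.C (m : ℤ), ?_, ?_⟩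
    · monicity!
    · apply Subtype.ext
      simp only [Polynomial.eval₂_add, Polynomial.eval₂_sub, Polynomial.eval₂_mul,
        Polynomial.eval₂_pow, Polynomial.eval₂_X, Polynomial.eval₂_C]
      push_cast
      linear_combination (1 / 4 : ℂ) * hE2 + (1 / 4 : ℂ) * hmC
  obtain ⟨y, hy⟩ := LFb_int K h2 him _ hint
  apply LFb_sq K D hD y
  rw [← hy]
  simp
  ring

theorem lfb3 (K : IntermediateField ℚ ℂ) [NumberField K] (h2 : Module.finrank ℚ K = 2)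
    (him : ∃ x : K, (x : ℂ).im ≠ 0) (p : ℕ) (hp : p.Prime) (hp2 : p ≠ 2) : ¬ p ^ 2 ∣ aD K := by
  rintro ⟨E, hE⟩
  have hD := aD_pos K
  have hE1 : 1 ≤ E := by
    rcases Nat.eq_zero_or_pos E with h | h
    · subst h
      omega
    · exact h
  have hp0 : (0 : ℝ) < p := by exact_mod_cast hp.pos
  have hsq : √(aD K : ℝ) = p * √(E : ℝ) := by
    rw [hE]
    push_cast
    rw [Real.sqrt_mul (by positivity), Real.sqrt_sq hp0.le]
  have hmem := mem_sq K h2 him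
  have h3 : ((√(E : ℝ) : ℝ) : ℂ) * Complex.I ∈ K := by
    have h4 : ((√(E : ℝ) : ℝ) : ℂ) * Complex.I =
        (((√(aD K : ℝ) : ℝ) : ℂ) * Complex.I) / (p : ℂ) := by
      rw [hsq]
      have hpc : (p : ℂ) ≠ 0 := by exact_mod_cast hp.ne_zero
      push_cast
      field_simp
    rw [h4]
    exact div_mem hmem (natCast_mem K p)
  obtain ⟨y, hy, h5⟩ := lfb1 K h2 him E hE1 h3
  rw [hE] at h5
  have h6 : 4 = y ^ 2 * p ^ 2 := by
    apply Nat.eq_of_mul_eq_mul_right hE1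
    rw [h5]
    ring
  have h7 : p ^ 2 ≤ 4 := by
    rw [h6]
    exact Nat.le_mul_of_pos_left _ (by positivity)
  have h8 : p ≤ 2 := by nlinarith
  have h9 := hp.two_le
  omega

end Pool.Agent.FTL
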