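import Pool.Agent.FTL.LFa
import Pool.Agent.FTL.LFb

/-!
# FTL/LFd: the field and the conductor attached to `D`

PROOF of `fld`.  `lfa` gives the first three parts, `lfb2` gives `D = y ^ 2 aD`, `y ≥ 1`; `aD ≥ 1`
(`aD_pos`), so `D / aD = y ^ 2` and `cf D = y` (`Nat.sqrt_eq'`).  Last part: `n` odd, `n ^ 2 ∣ D`,
`E = D / n ^ 2 ≥ 1`; `√E i = √D i / n ∈ Kf D`, so `lfb1` gives `4 E = y' ^ 2 aD`, hence
`4 y ^ 2 aD = 4 D = n ^ 2 y' ^ 2 aD`, `2 y = n y'`, and `n ∣ y` as `n` is odd.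
-/

set_option autoImplicit false

namespace Pool.Agent.FTL

open NumberField Pool.Agent.FTA Pool.Agent.FTB nonZeroDivisors

theorem fld (D : ℕ) (hD : 1 ≤ D) (h4 : D % 4 = 0 ∨ D % 4 = 3) :
    (∃ _ : NumberField (Kf D), Module.finrank ℚ (Kf D) = 2) ∧
      (∃ x : Kf D, (x : ℂ).im ≠ 0) ∧ D = cf D ^ 2 * aD (Kf D) ∧ 1 ≤ cf D ∧
      ∀ n : ℕ, Odd n → n ^ 2 ∣ D → n ∣ cf D := by
  obtain ⟨⟨nf, h2⟩, him, hs⟩ := lfa D hD
  have := nf
  obtain ⟨y, hy1, hy⟩ := lfb2 (Kf D) h2 him D hD h4 hs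
  have ha : 0 < aD (Kf D) := aD_pos (Kf D)
  have hdiv : D / aD (Kf D) = y ^ 2 := Nat.div_eq_of_eq_mul_left ha hy
  have hcf : cf D = y := by
    unfold cf
    rw [hdiv, Nat.sqrt_eq']
  refine ⟨⟨nf, h2⟩, him, ?_, ?_, ?_⟩
  · rw [hcf]; exact hy
  · rw [hcf]; exact hy1
  · intro n hn hdvd
    rw [hcf]
    obtain ⟨E, hE⟩ := hdvd
    have hE1 : 1 ≤ E := by
      rcases Nat.eq_zero_or_pos E with h | h
      · rw [h, mul_zero] at hE; omega
      · exact h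
    have hn1 : n ≠ 0 := by
      rintro rfl
      simp at hn
    have hmem : ((√(E : ℝ) : ℝ) : ℂ) * Complex.I ∈ Kf D := by
      have h1 : (√(D : ℝ) : ℝ) = n * √(E : ℝ) := by
        have : (D : ℝ) = (n : ℝ) ^ 2 * (E : ℝ) := by exact_mod_cast hE
        rw [this, Real.sqrt_mul (by positivity), Real.sqrt_sq (by positivity)]
      have h3 : ((√(E : ℝ) : ℝ) : ℂ) * Complex.I
          = (((√(D : ℝ) : ℝ) : ℂ) * Complex.I) / ((n : ℕ) : ℂ) := by
        have hn' : ((n : ℕ) : ℂ) ≠ 0 := by exact_mod_cast hn1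
        rw [h1]
        push_cast
        field_simp
      rw [h3]
      exact div_mem hs (natCast_mem _ n)
    obtain ⟨y', hy'1, hy'⟩ := lfb1 (Kf D) h2 him E hE1 hmem
    have e1 : 4 * y ^ 2 * aD (Kf D) = n ^ 2 * y' ^ 2 * aD (Kf D) := by
      calc 4 * y ^ 2 * aD (Kf D) = 4 * (y ^ 2 * aD (Kf D)) := by ring
        _ = 4 * D := by rw [← hy]
        _ = n ^ 2 * (4 * E) := by rw [hE]; ring
        _ = n ^ 2 * (y' ^ 2 * aD (Kf D)) := by rw [← hy']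
        _ = n ^ 2 * y' ^ 2 * aD (Kf D) := by ring
    have e2 : 4 * y ^ 2 = n ^ 2 * y' ^ 2 := Nat.eq_of_mul_eq_mul_right ha e1
    have e3 : (2 * y) ^ 2 = (n * y') ^ 2 := by
      rw [mul_pow, mul_pow]; linarith
    have e4 : 2 * y = n * y' := Nat.pow_left_injective (n := 2) (by norm_num) e3
    have e5 : n ∣ 2 * y := ⟨y', e4⟩
    have hco : Nat.Coprime n 2 := by
      rw [Nat.coprime_comm]
      exact (Nat.coprime_two_left).2 hn
    exact hco.dvd_of_dvd_mul_left e5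

end Pool.Agent.FTL
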