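import Pool.Agent.FTL.LCk
import Pool.Agent.FTL.LCx

/-!
# FTL/LKc: the number of data with given `(K, n, G, m, r)`

PROOF of `lkc`.  `choose` the data for `q ∈ S` and let `x q = mk0 (I q)`.  For `q, q' ∈ S`:
`hdq` (as in `lck`: `m ∣ t1 y1' - t1' y1`) gives `(β, m) = (β', m)` and `hs` gives
`span {β'} * I ^ 5 = span {β} * I' ^ 5` (multiply `(β) = H I ^ 5` by `I' ^ 5` and `(β') = H I' ^ 5` by
`I ^ 5`), so `x q ^ 5 = x q' ^ 5` (`ClassGroup.mk0_eq_mk0_iff`).  So (`lcx`) the set of the `x q` has at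
most `Nat.card {c // c ^ 5 = 1}` elements; for each value use `lck` (`fib_const`).
PROOF of `lk1`.  Now `n = 1`: `G ∣ 1`, so `G = 1`, `m = 1`, `r = 0`: all data have the same
`(G, m, r) = (1, 1, 0)`.  `(β) = (β, 1) I ^ 5 = I ^ 5`, so `x q ^ 5 = 1`.  `x q ≠ 1`: otherwise
`I = span {l}`, with coordinates `(t, y)`, `t ^ 2 + aD K y ^ 2 = 4 absNorm I = 4 N ≤ 16 a ^ 2 < aD K`
(`co_norm`, `hN` with `n = 1`), so `y = 0`, `t = 2 s` even, `l = s` an integer, `|s| ≥ 2` because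
`s ^ 2 = N ≥ 2`; then `I ≤ span {|s|}` contradicts `hI`.  So (`lcx1`) there are at most
`card - 1` values of `x q`.
-/

set_option autoImplicit false

namespace Pool.Agent.FTL

open NumberField Pool.Agent.FTA Pool.Agent.FTB nonZeroDivisors

private theorem lkc_beta (K : IntermediateField ℚ ℂ) [NumberField K] (a n G m r : ℕ) (q : Qt)
    (β : 𝓞 K) (t1 y1 : ℤ) (I : (Ideal (𝓞 K))⁰) (h : DQ K a n G m r q β t1 y1 I) : β ≠ 0 := by
  intro h0
  have h1 := h.cβ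
  rw [h0] at h1
  have h2 : Co K (0 : 𝓞 K) 0 0 := by
    unfold Co
    push_cast
    simp
  obtain ⟨-, hy⟩ := co_unique K 0 _ _ _ _ h1 h2
  have h3 := h.hy
  rw [hy, mul_zero] at h3
  rcases mul_eq_zero.1 h3 with h4 | h4
  · exact h.w0 h4
  · have h5 := h.hf
    have : cf q.1 = 0 := by exact_mod_cast h4
    omega

private theorem lkc_pow (K : IntermediateField ℚ ℂ) [NumberField K]
    (h2 : Module.finrank ℚ K = 2) (him : ∃ x : K, (x : ℂ).im ≠ 0) (a n G m r : ℕ) (q q' : Qt)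
    (β : 𝓞 K) (t1 y1 : ℤ) (I : (Ideal (𝓞 K))⁰) (h : DQ K a n G m r q β t1 y1 I)
    (β' : 𝓞 K) (t1' y1' : ℤ) (I' : (Ideal (𝓞 K))⁰) (h' : DQ K a n G m r q' β' t1' y1' I') :
    ClassGroup.mk0 I ^ 5 = ClassGroup.mk0 I' ^ 5 := by
  have hH := hdq K h2 him m h.om β β' t1 y1 t1' y1' h.cβ h'.cβ h.cy h'.cy (by
    have e : t1 * y1' - t1' * y1 = (t1 - r * y1) * y1' - (t1' - r * y1') * y1 := by ring
    rw [e]
    exact dvd_sub (Dvd.dvd.mul_right h.hr2 _) (Dvd.dvd.mul_right h'.hr2 _))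
  rw [← map_pow, ← map_pow, ClassGroup.mk0_eq_mk0_iff]
  refine ⟨β', β, lkc_beta K a n G m r q' β' t1' y1' I' h', lkc_beta K a n G m r q β t1 y1 I h, ?_⟩
  have e1 := h.hs
  have e2 := h'.hs
  rw [SubmonoidClass.coe_pow, SubmonoidClass.coe_pow]
  calc Ideal.span {β'} * (I : Ideal (𝓞 K)) ^ 5
      = ((Ideal.span {β'} ⊔ Ideal.span {(m : 𝓞 K)}) * (I' : Ideal (𝓞 K)) ^ 5) *
        (I : Ideal (𝓞 K)) ^ 5 := by rw [← e2]
    _ = ((Ideal.span {β} ⊔ Ideal.span {(m : 𝓞 K)}) * (I : Ideal (𝓞 K)) ^ 5) *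
        (I' : Ideal (𝓞 K)) ^ 5 := by rw [← hH]; ring
    _ = Ideal.span {β} * (I' : Ideal (𝓞 K)) ^ 5 := by rw [← e1]

private theorem lkc_nonneg (a n D : ℕ) (T : ℝ) (hT : 1 ≤ T) :
    0 ≤ (5 + 12 * (4 * (a : ℝ) ^ 2 / n) / √(D : ℝ)) * 15 * T := by
  have : 0 ≤ T := by linarith
  positivity

theorem lkc (K : IntermediateField ℚ ℂ) [NumberField K] (h2 : Module.finrank ℚ K = 2)
    (him : ∃ x : K, (x : ℂ).im ≠ 0) (a n G m r Z : ℕ) (T : ℝ) (hT : TauB Z T)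
    (hZ : 64 * a ^ 5 ≤ Z) (S : Finset Qt)
    (hS : ∀ q ∈ S, ∃ (β : 𝓞 K) (t1 y1 : ℤ) (I : (Ideal (𝓞 K))⁰),
      DQ K a n G m r q β t1 y1 I) :
    (S.card : ℝ) ≤ (Nat.card {c : ClassGroup (𝓞 K) // c ^ 5 = 1} : ℝ) *
      ((5 + 12 * (4 * (a : ℝ) ^ 2 / n) / √(aD K : ℝ)) * 15 * T) := by
  classical
  have hb := lkc_nonneg a n (aD K) T hT.1
  rcases S.eq_empty_or_nonempty with hSe | ⟨q0, hq0⟩
  · rw [hSe, Finset.card_empty]
    push_cast
    positivity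
  choose! β t1 y1 I hD using hS
  set x : Qt → ClassGroup (𝓞 K) := fun q => ClassGroup.mk0 (I q) with hx
  have hcard : (S.image x).card ≤ Nat.card {c : ClassGroup (𝓞 K) // c ^ 5 = 1} := by
    apply lcx (ClassGroup (𝓞 K)) (x q0 ^ 5)
    intro y hy
    rw [Finset.mem_image] at hy
    obtain ⟨q, hq, rfl⟩ := hy
    exact lkc_pow K h2 him a n G m r q q0 _ _ _ _ (hD q hq) _ _ _ _ (hD q0 hq0)
  have hfib := Pool.Agent.FTA.fib_const S x (S.image x)
    (fun q hq => Finset.mem_image_of_mem x hq)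
    ((5 + 12 * (4 * (a : ℝ) ^ 2 / n) / √(aD K : ℝ)) * 15 * T) (by
      intro y _
      apply lck K h2 him a n G m r Z T hT hZ y
      intro q hq
      rw [Finset.mem_filter] at hq
      exact ⟨β q, t1 q, y1 q, I q, hD q hq.1, hq.2⟩)
  refine hfib.trans (mul_le_mul_of_nonneg_right ?_ hb)
  exact_mod_cast hcard

private theorem lkc_ne (K : IntermediateField ℚ ℂ) [NumberField K]
    (h2 : Module.finrank ℚ K = 2) (him : ∃ x : K, (x : ℂ).im ≠ 0) (a : ℕ)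
    (haD : 16 * a ^ 2 < aD K) (q : Qt) (β : 𝓞 K) (t1 y1 : ℤ) (I : (Ideal (𝓞 K))⁰)
    (h : DQ K a 1 1 1 0 q β t1 y1 I) : ClassGroup.mk0 I ^ 5 = 1 ∧ ClassGroup.mk0 I ≠ 1 := by
  constructor
  · have e1 := h.hs
    have e2 : Ideal.span {β} ⊔ Ideal.span {((1 : ℕ) : 𝓞 K)} = ⊤ := by
      rw [Nat.cast_one, Ideal.span_singleton_one, sup_top_eq]
    rw [e2, Ideal.top_mul] at e1
    rw [← map_pow]
    have h3 : ((I ^ 5 : (Ideal (𝓞 K))⁰) : Ideal (𝓞 K)).IsPrincipal := by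
      rw [SubmonoidClass.coe_pow, ← e1]
      exact ⟨⟨β, rfl⟩⟩
    exact (ClassGroup.mk0_eq_one_iff (I ^ 5).2).2 h3
  · intro h1
    have h3 : (I : Ideal (𝓞 K)).IsPrincipal := (ClassGroup.mk0_eq_one_iff I.2).1 h1
    obtain ⟨l, hl⟩ := h3
    rw [← Ideal.span] at hl
    obtain ⟨t, y, hty⟩ := co_exists K h2 him l
    have h4 := co_norm K h2 him l t y hty
    rw [← hl] at h4
    have h5 : q.2.1 = Ideal.absNorm (I : Ideal (𝓞 K)) := by
      have := h.hN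
      rw [one_mul] at this
      exact this
    rw [← h5] at h4
    have h6 := h.hN2
    have h7 := h.hN3
    have hy0 : y = 0 := by
      by_contra hy
      have h8 : 1 ≤ y ^ 2 := by
        have : 0 < y ^ 2 := by positivity
        omega
      have h9 : (aD K : ℤ) ≤ (aD K : ℤ) * y ^ 2 := by nlinarith
      have h10 : (16 : ℤ) * (a : ℤ) ^ 2 < aD K := by exact_mod_cast haD
      have h11 : (q.2.1 : ℤ) ≤ 4 * (a : ℤ) ^ 2 := by exact_mod_cast h6
      have h12 : 0 ≤ t ^ 2 := sq_nonneg t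
      linarith
    rw [hy0] at h4 hty
    have hev : Even t := by
      have : Even (t ^ 2) := ⟨2 * (q.2.1 : ℤ), by linarith⟩
      exact (Int.even_pow.1 this).1
    obtain ⟨s, hs⟩ := hev
    have hs2 : s ^ 2 = q.2.1 := by
      rw [hs] at h4
      linarith
    have hls : l = (s : 𝓞 K) := by
      apply co_inj K l (s : 𝓞 K) t 0 hty
      have hc : (((s : 𝓞 K) : K) : ℂ) = (s : ℂ) := by simp
      unfold Co
      rw [hc, hs]
      push_cast
      ring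
    have hsa : 2 ≤ s.natAbs := by
      by_contra hlt
      have h8 : s.natAbs ≤ 1 := by omega
      have h9 : s.natAbs ^ 2 ≤ 1 := by
        calc s.natAbs ^ 2 ≤ 1 ^ 2 := Nat.pow_le_pow_left h8 2
          _ = 1 := by norm_num
      have h10 : ((s.natAbs ^ 2 : ℕ) : ℤ) = s ^ 2 := by
        push_cast
        exact sq_abs s
      have h11 : ((s.natAbs ^ 2 : ℕ) : ℤ) ≤ 1 := by exact_mod_cast h9
      rw [h10, hs2] at h11
      have : (2 : ℤ) ≤ q.2.1 := by exact_mod_cast h7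
      linarith
    refine h.hI s.natAbs hsa ?_
    rw [hl, hls, Ideal.span_singleton_le_span_singleton]
    have h8 : (s.natAbs : ℤ) ∣ s := Int.natAbs_dvd.2 dvd_rfl
    have h9 := map_dvd (Int.castRingHom (𝓞 K)) h8
    simpa using h9

theorem lk1 (K : IntermediateField ℚ ℂ) [NumberField K] (h2 : Module.finrank ℚ K = 2)
    (him : ∃ x : K, (x : ℂ).im ≠ 0) (a Z : ℕ) (T : ℝ) (hT : TauB Z T)
    (hZ : 64 * a ^ 5 ≤ Z) (haD : 16 * a ^ 2 < aD K) (S : Finset Qt)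
    (hS : ∀ q ∈ S, ∃ (G m r : ℕ) (β : 𝓞 K) (t1 y1 : ℤ) (I : (Ideal (𝓞 K))⁰),
      DQ K a 1 G m r q β t1 y1 I) :
    (S.card : ℝ) ≤ ((Nat.card {c : ClassGroup (𝓞 K) // c ^ 5 = 1} : ℝ) - 1) *
      ((5 + 12 * (4 * (a : ℝ) ^ 2) / √(aD K : ℝ)) * 15 * T) := by
  classical
  have hb := lkc_nonneg a 1 (aD K) T hT.1
  rw [Nat.cast_one, div_one] at hb
  have hS' : ∀ q ∈ S, ∃ (β : 𝓞 K) (t1 y1 : ℤ) (I : (Ideal (𝓞 K))⁰),
      DQ K a 1 1 1 0 q β t1 y1 I := by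
    intro q hq
    obtain ⟨G, m, r, β, t1, y1, I, h⟩ := hS q hq
    have hG : G = 1 := by
      have := h.hGd
      rw [one_pow] at this
      exact Nat.dvd_one.1 this
    subst hG
    have hm : m = 1 := by
      have := h.hm
      rw [one_pow, one_pow, one_mul] at this
      exact this
    subst hm
    have hr : r = 0 := by
      have := h.hr
      omega
    subst hr
    exact ⟨β, t1, y1, I, h⟩
  choose! β t1 y1 I hD using hS'
  set x : Qt → ClassGroup (𝓞 K) := fun q => ClassGroup.mk0 (I q) with hx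
  have hcard : (S.image x).card + 1 ≤ Nat.card {c : ClassGroup (𝓞 K) // c ^ 5 = 1} := by
    apply lcx1 (ClassGroup (𝓞 K))
    intro y hy
    rw [Finset.mem_image] at hy
    obtain ⟨q, hq, rfl⟩ := hy
    exact lkc_ne K h2 him a haD q _ _ _ _ (hD q hq)
  have hcard' : ((S.image x).card : ℝ) ≤
      (Nat.card {c : ClassGroup (𝓞 K) // c ^ 5 = 1} : ℝ) - 1 := by
    have : ((S.image x).card : ℝ) + 1 ≤ (Nat.card {c : ClassGroup (𝓞 K) // c ^ 5 = 1} : ℝ) := by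
      exact_mod_cast hcard
    linarith
  have hfib := Pool.Agent.FTA.fib_const S x (S.image x)
    (fun q hq => Finset.mem_image_of_mem x hq)
    ((5 + 12 * (4 * (a : ℝ) ^ 2) / √(aD K : ℝ)) * 15 * T) (by
      intro y _
      have h3 := lck K h2 him a 1 1 1 0 Z T hT hZ y (S.filter fun q => x q = y) (by
        intro q hq
        rw [Finset.mem_filter] at hq
        exact ⟨β q, t1 q, y1 q, I q, hD q hq.1, hq.2⟩)
      rw [Nat.cast_one, div_one] at h3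
      exact h3)
  exact hfib.trans (mul_le_mul_of_nonneg_right hcard' hb)

end Pool.Agent.FTL
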