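import Pool.Agent.FTL.LQd

/-!
# FTL/LMa: two points with the same data

`(N, k, c, v, u, e, w, z)` and `(N', k', c', ...)` have the same `D, N, w, t`.
PROOF of `lma1`.  `b w = t c + 2 N ^ 2 u` gives `b = b'` (`w ≠ 0`); `D c ^ 2 = 4 N ^ 2 k - b ^ 2` gives
`k = k'`; `v w = u ^ 2 - c ^ 2 N` gives `v = v'`; `u e = v ^ 2 N - c ^ 2 k` gives `e = e'` (`u > 0`);
`c z = v ^ 2 k - e ^ 2` gives `z = z'`.
PROOF of `lma2`.  `(u c') ^ 2 - (u' c) ^ 2 = c' ^ 2 (c ^ 2 N + v w) - c ^ 2 (c' ^ 2 N + v' w) =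
w (c' ^ 2 v - c ^ 2 v')`.
PROOF of `lma3`.  `(c1 - c2) u0 = (u1 - u2) c0` (`c_i, u_i` for the three points); `c0` is a prime
not dividing `u0` (coprimality), so `c0 ∣ c1 - c2`, `|c1 - c2| ≤ V / 1000 < c0`, so `c1 = c2`, then
`u1 = u2` (`c0 ≠ 0`) and `lma1` applies.
(`lqd` gives the relations; the equality `qP q = qP q'` gives `dP q = dP q'`, `q.1 = q'.1`, the same
`w`, `tP q = tP q'`.  `w ≠ 0` and `2 ≤ N` are in `Qdq`.)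
-/

set_option autoImplicit false

namespace Pool.Agent.FTL

open Pool.Agent.FTB

theorem lma1 (X V a : ℕ) (R : ℝ) (hP : PL X V a R) (q q' : Pt) (hq : GPr V a R q)
    (hq' : GPr V a R q') (h : qP q = qP q') (hc : q.2.2.1 = q'.2.2.1)
    (hu : q.2.2.2.2.1 = q'.2.2.2.2.1) : q = q' := by
  obtain ⟨hQ, r1, r2, r3⟩ := lqd X V a R hP q hq
  obtain ⟨hQ', r1', r2', r3'⟩ := lqd X V a R hP q' hq'
  have hD : dP q = dP q' := congrArg (fun x : Qt => x.1) h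
  have hN : q.1 = q'.1 := congrArg (fun x : Qt => x.2.1) h
  have hw : q.2.2.2.2.2.2.1 = q'.2.2.2.2.2.2.1 := congrArg (fun x : Qt => x.2.2.1) h
  have ht : tP q = tP q' := congrArg (fun x : Qt => x.2.2.2) h
  have hw0 : q.2.2.2.2.2.2.1 ≠ 0 := hQ.w0
  have hN2 : 2 ≤ q.1 := hQ.N1
  have g := hq.1
  have g' := hq'.1
  obtain ⟨N, k, c, v, u, e, w, z⟩ := q
  obtain ⟨N', k', c', v', u', e', w', z'⟩ := q'
  dsimp only at hc hu hN hw hw0 hN2 r1 r2 r3 r1' r2' r3'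
  subst hN hw hc hu
  have t1 : u * e = (v : ℤ) ^ 2 * N - (c : ℤ) ^ 2 * k := g.t1
  have t2 : (v : ℤ) * w = u ^ 2 - (c : ℤ) ^ 2 * N := g.t2
  have t3 : (c : ℤ) * z = (v : ℤ) ^ 2 * k - e ^ 2 := g.t3
  have t1' : u * e' = (v' : ℤ) ^ 2 * N - (c : ℤ) ^ 2 * k' := g'.t1
  have t2' : (v' : ℤ) * w = u ^ 2 - (c : ℤ) ^ 2 * N := g'.t2
  have t3' : (c : ℤ) * z' = (v' : ℤ) ^ 2 * k' - e' ^ 2 := g'.t3
  have hcp : c.Prime := g.pc
  have hc0 : (c : ℤ) ≠ 0 := by exact_mod_cast hcp.ne_zero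
  have hu1 : (V : ℤ) * a ≤ u := g.u1
  have hVa : (1 : ℤ) ≤ (V : ℤ) * a := by
    have := Nat.mul_le_mul hP.hV hP.ha
    exact_mod_cast this
  have hu0 : u ≠ 0 := by linarith
  have hb : bP (N, k, c, v, u, e, w, z) = bP (N, k', c, v', u, e', w, z') := by
    have h1 : bP (N, k, c, v, u, e, w, z) * w = bP (N, k', c, v', u, e', w, z') * w := by
      rw [ht] at r2
      linarith
    exact mul_right_cancel₀ hw0 h1
  have hk : k = k' := by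
    rw [hb, hD] at r3
    have h1 : (4 * (N : ℤ) ^ 2) * k = (4 * (N : ℤ) ^ 2) * k' := by linarith
    have hN0 : (4 * (N : ℤ) ^ 2) ≠ 0 := by positivity
    exact_mod_cast mul_left_cancel₀ hN0 h1
  have hv : v = v' := by
    have h1 : (v : ℤ) * w = v' * w := by rw [t2, t2']
    exact_mod_cast mul_right_cancel₀ hw0 h1
  subst hk hv
  have he : e = e' := by
    have h1 : u * e = u * e' := by rw [t1, t1']
    exact mul_left_cancel₀ hu0 h1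
  subst he
  have hz : z = z' := by
    have h1 : (c : ℤ) * z = c * z' := by rw [t3, t3']
    exact mul_left_cancel₀ hc0 h1
  subst hz
  rfl

theorem lma2 (X V a : ℕ) (R : ℝ) (hP : PL X V a R) (q q' : Pt) (hq : GPr V a R q)
    (hq' : GPr V a R q') (h : qP q = qP q') :
    q.2.2.2.2.2.2.1 ∣ (q.2.2.2.2.1 * q'.2.2.1 - q'.2.2.2.2.1 * q.2.2.1) *
      (q.2.2.2.2.1 * q'.2.2.1 + q'.2.2.2.2.1 * q.2.2.1) := by
  have hN : q.1 = q'.1 := congrArg (fun x : Qt => x.2.1) h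
  have hw : q.2.2.2.2.2.2.1 = q'.2.2.2.2.2.2.1 := congrArg (fun x : Qt => x.2.2.1) h
  have t2 := hq.1.t2
  have t2' := hq'.1.t2
  rw [← hN, ← hw] at t2'
  refine ⟨(q'.2.2.1 : ℤ) ^ 2 * q.2.2.2.1 - (q.2.2.1 : ℤ) ^ 2 * q'.2.2.2.1, ?_⟩
  linear_combination (-(q'.2.2.1 : ℤ) ^ 2) * t2 + ((q.2.2.1 : ℤ) ^ 2) * t2' 

theorem lma3 (X V a : ℕ) (R : ℝ) (hP : PL X V a R) (q0 q1 q2 : Pt) (h0 : GPr V a R q0)
    (h1 : GPr V a R q1) (h2 : GPr V a R q2) (h : qP q1 = qP q2)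
    (hd : q0.2.2.2.2.1 * q1.2.2.1 - q1.2.2.2.2.1 * q0.2.2.1 =
      q0.2.2.2.2.1 * q2.2.2.1 - q2.2.2.2.2.1 * q0.2.2.1) : q1 = q2 := by
  have g0 := h0.1
  have g1 := h1.1
  have g2 := h2.1
  have hcop : IsCoprime ((q0.2.2.1 : ℤ) * q0.2.2.2.1) (q0.2.2.2.2.1 * q0.2.2.2.2.2.1) := h0.2.1
  have hcop' : IsCoprime (q0.2.2.1 : ℤ) q0.2.2.2.2.1 :=
    (hcop.of_mul_left_left).of_mul_right_left
  have hdvd : (q0.2.2.1 : ℤ) ∣ ((q1.2.2.1 : ℤ) - q2.2.2.1) * q0.2.2.2.2.1 :=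
    ⟨q1.2.2.2.2.1 - q2.2.2.2.2.1, by linear_combination hd⟩
  have hdvd2 : (q0.2.2.1 : ℤ) ∣ ((q1.2.2.1 : ℤ) - q2.2.2.1) := hcop'.dvd_of_dvd_mul_right hdvd
  have e0 : V ≤ q0.2.2.1 := g0.c1
  have e1 : V ≤ q1.2.2.1 := g1.c1
  have e2 : V ≤ q2.2.2.1 := g2.c1
  have e3 : 1000 * q1.2.2.1 ≤ 1001 * V := g1.c2
  have e4 : 1000 * q2.2.2.1 ≤ 1001 * V := g2.c2
  have hV := hP.hV
  have habs : |(q1.2.2.1 : ℤ) - q2.2.2.1| < (q0.2.2.1 : ℤ) := by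
    rw [abs_lt]
    constructor <;> omega
  have hz := Int.eq_zero_of_abs_lt_dvd hdvd2 habs
  have hcc : q1.2.2.1 = q2.2.2.1 := by omega
  have hc0 : (q0.2.2.1 : ℤ) ≠ 0 := by exact_mod_cast g0.pc.ne_zero
  have huu : q1.2.2.2.2.1 = q2.2.2.2.2.1 := by
    rw [hcc] at hd
    have h3 : q1.2.2.2.2.1 * (q0.2.2.1 : ℤ) = q2.2.2.2.2.1 * (q0.2.2.1 : ℤ) := by linarith
    exact mul_right_cancel₀ hc0 h3
  exact lma1 X V a R hP q1 q2 h1 h2 h hcc huu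

end Pool.Agent.FTL
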