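import Pool.Agent.FTL.LQd
import Pool.Agent.FTL.LFd

/-!
# FTL/LMb: `h ∣ u` and `h ^ 2 ∣ w` imply `h ^ 2 ≤ f`

PROOF of `lmb`.  `h ∣ u` and `gcd (c v, u e) = 1`, so `h` is prime to `c` and to `v`.
`h ^ 2 ∣ u ^ 2 - v w = c ^ 2 N`, so `h ^ 2 ∣ N`.  `h ∣ v ^ 2 N - u e = c ^ 2 k`, so `h ∣ k`.  In particular
`h` is odd: otherwise the prime `2 ≤ R` divides `N` and `k`.  `h ^ 2 ∣ k u + N e = v b`, so `h ^ 2 ∣ b`.
`h ^ 4 ∣ 4 N ^ 2 k - b ^ 2 = D c ^ 2`, so `h ^ 4 = (h ^ 2) ^ 2 ∣ D`, and the last part of `fld`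
(`D ≥ 1`, `D ≡ 0, 3` modulo 4 from `lqd`) gives `h ^ 2 ∣ cf D`, `cf D ≥ 1`.
-/

set_option autoImplicit false

namespace Pool.Agent.FTL

open Pool.Agent.FTB

theorem lmb (X V a : ℕ) (R : ℝ) (hP : PL X V a R) (hX : 1 ≤ X) (q : Pt) (hq : GPr V a R q)
    (h : ℕ) (h1 : (h : ℤ) ∣ q.2.2.2.2.1) (h2 : (h : ℤ) ^ 2 ∣ q.2.2.2.2.2.2.1) :
    h ^ 2 ≤ cf (dP q) := by
  obtain ⟨hQ, r1, r2, r3⟩ := lqd X V a R hP q hq
  have hD1 : X ≤ 2 * dP q := hQ.D1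
  have hD3 : dP q % 4 = 0 ∨ dP q % 4 = 3 := hQ.D3
  have hD0 : 1 ≤ dP q := by omega
  obtain ⟨_, _, _, hcf, hodd⟩ := fld (dP q) hD0 hD3
  have hcop := hq.2.1
  have hbad := hq.2.2
  have t1 := hq.1.t1
  have t2 := hq.1.t2
  obtain ⟨N, k, c, v, u, e, w, z⟩ := q
  dsimp only at h1 h2 r1 r2 r3 t1 t2 hcop hbad
  have hcu : IsCoprime (c : ℤ) (h : ℤ) :=
    IsCoprime.of_isCoprime_of_dvd_right (hcop.of_mul_left_left).of_mul_right_left h1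
  have hvu : IsCoprime (v : ℤ) (h : ℤ) :=
    IsCoprime.of_isCoprime_of_dvd_right (hcop.of_mul_left_right).of_mul_right_left h1
  have hN : (h : ℤ) ^ 2 ∣ (N : ℤ) := by
    have h3 : (h : ℤ) ^ 2 ∣ (c : ℤ) ^ 2 * N := by
      have h4 : (c : ℤ) ^ 2 * N = u ^ 2 - v * w := by rw [t2]; ring
      rw [h4]
      exact dvd_sub (pow_dvd_pow_of_dvd h1 2) (Dvd.dvd.mul_left h2 _)
    exact (hcu.symm.pow (m := 2) (n := 2)).dvd_of_dvd_mul_left h3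
  have hhN : (h : ℤ) ∣ (N : ℤ) := (dvd_pow_self (h : ℤ) (two_ne_zero)).trans hN
  have hk : (h : ℤ) ∣ (k : ℤ) := by
    have h3 : (h : ℤ) ∣ (c : ℤ) ^ 2 * k := by
      have h4 : (c : ℤ) ^ 2 * k = (v : ℤ) ^ 2 * N - u * e := by rw [t1]; ring
      rw [h4]
      exact dvd_sub (Dvd.dvd.mul_left hhN _) (Dvd.dvd.mul_right h1 _)
    exact (hcu.symm.pow_right (n := 2)).dvd_of_dvd_mul_left h3
  have hho : Odd h := by
    by_contra hne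
    rw [Nat.not_odd_iff_even] at hne
    have h2h : (2 : ℕ) ∣ h := hne.two_dvd
    have hN' : h ∣ N := by exact_mod_cast hhN
    have hk' : h ∣ k := by exact_mod_cast hk
    exact hbad 2 Nat.prime_two (by exact_mod_cast hP.hR) ⟨h2h.trans hN', h2h.trans hk'⟩
  have hb : (h : ℤ) ^ 2 ∣ bP (N, k, c, v, u, e, w, z) := by
    have h3 : (h : ℤ) ^ 2 ∣ (v : ℤ) * bP (N, k, c, v, u, e, w, z) := by
      rw [r1, sq]
      refine dvd_add (mul_dvd_mul hk h1) (Dvd.dvd.mul_right ?_ _)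
      rw [← sq]; exact hN
    exact (hvu.symm.pow_left (m := 2)).dvd_of_dvd_mul_left h3
  have hDD : ((h : ℤ) ^ 2) ^ 2 ∣ (dP (N, k, c, v, u, e, w, z) : ℤ) := by
    have h3 : ((h : ℤ) ^ 2) ^ 2 ∣ (dP (N, k, c, v, u, e, w, z) : ℤ) * (c : ℤ) ^ 2 := by
      rw [r3]
      refine dvd_sub (Dvd.dvd.mul_right (Dvd.dvd.mul_left (pow_dvd_pow_of_dvd hN 2) _) _)
        (pow_dvd_pow_of_dvd hb 2)
    have h4 : IsCoprime (((h : ℤ) ^ 2) ^ 2) ((c : ℤ) ^ 2) :=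
      ((hcu.symm.pow_left (m := 2)).pow_left (m := 2)).pow_right (n := 2)
    exact h4.dvd_of_dvd_mul_right h3
  have hDn : (h ^ 2) ^ 2 ∣ dP (N, k, c, v, u, e, w, z) := by exact_mod_cast hDD
  exact Nat.le_of_dvd hcf (hodd (h ^ 2) (hho.pow) hDn)

end Pool.Agent.FTL
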