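import Pool.Agent.FTA.Fib
import Pool.Agent.FTL.LMa
import Pool.Agent.FTL.LMb

/-!
# FTL/LMc: the number of points with given data `(D, N, w, t)`

PROOF of `lmc`.  If `S` is empty clear; fix `q0 ∈ S`.  Let `W = |w| ≥ 1` (the same for all
`q ∈ S`), `1.9 V a ^ 2 ≤ W ≤ 3 V a ^ 2` (`lbx`), so `W ≤ Z`.
Write `[q, q'] = u c' - u' c` and `{q, q'} = u c' + u' c`.  Map `q` to `w1 = gcd (W, |[q, q0]|)`, a
divisor of `W` (at most `T` values).  Now fix `w1`, `W = w1 w2`; by `lma2` `W ∣ [q, q0] {q, q0}` and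
`gcd (w2, [q, q0] / w1) = 1`, so `w2 ∣ {q, q0}` for all `q` in the fibre.
Fix `q1` in the fibre.  For `q` in the fibre `c0 [q1, q] = c [q1, q0] - c1 [q, q0] =
c1 {q, q0} - c {q1, q0}` up to sign, so `w1, w2 ∣ c0 [q1, q]`; `c0` is prime to `w` (if `c0 ∣ w` then `c0 ∣ u0 ^ 2`
by the second equation, impossible); so `w1, w2 ∣ [q1, q]`, and `lcm (w1, w2) = W / g` divides `[q1, q]`,
`g = gcd (w1, w2)`.  `g ^ 2 ∣ W`, and `g ∣ [q1, q0] + {q1, q0} = 2 u1 c0`, so `g ∣ 2 u1`.  Let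
`h = g / gcd (g, 2)`; `h ∣ u1`, `h ^ 2 ∣ w`, so `h ^ 2 ≤ f := cf q0d.1` by `lmb` and `g ≤ 2 h ≤ 2 √f`.
The map `q ↦ [q1, q] / (W / g)` (an integer) is injective on the fibre (`lma3`), with absolute value
at most `0.003 V ^ 2 a g / W ≤ 0.003 V ^ 2 a * 2 √f / (1.9 V a ^ 2) ≤ 0.004 √f V / a` since
`u, u1 ∈ [V a, 1.001 V a]`, `c, c1 ∈ [V, 1.001 V]`.  So the fibre has at most `1 + √f V / a` elements.
-/

set_option autoImplicit false

namespace Pool.Agent.FTL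

open Pool.Agent.FTB

/-- `[q, q']` -/
private def br (q q' : Pt) : ℤ := q.2.2.2.2.1 * q'.2.2.1 - q'.2.2.2.2.1 * q.2.2.1

/-- `{q, q'}` -/
private def sr (q q' : Pt) : ℤ := q.2.2.2.2.1 * q'.2.2.1 + q'.2.2.2.2.1 * q.2.2.1

private theorem lmc_id1 (q0 q1 q : Pt) :
    (q0.2.2.1 : ℤ) * br q1 q = q.2.2.1 * br q1 q0 - q1.2.2.1 * br q q0 := by
  unfold br
  ring

private theorem lmc_id2 (q0 q1 q : Pt) :
    (q0.2.2.1 : ℤ) * br q1 q = q.2.2.1 * sr q1 q0 - q1.2.2.1 * sr q q0 := by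
  unfold br sr
  ring

/-- `c` is prime to `w` -/
private theorem lmc_cw (V a : ℕ) (R : ℝ) (q : Pt) (hq : GPr V a R q) :
    IsCoprime (q.2.2.1 : ℤ) q.2.2.2.2.2.2.1 := by
  obtain ⟨hg, hcop, -⟩ := hq
  have hg' : GP V a q.1 q.2.1 q.2.2.1 q.2.2.2.1 q.2.2.2.2.1 q.2.2.2.2.2.1 q.2.2.2.2.2.2.1
    q.2.2.2.2.2.2.2 := hg
  have hpz : Prime (q.2.2.1 : ℤ) := Nat.prime_iff_prime_int.1 hg'.pc
  rw [Prime.coprime_iff_not_dvd hpz]
  intro hd
  have t2 := hg'.t2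
  have h1 : (q.2.2.1 : ℤ) ∣ q.2.2.2.2.1 ^ 2 := by
    have e : q.2.2.2.2.1 ^ 2 = (q.2.2.2.1 : ℤ) * q.2.2.2.2.2.2.1 +
        (q.2.2.1 : ℤ) * ((q.2.2.1 : ℤ) * q.1) := by linear_combination -t2
    rw [e]
    exact dvd_add (Dvd.dvd.mul_left hd _) (dvd_mul_right _ _)
  have h2 : (q.2.2.1 : ℤ) ∣ q.2.2.2.2.1 := hpz.dvd_of_dvd_pow h1
  have h3 : IsCoprime (q.2.2.1 : ℤ) q.2.2.2.2.1 :=
    (hcop.of_mul_left_left).of_mul_right_left
  have h4 : IsUnit (q.2.2.1 : ℤ) := h3.isUnit_of_dvd' dvd_rfl h2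
  exact hpz.not_isUnit h4

/-- `L = g x y` divides `b` if `g x` and `g y` do (`x, y` coprime) -/
private theorem lmc_lcm (g x y : ℕ) (b : ℤ) (hg : 1 ≤ g) (hxy : Nat.Coprime x y)
    (h1 : ((g * x : ℕ) : ℤ) ∣ b) (h2 : ((g * y : ℕ) : ℤ) ∣ b) :
    ((g * x * y : ℕ) : ℤ) ∣ b := by
  have hgb : (g : ℤ) ∣ b := by
    refine dvd_trans ?_ h1
    push_cast
    exact dvd_mul_right _ _
  obtain ⟨b', rfl⟩ := hgb
  have hgz : (g : ℤ) ≠ 0 := by exact_mod_cast (by omega : g ≠ 0)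
  have h1' : (x : ℤ) ∣ b' := by
    push_cast at h1
    exact (mul_dvd_mul_iff_left hgz).1 h1
  have h2' : (y : ℤ) ∣ b' := by
    push_cast at h2
    exact (mul_dvd_mul_iff_left hgz).1 h2
  have h3 : (x : ℤ) * y ∣ b' := (Nat.isCoprime_iff_coprime.2 hxy).mul_dvd h1' h2'
  push_cast
  rw [mul_assoc]
  exact mul_dvd_mul_left _ h3

/-- one fibre -/
private theorem lmc_fib (X V a : ℕ) (R : ℝ) (hP : PL X V a R) (hX : 1 ≤ X) (p : Qt)
    (F : Finset Pt) (q0 q1 : Pt) (w1 w2 : ℕ) (hW : p.2.2.1.natAbs = w1 * w2)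
    (hW1 : 19 * (V * a ^ 2) ≤ 10 * p.2.2.1.natAbs) (h0 : GPr V a R q0 ∧ qP q0 = p)
    (h1 : q1 ∈ F) (hF : ∀ q ∈ F, (GPr V a R q ∧ qP q = p) ∧ (w1 : ℤ) ∣ br q q0 ∧
      (w2 : ℤ) ∣ sr q q0) :
    (F.card : ℝ) ≤ 1 + √(cf p.1 : ℝ) * V / a := by
  classical
  have hVr : (0 : ℝ) < V := by
    have := hP.hV
    exact_mod_cast (by omega : 0 < V)
  have har : (0 : ℝ) < a := by
    have := hP.ha
    exact_mod_cast (by omega : 0 < a)
  have hWpos : 0 < w1 * w2 := by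
    rw [← hW]
    have : 0 < V * a ^ 2 := Nat.mul_pos hP.hV (pow_pos hP.ha 2)
    omega
  have hw1 : 0 < w1 := by
    rcases Nat.eq_zero_or_pos w1 with h' | h'
    · rw [h', zero_mul] at hWpos
      exact absurd hWpos (lt_irrefl 0)
    · exact h'
  obtain ⟨g, x, y, hg, hcxy, hx, hy⟩ : ∃ g x y : ℕ, 1 ≤ g ∧ Nat.Coprime x y ∧ w1 = g * x ∧
      w2 = g * y := by
    refine ⟨Nat.gcd w1 w2, w1 / Nat.gcd w1 w2, w2 / Nat.gcd w1 w2,
      Nat.gcd_pos_of_pos_left _ hw1, Nat.coprime_div_gcd_div_gcd (Nat.gcd_pos_of_pos_left _ hw1),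
      (Nat.mul_div_cancel' (Nat.gcd_dvd_left _ _)).symm,
      (Nat.mul_div_cancel' (Nat.gcd_dvd_right _ _)).symm⟩
  have hwp : ∀ q : Pt, qP q = p → q.2.2.2.2.2.2.1 = p.2.2.1 := by
    intro q hq
    have := congrArg (fun t : Qt => t.2.2.1) hq
    exact this
  -- `c0` is prime to `W`
  have hc0W : IsCoprime (q0.2.2.1 : ℤ) ((w1 * w2 : ℕ) : ℤ) := by
    have h2 := lmc_cw V a R q0 h0.1
    rw [hwp q0 h0.2] at h2
    rw [← hW]
    rw [Int.isCoprime_iff_gcd_eq_one] at h2 ⊢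
    rw [← h2]
    simp [Int.gcd, Int.natAbs_abs]
  have hc0w1 : IsCoprime (q0.2.2.1 : ℤ) (w1 : ℤ) := by
    push_cast at hc0W
    exact hc0W.of_mul_right_left
  have hc0w2 : IsCoprime (q0.2.2.1 : ℤ) (w2 : ℤ) := by
    push_cast at hc0W
    exact hc0W.of_mul_right_right
  -- divisibility of the brackets
  have hdiv : ∀ q ∈ F, ((g * x * y : ℕ) : ℤ) ∣ br q1 q := by
    intro q hq
    obtain ⟨-, ha1, ha2⟩ := hF q hq
    obtain ⟨-, hb1, hb2⟩ := hF q1 h1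
    apply lmc_lcm g x y _ hg hcxy
    · rw [← hx]
      have h3 : (w1 : ℤ) ∣ (q0.2.2.1 : ℤ) * br q1 q := by
        rw [lmc_id1]
        exact dvd_sub (Dvd.dvd.mul_left hb1 _) (Dvd.dvd.mul_left ha1 _)
      exact hc0w1.symm.dvd_of_dvd_mul_left h3
    · rw [← hy]
      have h3 : (w2 : ℤ) ∣ (q0.2.2.1 : ℤ) * br q1 q := by
        rw [lmc_id2]
        exact dvd_sub (Dvd.dvd.mul_left hb2 _) (Dvd.dvd.mul_left ha2 _)
      exact hc0w2.symm.dvd_of_dvd_mul_left h3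
  -- the bound for `g`
  have hgf : (g : ℝ) ≤ 2 * √(cf p.1 : ℝ) := by
    obtain ⟨⟨hq1a, hq1b⟩, hb1, hb2⟩ := hF q1 h1
    have hgw1 : (g : ℤ) ∣ (w1 : ℤ) := by rw [hx]; push_cast; exact dvd_mul_right _ _
    have hgw2 : (g : ℤ) ∣ (w2 : ℤ) := by rw [hy]; push_cast; exact dvd_mul_right _ _
    have h3 : (g : ℤ) ∣ (q0.2.2.1 : ℤ) * (2 * q1.2.2.2.2.1) := by
      have e : (q0.2.2.1 : ℤ) * (2 * q1.2.2.2.2.1) = br q1 q0 + sr q1 q0 := by
        unfold br sr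
        ring
      rw [e]
      exact dvd_add (hgw1.trans hb1) (hgw2.trans hb2)
    have h4 : (g : ℤ) ∣ 2 * q1.2.2.2.2.1 := by
      have hcg : IsCoprime (q0.2.2.1 : ℤ) (g : ℤ) := hc0w1.of_isCoprime_of_dvd_right hgw1
      exact hcg.symm.dvd_of_dvd_mul_left h3
    obtain ⟨h, hh1, hh2, hh3⟩ : ∃ h : ℕ, (h : ℤ) ∣ q1.2.2.2.2.1 ∧ h ∣ g ∧ g ≤ 2 * h := by
      rcases Nat.even_or_odd g with hev | hodd
      · obtain ⟨h, hh⟩ := hev
        refine ⟨h, ?_, ⟨2, by omega⟩, by omega⟩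
        have e : (g : ℤ) = 2 * h := by rw [hh]; push_cast; ring
        rw [e] at h4
        exact (mul_dvd_mul_iff_left (two_ne_zero)).1 h4
      · refine ⟨g, ?_, dvd_rfl, by omega⟩
        have hc2 : IsCoprime (g : ℤ) ((2 : ℕ) : ℤ) :=
          Nat.isCoprime_iff_coprime.2 (Nat.coprime_two_right.2 hodd)
        push_cast at hc2
        exact hc2.dvd_of_dvd_mul_left h4
    have hh4 : (h : ℤ) ^ 2 ∣ q1.2.2.2.2.2.2.1 := by
      rw [hwp q1 hq1b]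
      have e : h ^ 2 ∣ p.2.2.1.natAbs := by
        rw [hW, hx, hy]
        have : g * x * (g * y) = g ^ 2 * (x * y) := by ring
        rw [this]
        exact (pow_dvd_pow_of_dvd hh2 2).trans (dvd_mul_right _ _)
      have e2 : ((h ^ 2 : ℕ) : ℤ) ∣ p.2.2.1 := Int.natCast_dvd.2 e
      push_cast at e2
      exact e2
    have h5 := lmb X V a R hP hX q1 hq1a h hh1 hh4
    have h6 : dP q1 = p.1 := congrArg (fun t : Qt => t.1) hq1b
    rw [h6] at h5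
    have h7 : (h : ℝ) ≤ √(cf p.1 : ℝ) := by
      apply Real.le_sqrt_of_sq_le
      exact_mod_cast h5
    have h8 : (g : ℝ) ≤ 2 * h := by exact_mod_cast hh3
    linarith
  -- the map
  set B : ℕ := ⌊√(cf p.1 : ℝ) * V / (2 * a)⌋₊ with hB
  have hL : 0 < g * x * y := by
    rcases Nat.eq_zero_or_pos (g * x * y) with h' | h'
    · exfalso
      have : w1 * w2 = g * (g * x * y) := by rw [hx, hy]; ring
      rw [h', mul_zero] at this
      omega
    · exact h'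
  have hLz : ((g * x * y : ℕ) : ℤ) ≠ 0 := by exact_mod_cast hL.ne'
  have hmaps : ∀ q ∈ F, br q1 q / ((g * x * y : ℕ) : ℤ) ∈ Finset.Icc (-(B : ℤ)) B := by
    intro q hq
    obtain ⟨t, ht⟩ := hdiv q hq
    rw [ht, Int.mul_ediv_cancel_left _ hLz, Finset.mem_Icc, ← abs_le]
    obtain ⟨⟨hqa, -⟩, -, -⟩ := hF q hq
    obtain ⟨⟨hq1a, -⟩, -, -⟩ := hF q1 h1
    have hg1 : GP V a q.1 q.2.1 q.2.2.1 q.2.2.2.1 q.2.2.2.2.1 q.2.2.2.2.2.1 q.2.2.2.2.2.2.1
      q.2.2.2.2.2.2.2 := hqa.1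
    have hg2 : GP V a q1.1 q1.2.1 q1.2.2.1 q1.2.2.2.1 q1.2.2.2.2.1 q1.2.2.2.2.2.1
      q1.2.2.2.2.2.2.1 q1.2.2.2.2.2.2.2 := hq1a.1
    have hbr : |(br q1 q : ℝ)| ≤ 3 / 1000 * ((V : ℝ) ^ 2 * a) := by
      have a1 : (V : ℝ) ≤ q.2.2.1 := by exact_mod_cast hg1.c1
      have a2 : 1000 * (q.2.2.1 : ℝ) ≤ 1001 * V := by exact_mod_cast hg1.c2
      have a3 : (V : ℝ) * a ≤ q.2.2.2.2.1 := by exact_mod_cast hg1.u1
      have a4 : 1000 * (q.2.2.2.2.1 : ℝ) ≤ 1001 * (V * a) := by exact_mod_cast hg1.u2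
      have b1 : (V : ℝ) ≤ q1.2.2.1 := by exact_mod_cast hg2.c1
      have b2 : 1000 * (q1.2.2.1 : ℝ) ≤ 1001 * V := by exact_mod_cast hg2.c2
      have b3 : (V : ℝ) * a ≤ q1.2.2.2.2.1 := by exact_mod_cast hg2.u1
      have b4 : 1000 * (q1.2.2.2.2.1 : ℝ) ≤ 1001 * (V * a) := by exact_mod_cast hg2.u2
      have hVa : (0 : ℝ) < V * a := by positivity
      have c1 : (V : ℝ) * a * V ≤ q1.2.2.2.2.1 * q.2.2.1 :=
        mul_le_mul b3 a1 hVr.le (by linarith)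
      have c2 : (q1.2.2.2.2.1 : ℝ) * q.2.2.1 ≤ (1001 / 1000 * (V * a)) * (1001 / 1000 * V) :=
        mul_le_mul (by linarith) (by linarith) (by linarith) (by positivity)
      have c3 : (V : ℝ) * a * V ≤ q.2.2.2.2.1 * q1.2.2.1 :=
        mul_le_mul a3 b1 hVr.le (by linarith)
      have c4 : (q.2.2.2.2.1 : ℝ) * q1.2.2.1 ≤ (1001 / 1000 * (V * a)) * (1001 / 1000 * V) :=
        mul_le_mul (by linarith) (by linarith) (by linarith) (by positivity)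
      have hVVa : 0 < (V : ℝ) ^ 2 * a := by positivity
      unfold br
      push_cast
      rw [abs_le]
      constructor
      · nlinarith
      · nlinarith
    rw [ht] at hbr
    push_cast at hbr
    have hLr : (0 : ℝ) < (g : ℝ) * x * y := by exact_mod_cast hL
    rw [abs_mul, abs_of_pos hLr] at hbr
    have hWr : (19 : ℝ) * (V * a ^ 2) ≤ 10 * ((g : ℝ) * (g * x * y)) := by
      have e : (10 : ℝ) * ((g : ℝ) * (g * x * y)) = ((10 * p.2.2.1.natAbs : ℕ) : ℝ) := by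
        rw [hW, hx, hy]
        push_cast
        ring
      rw [e]
      exact_mod_cast hW1
    have hgpos : (0 : ℝ) < g := by exact_mod_cast hg
    have habs : 0 ≤ |(t : ℝ)| := abs_nonneg _
    have hVa2 : (0 : ℝ) < V * (a : ℝ) ^ 2 := by positivity
    have key : |(t : ℝ)| ≤ √(cf p.1 : ℝ) * V / (2 * a) := by
      rw [le_div_iff₀ (by positivity)]
      -- `|t| W ≤ 3/1000 V^2 a g`
      have k1 : |(t : ℝ)| * (19 * (V * a ^ 2)) ≤ |(t : ℝ)| * (10 * ((g : ℝ) * (g * x * y))) :=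
        mul_le_mul_of_nonneg_left hWr habs
      have k2 : (g : ℝ) * ((g : ℝ) * x * y * |(t : ℝ)|) ≤ g * (3 / 1000 * ((V : ℝ) ^ 2 * a)) :=
        mul_le_mul_of_nonneg_left hbr hgpos.le
      have k3 : (g : ℝ) * (3 / 1000 * ((V : ℝ) ^ 2 * a)) ≤
          2 * √(cf p.1 : ℝ) * (3 / 1000 * ((V : ℝ) ^ 2 * a)) :=
        mul_le_mul_of_nonneg_right hgf (by positivity)
      have k4 : |(t : ℝ)| * (19 * (V * (a : ℝ) ^ 2)) ≤
          60 / 1000 * (√(cf p.1 : ℝ) * ((V : ℝ) ^ 2 * a)) := by nlinarith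
      have hVa : (0 : ℝ) < V * a := by positivity
      have k5 : (V * a : ℝ) * (19 * (|(t : ℝ)| * a)) ≤
          (V * a : ℝ) * (60 / 1000 * (√(cf p.1 : ℝ) * V)) := by nlinarith
      have k6 := le_of_mul_le_mul_left k5 hVa
      have k7 : 0 ≤ √(cf p.1 : ℝ) * V := by positivity
      nlinarith
    have hfl : ((|t| : ℤ) : ℝ) ≤ √(cf p.1 : ℝ) * V / (2 * a) := by
      push_cast
      exact key
    have hnat : (t.natAbs : ℝ) ≤ √(cf p.1 : ℝ) * V / (2 * a) := by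
      rw [Nat.cast_natAbs]
      exact hfl
    have h9 : t.natAbs ≤ B := Nat.le_floor hnat
    have h10 : (t.natAbs : ℤ) = |t| := Int.natCast_natAbs t
    rw [← h10]
    exact_mod_cast h9
  have hinj : Set.InjOn (fun q : Pt => br q1 q / ((g * x * y : ℕ) : ℤ)) F := by
    intro q hq q' hq' hqq
    simp only at hqq
    have e1 : br q1 q = br q1 q' := by
      obtain ⟨t, ht⟩ := hdiv q hq
      obtain ⟨t', ht'⟩ := hdiv q' hq'
      rw [ht, ht', Int.mul_ediv_cancel_left _ hLz, Int.mul_ediv_cancel_left _ hLz] at hqq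
      rw [ht, ht', hqq]
    have h2 := (hF q hq).1
    have h3 := (hF q' hq').1
    exact lma3 X V a R hP q1 q q' (hF q1 h1).1.1 h2.1 h3.1 (h2.2.trans h3.2.symm) e1
  have hcard : F.card ≤ (Finset.Icc (-(B : ℤ)) B).card :=
    Finset.card_le_card_of_injOn _ hmaps hinj
  rw [Int.card_Icc] at hcard
  have hcard2 : F.card ≤ 2 * B + 1 := by omega
  have hBr : (B : ℝ) ≤ √(cf p.1 : ℝ) * V / (2 * a) := Nat.floor_le (by positivity)
  have hcard3 : (F.card : ℝ) ≤ 2 * B + 1 := by exact_mod_cast hcard2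
  have e : 2 * (√(cf p.1 : ℝ) * V / (2 * a)) = √(cf p.1 : ℝ) * V / a := by
    field_simp
  linarith

theorem lmc (X V a Z : ℕ) (R T : ℝ) (hP : PL X V a R) (hX : 1 ≤ X) (hT : TauB Z T)
    (hZ : 3 * (V * a ^ 2) ≤ Z) (p : Qt) (S : Finset Pt)
    (hS : ∀ q ∈ S, GPr V a R q ∧ qP q = p) :
    (S.card : ℝ) ≤ T * (1 + √(cf p.1 : ℝ) * V / a) := by
  classical
  have hT1 : 1 ≤ T := hT.1
  have hb0 : 0 ≤ 1 + √(cf p.1 : ℝ) * V / a := by positivity
  rcases S.eq_empty_or_nonempty with hSe | ⟨q0, hq0⟩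
  · rw [hSe, Finset.card_empty]
    push_cast
    positivity
  obtain ⟨hg0, hp0⟩ := hS q0 hq0
  obtain ⟨hQ, e1, e2, e3⟩ := lqd X V a R hP q0 hg0
  have hwp : ∀ q : Pt, qP q = p → q.2.2.2.2.2.2.1 = p.2.2.1 := by
    intro q hq
    have := congrArg (fun t : Qt => t.2.2.1) hq
    exact this
  obtain ⟨-, -, hw0, hW1, hW2, -⟩ := lbx X V a R hP _ _ _ _ _ _ _ _ _ _ hg0.1 e1 e3
  rw [hwp q0 hp0] at hw0 hW1 hW2
  set W : ℕ := p.2.2.1.natAbs with hW
  have hWpos : 1 ≤ W := by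
    have : 0 < V * a ^ 2 := Nat.mul_pos hP.hV (pow_pos hP.ha 2)
    omega
  have hdivT : (W.divisors.card : ℝ) ≤ T := hT.2 W hWpos (hW2.trans hZ)
  have hmaps : ∀ q ∈ S, Nat.gcd W (br q q0).natAbs ∈ W.divisors := by
    intro q _
    rw [Nat.mem_divisors]
    exact ⟨Nat.gcd_dvd_left _ _, by omega⟩
  have hfib : (S.card : ℝ) ≤ (W.divisors.card : ℝ) * (1 + √(cf p.1 : ℝ) * V / a) := by
    apply Pool.Agent.FTA.fib_const S (fun q => Nat.gcd W (br q q0).natAbs) W.divisors hmaps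
    intro w1 hw1
    rw [Nat.mem_divisors] at hw1
    obtain ⟨⟨w2, hw2⟩, -⟩ := hw1
    rcases (S.filter fun q => Nat.gcd W (br q q0).natAbs = w1).eq_empty_or_nonempty with he | ⟨q1, hq1⟩
    · rw [he, Finset.card_empty]
      push_cast
      exact hb0
    · apply lmc_fib X V a R hP hX p _ q0 q1 w1 w2 hw2 hW1 ⟨hg0, hp0⟩ hq1
      intro q hq
      rw [Finset.mem_filter] at hq
      obtain ⟨hqS, hqg⟩ := hq
      refine ⟨hS q hqS, ?_, ?_⟩
      · rw [← hqg]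
        exact Int.natCast_dvd.2 (Nat.gcd_dvd_right _ _)
      · -- `w2` divides `{q, q0}`
        have hl := lma2 X V a R hP q q0 (hS q hqS).1 hg0 ((hS q hqS).2.trans hp0.symm)
        rw [hwp q (hS q hqS).2] at hl
        have hl2 : W ∣ (br q q0).natAbs * (sr q q0).natAbs := by
          have h5 : p.2.2.1 ∣ br q q0 * sr q q0 := hl
          have h6 := Int.natAbs_dvd_natAbs.2 h5
          rw [Int.natAbs_mul] at h6
          exact h6
        have hw1pos : 0 < w1 := by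
          rcases Nat.eq_zero_or_pos w1 with h' | h'
          · rw [h', zero_mul] at hw2
            omega
          · exact h'
        obtain ⟨b', hb'⟩ : w1 ∣ (br q q0).natAbs := by
          rw [← hqg]
          exact Nat.gcd_dvd_right _ _
        have hcop : Nat.Coprime w2 b' := by
          have h7 : Nat.gcd (w1 * w2) (w1 * b') = w1 := by
            rw [← hw2, ← hb']
            exact hqg
          rw [Nat.gcd_mul_left] at h7
          have h8 : w1 * Nat.gcd w2 b' = w1 * 1 := by rw [h7, mul_one]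
          exact Nat.eq_of_mul_eq_mul_left hw1pos h8
        rw [hb', hw2, mul_assoc] at hl2
        have h9 : w2 ∣ b' * (sr q q0).natAbs := Nat.dvd_of_mul_dvd_mul_left hw1pos hl2
        exact Int.natCast_dvd.2 (hcop.dvd_of_dvd_mul_left h9)
  calc (S.card : ℝ) ≤ (W.divisors.card : ℝ) * (1 + √(cf p.1 : ℝ) * V / a) := hfib
    _ ≤ T * (1 + √(cf p.1 : ℝ) * V / a) := mul_le_mul_of_nonneg_right hdivT hb0

end Pool.Agent.FTL
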