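import Pool.Agent.FTA.Fam
import Pool.Agent.FTL.LKc
import Pool.Agent.FTL.LDt
import Pool.Agent.FTL.LMc

/-!
# FTL/LGd: the points with small conductor

PROOF of `lgd1`.  `S` is a finite set of data with `cf < R`.  For `q ∈ S` let `n = nS N t`.  `n = 1`:
otherwise let `p` be a prime dividing `n`; by `lns` `R < p`, `p ^ 2 ∣ D`, `p` odd, so `p ∣ cf D` by `fld`,
`p ≤ cf D < R`, a contradiction.  `aD K = D / f ^ 2 > X / (2 R ^ 2) ≥ 16 a ^ 2` for `K = Kf q.1`, and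
`√(aD K) ≥ √X / (√2 R)`, so `12 (4 a ^ 2) / √(aD K) ≤ 68 R a ^ 2 / √X ≤ 68 R`.  `Kf q.1 ∈ IQ X` (`fld`,
`aD ≤ D ≤ X`).  `fib` with `q ↦ Kf q.1` into `(famFin X).toFinset`, and `lk1` (data from `ldt`) for the
fibres (the fibre over a `K` with `16 a ^ 2 < aD K` false is empty; note `card - 1 ≥ 0`):
`card S ≤ ∑ K, (card - 1) (5 + 68 R) 15 T ≤ 1095 R T ∑ K, (card - 1)`.
PROOF of `lgd`.  The data `qP q` (`lqd`) of the points form a finite set as in `lgd1`, and over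
every value there are at most `T (1 + √R V / a) ≤ 2 R T` points (`lmc`, `V ≤ a`, `R ≥ 2`).
-/

set_option autoImplicit false

namespace Pool.Agent.FTL

open NumberField Pool.Agent.FTA Pool.Agent.FTB nonZeroDivisors

/-- a datum with small conductor has `nS = 1` -/
private theorem LGd_one (X a : ℕ) (R : ℝ) (hX : 1 ≤ X) (hR : 2 ≤ R) (q : Qt)
    (hq : Qdq X a R q) (hf : (cf q.1 : ℝ) < R) :
    nS q.2.1 q.2.2.2 = 1 ∧ q.1 = cf q.1 ^ 2 * aD (Kf q.1) ∧ 1 ≤ cf q.1 ∧ q.1 ≤ X ∧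
      X ≤ 2 * q.1 ∧ Kf q.1 ∈ IQ X := by
  have hq' : Qd X a R q.1 q.2.1 q.2.2.1 q.2.2.2 := hq
  have hD1 := hq'.D1
  have hD2 := hq'.D2
  have hD : 1 ≤ q.1 := by omega
  obtain ⟨⟨f01, f02⟩, f03, f1, f2, f3⟩ := fld q.1 hD hq'.D3
  obtain ⟨-, g3, -, g5⟩ := lns X a R hR q.1 q.2.1 q.2.2.1 q.2.2.2 hq'
  have haD : aD (Kf q.1) ≤ X := by
    have h1 : 1 ≤ cf q.1 ^ 2 := Nat.one_le_pow _ _ f2
    calc aD (Kf q.1) ≤ cf q.1 ^ 2 * aD (Kf q.1) := Nat.le_mul_of_pos_left _ h1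
      _ = q.1 := f1.symm
      _ ≤ X := hD2
  refine ⟨?_, f1, f2, hD2, hD1, f01, f02, f03, haD⟩
  rw [Nat.eq_one_iff_not_exists_prime_dvd]
  intro p hpp hpd
  obtain ⟨-, -, k3, k4⟩ := g5 p hpp hpd
  have hp2 : 2 < p := by
    have : (2 : ℝ) < (p : ℝ) := lt_of_le_of_lt hR k3
    exact_mod_cast this
  have hodd : Odd p := hpp.odd_of_ne_two (by omega)
  have h1 : p ≤ cf q.1 := Nat.le_of_dvd f2 (f3 p hodd k4)
  have h2 : (p : ℝ) ≤ cf q.1 := by exact_mod_cast h1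
  linarith

/-- the number of classes -/
private theorem LGd_cl (X : ℕ) (K : IntermediateField ℚ ℂ) (hK : K ∈ IQ X) :
    (0 : ℝ) ≤ (Nat.card {c : ClassGroup (𝓞 K) // c ^ 5 = 1} : ℝ) - 1 := by
  obtain ⟨hN, -, -, -⟩ := hK
  have hne : Nonempty {c : ClassGroup (𝓞 K) // c ^ 5 = 1} := ⟨⟨1, one_pow 5⟩⟩
  have hpos : 0 < Nat.card {c : ClassGroup (𝓞 K) // c ^ 5 = 1} := Nat.card_pos
  have : (1 : ℝ) ≤ (Nat.card {c : ClassGroup (𝓞 K) // c ^ 5 = 1} : ℝ) := by exact_mod_cast hpos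
  linarith

theorem lgd1 (X a Z : ℕ) (R T : ℝ) (hX : 1 ≤ X) (hR : 2 ≤ R) (haX : a ^ 4 ≤ X)
    (haR : 32 * (a : ℝ) ^ 2 * R ^ 2 ≤ X) (hT : TauB Z T) (hZ : (4 * X) ^ 5 ≤ Z)
    (S : Finset Qt) (hS : ∀ q ∈ S, Qdq X a R q ∧ (cf q.1 : ℝ) < R) :
    (S.card : ℝ) ≤ 1095 * R * T *
      ∑ᶠ K ∈ IQ X, ((Nat.card {c : ClassGroup (𝓞 K) // c ^ 5 = 1} : ℝ) - 1) := by
  classical
  have hT1 := hT.1
  have hX0 : (1 : ℝ) ≤ X := by exact_mod_cast hX
  have h64 : 64 * a ^ 5 ≤ Z := by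
    refine le_trans ?_ hZ
    rcases Nat.eq_zero_or_pos a with h | h
    · rw [h]
      simp
    · calc 64 * a ^ 5 ≤ 64 * a ^ 20 :=
            Nat.mul_le_mul_left 64 (Nat.pow_le_pow_right h (by norm_num))
        _ ≤ 1024 * a ^ 20 := by gcongr; norm_num
        _ = (4 * a ^ 4) ^ 5 := by ring
        _ ≤ (4 * X) ^ 5 := by gcongr
  have hsX : 0 < √(X : ℝ) := Real.sqrt_pos.2 (by linarith)
  have ha2 : (a : ℝ) ^ 2 ≤ √(X : ℝ) := by
    apply Real.le_sqrt_of_sq_le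
    have h1 : ((a : ℝ) ^ 2) ^ 2 = (a : ℝ) ^ 4 := by ring
    rw [h1]
    exact_mod_cast haX
  rw [finsum_mem_eq_finite_toFinset_sum _ (famFin X), Finset.mul_sum]
  refine fib S (fun q => Kf q.1) (famFin X).toFinset ?_
    (fun K => 1095 * R * T * ((Nat.card {c : ClassGroup (𝓞 K) // c ^ 5 = 1} : ℝ) - 1)) ?_
  · intro q hq
    obtain ⟨h1, h2⟩ := hS q hq
    exact (Set.Finite.mem_toFinset _).2 (LGd_one X a R hX hR q h1 h2).2.2.2.2.2
  · intro K hK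
    have hKI : K ∈ IQ X := (Set.Finite.mem_toFinset _).1 hK
    have hcl := LGd_cl X K hKI
    rcases (S.filter (fun q => Kf q.1 = K)).eq_empty_or_nonempty with hSe | ⟨q0, hq0⟩
    · rw [hSe, Finset.card_empty, Nat.cast_zero]
      have : 0 ≤ R * T := by nlinarith
      have h3 : 0 ≤ 1095 * R * T := by linarith
      exact mul_nonneg h3 hcl
    obtain ⟨hN, k2, kim, -⟩ := hKI
    obtain ⟨hq1, hq2⟩ := Finset.mem_filter.1 hq0
    obtain ⟨h1, h2⟩ := hS q0 hq1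
    obtain ⟨-, g1, g2, g3, g4, -⟩ := LGd_one X a R hX hR q0 h1 h2
    rw [hq2] at g1
    have haD0 : (0 : ℝ) ≤ aD K := Nat.cast_nonneg _
    have hlow : (X : ℝ) ≤ 2 * R ^ 2 * (aD K : ℝ) := by
      have e1 : (X : ℝ) ≤ 2 * ((cf q0.1 : ℝ) ^ 2 * (aD K : ℝ)) := by
        have e2 : X ≤ 2 * (cf q0.1 ^ 2 * aD K) := by
          calc X ≤ 2 * q0.1 := g4
            _ = 2 * (cf q0.1 ^ 2 * aD K) := congrArg (fun z => 2 * z) g1
        exact_mod_cast e2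
      have e3 : (cf q0.1 : ℝ) ^ 2 ≤ R ^ 2 := by
        have : (0 : ℝ) ≤ cf q0.1 := Nat.cast_nonneg _
        gcongr
      calc (X : ℝ) ≤ 2 * ((cf q0.1 : ℝ) ^ 2 * (aD K : ℝ)) := e1
        _ ≤ 2 * (R ^ 2 * (aD K : ℝ)) := by gcongr
        _ = _ := by ring
    have haDpos : 0 < (aD K : ℝ) := by
      rcases haD0.lt_or_eq with h | h
      · exact h
      · rw [← h] at hlow
        linarith
    have hlow' : (X : ℝ) < 2 * R ^ 2 * (aD K : ℝ) := by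
      have e1 : (X : ℝ) ≤ 2 * ((cf q0.1 : ℝ) ^ 2 * (aD K : ℝ)) := by
        have e2 : X ≤ 2 * (cf q0.1 ^ 2 * aD K) := by
          calc X ≤ 2 * q0.1 := g4
            _ = 2 * (cf q0.1 ^ 2 * aD K) := congrArg (fun z => 2 * z) g1
        exact_mod_cast e2
      have e3 : (cf q0.1 : ℝ) ^ 2 < R ^ 2 := by
        have : (0 : ℝ) ≤ cf q0.1 := Nat.cast_nonneg _
        gcongr
      calc (X : ℝ) ≤ 2 * ((cf q0.1 : ℝ) ^ 2 * (aD K : ℝ)) := e1
        _ < 2 * (R ^ 2 * (aD K : ℝ)) := by gcongr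
        _ = _ := by ring
    have h16 : 16 * a ^ 2 < aD K := by
      have e1 : (16 * (a : ℝ) ^ 2) * (2 * R ^ 2) < (aD K : ℝ) * (2 * R ^ 2) := by
        calc (16 * (a : ℝ) ^ 2) * (2 * R ^ 2) = 32 * (a : ℝ) ^ 2 * R ^ 2 := by ring
          _ ≤ (X : ℝ) := haR
          _ < 2 * R ^ 2 * (aD K : ℝ) := hlow'
          _ = _ := by ring
      have e2 : 16 * (a : ℝ) ^ 2 < (aD K : ℝ) := lt_of_mul_lt_mul_right e1 (by positivity)
      exact_mod_cast e2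
    have hsD : 12 * √(X : ℝ) / (17 * R) ≤ √(aD K : ℝ) := by
      apply Real.le_sqrt_of_sq_le
      rw [div_pow, mul_pow, Real.sq_sqrt (by linarith), div_le_iff₀ (by positivity)]
      have : 0 ≤ R ^ 2 * (aD K : ℝ) := by positivity
      nlinarith
    have hR0 : 0 < R := by linarith
    have hterm : 12 * (4 * (a : ℝ) ^ 2) / √(aD K : ℝ) ≤ 68 * R := by
      calc 12 * (4 * (a : ℝ) ^ 2) / √(aD K : ℝ)
          ≤ 12 * (4 * (a : ℝ) ^ 2) / (12 * √(X : ℝ) / (17 * R)) := by gcongr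
        _ ≤ 12 * (4 * √(X : ℝ)) / (12 * √(X : ℝ) / (17 * R)) := by gcongr
        _ = 68 * R := by
          field_simp
          norm_num
    have h3 := lk1 K k2 kim a Z T hT h64 h16 (S.filter (fun q => Kf q.1 = K)) (by
      intro q hq
      obtain ⟨hq1, hq2⟩ := Finset.mem_filter.1 hq
      obtain ⟨d1, d2⟩ := hS q hq1
      have h4 := ldt X a R hX hR K k2 kim q d1 hq2
      rw [(LGd_one X a R hX hR q d1 d2).1] at h4
      exact h4)
    refine h3.trans ?_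
    have hlast : (5 + 68 * R) * 15 * T ≤ 1095 * R * T := by
      have e1 : (5 + 68 * R) * 15 ≤ 1095 * R := by linarith
      exact mul_le_mul_of_nonneg_right e1 (by linarith)
    calc ((Nat.card {c : ClassGroup (𝓞 K) // c ^ 5 = 1} : ℝ) - 1) *
          ((5 + 12 * (4 * (a : ℝ) ^ 2) / √(aD K : ℝ)) * 15 * T)
        ≤ ((Nat.card {c : ClassGroup (𝓞 K) // c ^ 5 = 1} : ℝ) - 1) *
          ((5 + 68 * R) * 15 * T) := by gcongr
      _ ≤ ((Nat.card {c : ClassGroup (𝓞 K) // c ^ 5 = 1} : ℝ) - 1) * (1095 * R * T) :=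
        mul_le_mul_of_nonneg_left hlast hcl
      _ = _ := by ring

theorem lgd (X V a Z : ℕ) (R T : ℝ) (hP : PL X V a R) (hX : 1 ≤ X) (hVa : V ≤ a)
    (haR : 32 * (a : ℝ) ^ 2 * R ^ 2 ≤ X) (hT : TauB Z T) (hZ : (4 * X) ^ 5 ≤ Z)
    (S : Finset Pt) (hS : ∀ q ∈ S, GPr V a R q ∧ (cf (dP q) : ℝ) < R) :
    (S.card : ℝ) ≤ 2190 * R ^ 2 * T ^ 2 *
      ∑ᶠ K ∈ IQ X, ((Nat.card {c : ClassGroup (𝓞 K) // c ^ 5 = 1} : ℝ) - 1) := by
  classical
  have hT1 := hT.1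
  have hR := hP.hR
  have ha := hP.ha
  have ha0 : (1 : ℝ) ≤ a := by exact_mod_cast ha
  have hR0 : 0 < R := by linarith
  have hsub : ∀ q ∈ S.image qP, Qdq X a R q ∧ (cf q.1 : ℝ) < R := by
    intro y hy
    obtain ⟨q, hq, rfl⟩ := Finset.mem_image.1 hy
    obtain ⟨h1, h2⟩ := hS q hq
    exact ⟨(lqd X V a R hP q h1).1, h2⟩
  have h1 := lgd1 X a Z R T hX hR hP.haX haR hT hZ (S.image qP) hsub
  have hZ3 : 3 * (V * a ^ 2) ≤ Z := by
    calc 3 * (V * a ^ 2) ≤ 3 * (a * a ^ 2) := by gcongr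
      _ = 3 * a ^ 3 := by ring
      _ ≤ 3 * a ^ 4 := Nat.mul_le_mul_left 3 (Nat.pow_le_pow_right ha (by norm_num))
      _ ≤ 3 * X := Nat.mul_le_mul_left 3 hP.haX
      _ ≤ (4 * X) ^ 1 := by
        rw [pow_one]
        omega
      _ ≤ (4 * X) ^ 5 := Nat.pow_le_pow_right (by omega) (by norm_num)
      _ ≤ Z := hZ
  have h2 : (S.card : ℝ) ≤ (S.image qP).card * (2 * R * T) := by
    refine fib_const S qP (S.image qP) (fun q hq => Finset.mem_image_of_mem _ hq) _ ?_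
    intro y hy
    have h3 := lmc X V a Z R T hP hX hT hZ3 y (S.filter (fun q => qP q = y)) (by
      intro q hq
      obtain ⟨hq1, hq2⟩ := Finset.mem_filter.1 hq
      exact ⟨(hS q hq1).1, hq2⟩)
    refine h3.trans ?_
    have hcf := (hsub y hy).2
    have e1 : √(cf y.1 : ℝ) ≤ R := by
      calc √(cf y.1 : ℝ) ≤ √(R ^ 2) := by
            apply Real.sqrt_le_sqrt
            nlinarith
        _ = R := Real.sqrt_sq hR0.le
    have e2 : √(cf y.1 : ℝ) * V / a ≤ R := by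
      rw [div_le_iff₀ (by linarith)]
      have e3 : (V : ℝ) ≤ a := by exact_mod_cast hVa
      have e4 : (0 : ℝ) ≤ V := Nat.cast_nonneg _
      gcongr
    calc T * (1 + √(cf y.1 : ℝ) * V / a) ≤ T * (R + R) := by
          gcongr
          linarith
      _ = 2 * R * T := by ring
  calc (S.card : ℝ) ≤ (S.image qP).card * (2 * R * T) := h2
    _ ≤ (1095 * R * T * ∑ᶠ K ∈ IQ X,
        ((Nat.card {c : ClassGroup (𝓞 K) // c ^ 5 = 1} : ℝ) - 1)) * (2 * R * T) := by gcongr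
    _ = _ := by ring

end Pool.Agent.FTL
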