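import Pool.Agent.FTL.LQF
import Pool.Agent.FTL.LMc

/-!
# FTL/LTl: the points with large conductor

PROOF of `ltl`.  `C = 16 C1`, `C1` from `lqf`.  Let `i q = Nat.log 2 (cf (dP q))` for `q ∈ S`, so
`2 ^ i ≤ f < 2 ^ (i + 1)`, `f ^ 2 ≤ D ≤ X` so `i ≤ Nat.log 2 X`, at most `Nat.log 2 X + 1 ≤ 2 L`
values.  Fix `i`, `F = 2 ^ i`, `F ≥ f / 2 ≥ R / 2`.  The data `qP q` of the `q` in the fibre form a
finite set with `Qdq X a R`, `F ≤ cf < 2 F` (`lqd`), so by `lqf` at most `C1 T ^ 3 Q L X ^ (1 + ε) / F`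
values, and over every value there are at most `T (1 + √(2 F) V / a)` points (`lmc`).  So
the fibre has at most `C1 T ^ 4 Q L X ^ (1 + ε) (1 / F + 2 (V / a) / √F) ≤
C1 T ^ 4 Q L X ^ (1 + ε) (2 / R + 4 (V / a) / √R)` elements.  Sum over `i`.
(`Z`: `3 V a ^ 2 ≤ Z` from `V ≤ a`, `a ^ 4 ≤ X`.)
-/

set_option autoImplicit false

namespace Pool.Agent.FTL

open Pool.Agent.FTB

/-- the exponent of the dyadic range of the conductor is at most `Nat.log 2 X` -/
private theorem ltl_log (X D : ℕ) (hD : D ≤ X) : Nat.log 2 (cf D) ≤ Nat.log 2 X := by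
  apply Nat.log_mono_right
  unfold cf
  calc Nat.sqrt (D / Pool.Agent.FTA.aD (Kf D)) ≤ D / Pool.Agent.FTA.aD (Kf D) :=
        Nat.sqrt_le_self _
    _ ≤ D := Nat.div_le_self _ _
    _ ≤ X := hD

private theorem ltl_num (X : ℕ) (hX : 1 ≤ X) (L : ℝ) (hL : 1 + Real.log (4 * X) ≤ L) :
    ((Nat.log 2 X : ℕ) : ℝ) + 1 ≤ 2 * L := by
  have hX0 : (1 : ℝ) ≤ X := by exact_mod_cast hX
  have h1 : ((Nat.log 2 X : ℕ) : ℝ) * Real.log 2 ≤ Real.log X := by
    have h2 : ((2 : ℝ) ^ (Nat.log 2 X)) ≤ X := by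
      exact_mod_cast Nat.pow_log_le_self 2 (by omega)
    have h3 := Real.log_le_log (by positivity) h2
    rw [Real.log_pow] at h3
    exact h3
  have h4 : (1 : ℝ) / 2 ≤ Real.log 2 := by
    have := Real.log_two_gt_d9
    linarith
  have h5 : Real.log (4 * X) = Real.log 4 + Real.log X := by
    rw [Real.log_mul (by norm_num) (by positivity)]
  have h6 : 0 ≤ Real.log 4 := Real.log_nonneg (by norm_num)
  have h7 : ((Nat.log 2 X : ℕ) : ℝ) / 2 ≤ Real.log X := by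
    have h8 : (0 : ℝ) ≤ ((Nat.log 2 X : ℕ) : ℝ) := Nat.cast_nonneg _
    nlinarith
  rw [h5] at hL
  linarith

theorem ltl (ε : ℝ) (hε : 0 < ε) : ∃ C : ℝ, 0 < C ∧ ∀ (X V a Z : ℕ) (R T Q L : ℝ),
    PL X V a R → 1 ≤ X → V ≤ a → TauB Z T → UniB Z Q → (4 * X) ^ 5 ≤ Z →
    1 + Real.log (4 * X) ≤ L → ∀ S : Finset Pt,
    (∀ q ∈ S, GPr V a R q ∧ R ≤ cf (dP q)) →
    (S.card : ℝ) ≤ C * T ^ 4 * Q * L ^ 2 * (X : ℝ) ^ (1 + ε) * (1 / R + (V : ℝ) / a / √R) := by
  classical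
  obtain ⟨C1, hC1, key⟩ := lqf ε hε
  refine ⟨4 * C1, by positivity, ?_⟩
  intro X V a Z R T Q L hP hX hVa hT hQ hZ hL S hS
  have hR := hP.hR
  have hT1 : 1 ≤ T := hT.1
  have hQ1 : 1 ≤ Q := hQ.1
  have ha1 : (1 : ℝ) ≤ a := by exact_mod_cast hP.ha
  have hX1 : (1 : ℝ) ≤ X := by exact_mod_cast hX
  have hlog : 0 ≤ Real.log (4 * X) := Real.log_nonneg (by linarith)
  have hL1 : 1 ≤ L := by linarith
  have hV0 : (0 : ℝ) ≤ (V : ℝ) / a := by positivity
  have hR0 : (0 : ℝ) < R := by linarith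
  have hsR : 0 < √R := Real.sqrt_pos.2 hR0
  have hXp : 0 < (X : ℝ) ^ (1 + ε) := Real.rpow_pos_of_pos (by linarith) _
  have hZ3 : 3 * (V * a ^ 2) ≤ Z := by
    have h1 : V * a ^ 2 ≤ a ^ 4 := by
      have h2 : a ^ 4 = a * a ^ 2 * a := by ring
      have h3 := hP.ha
      calc V * a ^ 2 ≤ a * a ^ 2 := Nat.mul_le_mul_right _ hVa
        _ ≤ a * a ^ 2 * a := Nat.le_mul_of_pos_right _ h3
        _ = a ^ 4 := h2.symm
    have h4 := hP.haX
    have h5 : 4 * X ≤ (4 * X) ^ 5 := Nat.le_self_pow (by norm_num) _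
    omega
  -- the fibre over `i`
  have hfib : ∀ i ∈ Finset.range (Nat.log 2 X + 1),
      ((S.filter (fun q => Nat.log 2 (cf (dP q)) = i)).card : ℝ) ≤
        2 * C1 * T ^ 4 * Q * L * (X : ℝ) ^ (1 + ε) * (1 / R + (V : ℝ) / a / √R) := by
    intro i _
    set Si := S.filter (fun q => Nat.log 2 (cf (dP q)) = i) with hSi
    have hmem : ∀ q ∈ Si, (GPr V a R q ∧ R ≤ cf (dP q)) ∧ Nat.log 2 (cf (dP q)) = i := by
      intro q hq
      rw [hSi, Finset.mem_filter] at hq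
      exact ⟨hS q hq.1, hq.2⟩
    rcases Si.eq_empty_or_nonempty with h0 | ⟨q0, hq0⟩
    · rw [h0]
      simp only [Finset.card_empty, Nat.cast_zero]
      positivity
    have hdy : ∀ q ∈ Si, 2 ^ i ≤ cf (dP q) ∧ cf (dP q) < 2 * 2 ^ i := by
      intro q hq
      obtain ⟨⟨_, h2⟩, h3⟩ := hmem q hq
      have h4 : cf (dP q) ≠ 0 := by
        intro h
        rw [h] at h2
        simp only [Nat.cast_zero] at h2
        linarith
      constructor
      · rw [← h3]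
        exact Nat.pow_log_le_self 2 h4
      · rw [← h3, ← pow_succ']
        exact Nat.lt_pow_succ_log_self (by norm_num) _
    have hFR : R < 2 * (2 : ℝ) ^ i := by
      have h1 := (hmem q0 hq0).1.2
      have h2 := (hdy q0 hq0).2
      have h3 : ((cf (dP q0) : ℕ) : ℝ) < 2 * 2 ^ i := by exact_mod_cast h2
      linarith
    have hF0 : (0 : ℝ) < (2 : ℝ) ^ i := by positivity
    set F : ℝ := (2 : ℝ) ^ i with hFdef
    -- the values
    have hval : ((Si.image qP).card : ℝ) ≤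
        C1 * T ^ 3 * Q * L * (X : ℝ) ^ (1 + ε) / F := by
      have h1 := key X a Z (2 ^ i) R T Q L hX hR hP.haX hT hQ hZ hL Nat.one_le_two_pow
        (Si.image qP) ?_
      · have h2 : (((2 ^ i : ℕ) : ℕ) : ℝ) = F := by
          rw [hFdef]; push_cast; rfl
        rw [h2] at h1
        exact h1
      · intro p hp
        rw [Finset.mem_image] at hp
        obtain ⟨q, hq, rfl⟩ := hp
        exact ⟨(lqd X V a R hP q (hmem q hq).1.1).1, (hdy q hq).1, (hdy q hq).2⟩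
    -- the fibres of `qP`
    have hB : ∀ p ∈ Si.image qP, ((Si.filter (fun q => qP q = p)).card : ℝ) ≤
        T * (1 + √(2 * F) * V / a) := by
      intro p hp
      have h1 := lmc X V a Z R T hP hX hT hZ3 p (Si.filter (fun q => qP q = p)) (by
        intro q hq
        rw [Finset.mem_filter] at hq
        exact ⟨(hmem q hq.1).1.1, hq.2⟩)
      rw [Finset.mem_image] at hp
      obtain ⟨q, hq, rfl⟩ := hp
      have h2 : ((cf (qP q).1 : ℕ) : ℝ) ≤ 2 * F := by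
        have h3 := (hdy q hq).2
        have h4 : (qP q).1 = dP q := rfl
        rw [h4, hFdef]
        exact_mod_cast h3.le
      refine h1.trans ?_
      have h5 : √((cf (qP q).1 : ℕ) : ℝ) ≤ √(2 * F) := Real.sqrt_le_sqrt h2
      have h6 : √((cf (qP q).1 : ℕ) : ℝ) * V / a ≤ √(2 * F) * V / a := by
        have h7 : (0 : ℝ) < a := by linarith
        gcongr
      have h8 : (0 : ℝ) ≤ T := by linarith
      gcongr
    have hcard := Pool.Agent.FTA.fib_const Si qP (Si.image qP)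
      (fun q hq => Finset.mem_image_of_mem _ hq) (T * (1 + √(2 * F) * V / a)) hB
    refine hcard.trans ?_
    have hs : √(2 * F) * √(2 * F) = 2 * F := Real.mul_self_sqrt (by positivity)
    have hs0 : 0 < √(2 * F) := Real.sqrt_pos.2 (by positivity)
    have hsF : √R ≤ √(2 * F) := Real.sqrt_le_sqrt hFR.le
    -- `1 / F ≤ 2 / R` and `√(2 F) / F = 2 / √(2 F) ≤ 2 / √R`
    have e1 : 1 / F ≤ 2 * (1 / R) := by
      rw [mul_one_div, div_le_div_iff₀ hF0 hR0]
      linarith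
    have e2 : √(2 * F) / F ≤ 2 * (1 / √R) := by
      rw [mul_one_div, div_le_div_iff₀ hF0 hsR]
      nlinarith
    have e3 : (1 + √(2 * F) * V / a) / F ≤ 2 * (1 / R + (V : ℝ) / a / √R) := by
      have h1 : (1 + √(2 * F) * V / a) / F = 1 / F + √(2 * F) / F * ((V : ℝ) / a) := by
        ring
      have h2 : (V : ℝ) / a / √R = 1 / √R * ((V : ℝ) / a) := by ring
      rw [h1, h2]
      have h3 : √(2 * F) / F * ((V : ℝ) / a) ≤ 2 * (1 / √R) * ((V : ℝ) / a) :=
        mul_le_mul_of_nonneg_right e2 hV0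
      linarith
    have hT0 : (0 : ℝ) ≤ T := by linarith
    have hb0 : (0 : ℝ) ≤ T * (1 + √(2 * F) * V / a) := by positivity
    calc ((Si.image qP).card : ℝ) * (T * (1 + √(2 * F) * V / a))
        ≤ (C1 * T ^ 3 * Q * L * (X : ℝ) ^ (1 + ε) / F) * (T * (1 + √(2 * F) * V / a)) :=
          mul_le_mul_of_nonneg_right hval hb0
      _ = (C1 * T ^ 4 * Q * L * (X : ℝ) ^ (1 + ε)) * ((1 + √(2 * F) * V / a) / F) := by ring
      _ ≤ (C1 * T ^ 4 * Q * L * (X : ℝ) ^ (1 + ε)) * (2 * (1 / R + (V : ℝ) / a / √R)) :=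
          mul_le_mul_of_nonneg_left e3 (by positivity)
      _ = 2 * C1 * T ^ 4 * Q * L * (X : ℝ) ^ (1 + ε) * (1 / R + (V : ℝ) / a / √R) := by ring
  have hmap : ∀ q ∈ S, Nat.log 2 (cf (dP q)) ∈ Finset.range (Nat.log 2 X + 1) := by
    intro q hq
    rw [Finset.mem_range]
    have h1 := (lqd X V a R hP q (hS q hq).1).1
    have h2 : dP q ≤ X := h1.D2
    have h3 := ltl_log X (dP q) h2
    omega
  have hfin := Pool.Agent.FTA.fib_const S (fun q => Nat.log 2 (cf (dP q)))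
    (Finset.range (Nat.log 2 X + 1))
    hmap _ hfib
  refine hfin.trans ?_
  rw [Finset.card_range]
  have hn := ltl_num X hX L hL
  have hb0 : 0 ≤ 2 * C1 * T ^ 4 * Q * L * (X : ℝ) ^ (1 + ε) * (1 / R + (V : ℝ) / a / √R) := by
    positivity
  calc ((Nat.log 2 X + 1 : ℕ) : ℝ) *
        (2 * C1 * T ^ 4 * Q * L * (X : ℝ) ^ (1 + ε) * (1 / R + (V : ℝ) / a / √R))
      ≤ (2 * L) * (2 * C1 * T ^ 4 * Q * L * (X : ℝ) ^ (1 + ε) * (1 / R + (V : ℝ) / a / √R)) := by
        apply mul_le_mul_of_nonneg_right _ hb0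
        push_cast
        exact hn
    _ = 4 * C1 * T ^ 4 * Q * L ^ 2 * (X : ℝ) ^ (1 + ε) * (1 / R + (V : ℝ) / a / √R) := by ring

end Pool.Agent.FTL
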