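import Pool.Agent.FTL.WFn
import Pool.Agent.FTL.LTl
import Pool.Agent.FTL.LGd

/-!
# FTL/LMn: the lower bound

PROOF of `lmn`.  WLOG `ε ≤ 1` (the statement for `ε` follows from a smaller one).  `d = ε / 100`,
`e = d / 100`, `η = d / 100`.  `cnt d e` gives for large `X`: `V, a, S`.  `R = X ^ (12 d / 5)`.
Facts for `X` large: `R ≥ 2`; `a ^ 4 ≤ X ^ (1 - 2 d) ≤ X`; `V ^ 2 ≤ 50 a ^ 6 / X ≤ 50 a ^ 2 X ^ (-2 d)`, so
`V / a ≤ 8 X ^ (-d)` and `V ≤ a`; `32 a ^ 2 R ^ 2 ≤ 32 X ^ (1/2 - d + 4.8 d) ≤ X`.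
`Z = (4 X) ^ 5`; `T, Q, L ≤ X ^ η` for large `X` (divisor bound `Pool.Agent.FTA.divisor_bound`, `sun` of
FTB: see the end of Pool/Agent/FTB/PtB.lean for `TauB`, `UniB`).
Split `S = S1 ∪ S2` by `R ≤ cf (dP q)`.  `ltl` with `ε := η`: `card S1 ≤ C X ^ (4η + η + 2η) X ^ (1 + η)
(X ^ (-2.4 d) + 8 X ^ (-d - 1.2 d)) ≤ 9 C X ^ (1 + 8 η - 2.2 d) ≤ X ^ (1 - 2 d - e) / 2`.
So `card S2 ≥ X ^ (1 - 2 d - e) / 2`, and `lgd` gives
`∑ᶠ (card - 1) ≥ X ^ (1 - 2 d - e) / (4380 X ^ (4.8 d + 2 η)) ≥ X ^ (1 - 8 d) ≥ X ^ (1 - ε)`.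
-/

set_option autoImplicit false

namespace Pool.Agent.FTL

open NumberField Pool.Agent.FTA Pool.Agent.FTB nonZeroDivisors

private theorem LMn_big (K s : ℝ) (hs : 0 < s) : ∃ X0 : ℕ, ∀ X : ℕ, X0 ≤ X → K ≤ (X : ℝ) ^ s := by
  have h := (tendsto_rpow_atTop hs).comp (tendsto_natCast_atTop_atTop (R := ℝ))
  obtain ⟨X0, hX0⟩ := Filter.eventually_atTop.1 (h.eventually (Filter.eventually_ge_atTop K))
  exact ⟨X0, fun X hX => hX0 X hX⟩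

private theorem LMn_par (η : ℝ) (hη : 0 < η) : ∃ K : ℝ, 1 ≤ K ∧ ∀ X : ℕ, 1 ≤ X →
    ∃ T Q L : ℝ, TauB ((4 * X) ^ 5) T ∧ UniB ((4 * X) ^ 5) Q ∧ 1 + Real.log (4 * X) ≤ L ∧
      0 ≤ L ∧ T ≤ K * (X : ℝ) ^ η ∧ Q ≤ K * (X : ℝ) ^ η ∧ L ≤ K * (X : ℝ) ^ η := by
  obtain ⟨δ, hδ⟩ : ∃ δ : ℝ, δ = η / 10 := ⟨_, rfl⟩
  have hδ0 : 0 < δ := by rw [hδ]; positivity
  obtain ⟨c, hc0, hc⟩ := Pool.Agent.FTA.divisor_bound hδ0
  obtain ⟨C, hC0, hC⟩ := sun δ hδ0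
  obtain ⟨A, hA⟩ : ∃ A : ℝ, A = ((4 : ℝ) ^ 5) ^ δ := ⟨_, rfl⟩
  have hA0 : 0 < A := by rw [hA]; positivity
  refine ⟨(1 + c * A) + (1 + C * A ^ 2) + (3 + 1 / δ), ?_, ?_⟩
  · have : 0 < c * A := by positivity
    have : 0 < C * A ^ 2 := by positivity
    have : 0 < 1 / δ := by positivity
    linarith
  intro X hX
  have hXr : (1 : ℝ) ≤ X := by exact_mod_cast hX
  have hX0 : (0 : ℝ) ≤ X := by linarith
  obtain ⟨y, hy⟩ : ∃ y : ℝ, y = (X : ℝ) ^ δ := ⟨_, rfl⟩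
  have hy1 : 1 ≤ y := by rw [hy]; exact Real.one_le_rpow hXr hδ0.le
  have hy0 : 0 ≤ y := by linarith
  obtain ⟨Z, hZ⟩ : ∃ Z : ℕ, Z = (4 * X) ^ 5 := ⟨_, rfl⟩
  rw [← hZ]
  have hZ1 : 1 ≤ Z := by
    rw [hZ]
    exact Nat.one_le_pow _ _ (by positivity)
  have hZd : (Z : ℝ) ^ δ = A * y ^ 5 := by
    have h1 : (Z : ℝ) = (4 : ℝ) ^ 5 * (X : ℝ) ^ 5 := by
      rw [hZ]; push_cast; ring
    have h2 : ((X : ℝ) ^ 5) ^ δ = ((X : ℝ) ^ δ) ^ 5 := by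
      rw [← Real.rpow_natCast, ← Real.rpow_mul hX0, ← Real.rpow_natCast, ← Real.rpow_mul hX0]
      congr 1
      ring
    rw [h1, hA, hy, Real.mul_rpow (by positivity) (by positivity), h2]
  have hT : TauB Z (1 + c * (Z : ℝ) ^ δ) := by
    refine ⟨by nlinarith [Real.rpow_nonneg (Nat.cast_nonneg Z) δ], ?_⟩
    intro n hn1 hn2
    have h1 := hc n (by omega)
    have h2 : (n : ℝ) ^ δ ≤ (Z : ℝ) ^ δ :=
      Real.rpow_le_rpow (Nat.cast_nonneg _) (by exact_mod_cast hn2) hδ0.le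
    have h3 := mul_le_mul_of_nonneg_left h2 hc0.le
    linarith
  have hQ : UniB Z (1 + C * (Z : ℝ) ^ δ * (Z : ℝ) ^ δ) := by
    have hz := Real.rpow_nonneg (Nat.cast_nonneg (α := ℝ) Z) δ
    refine ⟨by nlinarith [mul_nonneg (mul_nonneg hC0.le hz) hz], ?_⟩
    intro r hr1 hr2
    have h1 := hC Z r hZ1 hr1
    have h2 : (r : ℝ) ^ δ ≤ (Z : ℝ) ^ δ :=
      Real.rpow_le_rpow (Nat.cast_nonneg _) (by exact_mod_cast hr2) hδ0.le
    have h3 := mul_le_mul_of_nonneg_left h2 (mul_nonneg hC0.le hz)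
    linarith
  have hyη : y ^ 10 = (X : ℝ) ^ η := by
    rw [hy, ← Real.rpow_natCast, ← Real.rpow_mul hX0]
    congr 1
    rw [hδ]
    push_cast
    ring
  have hlog : 0 ≤ Real.log X := Real.log_nonneg hXr
  have h4X : Real.log (4 * X) = Real.log 4 + Real.log X :=
    Real.log_mul (by norm_num) (by linarith)
  have hl4 : Real.log 4 ≤ 2 := by
    have : Real.log 4 = 2 * Real.log 2 := by
      rw [show (4 : ℝ) = 2 ^ 2 by norm_num, Real.log_pow]; push_cast; ring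
    rw [this]
    have := Real.log_two_lt_d9
    linarith
  have hl40 : 0 ≤ Real.log 4 := Real.log_nonneg (by norm_num)
  have hL : 1 + Real.log (4 * X) ≤ (3 + 1 / δ) * y := by
    have h1 : Real.log X ≤ (X : ℝ) ^ δ / δ := Real.log_le_rpow_div hX0 hδ0
    rw [← hy] at h1
    have h2 : (3 + 1 / δ) * y = 3 * y + y / δ := by ring
    rw [h2, h4X]
    linarith
  have hy5 : y ^ 5 ≤ y ^ 10 := pow_le_pow_right₀ hy1 (by norm_num)
  have hy15 : 1 ≤ y ^ 5 := one_le_pow₀ hy1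
  have hy110 : 1 ≤ y ^ 10 := one_le_pow₀ hy1
  have hyy : y ≤ y ^ 10 := by
    calc y = y ^ 1 := (pow_one y).symm
      _ ≤ y ^ 10 := pow_le_pow_right₀ hy1 (by norm_num)
  have p1 : 0 < c * A := by positivity
  have p2 : 0 < C * A ^ 2 := by positivity
  have p3 : 0 < 1 / δ := by positivity
  refine ⟨_, _, _, hT, hQ, le_refl _, ?_, ?_, ?_, ?_⟩
  · rw [h4X]; linarith
  · rw [hZd, ← hyη]
    have e1 : c * (A * y ^ 5) ≤ c * A * y ^ 10 := by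
      rw [← mul_assoc]
      exact mul_le_mul_of_nonneg_left hy5 p1.le
    nlinarith
  · rw [hZd, ← hyη]
    have e1 : C * (A * y ^ 5) * (A * y ^ 5) = C * A ^ 2 * y ^ 10 := by ring
    rw [e1]
    nlinarith
  · rw [← hyη]
    have e1 : (3 + 1 / δ) * y ≤ (3 + 1 / δ) * y ^ 10 :=
      mul_le_mul_of_nonneg_left hyy (by linarith)
    nlinarith

private theorem LMn_sq (x v : ℝ) (hv : 0 ≤ v) (hx : 0 ≤ x) (h : v ^ 2 ≤ 50 * x ^ 2) :
    v ≤ 8 * x := by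
  rw [← pow_le_pow_iff_left₀ hv (by positivity) (two_ne_zero)]
  nlinarith [sq_nonneg x]

private theorem LMn_core (d η : ℝ) (hd : 0 < d) (hd2 : d ≤ 1 / 100) (hη : η = d / 100) :
    ∃ X0 : ℕ, ∀ X : ℕ, X0 ≤ X → (X : ℝ) ^ (1 - 8 * d) ≤
      ∑ᶠ K ∈ IQ X, ((Nat.card {c : ClassGroup (𝓞 K) // c ^ 5 = 1} : ℝ) - 1) := by
  classical
  have hη0 : 0 < η := by rw [hη]; positivity
  obtain ⟨X1, hX1⟩ := cnt d η hd hd2 hη0
  obtain ⟨C, hC0, hC⟩ := ltl η hη0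
  obtain ⟨K, hK1, hK⟩ := LMn_par η hη0
  obtain ⟨X2, hX2⟩ := LMn_big (18 * C * K ^ 7) (d / 5 - 9 * η) (by rw [hη]; linarith)
  obtain ⟨X3, hX3⟩ := LMn_big (4380 * K ^ 2 + 1) (6 * d / 5 - 3 * η) (by rw [hη]; linarith)
  obtain ⟨X4, hX4⟩ := LMn_big 32 (1 / 2 - 19 * d / 5) (by linarith)
  obtain ⟨X5, hX5⟩ := LMn_big 2 (12 * d / 5) (by linarith)
  refine ⟨X1 + X2 + X3 + X4 + X5 + 1, fun X hX => ?_⟩
  have g2 := hX2 X (by omega)
  have g3 := hX3 X (by omega)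
  have g4 := hX4 X (by omega)
  have g5 := hX5 X (by omega)
  obtain ⟨V, a, S, hV, hVa, -, h49, h50, hau, -, hS, hcard⟩ := hX1 X (by omega)
  have hX1' : 1 ≤ X := by omega
  obtain ⟨T, Q, L, hT, hQ, hL, hL0, hTK, hQK, hLK⟩ := hK X hX1'
  obtain ⟨x, hx⟩ : ∃ x : ℝ, x = (X : ℝ) := ⟨_, rfl⟩
  have hx1 : 1 ≤ x := by rw [hx]; exact_mod_cast hX1'
  have hx0 : 0 < x := by linarith
  have ha : 1 ≤ a := by omega
  have har : (0 : ℝ) < a := by exact_mod_cast ha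
  rw [← hx] at g2 g3 g4 g5 hau hcard hTK hQK hLK ⊢
  have hy0 : 0 < x ^ η := Real.rpow_pos_of_pos hx0 _
  -- a ^ 4 ≤ X
  have ha4r : (a : ℝ) ^ 4 ≤ x ^ (1 - 2 * d) := by
    calc (a : ℝ) ^ 4 ≤ (x ^ (1 / 4 - d / 2)) ^ 4 := pow_le_pow_left₀ har.le hau 4
      _ = x ^ (1 - 2 * d) := by
        rw [← Real.rpow_natCast, ← Real.rpow_mul hx0.le]
        congr 1
        push_cast
        ring
  have haX : a ^ 4 ≤ X := by
    have h1 : x ^ (1 - 2 * d) ≤ x := by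
      calc x ^ (1 - 2 * d) ≤ x ^ (1 : ℝ) := Real.rpow_le_rpow_of_exponent_le hx1 (by linarith)
        _ = x := Real.rpow_one x
    have h2 : (a : ℝ) ^ 4 ≤ (X : ℝ) := by rw [← hx]; linarith
    exact_mod_cast h2
  obtain ⟨R, hR⟩ : ∃ R : ℝ, R = x ^ (12 * d / 5) := ⟨_, rfl⟩
  rw [← hR] at g5
  have hR0 : 0 < R := by linarith
  have hPL : PL X V a R := ⟨by omega, ha, h49, h50, haX, g5⟩
  have hR2 : R ^ 2 = x ^ (24 * d / 5) := by
    rw [hR, ← Real.rpow_natCast, ← Real.rpow_mul hx0.le]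
    congr 1
    push_cast
    ring
  -- 32 a ^ 2 R ^ 2 ≤ X
  have haR : 32 * (a : ℝ) ^ 2 * R ^ 2 ≤ X := by
    rw [← hx, hR2]
    have h1 : (a : ℝ) ^ 2 ≤ x ^ (1 / 2 - d) := by
      calc (a : ℝ) ^ 2 ≤ (x ^ (1 / 4 - d / 2)) ^ 2 := pow_le_pow_left₀ har.le hau 2
        _ = x ^ (1 / 2 - d) := by
          rw [← Real.rpow_natCast, ← Real.rpow_mul hx0.le]
          congr 1
          push_cast
          ring
    calc 32 * (a : ℝ) ^ 2 * x ^ (24 * d / 5) ≤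
          x ^ (1 / 2 - 19 * d / 5) * x ^ (1 / 2 - d) * x ^ (24 * d / 5) := by
          gcongr
      _ = x := by
          rw [← Real.rpow_add hx0, ← Real.rpow_add hx0]
          have : 1 / 2 - 19 * d / 5 + (1 / 2 - d) + 24 * d / 5 = 1 := by ring
          rw [this, Real.rpow_one]
  -- V / a
  have hv : (V : ℝ) / a ≤ 8 * x ^ (-d) := by
    apply LMn_sq _ _ (by positivity) (Real.rpow_nonneg hx0.le _)
    have h1 : (X : ℝ) * (V : ℝ) ^ 2 ≤ 50 * (a : ℝ) ^ 6 := by exact_mod_cast h50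
    rw [← hx] at h1
    have h2 : (x ^ (-d)) ^ 2 = x ^ (1 - 2 * d) / x := by
      rw [← Real.rpow_natCast, ← Real.rpow_mul hx0.le, ← Real.rpow_sub_one hx0.ne']
      congr 1
      push_cast
      ring
    rw [h2, div_pow, div_le_iff₀ (by positivity)]
    calc (V : ℝ) ^ 2 = x * (V : ℝ) ^ 2 / x := by field_simp
      _ ≤ 50 * (a : ℝ) ^ 6 / x := by gcongr
      _ = 50 * ((a : ℝ) ^ 4 / x) * (a : ℝ) ^ 2 := by ring
      _ ≤ 50 * (x ^ (1 - 2 * d) / x) * (a : ℝ) ^ 2 := by gcongr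
  have hsR : √R = x ^ (6 * d / 5) := by
    rw [hR, Real.sqrt_eq_rpow, ← Real.rpow_mul hx0.le]
    congr 1
    ring
  have hsum : 1 / R + (V : ℝ) / a / √R ≤ 9 * x ^ (-(11 * d / 5)) := by
    have h1 : 1 / R ≤ x ^ (-(11 * d / 5)) := by
      rw [one_div, hR, ← Real.rpow_neg hx0.le]
      exact Real.rpow_le_rpow_of_exponent_le hx1 (by linarith)
    have h2 : (V : ℝ) / a / √R ≤ 8 * x ^ (-(11 * d / 5)) := by
      rw [hsR, div_eq_mul_inv, ← Real.rpow_neg hx0.le]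
      calc (V : ℝ) / a * x ^ (-(6 * d / 5)) ≤ 8 * x ^ (-d) * x ^ (-(6 * d / 5)) := by gcongr
        _ = 8 * x ^ (-(11 * d / 5)) := by
          rw [mul_assoc, ← Real.rpow_add hx0]
          congr 2
          ring
    linarith
  -- splitting
  obtain ⟨S1, hS1⟩ : ∃ S1 : Finset Pt, S1 = S.filter (fun q => R ≤ (cf (dP q) : ℝ)) := ⟨_, rfl⟩
  obtain ⟨S2, hS2⟩ : ∃ S2 : Finset Pt, S2 = S.filter (fun q => ¬ R ≤ (cf (dP q) : ℝ)) := ⟨_, rfl⟩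
  have hsplit : S1.card + S2.card = S.card := by
    rw [hS1, hS2]
    exact Finset.card_filter_add_card_filter_not _
  have hG : ∀ q ∈ S, GPr V a R q := by
    intro q hq
    obtain ⟨q1, q2, q3⟩ := hS q hq
    refine ⟨q1, q2, fun p hp hpR => q3 p hp ?_⟩
    rw [← hx, ← hR]
    exact hpR
  have b1 := hC X V a ((4 * X) ^ 5) R T Q L hPL hX1' hVa hT hQ (le_refl _) hL S1 (by
    intro q hq
    rw [hS1, Finset.mem_filter] at hq
    exact ⟨hG q hq.1, hq.2⟩)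
  have b2 := lgd X V a ((4 * X) ^ 5) R T hPL hX1' hVa haR hT (le_refl _) S2 (by
    intro q hq
    rw [hS2, Finset.mem_filter] at hq
    exact ⟨hG q hq.1, not_le.1 hq.2⟩)
  have hT0 : 0 ≤ T := by linarith [hT.1]
  have hQ0 : 0 ≤ Q := by linarith [hQ.1]
  rw [← hx] at b1
  -- the large conductors
  have c1 : (S1.card : ℝ) ≤ x ^ (1 - 2 * d - η) / 2 := by
    have h1 : (S1.card : ℝ) ≤ C * (K * x ^ η) ^ 4 * (K * x ^ η) * (K * x ^ η) ^ 2 * x ^ (1 + η) *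
        (9 * x ^ (-(11 * d / 5))) := by
      refine b1.trans ?_
      have hnn : 0 ≤ 1 / R + (V : ℝ) / a / √R := by positivity
      gcongr
    have h2 : C * (K * x ^ η) ^ 4 * (K * x ^ η) * (K * x ^ η) ^ 2 * x ^ (1 + η) *
        (9 * x ^ (-(11 * d / 5))) =
        (18 * C * K ^ 7) * (x ^ η) ^ 7 * x ^ (1 + η) * x ^ (-(11 * d / 5)) / 2 := by ring
    have h3 : (x ^ η) ^ 7 = x ^ (7 * η) := by
      rw [← Real.rpow_natCast, ← Real.rpow_mul hx0.le]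
      congr 1
      push_cast
      ring
    rw [h2, h3] at h1
    refine h1.trans ?_
    have h4 : (18 * C * K ^ 7) * x ^ (7 * η) * x ^ (1 + η) * x ^ (-(11 * d / 5)) ≤
        x ^ (d / 5 - 9 * η) * x ^ (7 * η) * x ^ (1 + η) * x ^ (-(11 * d / 5)) := by gcongr
    have h5 : x ^ (d / 5 - 9 * η) * x ^ (7 * η) * x ^ (1 + η) * x ^ (-(11 * d / 5)) =
        x ^ (1 - 2 * d - η) := by
      rw [← Real.rpow_add hx0, ← Real.rpow_add hx0, ← Real.rpow_add hx0]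
      congr 1
      ring
    linarith
  have c2 : x ^ (1 - 2 * d - η) / 2 ≤ (S2.card : ℝ) := by
    have h1 : (S1.card : ℝ) + S2.card = S.card := by exact_mod_cast hsplit
    linarith
  by_contra hcon
  push Not at hcon
  have h1 : (S2.card : ℝ) ≤ 2190 * R ^ 2 * T ^ 2 * x ^ (1 - 8 * d) := by
    refine b2.trans ?_
    exact mul_le_mul_of_nonneg_left hcon.le (by positivity)
  have h2 : 2190 * R ^ 2 * T ^ 2 * x ^ (1 - 8 * d) ≤
      2190 * x ^ (24 * d / 5) * (K * x ^ η) ^ 2 * x ^ (1 - 8 * d) := by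
    rw [hR2]
    gcongr
  have h3 : 2190 * x ^ (24 * d / 5) * (K * x ^ η) ^ 2 * x ^ (1 - 8 * d) =
      (4380 * K ^ 2) * x ^ (1 - 16 * d / 5 + 2 * η) / 2 := by
    have e1 : (x ^ η) ^ 2 = x ^ (2 * η) := by
      rw [← Real.rpow_natCast, ← Real.rpow_mul hx0.le]
      congr 1
      push_cast
      ring
    have e2 : x ^ (24 * d / 5) * x ^ (2 * η) * x ^ (1 - 8 * d) =
        x ^ (1 - 16 * d / 5 + 2 * η) := by
      rw [← Real.rpow_add hx0, ← Real.rpow_add hx0]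
      congr 1
      ring
    rw [mul_pow, e1, ← e2]
    ring
  have h4 : x ^ (1 - 2 * d - η) = x ^ (6 * d / 5 - 3 * η) * x ^ (1 - 16 * d / 5 + 2 * η) := by
    rw [← Real.rpow_add hx0]
    congr 1
    ring
  have h5 : 0 < x ^ (1 - 16 * d / 5 + 2 * η) := Real.rpow_pos_of_pos hx0 _
  have h6 : (4380 * K ^ 2 + 1) * x ^ (1 - 16 * d / 5 + 2 * η) ≤ x ^ (1 - 2 * d - η) := by
    rw [h4]
    exact mul_le_mul_of_nonneg_right g3 h5.le
  linarith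

theorem lmn (ε : ℝ) (hε : 0 < ε) : ∃ X0 : ℕ, ∀ X : ℕ, X0 ≤ X →
    (X : ℝ) ^ (1 - ε) ≤
      ∑ᶠ K ∈ IQ X, ((Nat.card {c : ClassGroup (𝓞 K) // c ^ 5 = 1} : ℝ) - 1) := by
  obtain ⟨d, hd⟩ : ∃ d : ℝ, d = min ε 1 / 100 := ⟨_, rfl⟩
  have hm : 0 < min ε 1 := lt_min hε one_pos
  have hd0 : 0 < d := by rw [hd]; positivity
  have hd1 : d ≤ 1 / 100 := by rw [hd]; linarith [min_le_right ε 1]
  have hd2 : 8 * d ≤ ε := by rw [hd]; linarith [min_le_left ε 1]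
  obtain ⟨X0, hX0⟩ := LMn_core d (d / 100) hd0 hd1 rfl
  refine ⟨X0 + 1, fun X hX => ?_⟩
  have h1 : (1 : ℝ) ≤ X := by
    have : 1 ≤ X := by omega
    exact_mod_cast this
  exact (Real.rpow_le_rpow_of_exponent_le h1 (by linarith)).trans (hX0 X (by omega))

end Pool.Agent.FTL
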