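import Mathlib

/-!
# FTL/LSr: surjections onto a group of prime order and the `p`-torsion (lower bound)

PROOF of `lsr` (compare Pool/Agent/FTA/Sur.lean, which has the other inequality).
Let `P = closure {g | ∃ n, g ^ (p ^ n) = 1}`, a finite abelian group.  `c ∈ G` with `c ^ p = 1` is in `P`
(`n = 1`).  `E : (P →* ℂˣ) ≃* P` (`CommGroup.monoidHom_mulEquiv_of_hasEnoughRootsOfUnity`), and
`e : H ≃* rootsOfUnity p ℂ` (`mulEquivOfPrimeCardEq`).  For `x ∈ P` with `x ^ p = 1` the character
`χ = E.symm x` has `χ ^ p = 1`, so its values are in `rootsOfUnity p ℂ`; composing with `e.symm` gives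
`F x : P →* H`, and `F` is injective.  So `card {c // c ^ p = 1} ≤ card (P →* H)`.  A homomorphism
`P →* H` which is not surjective is trivial (its range is a subgroup of the group `H` of prime
order: `Subgroup.eq_bot_or_eq_top_of_prime_card` or `IsSimpleGroup`), so
`card (P →* H) ≤ card {f // Surjective f} + 1`.
-/

set_option autoImplicit false

namespace Pool.Agent.FTL

private theorem LSr_gen (p : ℕ) (hp : p.Prime) (P : Type*) [CommGroup P] [Finite P]
    (H : Type*) [CommGroup H] (hH : Nat.card H = p) :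
    ∃ F : {x : P // x ^ p = 1} → (P →* H), Function.Injective F := by
  have : Fact p.Prime := ⟨hp⟩
  have hne : NeZero p := ⟨hp.ne_zero⟩
  have hc : Nat.card (rootsOfUnity p ℂ) = p := Complex.card_rootsOfUnity p
  let e : H ≃* rootsOfUnity p ℂ := mulEquivOfPrimeCardEq hH hc
  obtain ⟨E⟩ := CommGroup.monoidHom_mulEquiv_of_hasEnoughRootsOfUnity P ℂ
  have h1 : ∀ x : {x : P // x ^ p = 1}, ∀ a : P, (E.symm x.1) a ∈ rootsOfUnity p ℂ := by
    intro x a
    rw [mem_rootsOfUnity]
    have h2 : (E.symm x.1) ^ p = 1 := by rw [← map_pow, x.2, map_one]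
    have h3 := DFunLike.congr_fun h2 a
    rw [MonoidHom.pow_apply] at h3
    exact h3
  refine ⟨fun x => e.symm.toMonoidHom.comp ((E.symm x.1).codRestrict (rootsOfUnity p ℂ) (h1 x)),
    fun x y hxy => ?_⟩
  apply Subtype.ext
  apply E.symm.injective
  ext a : 1
  have h2 := DFunLike.congr_fun hxy a
  have h3 := e.symm.injective h2
  exact congrArg Subtype.val h3

private theorem LSr_card (p : ℕ) (hp : p.Prime) (P : Type*) [CommGroup P] [Finite P]
    (H : Type*) [CommGroup H] (hH : Nat.card H = p) :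
    Nat.card (P →* H) ≤ Nat.card {f : P →* H // Function.Surjective f} + 1 := by
  classical
  have : Fact p.Prime := ⟨hp⟩
  have hf : Finite H := Nat.finite_of_card_ne_zero (by rw [hH]; exact hp.ne_zero)
  have hfin : Finite (P →* H) := DFunLike.finite (P →* H)
  rw [← Finite.card_option]
  have h1 : ∀ f : P →* H, ¬ Function.Surjective f → f = 1 := by
    intro f hs
    have hpc : Fact (Nat.card H).Prime := ⟨by rw [hH]; exact hp⟩
    rcases f.range.eq_bot_or_eq_top_of_prime_card with h2 | h2
    · exact MonoidHom.range_eq_bot_iff.1 h2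
    · exact absurd (MonoidHom.range_eq_top.1 h2) hs
  refine Nat.card_le_card_of_injective (fun f : P →* H =>
    if h : Function.Surjective f then some (⟨f, h⟩ : {f : P →* H // Function.Surjective f})
    else none) ?_
  intro f g hfg
  by_cases hf1 : Function.Surjective f
  · by_cases hg1 : Function.Surjective g
    · simp only [dif_pos hf1, dif_pos hg1, Option.some.injEq, Subtype.mk.injEq] at hfg
      exact hfg
    · simp only [dif_pos hf1, dif_neg hg1, reduceCtorEq] at hfg
  · by_cases hg1 : Function.Surjective g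
    · simp only [dif_neg hf1, dif_pos hg1, reduceCtorEq] at hfg
    · rw [h1 f hf1, h1 g hg1]

theorem lsr (p : ℕ) (hp : p.Prime) (G : Type*) [CommGroup G] [Finite G]
    (H : Type*) [CommGroup H] (hH : Nat.card H = p) :
    Nat.card {c : G // c ^ p = 1} ≤
      Nat.card {f : ↥(Subgroup.closure {g : G | ∃ n : ℕ, g ^ (p ^ n) = 1}) →* H //
        Function.Surjective f} + 1 := by
  have hf : Finite H := Nat.finite_of_card_ne_zero (by rw [hH]; exact hp.ne_zero)
  obtain ⟨F, hF⟩ := LSr_gen p hp ↥(Subgroup.closure {g : G | ∃ n : ℕ, g ^ (p ^ n) = 1}) H hH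
  refine le_trans ?_ (LSr_card p hp _ H hH)
  have hfin : Finite (↥(Subgroup.closure {g : G | ∃ n : ℕ, g ^ (p ^ n) = 1}) →* H) :=
    DFunLike.finite _
  have hmem : ∀ c : {c : G // c ^ p = 1},
      c.1 ∈ Subgroup.closure {g : G | ∃ n : ℕ, g ^ (p ^ n) = 1} := fun c =>
    Subgroup.subset_closure ⟨1, by rw [pow_one]; exact c.2⟩
  refine Nat.card_le_card_of_injective
    (fun c => F ⟨⟨c.1, hmem c⟩, Subtype.ext (by simpa using c.2)⟩) ?_
  intro c d hcd
  have h1 := hF hcd
  have h2 := congrArg (fun z => (z.1 : G)) h1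
  exact Subtype.ext h2

end Pool.Agent.FTL
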