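import Pool.Agent.FTB.Mai
import Pool.Agent.FTL.LMn
import Pool.Agent.FTL.LSr

/-!
# FTL/LFn: the truncated moment for a group of order 5, from both sides

PROOF of `lfn`.  For real `X ≥ X1` let `x = ⌊X⌋₊`, `x ≥ X / 2`.  `lmn` with `ε / 2` and
`(X / 2) ^ (1 - ε / 2) ≥ X ^ (1 - ε)` for large `X` (if `ε ≥ 2` use a smaller `ε`: WLOG `ε ≤ 1`).
`lsr` with `p = 5` for every `K ∈ IQ x` (finite class group), `finsum_mem_eq_finite_toFinset_sum` and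
`Finset.sum_le_sum` (see `surBound` in Pool/Agent/FTA/Main.lean).
-/

set_option autoImplicit false

namespace Pool.Agent.FTL

open NumberField Pool.Agent.FTA Pool.Agent.FTB nonZeroDivisors

private theorem lfnSur (x : ℕ) (H : Type) [CommGroup H] (hH : Nat.card H = 5) :
    ∑ᶠ K ∈ IQ x, ((Nat.card {c : ClassGroup (𝓞 K) // c ^ 5 = 1} : ℝ) - 1) ≤
    ∑ᶠ K ∈ IQ x, (Nat.card {f : ↥(Subgroup.closure
      {g : ClassGroup (𝓞 K) | ∃ n : ℕ, g ^ (5 ^ n) = 1}) →* H // Function.Surjective f} : ℝ) := by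
  rw [finsum_mem_eq_finite_toFinset_sum _ (famFin _), finsum_mem_eq_finite_toFinset_sum _
    (famFin _)]
  apply Finset.sum_le_sum
  intro K hK
  rw [Set.Finite.mem_toFinset] at hK
  obtain ⟨hn, -⟩ := id hK
  have hfin : Finite (ClassGroup (𝓞 K)) := inferInstance
  have h := lsr 5 (by norm_num) (ClassGroup (𝓞 K)) H hH
  have h' : (Nat.card {c : ClassGroup (𝓞 K) // c ^ 5 = 1} : ℝ) ≤
      (Nat.card {f : ↥(Subgroup.closure
        {g : ClassGroup (𝓞 K) | ∃ n : ℕ, g ^ (5 ^ n) = 1}) →* H // Function.Surjective f} : ℝ)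
        + 1 := by
    exact_mod_cast h
  linarith

theorem lfn (H : Type) [CommGroup H] (hH : Nat.card H = 5) (ε : ℝ) (hε : 0 < ε) :
    ∃ X1 : ℝ, 1 ≤ X1 ∧ ∀ X : ℝ, X1 ≤ X → X ^ (1 - ε) ≤
      ∑ᶠ K ∈ IQ ⌊X⌋₊, (Nat.card {f : ↥(Subgroup.closure
        {g : ClassGroup (𝓞 K) | ∃ n : ℕ, g ^ (5 ^ n) = 1}) →* H // Function.Surjective f} : ℝ) := by
  have hδ0 : 0 < min ε 1 := lt_min hε one_pos
  have hδ1 : min ε 1 ≤ 1 := min_le_right _ _
  have hδε : min ε 1 ≤ ε := min_le_left _ _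
  generalize min ε 1 = δ at hδ0 hδ1 hδε
  obtain ⟨X0, h0⟩ := lmn (δ / 2) (by linarith)
  refine ⟨max (X0 + 2 : ℝ) ((2 : ℝ) ^ (2 / δ)), ?_, ?_⟩
  · refine le_trans ?_ (le_max_left _ _)
    have : (0 : ℝ) ≤ X0 := Nat.cast_nonneg _
    linarith
  · intro X hX
    have hX1 : (X0 : ℝ) + 2 ≤ X := le_trans (le_max_left _ _) hX
    have hX2 : (2 : ℝ) ^ (2 / δ) ≤ X := le_trans (le_max_right _ _) hX
    have hX00 : (0 : ℝ) ≤ X0 := Nat.cast_nonneg _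
    have hXpos : 0 < X := by linarith
    have hXge1 : 1 ≤ X := by linarith
    have hfl : X0 ≤ ⌊X⌋₊ := Nat.le_floor (by linarith)
    have hfl2 : X < (⌊X⌋₊ : ℝ) + 1 := Nat.lt_floor_add_one X
    have hhalf : X / 2 ≤ (⌊X⌋₊ : ℝ) := by linarith
    have hm := h0 ⌊X⌋₊ hfl
    refine le_trans ?_ (le_trans hm (lfnSur ⌊X⌋₊ H hH))
    have h2 : (2 : ℝ) ≤ X ^ (δ / 2) := by
      have h3 : ((2 : ℝ) ^ (2 / δ)) ^ (δ / 2) ≤ X ^ (δ / 2) :=
        Real.rpow_le_rpow (by positivity) hX2 (by linarith)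
      rw [← Real.rpow_mul (by norm_num)] at h3
      have h4 : 2 / δ * (δ / 2) = 1 := by
        field_simp
      rw [h4, Real.rpow_one] at h3
      exact h3
    have h5 : X ^ (1 - ε) ≤ X ^ (1 - δ) :=
      Real.rpow_le_rpow_of_exponent_le hXge1 (by linarith)
    have h6 : X ^ (1 - δ / 2) = X ^ (1 - δ) * X ^ (δ / 2) := by
      rw [← Real.rpow_add hXpos]
      congr 1
      ring
    have h7 : (X / 2) ^ (1 - δ / 2) ≤ (⌊X⌋₊ : ℝ) ^ (1 - δ / 2) :=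
      Real.rpow_le_rpow (by positivity) hhalf (by linarith)
    have h8 : (X / 2) ^ (1 - δ / 2) = X ^ (1 - δ / 2) / (2 : ℝ) ^ (1 - δ / 2) :=
      Real.div_rpow hXpos.le (by norm_num) _
    have h9 : (2 : ℝ) ^ (1 - δ / 2) ≤ 2 := by
      calc (2 : ℝ) ^ (1 - δ / 2) ≤ (2 : ℝ) ^ (1 : ℝ) :=
            Real.rpow_le_rpow_of_exponent_le (by norm_num) (by linarith)
        _ = 2 := Real.rpow_one 2
    have h10 : 0 < (2 : ℝ) ^ (1 - δ / 2) := Real.rpow_pos_of_pos (by norm_num) _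
    have h11 : 0 < X ^ (1 - δ) := Real.rpow_pos_of_pos hXpos _
    have h12 : X ^ (1 - δ) ≤ X ^ (1 - δ / 2) / (2 : ℝ) ^ (1 - δ / 2) := by
      rw [le_div_iff₀ h10, h6]
      exact mul_le_mul_of_nonneg_left (le_trans h9 h2) h11.le
    calc X ^ (1 - ε) ≤ X ^ (1 - δ) := h5
      _ ≤ X ^ (1 - δ / 2) / (2 : ℝ) ^ (1 - δ / 2) := h12
      _ = (X / 2) ^ (1 - δ / 2) := h8.symm
      _ ≤ _ := h7

end Pool.Agent.FTL
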