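import Mathlib

/-!
# FTL/LRo: the number of square roots modulo `m`

PROOF of `roo`.  If the set is empty, clear.  Fix `r0` in it.  Map `r` to `d = gcd (m, |r - r0|)`, a
divisor of `m`.  The map is injective: let `r, r'` have the same `d`, `m = d d'`.  `m ∣ r ^ 2 - r0 ^ 2 =
(r - r0) (r + r0)` and `gcd (m / d, (r - r0) / d) = 1`, so `d' ∣ r + r0`, and `d' ∣ r' + r0` in the same
way.  So `d ∣ r - r'` and `d' ∣ r - r'`.  `gcd (d, d') = 1`: a prime `p` dividing `d` and `d'`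
divides `r - r0` and `r + r0`, so `2 r0`, so `r0` (`m` odd); `p ^ 2 ∣ d d' = m ∣ r0 ^ 2 + D`, so
`p ^ 2 ∣ D`, a contradiction.  So `m = d d' ∣ r - r'`, and `r = r'` since `0 ≤ r, r' < m`.
-/

set_option autoImplicit false

namespace Pool.Agent.FTL

theorem roo (D m : ℕ) (hm : Odd m) (hD : ∀ p : ℕ, p.Prime → p ∣ m → ¬ p ^ 2 ∣ D) :
    ((Finset.range m).filter fun r => m ∣ r ^ 2 + D).card ≤ m.divisors.card := by
  classical
  have hm0 : m ≠ 0 := by
    rintro rfl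
    exact absurd hm (by decide)
  rcases Finset.eq_empty_or_nonempty ((Finset.range m).filter fun r => m ∣ r ^ 2 + D) with he | ⟨r0, hr0⟩
  · rw [he]; simp
  rw [Finset.mem_filter, Finset.mem_range] at hr0
  obtain ⟨hr0m, hr0d⟩ := hr0
  have key : ∀ r : ℕ, m ∣ r ^ 2 + D →
      (m : ℤ) ∣ (Int.gcd (m : ℤ) ((r : ℤ) - r0) : ℤ) * ((r : ℤ) + r0) := by
    intro r hr
    have h1 : (m : ℤ) ∣ ((r : ℤ) - r0) * ((r : ℤ) + r0) := by
      have e1 : (m : ℤ) ∣ (r : ℤ) ^ 2 + D := by exact_mod_cast hr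
      have e2 : (m : ℤ) ∣ (r0 : ℤ) ^ 2 + D := by exact_mod_cast hr0d
      have e3 := dvd_sub e1 e2
      have e4 : ((r : ℤ) ^ 2 + D) - ((r0 : ℤ) ^ 2 + D) = ((r : ℤ) - r0) * ((r : ℤ) + r0) := by ring
      rwa [e4] at e3
    have h2 := dvd_gcd_mul_of_dvd_mul h1
    rwa [← Int.coe_gcd] at h2
  refine Finset.card_le_card_of_injOn (fun r => Int.gcd (m : ℤ) ((r : ℤ) - r0)) ?_ ?_
  · intro r _
    apply Finset.mem_coe.2
    rw [Nat.mem_divisors]
    refine ⟨?_, hm0⟩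
    exact Int.natCast_dvd_natCast.1 (Int.gcd_dvd_left (m : ℤ) ((r : ℤ) - r0))
  · intro r hr r' hr' hrr
    simp only at hrr
    have hr1 := Finset.mem_filter.1 (Finset.mem_coe.1 hr)
    have hr1' := Finset.mem_filter.1 (Finset.mem_coe.1 hr')
    obtain ⟨hrm, hrd⟩ := hr1
    obtain ⟨hrm', hrd'⟩ := hr1'
    rw [Finset.mem_range] at hrm hrm'
    set d : ℕ := Int.gcd (m : ℤ) ((r : ℤ) - r0) with hd
    have hdm : d ∣ m := by
      exact Int.natCast_dvd_natCast.1 (Int.gcd_dvd_left (m : ℤ) ((r : ℤ) - r0))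
    obtain ⟨d', hd'⟩ := hdm
    have hd0 : d ≠ 0 := by
      intro h0
      rw [h0, zero_mul] at hd'
      exact hm0 hd'
    have hdz : (d : ℤ) ≠ 0 := by exact_mod_cast hd0
    have hmz : (m : ℤ) = d * d' := by exact_mod_cast hd'
    have a1 : (d' : ℤ) ∣ (r : ℤ) + r0 := by
      have := key r hrd
      rw [← hd, hmz] at this
      exact Int.dvd_of_mul_dvd_mul_left hdz this
    have a2 : (d' : ℤ) ∣ (r' : ℤ) + r0 := by
      have := key r' hrd'
      rw [← hrr, hmz] at this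
      exact Int.dvd_of_mul_dvd_mul_left hdz this
    have b1 : (d : ℤ) ∣ (r : ℤ) - r0 := Int.gcd_dvd_right (m : ℤ) ((r : ℤ) - r0)
    have b2 : (d : ℤ) ∣ (r' : ℤ) - r0 := by
      rw [hrr]
      exact Int.gcd_dvd_right (m : ℤ) ((r' : ℤ) - r0)
    have hcop : Nat.Coprime d d' := by
      apply Nat.Coprime.symm
      apply Nat.coprime_of_dvd
      intro p hp hpd' hpd
      have hpm : p ∣ m := by rw [hd']; exact Dvd.dvd.mul_right hpd _
      have hp2 : p ^ 2 ∣ m := by rw [hd', pow_two]; exact mul_dvd_mul hpd hpd'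
      have c1 : (p : ℤ) ∣ (r : ℤ) - r0 := dvd_trans (by exact_mod_cast hpd) b1
      have c2 : (p : ℤ) ∣ (r : ℤ) + r0 := dvd_trans (by exact_mod_cast hpd') a1
      have c3 : (p : ℤ) ∣ ((2 * r0 : ℕ) : ℤ) := by
        have := dvd_sub c2 c1
        have e : ((r : ℤ) + r0) - ((r : ℤ) - r0) = ((2 * r0 : ℕ) : ℤ) := by push_cast; ring
        rwa [e] at this
      have c4 : p ∣ 2 * r0 := by exact_mod_cast c3
      have c5 : p ∣ r0 := by
        rcases (Nat.Prime.dvd_mul hp).1 c4 with h | h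
        · exfalso
          have h2 : p = 2 := (Nat.prime_dvd_prime_iff_eq hp Nat.prime_two).1 h
          rw [h2] at hpm
          obtain ⟨k, hk⟩ := hpm
          obtain ⟨l, hl⟩ := hm
          omega
        · exact h
      have c6 : p ^ 2 ∣ r0 ^ 2 := pow_dvd_pow_of_dvd c5 2
      have c7 : p ^ 2 ∣ r0 ^ 2 + D := dvd_trans hp2 hr0d
      exact hD p hp hpm ((Nat.dvd_add_right c6).1 c7)
    have f1 : (d : ℤ) ∣ (r : ℤ) - r' := by
      have := dvd_sub b1 b2
      have e : ((r : ℤ) - r0) - ((r' : ℤ) - r0) = (r : ℤ) - r' := by ring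
      rwa [e] at this
    have f2 : (d' : ℤ) ∣ (r : ℤ) - r' := by
      have := dvd_sub a1 a2
      have e : ((r : ℤ) + r0) - ((r' : ℤ) + r0) = (r : ℤ) - r' := by ring
      rwa [e] at this
    have f3 : (m : ℤ) ∣ (r : ℤ) - r' := by
      rw [hmz]
      exact IsCoprime.mul_dvd (Nat.isCoprime_iff_coprime.2 hcop) f1 f2
    have f4 : r' ≡ r [MOD m] := (Nat.modEq_iff_dvd).2 f3
    exact (Nat.ModEq.eq_of_lt_of_lt f4 hrm' hrm).symm

end Pool.Agent.FTL
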