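import Pool.Agent.FTL.LKc
import Pool.Agent.FTL.LRo
import Pool.Agent.FTL.LFb

/-!
# FTL/LKn: the number of data with given `(K, n)`

PROOF of `lkn`.  If `S` is empty clear (the right side is `≥ 0`).  `choose` the data.  `G q` is a
divisor of `n ^ 5 ≤ Z`: at most `T` values.  For fixed `G` the number `m = n ^ 5 / G ^ 2` is fixed,
`1 ≤ m ≤ n ^ 5 ≤ Z`, and `r q` is in `(range m).filter (m ∣ r ^ 2 + aD K)`, which has at most
`card (divisors m) ≤ T` elements (`roo`; its hypothesis is `lfb3`: `m` is odd).  For fixed `(G, r)`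
use `lkc`.  (`fib_const` twice.)
-/

set_option autoImplicit false

namespace Pool.Agent.FTL

open NumberField Pool.Agent.FTA Pool.Agent.FTB nonZeroDivisors

theorem lkn (K : IntermediateField ℚ ℂ) [NumberField K] (h2 : Module.finrank ℚ K = 2)
    (him : ∃ x : K, (x : ℂ).im ≠ 0) (a n Z : ℕ) (T : ℝ) (hT : TauB Z T)
    (hZ : 64 * a ^ 5 ≤ Z) (hZn : n ^ 5 ≤ Z) (S : Finset Qt)
    (hS : ∀ q ∈ S, ∃ (G m r : ℕ) (β : 𝓞 K) (t1 y1 : ℤ) (I : (Ideal (𝓞 K))⁰),
      DQ K a n G m r q β t1 y1 I) :
    (S.card : ℝ) ≤ T ^ 2 * ((Nat.card {c : ClassGroup (𝓞 K) // c ^ 5 = 1} : ℝ) *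
      ((5 + 12 * (4 * (a : ℝ) ^ 2 / n) / √(aD K : ℝ)) * 15 * T)) := by
  classical
  have hT1 : 1 ≤ T := hT.1
  have hT0 : 0 ≤ T := by linarith
  set B : ℝ := (Nat.card {c : ClassGroup (𝓞 K) // c ^ 5 = 1} : ℝ) *
      ((5 + 12 * (4 * (a : ℝ) ^ 2 / n) / √(aD K : ℝ)) * 15 * T) with hB
  have hB0 : 0 ≤ B := by positivity
  rcases S.eq_empty_or_nonempty with hE | ⟨qq, hqq⟩
  · rw [hE, Finset.card_empty, Nat.cast_zero]
    positivity
  choose! G m r β t1 y1 I hq using hS
  have hn : 1 ≤ n := (hq qq hqq).hn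
  have hn5 : 1 ≤ n ^ 5 := Nat.one_le_pow _ _ hn
  have hdiv : ((n ^ 5).divisors.card : ℝ) ≤ T := hT.2 _ hn5 hZn
  have key : (S.card : ℝ) ≤ ((n ^ 5).divisors.card : ℝ) * (T * B) := by
    refine fib_const S G (n ^ 5).divisors ?_ (T * B) ?_
    · intro q hqS
      rw [Nat.mem_divisors]
      exact ⟨(hq q hqS).hGd, by omega⟩
    · intro G0 _
      rcases (S.filter (fun q => G q = G0)).eq_empty_or_nonempty with hE | ⟨q0, hq0⟩
      · rw [hE, Finset.card_empty, Nat.cast_zero]
        positivity
      have hq0' := Finset.mem_filter.mp hq0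
      have d0 := hq q0 hq0'.1
      have hG0 : 1 ≤ G0 := hq0'.2 ▸ d0.hG
      set m0 : ℕ := m q0 with hm0
      have hmm : G0 ^ 2 * m0 = n ^ 5 := by
        have := d0.hm
        rw [hq0'.2] at this
        exact this
      have hG2 : 0 < G0 ^ 2 := by positivity
      have hm1 : 1 ≤ m0 := by
        rcases Nat.eq_zero_or_pos m0 with h | h
        · rw [h, mul_zero] at hmm
          omega
        · exact h
      have hmle : m0 ≤ n ^ 5 := by
        rw [← hmm]
        exact Nat.le_mul_of_pos_left _ hG2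
      have hroo := roo (aD K) m0 d0.om (by
        intro p hp hpm
        apply lfb3 K h2 him p hp
        rintro rfl
        have ho : Odd m0 := d0.om
        rw [← Nat.not_even_iff_odd] at ho
        exact ho (even_iff_two_dvd.mpr hpm))
      have hmT : (m0.divisors.card : ℝ) ≤ T := hT.2 _ hm1 (hmle.trans hZn)
      have key2 : ((S.filter (fun q => G q = G0)).card : ℝ) ≤
          (((Finset.range m0).filter fun r => m0 ∣ r ^ 2 + aD K).card : ℝ) * B := by
        refine fib_const _ r _ ?_ B ?_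
        · intro q hqS
          have hqS' := Finset.mem_filter.mp hqS
          have d := hq q hqS'.1
          have hmq : m q = m0 := by
            have h1 := d.hm
            rw [hqS'.2] at h1
            exact Nat.eq_of_mul_eq_mul_left hG2 (h1.trans hmm.symm)
          rw [Finset.mem_filter, Finset.mem_range]
          exact ⟨hmq ▸ d.hr, hmq ▸ d.hr3⟩
        · intro r0 _
          rw [hB]
          refine lkc K h2 him a n G0 m0 r0 Z T hT hZ _ ?_
          intro q hqS
          have hqS1 := Finset.mem_filter.mp hqS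
          have hqS' := Finset.mem_filter.mp hqS1.1
          have d := hq q hqS'.1
          have hmq : m q = m0 := by
            have h1 := d.hm
            rw [hqS'.2] at h1
            exact Nat.eq_of_mul_eq_mul_left hG2 (h1.trans hmm.symm)
          refine ⟨β q, t1 q, y1 q, I q, ?_⟩
          rw [hqS'.2, hmq, hqS1.2] at d
          exact d
      refine key2.trans ?_
      apply mul_le_mul_of_nonneg_right _ hB0
      refine le_trans ?_ hmT
      exact_mod_cast hroo
  calc (S.card : ℝ) ≤ ((n ^ 5).divisors.card : ℝ) * (T * B) := key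
    _ ≤ T * (T * B) := mul_le_mul_of_nonneg_right hdiv (by positivity)
    _ = T ^ 2 * B := by ring

end Pool.Agent.FTL
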