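import Pool.Agent.FTA.Fam
import Pool.Agent.FTA.Fib
import Pool.Agent.FTB.ImZ
import Pool.Agent.FTL.LFd

/-!
# FTL/LNc: the number of imaginary quadratic fields

PROOF of `aD_mod`: `omg_exists`, `co_norm`: `4 norm = t0 ^ 2 + aD K`.
PROOF of `lnc_up`: `K ↦ aD K` is injective on `IQ Y` with values in the `n ∈ Icc 1 Y`, `n % 4 = 0` or
`3`; there are at most `Y / 2 + 1` of them.
PROOF of `lnc`: the `D ≤ X`, `D ≡ 0, 3` modulo 4 are mapped to `(Kf D, cf D)`; for fixed `f = cf D` the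
map `D ↦ Kf D` is injective into `IQ (X / f ^ 2)`.
-/

set_option autoImplicit false

namespace Pool.Agent.FTL

open NumberField Pool.Agent.FTA Pool.Agent.FTB nonZeroDivisors

theorem aD_mod (K : IntermediateField ℚ ℂ) [NumberField K] (h2 : Module.finrank ℚ K = 2)
    (him : ∃ x : K, (x : ℂ).im ≠ 0) : aD K % 4 = 0 ∨ aD K % 4 = 3 := by
  obtain ⟨ω, t0, hω⟩ := omg_exists K h2 him
  have h := co_norm K h2 him ω t0 1 hω
  have h1 : (aD K : ℤ) = 4 * (Ideal.absNorm (Ideal.span {ω}) : ℤ) - t0 ^ 2 := by linarith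
  rcases Int.even_or_odd' t0 with ⟨s, hs | hs⟩
  · left
    have : (aD K : ℤ) = 4 * ((Ideal.absNorm (Ideal.span {ω}) : ℤ) - s ^ 2) := by
      rw [h1, hs]; ring
    omega
  · right
    have : (aD K : ℤ) = 4 * ((Ideal.absNorm (Ideal.span {ω}) : ℤ) - s ^ 2 - s - 1) + 3 := by
      rw [h1, hs]; ring
    omega

/-- the integers `1 ≤ n ≤ Y` with `n ≡ 0, 3` modulo 4 -/
private def N3 (Y : ℕ) : Finset ℕ := (Finset.Icc 1 Y).filter fun n => n % 4 = 0 ∨ n % 4 = 3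

private theorem N3_card (Y : ℕ) : 2 * (N3 Y).card ≤ Y + 2 ∧ Y ≤ 2 * (N3 Y).card + 2 := by
  unfold N3
  induction Y using Nat.strong_induction_on with
  | _ Y ih =>
    rcases Nat.lt_or_ge Y 4 with h | h
    · interval_cases Y <;> decide
    · obtain ⟨Z, rfl⟩ : ∃ Z, Y = Z + 4 := ⟨Y - 4, by omega⟩
      have h1 := ih Z (by omega)
      have h2 : Finset.Icc 1 (Z + 4) = Finset.Icc 1 Z ∪ Finset.Icc (Z + 1) (Z + 4) := by
        ext x
        simp only [Finset.mem_union, Finset.mem_Icc]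
        omega
      have h3 : Disjoint (Finset.Icc 1 Z) (Finset.Icc (Z + 1) (Z + 4)) := by
        rw [Finset.disjoint_left]
        intro x hx hx'
        rw [Finset.mem_Icc] at hx hx'
        omega
      have h4 : ((Finset.Icc (Z + 1) (Z + 4)).filter fun n => n % 4 = 0 ∨ n % 4 = 3).card = 2 := by
        have h5 : ((Finset.Icc (Z + 1) (Z + 4)).filter fun n => n % 4 = 0 ∨ n % 4 = 3) =
            {Z + 4 - Z % 4, Z + 1 + (6 - Z % 4) % 4} := by
          ext x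
          simp only [Finset.mem_filter, Finset.mem_Icc, Finset.mem_insert, Finset.mem_singleton]
          omega
        rw [h5, Finset.card_pair (by omega)]
      rw [h2, Finset.filter_union, Finset.card_union_of_disjoint
        (Finset.disjoint_filter_filter h3), h4]
      omega

theorem lnc_up (Y : ℕ) : 2 * (IQ Y).ncard ≤ Y + 2 := by
  have h := Set.ncard_le_ncard_of_injOn (s := IQ Y)
    (t := ((N3 Y : Finset ℕ) : Set ℕ)) aD (fun K hK => ?_) ?_ (Finset.finite_toSet _)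
  · rw [Set.ncard_coe_finset] at h
    have := (N3_card Y).1
    omega
  · obtain ⟨hn, h2, him, hY⟩ := hK
    unfold N3
    rw [Finset.coe_filter, Set.mem_setOf_eq, Finset.mem_Icc]
    exact ⟨⟨aD_pos K, hY⟩, aD_mod K h2 him⟩
  · rintro K ⟨hK, h2, him, _⟩ K' ⟨hK', h2', him', _⟩ h
    exact uniq K K' h2 him h2' him' h

private theorem lnc_fib (X f : ℕ) (hf : 1 ≤ f) :
    ((N3 X).filter fun D => cf D = f).card ≤ (IQ (X / f ^ 2)).ncard := by
  rw [← Set.ncard_coe_finset]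
  refine Set.ncard_le_ncard_of_injOn Kf ?_ ?_ (famFin _)
  · intro D hD
    rw [Finset.mem_coe, Finset.mem_filter] at hD
    unfold N3 at hD
    rw [Finset.mem_filter, Finset.mem_Icc] at hD
    obtain ⟨⟨⟨hD1, hDX⟩, h4⟩, hc⟩ := hD
    obtain ⟨⟨hn, h2⟩, him, hDf, -, -⟩ := fld D hD1 h4
    refine ⟨hn, h2, him, ?_⟩
    rw [Nat.le_div_iff_mul_le (by positivity)]
    rw [hc] at hDf
    calc aD (Kf D) * f ^ 2 = D := by rw [mul_comm]; exact hDf.symm
      _ ≤ X := hDX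
  · intro D hD D' hD' hK
    rw [Finset.mem_coe, Finset.mem_filter] at hD hD'
    unfold N3 at hD hD'
    rw [Finset.mem_filter, Finset.mem_Icc] at hD hD'
    obtain ⟨⟨⟨hD1, hDX⟩, h4⟩, hc⟩ := hD
    obtain ⟨⟨⟨hD1', hDX'⟩, h4'⟩, hc'⟩ := hD'
    obtain ⟨-, -, hDf, -, -⟩ := fld D hD1 h4
    obtain ⟨-, -, hDf', -, -⟩ := fld D' hD1' h4'
    have hK' : Kf D = Kf D' := hK
    rw [hDf, hDf', hc, hc', hK']

private theorem sum_sq (n : ℕ) : ∑ f ∈ Finset.Icc 3 (n + 2), (1 : ℝ) / (f : ℝ) ^ 2 ≤ 1 / 2 := by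
  have h : ∑ f ∈ Finset.Icc 3 (n + 2), (1 : ℝ) / (f : ℝ) ^ 2 ≤ 1 / 2 - 1 / ((n : ℝ) + 2) := by
    induction n with
    | zero => simp
    | succ n ih =>
      have h1 : Finset.Icc 3 (n + 1 + 2) = insert (n + 3) (Finset.Icc 3 (n + 2)) := by
        ext x
        simp only [Finset.mem_insert, Finset.mem_Icc]
        omega
      rw [h1, Finset.sum_insert (by rw [Finset.mem_Icc]; omega)]
      have h2 : (1 : ℝ) / (((n + 3 : ℕ) : ℝ)) ^ 2 ≤ 1 / ((n : ℝ) + 2) - 1 / ((n : ℝ) + 3) := by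
        push_cast
        have hn : (0 : ℝ) ≤ n := Nat.cast_nonneg n
        rw [div_sub_div _ _ (by positivity) (by positivity), div_le_div_iff₀ (by positivity)
          (by positivity)]
        nlinarith
      have h3 : ((n + 1 : ℕ) : ℝ) + 2 = (n : ℝ) + 3 := by push_cast; ring
      rw [h3]
      linarith
  have : (0 : ℝ) ≤ 1 / ((n : ℝ) + 2) := by positivity
  linarith

theorem lnc (X : ℕ) (hX : 10 ^ 4 ≤ X) : (X : ℝ) / 16 ≤ ((IQ X).ncard : ℝ) := by
  classical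
  have hX0 : (0 : ℝ) ≤ X := Nat.cast_nonneg X
  set r := Nat.sqrt X with hr
  have hr1 : 100 ≤ r := by
    rw [hr, Nat.le_sqrt]; omega
  have hr2 : r * r ≤ X := Nat.sqrt_le X
  have hmaps : ∀ D ∈ N3 X, cf D ∈ Finset.Icc 1 r := by
    intro D hD
    unfold N3 at hD
    rw [Finset.mem_filter, Finset.mem_Icc] at hD
    obtain ⟨⟨hD1, hDX⟩, h4⟩ := hD
    obtain ⟨⟨hn, h2⟩, him, hDf, hc, -⟩ := fld D hD1 h4
    rw [Finset.mem_Icc]
    refine ⟨hc, ?_⟩
    rw [hr, Nat.le_sqrt]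
    have h1 : 1 ≤ aD (Kf D) := aD_pos (Kf D)
    calc cf D * cf D = cf D ^ 2 * 1 := by ring
      _ ≤ cf D ^ 2 * aD (Kf D) := Nat.mul_le_mul_left _ h1
      _ = D := hDf.symm
      _ ≤ X := hDX
  have h1 := fib (N3 X) cf (Finset.Icc 1 r) hmaps (fun f => ((IQ (X / f ^ 2)).ncard : ℝ)) (by
    intro f hf
    rw [Finset.mem_Icc] at hf
    exact_mod_cast lnc_fib X f hf.1)
  have h2 : Finset.Icc 1 r = insert 1 (insert 2 (Finset.Icc 3 r)) := by
    ext x
    simp only [Finset.mem_insert, Finset.mem_Icc]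
    omega
  rw [h2, Finset.sum_insert (by simp), Finset.sum_insert (by simp)] at h1
  have hb : ∀ f : ℕ, 1 ≤ f → ((IQ (X / f ^ 2)).ncard : ℝ) ≤ (X : ℝ) / 2 * (1 / (f : ℝ) ^ 2) + 1 := by
    intro f hf
    have h3 := lnc_up (X / f ^ 2)
    have h4 : (2 : ℝ) * ((IQ (X / f ^ 2)).ncard : ℝ) ≤ ((X / f ^ 2 : ℕ) : ℝ) + 2 := by
      exact_mod_cast h3
    have h5 : ((X / f ^ 2 : ℕ) : ℝ) ≤ (X : ℝ) / (f : ℝ) ^ 2 := by
      have := @Nat.cast_div_le ℝ _ _ _ X (f ^ 2)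
      push_cast at this
      exact this
    have h6 : (X : ℝ) / 2 * (1 / (f : ℝ) ^ 2) = ((X : ℝ) / (f : ℝ) ^ 2) / 2 := by ring
    rw [h6]
    linarith
  have hs : ∑ f ∈ Finset.Icc 3 r, ((IQ (X / f ^ 2)).ncard : ℝ) ≤ (X : ℝ) / 4 + r := by
    calc ∑ f ∈ Finset.Icc 3 r, ((IQ (X / f ^ 2)).ncard : ℝ) ≤
        ∑ f ∈ Finset.Icc 3 r, ((X : ℝ) / 2 * (1 / (f : ℝ) ^ 2) + 1) := by
          apply Finset.sum_le_sum
          intro f hf
          rw [Finset.mem_Icc] at hf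
          exact hb f (by omega)
      _ = (X : ℝ) / 2 * ∑ f ∈ Finset.Icc 3 r, (1 / (f : ℝ) ^ 2) + (Finset.Icc 3 r).card := by
          rw [Finset.sum_add_distrib, Finset.mul_sum]
          simp
      _ ≤ (X : ℝ) / 2 * (1 / 2) + r := by
          have h7 := sum_sq (r - 2)
          have h8 : r - 2 + 2 = r := by omega
          rw [h8] at h7
          have h9 : ((Finset.Icc 3 r).card : ℝ) ≤ r := by
            rw [Nat.card_Icc]
            exact_mod_cast (by omega : r + 1 - 3 ≤ r)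
          have h10 := mul_le_mul_of_nonneg_left h7 (by positivity : (0 : ℝ) ≤ (X : ℝ) / 2)
          linarith
      _ = (X : ℝ) / 4 + r := by ring
  have h2b := hb 2 (by norm_num)
  have hN := (N3_card X).2
  have hN' : (X : ℝ) ≤ 2 * ((N3 X).card : ℝ) + 2 := by exact_mod_cast hN
  have hq : X / 1 ^ 2 = X := by simp
  rw [hq] at h1
  have hrX : (100 : ℝ) * r ≤ X := by
    have : 100 * r ≤ X := le_trans (Nat.mul_le_mul_right r hr1) hr2
    exact_mod_cast this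
  have hX4 : (10000 : ℝ) ≤ X := by exact_mod_cast hX
  have h2c : ((IQ (X / 2 ^ 2)).ncard : ℝ) ≤ (X : ℝ) / 8 + 1 := by
    have : (X : ℝ) / 2 * (1 / ((2 : ℕ) : ℝ) ^ 2) + 1 = (X : ℝ) / 8 + 1 := by
      push_cast; ring
    linarith
  linarith

end Pool.Agent.FTL
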