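import Pool.Agent.FTB.CMn
import Pool.Agent.FTB.ImZ
import Pool.Agent.FTL.DefsL

/-!
# FTL/LPb: the integers in a primitive ideal

PROOF of `pib`.  (1) There is `b ∈ I` with second coordinate 1.  The set of the second coordinates
of the elements of `I` is an additive subgroup of `ℤ` (`co_unique`; sums and negatives of `Co`),
so it is `g ℤ` (`Int.subgroup_cyclic` or `AddSubgroup.zmultiples`), `g ≥ 0`.  For `b ∈ I` with
coordinates `(T, Y)` and `ω` with coordinates `(t0, 1)` (`omg_exists`), `ω b ∈ I` has second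
coordinate `Y'` with `2 Y' = t0 Y + T` (`co_mul`), so `g ∣ Y, Y'`, and `b = Y' + Y (ω - t0)`
(compare coordinates), so `b ∈ span {g}`.  So `I ≤ span {g}`; as `I ≠ ⊥`, `g ≠ 0`, and `hI`
gives `g = 1`.
(2) Let `N = absNorm I`, `I * I1 = span {N}` (`cpl`).  I want `N ∣ s`.  Let `b ∈ I` be as in (1),
`b'` its conjugate (`co_conj`, coordinates `(T, -1)`).  Claim `N` divides `s b'` in `𝓞 K`; then the
second coordinate `- s` of `s b'` is divisible by `N` (`co_nat`, `co_unique`).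
Proof of the claim: if `s = 0` clear.  `(s) * (b b') = (b)(s b')`; let `J = span {b}`, `J = I * C`,
`span {(s : 𝓞 K)} = I * E` (`Ideal.dvd_iff_le`), `span {b'} * span {b} = span {b b'}` where `b b' = absNorm J`
(`co_conj`), `absNorm J = N * absNorm C`, and `C * C1 = span {absNorm C}` (`cpl`).  So
`span {b'} * I * C = span {N} * span {absNorm C} = I * I1 * C * C1`, hence `span {b'} = I1 * C1`,
and `span {s b'} = I * E * I1 * C1 = span {N} * (E * C1)`, which gives `N ∣ s b'`.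
-/

set_option autoImplicit false

namespace Pool.Agent.FTL

open NumberField Pool.Agent.FTA Pool.Agent.FTB nonZeroDivisors

private theorem LPb_add (K : IntermediateField ℚ ℂ) [NumberField K] (a b : 𝓞 K) (t y t' y' : ℤ)
    (h : Co K a t y) (h' : Co K b t' y') : Co K (a + b) (t + t') (y + y') := by
  unfold Co at *
  push_cast
  rw [mul_add, h, h']
  ring

private theorem LPb_mul (K : IntermediateField ℚ ℂ) [NumberField K] (a : 𝓞 K) (t y n : ℤ)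
    (h : Co K a t y) : Co K ((n : 𝓞 K) * a) (n * t) (n * y) := by
  have hc : ((((n : ℤ) : 𝓞 K) : K) : ℂ) = (n : ℂ) := by simp
  unfold Co at *
  push_cast
  rw [hc, mul_left_comm, h]
  ring

private theorem LPb_int (K : IntermediateField ℚ ℂ) [NumberField K] (z : ℤ) :
    Co K (z : 𝓞 K) (2 * z) 0 := by
  have hc : ((((z : ℤ) : 𝓞 K) : K) : ℂ) = (z : ℂ) := by simp
  unfold Co
  rw [hc]
  push_cast
  ring

private theorem LPb_zero (K : IntermediateField ℚ ℂ) [NumberField K] :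
    Co K (0 : 𝓞 K) 0 0 := by
  have h := LPb_int K 0
  simpa using h

theorem pib1 (K : IntermediateField ℚ ℂ) [NumberField K] (h2 : Module.finrank ℚ K = 2)
    (him : ∃ x : K, (x : ℂ).im ≠ 0) (I : (Ideal (𝓞 K))⁰)
    (hI : ∀ l : ℕ, 2 ≤ l → ¬ ((I : Ideal (𝓞 K)) ≤ Ideal.span {(l : 𝓞 K)})) :
    ∃ b ∈ (I : Ideal (𝓞 K)), ∃ T : ℤ, Co K b T 1 := by
  obtain ⟨ω, t0, hω⟩ := omg_exists K h2 him
  let H : AddSubgroup ℤ :=
    { carrier := {Y | ∃ b ∈ (I : Ideal (𝓞 K)), ∃ T : ℤ, Co K b T Y}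
      zero_mem' := ⟨0, Ideal.zero_mem _, 0, LPb_zero K⟩
      add_mem' := by
        rintro x y ⟨b, hb, T, hT⟩ ⟨b', hb', T', hT'⟩
        exact ⟨b + b', Ideal.add_mem _ hb hb', T + T', LPb_add K _ _ _ _ _ _ hT hT'⟩
      neg_mem' := by
        rintro x ⟨b, hb, T, hT⟩
        exact ⟨-b, (Ideal.neg_mem_iff _).2 hb, -T, co_neg K _ _ _ hT⟩ }
  obtain ⟨g, hg⟩ := Int.subgroup_cyclic H
  have hmem : ∀ Y : ℤ, (∃ b ∈ (I : Ideal (𝓞 K)), ∃ T : ℤ, Co K b T Y) → g ∣ Y := by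
    intro Y hY
    have h1 : Y ∈ H := hY
    rw [hg, AddSubgroup.mem_closure_singleton] at h1
    obtain ⟨n, hn⟩ := h1
    exact ⟨n, by rw [← hn, smul_eq_mul, mul_comm]⟩
  have hgH : g ∈ H := by
    rw [hg]
    exact AddSubgroup.subset_closure rfl
  obtain ⟨b0, hb0, T0, hT0⟩ := hgH
  -- every element of `I` is a multiple of `g`
  have hdiv : ∀ b ∈ (I : Ideal (𝓞 K)), ∃ c : 𝓞 K, b = (g : 𝓞 K) * c := by
    intro b hb
    obtain ⟨T, Y, hTY⟩ := co_exists K h2 him b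
    obtain ⟨T', Y', hTY'⟩ := co_exists K h2 him (ω * b)
    obtain ⟨y, hy⟩ := hmem Y ⟨b, hb, T, hTY⟩
    obtain ⟨y', hy'⟩ := hmem Y' ⟨ω * b, Ideal.mul_mem_left _ _ hb, T', hTY'⟩
    have h3 := (co_mul K ω b t0 1 T Y T' Y' hω hTY hTY').2
    refine ⟨(y' : 𝓞 K) + (y : 𝓞 K) * (ω - (t0 : 𝓞 K)), ?_⟩
    have h4 : Co K (((Y' : ℤ) : 𝓞 K) + ((Y : ℤ) : 𝓞 K) * (ω + ((-t0 : ℤ) : 𝓞 K))) (2 * Y' + Y * (t0 + 2 * (-t0)))
        (0 + Y * (1 + 0)) :=
      LPb_add K _ _ _ _ _ _ (LPb_int K Y')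
        (LPb_mul K _ _ _ _ (LPb_add K _ _ _ _ _ _ hω (LPb_int K (-t0))))
    have h5 : 2 * Y' + Y * (t0 + 2 * (-t0)) = T := by linarith
    have h6 : 0 + Y * (1 + 0) = Y := by ring
    rw [h5, h6] at h4
    have h7 := co_inj K _ _ _ _ hTY h4
    rw [h7, hy, hy']
    push_cast
    ring
  have hI0 : (I : Ideal (𝓞 K)) ≠ 0 := nonZeroDivisors.coe_ne_zero I
  have hle : (I : Ideal (𝓞 K)) ≤ Ideal.span {((g.natAbs : ℕ) : 𝓞 K)} := by
    intro b hb
    obtain ⟨c, hc⟩ := hdiv b hb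
    rw [Ideal.mem_span_singleton]
    rcases Int.natAbs_eq g with h | h
    · refine ⟨c, ?_⟩
      rw [hc]
      congr 1
      conv_lhs => rw [h]
      simp
    · refine ⟨-c, ?_⟩
      rw [hc]
      have : (g : 𝓞 K) = -((g.natAbs : ℕ) : 𝓞 K) := by
        conv_lhs => rw [h]
        rw [Int.cast_neg, Int.cast_natCast]
      rw [this]
      ring
  have hg0 : g.natAbs ≠ 0 := by
    intro h
    rw [h] at hle
    apply hI0
    rw [Nat.cast_zero, Ideal.span_singleton_eq_bot.2 rfl] at hle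
    exact le_bot_iff.1 hle
  have hg1 : g.natAbs = 1 := by
    by_contra h
    exact hI _ (by omega) hle
  rcases Int.natAbs_eq g with h | h
  · rw [hg1] at h
    rw [h] at hT0
    exact ⟨b0, hb0, T0, by simpa using hT0⟩
  · rw [hg1] at h
    rw [h] at hT0
    refine ⟨-b0, (Ideal.neg_mem_iff _).2 hb0, -T0, ?_⟩
    have := co_neg K _ _ _ hT0
    simpa using this

theorem pib (K : IntermediateField ℚ ℂ) [NumberField K] (h2 : Module.finrank ℚ K = 2)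
    (him : ∃ x : K, (x : ℂ).im ≠ 0) (I : (Ideal (𝓞 K))⁰)
    (hI : ∀ l : ℕ, 2 ≤ l → ¬ ((I : Ideal (𝓞 K)) ≤ Ideal.span {(l : 𝓞 K)})) (s : ℤ)
    (hs : (s : 𝓞 K) ∈ (I : Ideal (𝓞 K))) : (Ideal.absNorm (I : Ideal (𝓞 K)) : ℤ) ∣ s := by
  obtain ⟨b, hb, T, hT⟩ := pib1 K h2 him I hI
  obtain ⟨b', hb', hbb⟩ := co_conj K h2 him b T 1 hT
  have hb0 : b ≠ 0 := by
    rintro rfl
    have := (co_unique K 0 T 1 0 0 hT (LPb_zero K)).2
    omega
  have hI0 : (I : Ideal (𝓞 K)) ≠ 0 := nonZeroDivisors.coe_ne_zero I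
  obtain ⟨C, hC⟩ := Ideal.dvd_iff_le.2 ((Ideal.span_singleton_le_iff_mem _).2 hb)
  obtain ⟨E, hE⟩ := Ideal.dvd_iff_le.2 ((Ideal.span_singleton_le_iff_mem _).2 hs)
  have hJ0 : Ideal.span {b} ≠ 0 := by
    rw [Ne, Ideal.zero_eq_bot, Ideal.span_singleton_eq_bot]
    exact hb0
  have hC0 : C ≠ 0 := by
    rintro rfl
    rw [mul_zero] at hC
    exact hJ0 hC
  obtain ⟨I1, hI1, -, -⟩ := cpl K h2 I
  obtain ⟨C1, hC1, -, -⟩ := cpl K h2 ⟨C, mem_nonZeroDivisors_iff_ne_zero.2 hC0⟩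
  have hC1' : C * (C1 : Ideal (𝓞 K)) = Ideal.span {((Ideal.absNorm C : ℕ) : 𝓞 K)} := hC1
  have hn : Ideal.absNorm (Ideal.span {b}) = Ideal.absNorm (I : Ideal (𝓞 K)) * Ideal.absNorm C := by
    rw [hC, map_mul]
  have h3 : Ideal.span {b} * Ideal.span {b'} =
      Ideal.span {b} * ((I1 : Ideal (𝓞 K)) * (C1 : Ideal (𝓞 K))) := by
    rw [Ideal.span_singleton_mul_span_singleton, hbb, hn, Nat.cast_mul,
      ← Ideal.span_singleton_mul_span_singleton, ← hI1, ← hC1', hC]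
    ring
  have h4 : Ideal.span {b'} = (I1 : Ideal (𝓞 K)) * (C1 : Ideal (𝓞 K)) := mul_left_cancel₀ hJ0 h3
  have h5 : Ideal.span {(s : 𝓞 K) * b'} =
      Ideal.span {((Ideal.absNorm (I : Ideal (𝓞 K)) : ℕ) : 𝓞 K)} * (E * (C1 : Ideal (𝓞 K))) := by
    rw [← Ideal.span_singleton_mul_span_singleton, hE, h4, ← hI1]
    ring
  have h6 : Ideal.span {(s : 𝓞 K) * b'} ≤
      Ideal.span {((Ideal.absNorm (I : Ideal (𝓞 K)) : ℕ) : 𝓞 K)} := by
    exact Ideal.dvd_iff_le.1 ⟨_, h5⟩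
  rw [Ideal.span_singleton_le_span_singleton] at h6
  obtain ⟨c, hc⟩ := h6
  obtain ⟨t, y, hty⟩ := co_exists K h2 him c
  have h7 := co_nat K c t y (Ideal.absNorm (I : Ideal (𝓞 K))) hty
  rw [← hc] at h7
  have h8 := LPb_mul K b' T (-1) s hb'
  have h9 := (co_unique K _ _ _ _ _ h7 h8).2
  exact ⟨-y, by linarith⟩

end Pool.Agent.FTL
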