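import Pool.Agent.FTB.Mai
import Pool.Agent.FTL.LKs

/-!
# FTL/LQF: the number of data with `F ≤ f < 2 F`

PROOF of `lqf`.  `mai` of FTB with the same `ε` gives `C1` (enlarge it to be `≥ 1`); `C = 2300 C1`.
If `S` is empty clear.  Else for `q ∈ S`, `F ^ 2 ≤ f ^ 2 ≤ f ^ 2 aD = D ≤ X`.  For every `q ∈ S` the
field `Kf q.1` is in `IQ ⌊(X : ℝ) / F ^ 2⌋₊`: `fld` and `aD = D / f ^ 2 ≤ X / F ^ 2`.
`fib` with the map `q ↦ Kf q.1` into `(famFin _).toFinset` and `lks` for the fibres: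
`card S ≤ ∑ K ∈ (famFin _).toFinset, 2300 T ^ 3 Q L F card {c // c ^ 5 = 1}`, and
`finsum_mem_eq_finite_toFinset_sum` with `mai` at `X / F ^ 2 ≥ 1`:
`≤ 2300 T ^ 3 Q L F C1 (X / F ^ 2) ^ (1 + ε) ≤ 2300 C1 T ^ 3 Q L X ^ (1 + ε) / F`
(`(F ^ 2) ^ (1 + ε) ≥ F ^ 2`).
(Inside the sum, the `NumberField` instance for `K ∈ IQ _` comes from the membership: see the proof
of `famSum` in Pool/Agent/FTA/Fam.lean.)
-/

set_option autoImplicit false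

namespace Pool.Agent.FTL

open NumberField Pool.Agent.FTA Pool.Agent.FTB nonZeroDivisors

theorem lqf (ε : ℝ) (hε : 0 < ε) : ∃ C : ℝ, 0 < C ∧ ∀ (X a Z F : ℕ) (R T Q L : ℝ),
    1 ≤ X → 2 ≤ R → a ^ 4 ≤ X → TauB Z T → UniB Z Q → (4 * X) ^ 5 ≤ Z →
    1 + Real.log (4 * X) ≤ L → 1 ≤ F → ∀ S : Finset Qt,
    (∀ q ∈ S, Qdq X a R q ∧ F ≤ cf q.1 ∧ cf q.1 < 2 * F) →
    (S.card : ℝ) ≤ C * T ^ 3 * Q * L * (X : ℝ) ^ (1 + ε) / F := by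
  classical
  obtain ⟨C0, hC0⟩ := mai ε hε
  have hC1 : (0 : ℝ) < max C0 1 := lt_of_lt_of_le one_pos (le_max_right _ _)
  refine ⟨2300 * max C0 1, by positivity, ?_⟩
  intro X a Z F R T Q L hX hR haX hT hQ hZ hL hF S hS
  have hT0 : (0 : ℝ) < T := lt_of_lt_of_le one_pos hT.1
  have hQ0 : (0 : ℝ) < Q := lt_of_lt_of_le one_pos hQ.1
  have hXr : (1 : ℝ) ≤ X := by exact_mod_cast hX
  have hL0 : (0 : ℝ) < L := by
    have h1 : 0 ≤ Real.log (4 * X) := Real.log_nonneg (by linarith)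
    linarith
  have hFr : (1 : ℝ) ≤ F := by exact_mod_cast hF
  have hfacts : ∀ q ∈ S, (∃ _ : NumberField (Kf q.1), Module.finrank ℚ (Kf q.1) = 2) ∧
      (∃ x : Kf q.1, (x : ℂ).im ≠ 0) ∧ F ^ 2 * aD (Kf q.1) ≤ X ∧ 1 ≤ aD (Kf q.1) := by
    intro q hq
    obtain ⟨hqd, hq1, hq2⟩ := hS q hq
    have hqd' : Qd X a R q.1 q.2.1 q.2.2.1 q.2.2.2 := hqd
    have hD1 : 1 ≤ q.1 := by
      have := hqd'.D1
      omega
    obtain ⟨h1, h2, h3, h4, -⟩ := fld q.1 hD1 hqd'.D3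
    refine ⟨h1, h2, ?_, ?_⟩
    · calc F ^ 2 * aD (Kf q.1) ≤ cf q.1 ^ 2 * aD (Kf q.1) := by gcongr
        _ = q.1 := h3.symm
        _ ≤ X := hqd'.D2
    · obtain ⟨hN, -⟩ := h1
      exact aD_pos (Kf q.1)
  rcases S.eq_empty_or_nonempty with rfl | hne
  · simp only [Finset.card_empty, Nat.cast_zero]
    positivity
  have hF2 : (0 : ℝ) < (F : ℝ) ^ 2 := by positivity
  have hY : (1 : ℝ) ≤ (X : ℝ) / (F : ℝ) ^ 2 := by
    obtain ⟨q, hq⟩ := hne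
    obtain ⟨-, -, h1, h2⟩ := hfacts q hq
    rw [le_div_iff₀ hF2, one_mul]
    have h3 : F ^ 2 ≤ X := by nlinarith
    exact_mod_cast h3
  have hmaps : ∀ q ∈ S, Kf q.1 ∈ (famFin ⌊(X : ℝ) / (F : ℝ) ^ 2⌋₊).toFinset := by
    intro q hq
    obtain ⟨⟨hN, h2⟩, h3, h4, h5⟩ := hfacts q hq
    rw [Set.Finite.mem_toFinset]
    refine ⟨hN, h2, h3, ?_⟩
    apply Nat.le_floor
    rw [le_div_iff₀ hF2]
    have h6 : aD (Kf q.1) * F ^ 2 ≤ X := by rw [mul_comm]; exact h4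
    exact_mod_cast h6
  have hmai := hC0 ((X : ℝ) / (F : ℝ) ^ 2) hY
  rw [finsum_mem_eq_finite_toFinset_sum _ (famFin ⌊(X : ℝ) / (F : ℝ) ^ 2⌋₊)] at hmai
  have hfib := fib S (fun q => Kf q.1) (famFin ⌊(X : ℝ) / (F : ℝ) ^ 2⌋₊).toFinset hmaps
    (fun K => 2300 * T ^ 3 * Q * L * F *
      (Nat.card {c : ClassGroup (𝓞 K) // c ^ 5 = 1} : ℝ)) (by
      intro K hK
      rw [Set.Finite.mem_toFinset] at hK
      obtain ⟨hN, h2, h3, -⟩ := hK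
      refine lks X a R hX hR haX Z F T Q L hT hQ hZ hL hF K h2 h3 _ ?_
      intro q hq
      obtain ⟨hqS, hqK⟩ := Finset.mem_filter.1 hq
      obtain ⟨g1, g2, g3⟩ := hS q hqS
      exact ⟨g1, hqK, g2, g3⟩)
  refine hfib.trans ?_
  rw [← Finset.mul_sum]
  have h7 : ((X : ℝ) / (F : ℝ) ^ 2) ^ (1 + ε) ≤ (X : ℝ) ^ (1 + ε) / (F : ℝ) ^ 2 := by
    rw [Real.div_rpow (by positivity) (by positivity)]
    apply div_le_div_of_nonneg_left (by positivity) hF2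
    calc (F : ℝ) ^ 2 = ((F : ℝ) ^ 2) ^ (1 : ℝ) := (Real.rpow_one _).symm
      _ ≤ ((F : ℝ) ^ 2) ^ (1 + ε) := by
        apply Real.rpow_le_rpow_of_exponent_le
        · exact one_le_pow₀ hFr
        · linarith
  have h8 : (0 : ℝ) ≤ ((X : ℝ) / (F : ℝ) ^ 2) ^ (1 + ε) := by positivity
  calc 2300 * T ^ 3 * Q * L * F * _
      ≤ 2300 * T ^ 3 * Q * L * F * (C0 * ((X : ℝ) / (F : ℝ) ^ 2) ^ (1 + ε)) :=
        mul_le_mul_of_nonneg_left hmai (by positivity)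
    _ ≤ 2300 * T ^ 3 * Q * L * F * (max C0 1 * ((X : ℝ) ^ (1 + ε) / (F : ℝ) ^ 2)) := by
        apply mul_le_mul_of_nonneg_left _ (by positivity)
        calc C0 * ((X : ℝ) / (F : ℝ) ^ 2) ^ (1 + ε)
            ≤ max C0 1 * ((X : ℝ) / (F : ℝ) ^ 2) ^ (1 + ε) :=
              mul_le_mul_of_nonneg_right (le_max_left _ _) h8
          _ ≤ _ := mul_le_mul_of_nonneg_left h7 hC1.le
    _ = 2300 * max C0 1 * T ^ 3 * Q * L * (X : ℝ) ^ (1 + ε) / F := by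
        have hF0 : (F : ℝ) ≠ 0 := by positivity
        field_simp

end Pool.Agent.FTL
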