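import Pool.Agent.FTL.LAl
import Pool.Agent.FTL.LBx

/-!
# FTL/LQd: the data `(D, N, w, t)` of a point

PROOF of `lqd`.  `lal` gives `b, t, D`; by `Int.ediv_eq_of_eq_mul_right` (or `Int.mul_ediv_cancel_left`)
`bP q = b`, `tP q = t` and `dP q = D.toNat` (`D > 0` by `lbx`), so the three equations hold for `qP q`.
The size conditions are `lbx`.  (`(D : ℤ) % 4` against `D.toNat % 4`: `omega` after
`Int.toNat_of_nonneg`.)
PROOF of `bad`.  Let `p` be a prime, `p ∣ N`, `p ∣ t`.  First `p ≠ c`: if `c ∣ N` then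
`c ∣ u e` by `t1`, so `c` divides `gcd (c v, u e) = 1`.  `p ≠ v`: if `v ∣ N` then `v ∣ u ^ 2` by
`t2`, `v ∣ u`, contradiction in the same way.  `p ∣ c t = b w - 2 N ^ 2 u`, so `p ∣ b w`.
If `p ∣ w` then `p ∣ u ^ 2` by `t2`, so `p ∣ u`, and by `t1` `p ∣ c ^ 2 k`, `p ∣ k`.
If `p ∣ b` then `p ∣ v b - N e = k u`; so `p ∣ k`, or `p ∣ u` and again `p ∣ k`.
So `p ∣ N, k`; by the hypothesis `p ≤ R` is impossible, so `R < p`.  `p ∣ k u + N e = v b`,
so `p ∣ b`; `p ^ 3 ∣ 4 N ^ 2 k`, `p ^ 2 ∣ b ^ 2`, so `p ^ 2 ∣ D c ^ 2` and `p ^ 2 ∣ D` (`p ≠ c`).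
-/

set_option autoImplicit false

namespace Pool.Agent.FTL

open Pool.Agent.FTB

theorem lqd (X V a : ℕ) (R : ℝ) (hP : PL X V a R) (q : Pt) (hq : GPr V a R q) :
    Qdq X a R (qP q) ∧
      (q.2.2.2.1 : ℤ) * bP q = q.2.1 * q.2.2.2.2.1 + q.1 * q.2.2.2.2.2.1 ∧
      (q.2.2.1 : ℤ) * tP q = bP q * q.2.2.2.2.2.2.1 - 2 * (q.1 : ℤ) ^ 2 * q.2.2.2.2.1 ∧
      (dP q : ℤ) * (q.2.2.1 : ℤ) ^ 2 = 4 * (q.1 : ℤ) ^ 2 * q.2.1 - bP q ^ 2 := by
  obtain ⟨N, k, c, v, u, e, w, z⟩ := q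
  obtain ⟨h, hco, hR⟩ := hq
  have h' : GP V a N k c v u e w z := h
  have hco' : IsCoprime ((c : ℤ) * v) (u * e) := hco
  have hR' : ∀ p : ℕ, p.Prime → (p : ℝ) ≤ R → ¬ (p ∣ N ∧ p ∣ k) := hR
  have hc0 : (0 : ℤ) < c := by exact_mod_cast h'.pc.pos
  have hv0 : (0 : ℤ) < v := by exact_mod_cast h'.pv.pos
  have hcv : IsCoprime (c : ℤ) (v : ℤ) :=
    Nat.isCoprime_iff_coprime.2 ((Nat.coprime_primes h'.pc h'.pv).2 h'.ne)
  obtain ⟨b, t, D, e1, e2, e3, e4, e5⟩ := lal N k c v u e w z hc0 hv0 hcv h'.t1 h'.t2 h'.t3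
  obtain ⟨g1, g2, g3, g4, g5, g6, g7, g8⟩ := lbx X V a R hP N k c v u e w z b D h' e1 e3
  have hb : bP (N, k, c, v, u, e, w, z) = b := by
    show ((k : ℤ) * u + (N : ℤ) * e) / (v : ℤ) = b
    exact Int.ediv_eq_of_eq_mul_right hv0.ne' e1.symm
  have ht : tP (N, k, c, v, u, e, w, z) = t := by
    show (bP (N, k, c, v, u, e, w, z) * w - 2 * (N : ℤ) ^ 2 * u) / (c : ℤ) = t
    rw [hb]
    exact Int.ediv_eq_of_eq_mul_right hc0.ne' e2.symm
  have hd : dP (N, k, c, v, u, e, w, z) = D.toNat := by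
    show ((4 * (N : ℤ) ^ 2 * k - bP (N, k, c, v, u, e, w, z) ^ 2) / (c : ℤ) ^ 2).toNat = D.toNat
    rw [hb]
    congr 1
    refine Int.ediv_eq_of_eq_mul_right (by positivity) ?_
    rw [← e3]
    ring
  have hDn : ((D.toNat : ℕ) : ℤ) = D := Int.toNat_of_nonneg g6.le
  refine ⟨?_, ?_, ?_, ?_⟩
  · show Qd X a R (dP (N, k, c, v, u, e, w, z)) N w (tP (N, k, c, v, u, e, w, z))
    rw [hd, ht]
    refine ⟨by omega, by omega, by omega, g1, g2, g3.ne, by rw [hDn]; exact e4, ?_⟩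
    intro p hp hpN hpt
    have hpp : Prime (p : ℤ) := Nat.prime_iff_prime_int.1 hp
    have hpNz : (p : ℤ) ∣ (N : ℤ) := Int.natCast_dvd_natCast.2 hpN
    have hpc : ¬ (p : ℤ) ∣ (c : ℤ) := by
      intro hh
      have h1 : p = c := (Nat.prime_dvd_prime_iff_eq hp h'.pc).1 (Int.natCast_dvd_natCast.1 hh)
      have h2 : (p : ℤ) ∣ u * e := by
        rw [h'.t1]
        exact dvd_sub (hpNz.mul_left _) ((dvd_pow hh two_ne_zero).mul_right _)
      exact hpp.not_isUnit (hco'.isUnit_of_dvd' (hh.mul_right _) h2)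
    have hpv : ¬ (p : ℤ) ∣ (v : ℤ) := by
      intro hh
      have h1 : (p : ℤ) ∣ u ^ 2 := by
        have h3 : u ^ 2 = (v : ℤ) * w + (c : ℤ) ^ 2 * N := by linarith [h'.t2]
        rw [h3]
        exact dvd_add (hh.mul_right _) (hpNz.mul_left _)
      have h2 : (p : ℤ) ∣ u := hpp.dvd_of_dvd_pow h1
      exact hpp.not_isUnit (hco'.isUnit_of_dvd' (hh.mul_left _) (h2.mul_right _))
    have huk : (p : ℤ) ∣ u → (p : ℤ) ∣ (k : ℤ) := by
      intro hu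
      have h1 : (p : ℤ) ∣ (c : ℤ) ^ 2 * k := by
        have h3 : (c : ℤ) ^ 2 * k = (v : ℤ) ^ 2 * N - u * e := by linarith [h'.t1]
        rw [h3]
        exact dvd_sub (hpNz.mul_left _) (hu.mul_right _)
      rcases hpp.dvd_or_dvd h1 with h4 | h4
      · exact absurd (hpp.dvd_of_dvd_pow h4) hpc
      · exact h4
    have hk : (p : ℤ) ∣ (k : ℤ) := by
      have h1 : (p : ℤ) ∣ b * w := by
        have h3 : b * w = (c : ℤ) * t + 2 * (N : ℤ) ^ 2 * u := by linarith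
        rw [h3]
        exact dvd_add (hpt.mul_left _)
          (((dvd_pow hpNz two_ne_zero).mul_left _).mul_right _)
      rcases hpp.dvd_or_dvd h1 with h4 | h4
      · have h5 : (p : ℤ) ∣ (k : ℤ) * u := by
          have h3 : (k : ℤ) * u = (v : ℤ) * b - (N : ℤ) * e := by linarith
          rw [h3]
          exact dvd_sub (h4.mul_left _) (hpNz.mul_right _)
        rcases hpp.dvd_or_dvd h5 with h6 | h6
        · exact h6
        · exact huk h6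
      · have h5 : (p : ℤ) ∣ u ^ 2 := by
          have h3 : u ^ 2 = (v : ℤ) * w + (c : ℤ) ^ 2 * N := by linarith [h'.t2]
          rw [h3]
          exact dvd_add (h4.mul_left _) (hpNz.mul_left _)
        exact huk (hpp.dvd_of_dvd_pow h5)
    have hpb : (p : ℤ) ∣ b := by
      have h1 : (p : ℤ) ∣ (v : ℤ) * b := by
        rw [e1]
        exact dvd_add (hk.mul_right _) (hpNz.mul_right _)
      rcases hpp.dvd_or_dvd h1 with h4 | h4
      · exact absurd h4 hpv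
      · exact h4
    refine ⟨?_, ?_⟩
    · by_contra hcon
      exact hR' p hp (not_lt.1 hcon) ⟨hpN, Int.natCast_dvd_natCast.1 hk⟩
    · have h1 : (p : ℤ) ^ 2 ∣ D * (c : ℤ) ^ 2 := by
        rw [e3]
        exact dvd_sub (((pow_dvd_pow_of_dvd hpNz 2).mul_left _).mul_right _)
          (pow_dvd_pow_of_dvd hpb 2)
      have h2 : IsCoprime ((p : ℤ) ^ 2) ((c : ℤ) ^ 2) := by
        refine IsCoprime.pow ?_
        exact (Prime.coprime_iff_not_dvd hpp).2 hpc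
      have h3 : (p : ℤ) ^ 2 ∣ D := h2.dvd_of_dvd_mul_right h1
      rw [← hDn] at h3
      exact_mod_cast h3
  · show (v : ℤ) * bP (N, k, c, v, u, e, w, z) = (k : ℤ) * u + (N : ℤ) * e
    rw [hb]
    exact e1
  · show (c : ℤ) * tP (N, k, c, v, u, e, w, z) =
      bP (N, k, c, v, u, e, w, z) * w - 2 * (N : ℤ) ^ 2 * u
    rw [hb, ht]
    exact e2
  · show (dP (N, k, c, v, u, e, w, z) : ℤ) * (c : ℤ) ^ 2 =
      4 * (N : ℤ) ^ 2 * k - bP (N, k, c, v, u, e, w, z) ^ 2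
    rw [hb, hd, hDn]
    exact e3

end Pool.Agent.FTL
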