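import Pool.Agent.FTB.Gsm
import Pool.Agent.FTL.DefsW

/-!
# FTL/WGs: the number of quadruples with `p ∣ K`, and the sum of their greatest common divisors

PROOF of `wgs1`.  `QK p s` is contained in `[-s, s] ^ 3 × {K ∈ [-s, s] : p ∣ K}`; there are
`2 ⌊s / p⌋ + 1 ≤ 3 s / p` such `K` (`p ≤ s`), and `2 s + 1 ≤ 3 s`.
PROOF of `wgs2`.  As in `Pool.Agent.FTB.gsm2`: `gB b ≤ ∑ d ∈ Icc 1 s, if d ∣ gB b then d else 0`, so the
sum is at most `∑ d ∈ Icc 1 s, d * card {b ∈ QK p s : d ∣ gB b}`.  If `d ∣ gB b` then `b = d b'`,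
`b' ∈ [-(s / d), s / d] ^ 4` (natural quotient `s / d ≥ 1`), and `2 (s / d) + 1 ≤ 3 s / d`.
(i) `p ∣ d`: at most `(3 s / d) ^ 4` elements; `∑_{p ∣ d} d * 81 s ^ 4 / d ^ 4 ≤
81 s ^ 4 / p ^ 3 * ∑ 1 / i ^ 3 ≤ 162 s ^ 4 / p`.
(ii) `p` does not divide `d` (`p` prime or `p = 1`; if `p = 1` we are in case (i)): `p ∣ K = d K'` means
`p ∣ K'`, so there are at most `2 ⌊s / (d p)⌋ + 1` values of `K'`.  If `d p ≤ s` this is
`≤ 3 s / (d p)`, and the sum over these `d` is `≤ ∑ d * 81 s ^ 4 / (d ^ 4 p) ≤ 162 s ^ 4 / p`.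
If `d p > s` this is `1` and the sum over these `d` is
`≤ ∑_{d > s / p} d * 27 s ^ 3 / d ^ 3 = 27 s ^ 3 ∑_{d > s / p} 1 / d ^ 2 ≤ 27 s ^ 3 * 2 p / s =
54 s ^ 2 p ≤ 54 s ^ 4 / p` (as `p ≤ s`, `p ≥ 1`; `∑_{d > y} 1 / d ^ 2 ≤ 2 / y` for real `y ≥ 1`:
the first term is `≤ 1 / y ^ 2 ≤ 1 / y`, the others telescope).
Total `≤ 378 s ^ 4 / p`.
-/

set_option autoImplicit false

namespace Pool.Agent.FTL

open Pool.Agent.FTB

private theorem wgs_Icc (t : ℕ) : (Finset.Icc (-(t : ℤ)) t).card = 2 * t + 1 := by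
  rw [Int.card_Icc]
  omega

private theorem wgs_key (d : ℕ) (hd : 1 ≤ d) (n : ℕ) (a : ℤ) (ha : |a| ≤ n) (hda : (d : ℤ) ∣ a) :
    |a / (d : ℤ)| ≤ ((n / d : ℕ) : ℤ) := by
  obtain ⟨q, rfl⟩ := hda
  have hd0 : (d : ℤ) ≠ 0 := by exact_mod_cast (by omega : d ≠ 0)
  rw [Int.mul_ediv_cancel_left _ hd0]
  have h6 : (d : ℤ) * |q| ≤ n := by
    rw [abs_mul, abs_of_nonneg (by positivity : (0 : ℤ) ≤ d)] at ha
    exact ha
  have h7 : d * q.natAbs ≤ n := by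
    rw [Int.abs_eq_natAbs] at h6
    exact_mod_cast h6
  have h8 : q.natAbs ≤ n / d := by
    rw [Nat.le_div_iff_mul_le (by omega), mul_comm]
    exact h7
  rw [Int.abs_eq_natAbs]
  exact_mod_cast h8

private theorem wgs_box (p s d q : ℕ) (hd : 1 ≤ d) (hq : 1 ≤ q)
    (h : ∀ b ∈ QK p s, d ∣ gB b → (q : ℤ) ∣ b.2.2.2 / (d : ℤ)) :
    ((QK p s).filter fun b => d ∣ gB b).card ≤ (2 * (s / d) + 1) ^ 3 * (2 * (s / d / q) + 1) := by
  classical
  set t := s / d with ht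
  have hc : (Finset.Icc (-(t : ℤ)) t ×ˢ Finset.Icc (-(t : ℤ)) t ×ˢ Finset.Icc (-(t : ℤ)) t ×ˢ
      Finset.Icc (-((t / q : ℕ) : ℤ)) ((t / q : ℕ) : ℤ)).card =
      (2 * t + 1) ^ 3 * (2 * (t / q) + 1) := by
    simp only [Finset.card_product, wgs_Icc]
    ring
  rw [← hc]
  apply Finset.card_le_card_of_injOn
    (fun b : ℤ × ℤ × ℤ × ℤ => (b.1 / (d : ℤ), b.2.1 / (d : ℤ), b.2.2.1 / (d : ℤ),
      b.2.2.2 / (d : ℤ) / (q : ℤ)))
  · intro b hb
    have hb' := Finset.mem_filter.1 (Finset.mem_coe.1 hb)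
    obtain ⟨hbK, hbd⟩ := hb'
    have hbq := h b hbK hbd
    rw [mem_QK, mem_Q4] at hbK
    obtain ⟨⟨-, h2, h3, h4, h5⟩, -⟩ := hbK
    obtain ⟨d1, d2, d3, d4⟩ := gB_dvd b
    have hdz : (d : ℤ) ∣ (gB b : ℤ) := Int.natCast_dvd_natCast.2 hbd
    have k1 := abs_le.1 (wgs_key d hd s b.1 h2 (hdz.trans d1))
    have k2 := abs_le.1 (wgs_key d hd s b.2.1 h3 (hdz.trans d2))
    have k3 := abs_le.1 (wgs_key d hd s b.2.2.1 h4 (hdz.trans d3))
    have k4 := abs_le.1 (wgs_key q hq t _ (wgs_key d hd s b.2.2.2 h5 (hdz.trans d4)) hbq)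
    simp only [Finset.coe_product, Set.mem_prod, Finset.mem_coe, Finset.mem_Icc]
    exact ⟨k1, k2, k3, k4⟩
  · intro b hb b' hb' e
    obtain ⟨hbK, hbd⟩ := Finset.mem_filter.1 (Finset.mem_coe.1 hb)
    obtain ⟨hbK', hbd'⟩ := Finset.mem_filter.1 (Finset.mem_coe.1 hb')
    obtain ⟨d1, d2, d3, d4⟩ := gB_dvd b
    obtain ⟨d1', d2', d3', d4'⟩ := gB_dvd b'
    have hdz : (d : ℤ) ∣ (gB b : ℤ) := Int.natCast_dvd_natCast.2 hbd
    have hdz' : (d : ℤ) ∣ (gB b' : ℤ) := Int.natCast_dvd_natCast.2 hbd'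
    simp only [Prod.mk.injEq] at e
    obtain ⟨e1, e2, e3, e4⟩ := e
    have key : ∀ (m : ℤ) (a a' : ℤ), m ∣ a → m ∣ a' → a / m = a' / m → a = a' := by
      intro m a a' h1 h2 h3
      rw [← Int.mul_ediv_cancel' h1, ← Int.mul_ediv_cancel' h2, h3]
    exact Prod.ext (key _ _ _ (hdz.trans d1) (hdz'.trans d1') e1)
      (Prod.ext (key _ _ _ (hdz.trans d2) (hdz'.trans d2') e2)
        (Prod.ext (key _ _ _ (hdz.trans d3) (hdz'.trans d3') e3)
          (key _ _ _ (hdz.trans d4) (hdz'.trans d4')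
            (key _ _ _ (h b hbK hbd) (h b' hbK' hbd') e4))))

private theorem wgs_3 (s d : ℕ) (hd : 1 ≤ d) (hds : d ≤ s) :
    ((2 * (s / d) + 1 : ℕ) : ℝ) ≤ 3 * ((s : ℝ) / d) := by
  have ht1 : 1 ≤ s / d := (Nat.one_le_div_iff (by omega)).2 hds
  have h3 : ((s / d : ℕ) : ℝ) ≤ s / d := Nat.cast_div_le
  have h4 : (1 : ℝ) ≤ ((s / d : ℕ) : ℝ) := by exact_mod_cast ht1
  push_cast
  linarith

/-- the count, with the number `q` of classes of `K` -/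
private theorem wgs_bd (p s d q : ℕ) (hd : 1 ≤ d) (hq : 1 ≤ q) (hds : d * q ≤ s)
    (h : ∀ b ∈ QK p s, d ∣ gB b → (q : ℤ) ∣ b.2.2.2 / (d : ℤ)) :
    (((QK p s).filter fun b => d ∣ gB b).card : ℝ) ≤ 81 * (s : ℝ) ^ 4 / ((d : ℝ) ^ 4 * q) := by
  have hd' : d ≤ s := le_trans (Nat.le_mul_of_pos_right d hq) hds
  have h1 := wgs_box p s d q hd hq h
  have h2 : (((QK p s).filter fun b => d ∣ gB b).card : ℝ) ≤
      ((2 * (s / d) + 1 : ℕ) : ℝ) ^ 3 * ((2 * (s / d / q) + 1 : ℕ) : ℝ) := by exact_mod_cast h1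
  rw [Nat.div_div_eq_div_mul] at h2
  have h3 := wgs_3 s d hd hd'
  have h4 := wgs_3 s (d * q) (Nat.mul_pos hd hq) hds
  have hd0 : (0 : ℝ) < d := by exact_mod_cast hd
  have hq0 : (0 : ℝ) < q := by exact_mod_cast hq
  refine h2.trans ?_
  have h5 : ((2 * (s / d) + 1 : ℕ) : ℝ) ^ 3 ≤ (3 * ((s : ℝ) / d)) ^ 3 :=
    pow_le_pow_left₀ (Nat.cast_nonneg _) h3 3
  refine (mul_le_mul h5 h4 (Nat.cast_nonneg _) (by positivity)).trans (le_of_eq ?_)
  push_cast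
  field_simp
  ring

private theorem wgs_bd1 (p s d q : ℕ) (hd : 1 ≤ d) (hds : d ≤ s) (hq : s < d * q) (hq1 : 1 ≤ q)
    (h : ∀ b ∈ QK p s, d ∣ gB b → (q : ℤ) ∣ b.2.2.2 / (d : ℤ)) :
    (((QK p s).filter fun b => d ∣ gB b).card : ℝ) ≤ 27 * (s : ℝ) ^ 3 / (d : ℝ) ^ 3 := by
  have h1 := wgs_box p s d q hd hq1 h
  rw [Nat.div_div_eq_div_mul, Nat.div_eq_of_lt hq] at h1
  have h2 : (((QK p s).filter fun b => d ∣ gB b).card : ℝ) ≤
      ((2 * (s / d) + 1 : ℕ) : ℝ) ^ 3 := by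
    have : ((QK p s).filter fun b => d ∣ gB b).card ≤ (2 * (s / d) + 1) ^ 3 := by
      simpa using h1
    exact_mod_cast this
  have h3 := wgs_3 s d hd hds
  have hd0 : (0 : ℝ) < d := by exact_mod_cast hd
  refine h2.trans ((pow_le_pow_left₀ (Nat.cast_nonneg _) h3 3).trans (le_of_eq ?_))
  field_simp
  ring

theorem wgs1 (p s : ℕ) (hp : 1 ≤ p) (hps : p ≤ s) :
    ((QK p s).card : ℝ) ≤ 81 * (s : ℝ) ^ 4 / p := by
  have h := wgs_bd p s 1 p le_rfl hp (by omega) (by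
    intro b hb _
    rw [mem_QK] at hb
    simpa using hb.2)
  simp only [one_dvd, Finset.filter_true] at h
  simpa using h

private theorem wgs_sum3 (s : ℕ) : ∑ d ∈ Finset.Icc 1 s, 1 / (d : ℝ) ^ 3 ≤ 2 := by
  have key : ∀ n : ℕ, 1 ≤ n → ∑ d ∈ Finset.Icc 1 n, 1 / (d : ℝ) ^ 3 ≤ 2 - 1 / (n : ℝ) := by
    intro n hn1
    induction n, hn1 using Nat.le_induction with
    | base => norm_num
    | succ n hn1 ih =>
      rw [Finset.sum_Icc_succ_top (by omega)]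
      have hn : (1 : ℝ) ≤ n := by exact_mod_cast hn1
      have h1 : 1 / (((n + 1 : ℕ) : ℝ)) ^ 3 ≤ 1 / (n : ℝ) - 1 / ((n : ℝ) + 1) := by
        push_cast
        rw [div_sub_div _ _ (by positivity) (by positivity), div_le_div_iff₀ (by positivity)
          (by positivity)]
        nlinarith [mul_nonneg (by linarith : (0 : ℝ) ≤ n) (by linarith : (0 : ℝ) ≤ n),
          mul_nonneg (mul_nonneg (by linarith : (0 : ℝ) ≤ n) (by linarith : (0 : ℝ) ≤ n))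
            (by linarith : (0 : ℝ) ≤ n)]
      push_cast at h1 ⊢
      linarith
  rcases Nat.eq_zero_or_pos s with h0 | h0
  · subst h0
    simp
  · have h := key s h0
    have : (0 : ℝ) ≤ 1 / (s : ℝ) := by positivity
    linarith

private theorem wgs_sump (s p : ℕ) (hp : 1 ≤ p) :
    ∑ d ∈ (Finset.Icc 1 s).filter (fun d => p ∣ d), 1 / (d : ℝ) ^ 3 ≤ 2 / (p : ℝ) := by
  have hp0 : (0 : ℝ) < p := by exact_mod_cast hp
  have hp1 : (1 : ℝ) ≤ p := by exact_mod_cast hp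
  have hsub : (Finset.Icc 1 s).filter (fun d => p ∣ d) ⊆
      (Finset.Icc 1 s).image (fun i => p * i) := by
    intro d hd
    rw [Finset.mem_filter, Finset.mem_Icc] at hd
    obtain ⟨⟨h1, h2⟩, i, rfl⟩ := hd
    rw [Finset.mem_image]
    refine ⟨i, Finset.mem_Icc.2 ⟨Nat.pos_of_ne_zero (by rintro rfl; simp at h1), ?_⟩, rfl⟩
    exact (Nat.le_mul_of_pos_left i hp).trans h2
  refine (Finset.sum_le_sum_of_subset_of_nonneg hsub (fun _ _ _ => by positivity)).trans ?_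
  rw [Finset.sum_image (fun a _ b _ hab => Nat.eq_of_mul_eq_mul_left hp hab)]
  have h1 : ∀ i ∈ Finset.Icc 1 s, 1 / ((p * i : ℕ) : ℝ) ^ 3 ≤ 1 / (p : ℝ) * (1 / (i : ℝ) ^ 3) := by
    intro i hi
    have hi1 : (1 : ℝ) ≤ i := by exact_mod_cast (Finset.mem_Icc.1 hi).1
    rw [one_div_mul_one_div]
    push_cast
    apply one_div_le_one_div_of_le (by positivity)
    rw [mul_pow]
    apply mul_le_mul_of_nonneg_right _ (by positivity)
    calc (p : ℝ) = p ^ 1 := (pow_one _).symm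
      _ ≤ p ^ 3 := pow_le_pow_right₀ hp1 (by norm_num)
  refine (Finset.sum_le_sum h1).trans ?_
  rw [← Finset.mul_sum]
  have h2 := mul_le_mul_of_nonneg_left (wgs_sum3 s) (by positivity : (0 : ℝ) ≤ 1 / (p : ℝ))
  refine h2.trans (le_of_eq ?_)
  ring

private theorem wgs_tail (s p : ℕ) (hp : 1 ≤ p) (hps : p ≤ s) :
    ∑ d ∈ (Finset.Icc 1 s).filter (fun d => s < d * p), 1 / (d : ℝ) ^ 2 ≤ 2 * (p : ℝ) / (s : ℝ) := by
  set m := s / p with hm
  have hm1 : 1 ≤ m := (Nat.one_le_div_iff (by omega)).2 hps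
  have hms : m ≤ s := Nat.div_le_self _ _
  have hsub : (Finset.Icc 1 s).filter (fun d => s < d * p) ⊆ Finset.Ioc m s := by
    intro d hd
    rw [Finset.mem_filter, Finset.mem_Icc] at hd
    obtain ⟨⟨h1, h2⟩, h3⟩ := hd
    rw [Finset.mem_Ioc]
    exact ⟨(Nat.div_lt_iff_lt_mul hp).2 h3, h2⟩
  refine (Finset.sum_le_sum_of_subset_of_nonneg hsub (fun _ _ _ => by positivity)).trans ?_
  have h1 : ∑ d ∈ Finset.Ioc m s, 1 / (d : ℝ) ^ 2 ≤ (m : ℝ)⁻¹ - (s : ℝ)⁻¹ := by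
    have := sum_Ioc_inv_sq_le_sub (α := ℝ) (k := m) (n := s) (by omega) hms
    refine le_trans (le_of_eq ?_) this
    apply Finset.sum_congr rfl
    intro i _
    rw [one_div]
  have hs0 : (0 : ℝ) < s := by exact_mod_cast (by omega : 0 < s)
  have hm0 : (1 : ℝ) ≤ m := by exact_mod_cast hm1
  have h2 : (0 : ℝ) ≤ (s : ℝ)⁻¹ := by positivity
  have h3 : (m : ℝ)⁻¹ ≤ 2 * p / s := by
    rw [inv_eq_one_div, div_le_div_iff₀ (by linarith) hs0]
    have h4 : s < p * (m + 1) := Nat.lt_mul_div_succ s hp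
    have h5 : (s : ℝ) < p * (m + 1) := by exact_mod_cast h4
    have hp0 : (0 : ℝ) < p := by exact_mod_cast hp
    nlinarith
  linarith

theorem wgs2 (p s : ℕ) (hp : p = 1 ∨ p.Prime) (hps : p ≤ s) :
    ∑ b ∈ QK p s, (gB b : ℝ) ≤ 378 * (s : ℝ) ^ 4 / p := by
  classical
  have hp1 : 1 ≤ p := by
    rcases hp with h | h
    · omega
    · exact h.one_lt.le
  have hpR : (1 : ℝ) ≤ p := by exact_mod_cast hp1
  have hsR : (p : ℝ) ≤ s := by exact_mod_cast hps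
  have hs0 : (0 : ℝ) < s := by linarith
  have h1 : ∑ b ∈ QK p s, (gB b : ℝ) ≤
      ∑ b ∈ QK p s, ∑ d ∈ Finset.Icc 1 s, if d ∣ gB b then (d : ℝ) else 0 := by
    apply Finset.sum_le_sum
    intro b hb
    obtain ⟨g1, g2⟩ := gB_pos s b ((mem_QK p s b).1 hb).1
    have h2 : (if gB b ∣ gB b then ((gB b : ℕ) : ℝ) else 0) ≤
        ∑ d ∈ Finset.Icc 1 s, if d ∣ gB b then (d : ℝ) else 0 := by
      apply Finset.single_le_sum (f := fun d : ℕ => if d ∣ gB b then (d : ℝ) else 0)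
      · intro d _
        split_ifs
        · exact Nat.cast_nonneg d
        · exact le_refl 0
      · rw [Finset.mem_Icc]
        exact ⟨g1, g2⟩
    rwa [if_pos (dvd_refl _)] at h2
  refine h1.trans ?_
  rw [Finset.sum_comm]
  have h2 : ∀ d ∈ Finset.Icc 1 s, (∑ b ∈ QK p s, if d ∣ gB b then (d : ℝ) else 0) ≤
      (81 * (s : ℝ) ^ 4 * (if p ∣ d then 1 / (d : ℝ) ^ 3 else 0) +
        81 * (s : ℝ) ^ 4 / p * (1 / (d : ℝ) ^ 3)) +
        27 * (s : ℝ) ^ 3 * (if s < d * p then 1 / (d : ℝ) ^ 2 else 0) := by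
    intro d hd
    rw [Finset.mem_Icc] at hd
    obtain ⟨hd1, hd2⟩ := hd
    have hd0 : (0 : ℝ) < d := by exact_mod_cast hd1
    rw [← Finset.sum_filter, Finset.sum_const, nsmul_eq_mul]
    have n1 : (0 : ℝ) ≤ 81 * (s : ℝ) ^ 4 / p * (1 / (d : ℝ) ^ 3) := by positivity
    have n2 : (0 : ℝ) ≤ 27 * (s : ℝ) ^ 3 * (if s < d * p then 1 / (d : ℝ) ^ 2 else 0) := by
      split_ifs
      · positivity
      · simp
    have n3 : (0 : ℝ) ≤ 81 * (s : ℝ) ^ 4 * (if p ∣ d then 1 / (d : ℝ) ^ 3 else 0) := by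
      split_ifs
      · positivity
      · simp
    by_cases hpd : p ∣ d
    · have h3 := wgs_bd p s d 1 hd1 le_rfl (by omega) (fun b _ _ => by simp)
      have h4 := mul_le_mul_of_nonneg_right h3 hd0.le
      have h5 : 81 * (s : ℝ) ^ 4 / ((d : ℝ) ^ 4 * (1 : ℕ)) * d =
          81 * (s : ℝ) ^ 4 * (if p ∣ d then 1 / (d : ℝ) ^ 3 else 0) := by
        rw [if_pos hpd]
        push_cast
        field_simp
      linarith
    · have hpr : p.Prime := by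
        rcases hp with h | h
        · exact absurd (h ▸ one_dvd d) hpd
        · exact h
      have hdiv : ∀ b ∈ QK p s, d ∣ gB b → (p : ℤ) ∣ b.2.2.2 / (d : ℤ) := by
        intro b hb hbd
        have hbK := ((mem_QK p s b).1 hb).2
        have hdz : (d : ℤ) ∣ (gB b : ℤ) := Int.natCast_dvd_natCast.2 hbd
        have h6 : (d : ℤ) ∣ b.2.2.2 := hdz.trans (gB_dvd b).2.2.2
        obtain ⟨r, hr⟩ := h6
        have hd0' : (d : ℤ) ≠ 0 := by exact_mod_cast (by omega : d ≠ 0)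
        rw [hr, Int.mul_ediv_cancel_left _ hd0']
        rw [hr] at hbK
        have hco : IsCoprime (p : ℤ) (d : ℤ) :=
          Nat.isCoprime_iff_coprime.2 ((Nat.Prime.coprime_iff_not_dvd hpr).2 hpd)
        exact hco.dvd_of_dvd_mul_left hbK
      by_cases hdp : d * p ≤ s
      · have h3 := wgs_bd p s d p hd1 hp1 hdp hdiv
        have h4 := mul_le_mul_of_nonneg_right h3 hd0.le
        have h5 : 81 * (s : ℝ) ^ 4 / ((d : ℝ) ^ 4 * p) * d =
            81 * (s : ℝ) ^ 4 / p * (1 / (d : ℝ) ^ 3) := by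
          field_simp
        linarith
      · have h3 := wgs_bd1 p s d p hd1 hd2 (by omega) hp1 hdiv
        have h4 := mul_le_mul_of_nonneg_right h3 hd0.le
        have h5 : 27 * (s : ℝ) ^ 3 / (d : ℝ) ^ 3 * d =
            27 * (s : ℝ) ^ 3 * (if s < d * p then 1 / (d : ℝ) ^ 2 else 0) := by
          rw [if_pos (by omega)]
          field_simp
        linarith
  refine (Finset.sum_le_sum h2).trans ?_
  rw [Finset.sum_add_distrib, Finset.sum_add_distrib, ← Finset.mul_sum, ← Finset.mul_sum,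
    ← Finset.mul_sum, ← Finset.sum_filter, ← Finset.sum_filter]
  have b1 := mul_le_mul_of_nonneg_left (wgs_sump s p hp1)
    (by positivity : (0 : ℝ) ≤ 81 * (s : ℝ) ^ 4)
  have b2 := mul_le_mul_of_nonneg_left (wgs_sum3 s)
    (by positivity : (0 : ℝ) ≤ 81 * (s : ℝ) ^ 4 / p)
  have b3 := mul_le_mul_of_nonneg_left (wgs_tail s p hp1 hps)
    (by positivity : (0 : ℝ) ≤ 27 * (s : ℝ) ^ 3)
  have b4 : 27 * (s : ℝ) ^ 3 * (2 * p / s) ≤ 54 * (s : ℝ) ^ 4 / p := by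
    rw [le_div_iff₀ (by linarith)]
    have : 27 * (s : ℝ) ^ 3 * (2 * p / s) * p = 54 * (s : ℝ) ^ 2 * (p * p) := by
      field_simp
      norm_num
    rw [this]
    have h7 : (p : ℝ) * p ≤ s * s := mul_le_mul hsR hsR (by linarith) hs0.le
    have h8 := mul_le_mul_of_nonneg_left h7 (by positivity : (0 : ℝ) ≤ 54 * (s : ℝ) ^ 2)
    nlinarith
  have e1 : 81 * (s : ℝ) ^ 4 * (2 / p) = 162 * (s : ℝ) ^ 4 / p := by ring
  have e2 : 81 * (s : ℝ) ^ 4 / p * 2 = 162 * (s : ℝ) ^ 4 / p := by ring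
  have e3 : 378 * (s : ℝ) ^ 4 / p = 162 * (s : ℝ) ^ 4 / p + 162 * (s : ℝ) ^ 4 / p +
      54 * (s : ℝ) ^ 4 / p := by ring
  rw [e3]
  linarith

end Pool.Agent.FTL
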