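import Pool.Agent.FTB.Bas
import Pool.Agent.FTL.DefsW

/-!
# FTL/WBa: from the two conditions of `H5` to integers

The same as `Pool.Agent.FTB.bsb` (file `Pool/Agent/FTB/BsB.lean`), with the modulus `p v ^ 5`.
PROOF of `wba`.  Let `n = round (2 α h1 + β h2)` with `α = j cb ^ 5 p / v`,
`β = -j cb ^ 5 c ^ 2 / v ^ 3`, `γ = -j cb ^ 5 c ^ 4 / (p v ^ 5)` and
`A := j cb ^ 5 (2 v ^ 2 p h1 - c ^ 2 h2) - n v ^ 3`, an integer with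
`A / v ^ 3 = (2 α h1 + β h2) - n`, so `|A| / v ^ 3 = dn (..) ≤ 1 / U`.  `v ^ 3 ∣ cb * c - 1` implies
`v ^ 3 ∣ cb ^ 5 c ^ 5 - 1`, so `c ^ 5 A = j (2 v ^ 2 p h1 - c ^ 2 h2)` modulo `v ^ 3`.
Similarly `B1 := -j cb ^ 5 (c ^ 2 v ^ 2 p h1 + 2 c ^ 4 h2) - n' p v ^ 5` with
`n' = round (β h1 + 2 γ h2)`: `B1 / (p v ^ 5) = (β h1 + 2 γ h2) - n'`.
-/

set_option autoImplicit false

namespace Pool.Agent.FTL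

open Pool.Agent.FTB

theorem wba (c v p j U E : ℕ) (cb : ℤ) (hv : 1 ≤ v) (hp : 1 ≤ p) (hU : 1 ≤ U) (hE : 1 ≤ E)
    (hcb : (p : ℤ) * (v : ℤ) ^ 5 ∣ cb * c - 1) (h1 h2 : ℤ)
    (H1 : dn (2 * ((j : ℝ) * ((cb : ℝ) ^ 5 * p / v)) * (h1 : ℝ) +
      ((j : ℝ) * (-(cb : ℝ) ^ 5 * c ^ 2 / v ^ 3)) * (h2 : ℝ)) ≤ 1 / (U : ℝ))
    (H2 : dn (((j : ℝ) * (-(cb : ℝ) ^ 5 * c ^ 2 / v ^ 3)) * (h1 : ℝ) +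
      2 * ((j : ℝ) * (-(cb : ℝ) ^ 5 * c ^ 4 / (p * v ^ 5))) * (h2 : ℝ)) ≤ 1 / (E : ℝ)) :
    ∃ A B1 : ℤ, |(A : ℝ)| ≤ (v : ℝ) ^ 3 / U ∧ |(B1 : ℝ)| ≤ p * (v : ℝ) ^ 5 / E ∧
      (v : ℤ) ^ 3 ∣ (c : ℤ) ^ 5 * A - j * (2 * (v : ℤ) ^ 2 * (p * h1) - (c : ℤ) ^ 2 * h2) ∧
      (p : ℤ) * (v : ℤ) ^ 5 ∣ (c : ℤ) ^ 5 * B1 +
        j * ((c : ℤ) ^ 2 * (v : ℤ) ^ 2 * (p * h1) + 2 * (c : ℤ) ^ 4 * h2) := by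
  have hv0 : (0 : ℝ) < (v : ℝ) := by exact_mod_cast hv
  have hvn : (v : ℝ) ≠ 0 := hv0.ne'
  have hp0 : (0 : ℝ) < (p : ℝ) := by exact_mod_cast hp
  have hpn : (p : ℝ) ≠ 0 := hp0.ne'
  have hpp : (p : ℤ) * (v : ℤ) ^ 5 ∣ (cb * c) ^ 5 - 1 := by
    refine hcb.trans ?_
    have := sub_dvd_pow_sub_pow (cb * (c : ℤ)) 1 5
    simpa using this
  have hp3 : (v : ℤ) ^ 3 ∣ (cb * c) ^ 5 - 1 :=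
    ((pow_dvd_pow _ (by norm_num)).trans (dvd_mul_left _ _)).trans hpp
  refine ⟨j * cb ^ 5 * (2 * (v : ℤ) ^ 2 * (p * h1) - (c : ℤ) ^ 2 * h2) -
    round (2 * ((j : ℝ) * ((cb : ℝ) ^ 5 * p / v)) * (h1 : ℝ) +
      ((j : ℝ) * (-(cb : ℝ) ^ 5 * c ^ 2 / v ^ 3)) * (h2 : ℝ)) * (v : ℤ) ^ 3,
    -(j * cb ^ 5 * ((c : ℤ) ^ 2 * (v : ℤ) ^ 2 * (p * h1) + 2 * (c : ℤ) ^ 4 * h2)) -
    round (((j : ℝ) * (-(cb : ℝ) ^ 5 * c ^ 2 / v ^ 3)) * (h1 : ℝ) +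
      2 * ((j : ℝ) * (-(cb : ℝ) ^ 5 * c ^ 4 / (p * v ^ 5))) * (h2 : ℝ)) *
        ((p : ℤ) * (v : ℤ) ^ 5), ?_, ?_, ?_, ?_⟩
  · generalize hX : 2 * ((j : ℝ) * ((cb : ℝ) ^ 5 * p / v)) * (h1 : ℝ) +
      ((j : ℝ) * (-(cb : ℝ) ^ 5 * c ^ 2 / v ^ 3)) * (h2 : ℝ) = X at H1 ⊢
    have e : (((j * cb ^ 5 * (2 * (v : ℤ) ^ 2 * (p * h1) - (c : ℤ) ^ 2 * h2) -
        round X * (v : ℤ) ^ 3 : ℤ)) : ℝ) = (X - round X) * (v : ℝ) ^ 3 := by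
      rw [← hX]
      push_cast
      field_simp
      ring
    rw [e, abs_mul, abs_of_pos (by positivity : (0 : ℝ) < (v : ℝ) ^ 3)]
    unfold dn at H1
    calc |X - round X| * (v : ℝ) ^ 3 ≤ (1 / (U : ℝ)) * (v : ℝ) ^ 3 :=
          mul_le_mul_of_nonneg_right H1 (by positivity)
      _ = (v : ℝ) ^ 3 / U := by ring
  · generalize hX : ((j : ℝ) * (-(cb : ℝ) ^ 5 * c ^ 2 / v ^ 3)) * (h1 : ℝ) +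
      2 * ((j : ℝ) * (-(cb : ℝ) ^ 5 * c ^ 4 / (p * v ^ 5))) * (h2 : ℝ) = X at H2 ⊢
    have e : (((-(j * cb ^ 5 * ((c : ℤ) ^ 2 * (v : ℤ) ^ 2 * (p * h1) + 2 * (c : ℤ) ^ 4 * h2)) -
        round X * ((p : ℤ) * (v : ℤ) ^ 5) : ℤ)) : ℝ) =
        (X - round X) * ((p : ℝ) * (v : ℝ) ^ 5) := by
      rw [← hX]
      push_cast
      field_simp
      ring
    rw [e, abs_mul, abs_of_pos (by positivity : (0 : ℝ) < (p : ℝ) * (v : ℝ) ^ 5)]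
    unfold dn at H2
    calc |X - round X| * ((p : ℝ) * (v : ℝ) ^ 5) ≤ (1 / (E : ℝ)) * ((p : ℝ) * (v : ℝ) ^ 5) :=
          mul_le_mul_of_nonneg_right H2 (by positivity)
      _ = (p : ℝ) * (v : ℝ) ^ 5 / E := by ring
  · generalize round (2 * ((j : ℝ) * ((cb : ℝ) ^ 5 * p / v)) * (h1 : ℝ) +
      ((j : ℝ) * (-(cb : ℝ) ^ 5 * c ^ 2 / v ^ 3)) * (h2 : ℝ)) = n
    have e : (c : ℤ) ^ 5 * (j * cb ^ 5 * (2 * (v : ℤ) ^ 2 * (p * h1) - (c : ℤ) ^ 2 * h2) -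
        n * (v : ℤ) ^ 3) - j * (2 * (v : ℤ) ^ 2 * (p * h1) - (c : ℤ) ^ 2 * h2) =
        ((cb * c) ^ 5 - 1) * (j * (2 * (v : ℤ) ^ 2 * (p * h1) - (c : ℤ) ^ 2 * h2)) +
          (v : ℤ) ^ 3 * (-(c : ℤ) ^ 5 * n) := by ring
    rw [e]
    exact dvd_add (Dvd.dvd.mul_right hp3 _) (dvd_mul_right _ _)
  · generalize round (((j : ℝ) * (-(cb : ℝ) ^ 5 * c ^ 2 / v ^ 3)) * (h1 : ℝ) +
      2 * ((j : ℝ) * (-(cb : ℝ) ^ 5 * c ^ 4 / (p * v ^ 5))) * (h2 : ℝ)) = n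
    have e : (c : ℤ) ^ 5 * (-(j * cb ^ 5 * ((c : ℤ) ^ 2 * (v : ℤ) ^ 2 * (p * h1) +
        2 * (c : ℤ) ^ 4 * h2)) - n * ((p : ℤ) * (v : ℤ) ^ 5)) +
        j * ((c : ℤ) ^ 2 * (v : ℤ) ^ 2 * (p * h1) + 2 * (c : ℤ) ^ 4 * h2) =
        ((cb * c) ^ 5 - 1) * (-(j * ((c : ℤ) ^ 2 * (v : ℤ) ^ 2 * (p * h1) +
          2 * (c : ℤ) ^ 4 * h2))) + ((p : ℤ) * (v : ℤ) ^ 5) * (-(c : ℤ) ^ 5 * n) := by ring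
    rw [e]
    exact dvd_add (Dvd.dvd.mul_right hpp _) (dvd_mul_right _ _)

end Pool.Agent.FTL
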