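import Pool.Agent.FTB.BsA
import Pool.Agent.FTL.DefsW

/-!
# FTL/WBb: the integers attached to a difference vector, and divisibility by `p`

PROOF of `wbb`.  `Pool.Agent.FTB.bsa` with `h1` replaced by `p h1` gives `B, J, K` with
`B1 = 2 c ^ 2 A + v ^ 2 B`, `5 j h2 = fF A B J c v`, `5 j (p h1) = gF B J K c v`.
For `p ∣ K`: `p` divides `c ^ 5 B1 + j (c ^ 2 v ^ 2 p h1 + 2 c ^ 4 h2)`, so it divides
`c ^ 4 (c B1 + 2 j h2)`, so (`p` prime or a unit, coprime to `c`) `p ∣ c B1 + 2 j h2`, and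
`5 (c B1 + 2 j h2) = 5 c (2 c ^ 2 A + v ^ 2 B) + 2 fF = c v ^ 2 B + 2 v ^ 3 J = v ^ 2 (c B + 2 v J)`,
so `p ∣ c B + 2 v J` (coprime to `v`).  As `p ∣ gF B J K c v = -c ^ 2 (c B + 2 v J) + K v ^ 3`,
`p ∣ K v ^ 3`, so `p ∣ K`.  (Only `IsCoprime p c`, `IsCoprime p v` are needed.)
-/

set_option autoImplicit false

namespace Pool.Agent.FTL

open Pool.Agent.FTB

theorem wbb (c v p j h1 h2 A B1 : ℤ) (hv : v ≠ 0) (hcv : IsCoprime c v) (hpc : IsCoprime p c)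
    (hpv : IsCoprime p v)
    (hX : v ^ 3 ∣ c ^ 5 * A - j * (2 * v ^ 2 * (p * h1) - c ^ 2 * h2))
    (hY : p * v ^ 5 ∣ c ^ 5 * B1 + j * (c ^ 2 * v ^ 2 * (p * h1) + 2 * c ^ 4 * h2)) :
    ∃ B J K : ℤ, B1 = 2 * c ^ 2 * A + v ^ 2 * B ∧ 5 * j * h2 = fF A B J c v ∧
      5 * j * (p * h1) = gF B J K c v ∧ p ∣ K := by
  obtain ⟨B, J, K, hB, hJ, hK⟩ := bsa c v j (p * h1) h2 A B1 hv hcv hX
    ((dvd_mul_left _ _).trans hY)
  refine ⟨B, J, K, hB, hJ, hK, ?_⟩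
  have hpY : p ∣ c ^ 5 * B1 + j * (c ^ 2 * v ^ 2 * (p * h1) + 2 * c ^ 4 * h2) :=
    (dvd_mul_right _ _).trans hY
  have h3 : p ∣ c ^ 4 * (c * B1 + 2 * j * h2) := by
    have e : c ^ 4 * (c * B1 + 2 * j * h2) =
        (c ^ 5 * B1 + j * (c ^ 2 * v ^ 2 * (p * h1) + 2 * c ^ 4 * h2)) -
          p * (j * c ^ 2 * v ^ 2 * h1) := by ring
    rw [e]
    exact dvd_sub hpY (dvd_mul_right _ _)
  have h4 : p ∣ c * B1 + 2 * j * h2 := (hpc.pow_right : IsCoprime p (c ^ 4)).dvd_of_dvd_mul_left h3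
  have h5 : p ∣ v ^ 2 * (c * B + 2 * v * J) := by
    have e : v ^ 2 * (c * B + 2 * v * J) = 5 * (c * B1 + 2 * j * h2) := by
      unfold fF at hJ
      linear_combination (-5 * c) * hB - 2 * hJ
    rw [e]
    exact Dvd.dvd.mul_left h4 _
  have h6 : p ∣ c * B + 2 * v * J := (hpv.pow_right : IsCoprime p (v ^ 2)).dvd_of_dvd_mul_left h5
  have h7 : p ∣ v ^ 3 * K := by
    have e : v ^ 3 * K = p * (5 * j * h1) + c ^ 2 * (c * B + 2 * v * J) := by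
      unfold gF at hK
      linear_combination -hK
    rw [e]
    exact dvd_add (dvd_mul_right _ _) (Dvd.dvd.mul_left h6 _)
  exact (hpv.pow_right : IsCoprime p (v ^ 3)).dvd_of_dvd_mul_left h7

end Pool.Agent.FTL
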