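import Pool.Agent.FTL.DefsW

/-!
# FTL/WBd: the common prime factors of `N` and `k`

PROOF of `wbd`.  `p` divides `u e = v ^ 2 N - c ^ 2 k`, so `p ∣ u` or `p ∣ e`.  If `p ∣ R` then
`p ∣ u - 1` and `p ∣ e - 1`, which is impossible; so `p` is coprime to `R`.  `p ≤ P < V ≤ c, v` (as
`12000 R P ≤ V`), so `p ≠ c, v`.  If `p ∣ u` then `v w = u ^ 2 - c ^ 2 N` is divisible by `p`, so
`p ∣ w`.  If `p ∣ e` then `c z = v ^ 2 k - e ^ 2` is divisible by `p`, so `p ∣ z`.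
PROOF of `wcp`: `c` and `v` are primes; a product of two numbers prime to `u` and `e`.
-/

set_option autoImplicit false

namespace Pool.Agent.FTL

open Pool.Agent.FTB

theorem wbd (V a R P Z : ℕ) (T Q L : ℝ) (h : PW V a R P Z T Q L) (q : Pt) (hq : GPq V a q)
    (hu : (R : ℤ) ∣ q.2.2.2.2.1 - 1) (he : (R : ℤ) ∣ q.2.2.2.2.2.1 - 1) (p : ℕ) (hp : p.Prime)
    (hpP : p ≤ P) (hN : p ∣ q.1) (hk : p ∣ q.2.1) :
    Nat.Coprime p R ∧ (((p : ℤ) ∣ q.2.2.2.2.1 ∧ (p : ℤ) ∣ q.2.2.2.2.2.2.1) ∨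
      ((p : ℤ) ∣ q.2.2.2.2.2.1 ∧ (p : ℤ) ∣ q.2.2.2.2.2.2.2)) := by
  obtain ⟨N, k, c, v, u, e, w, z⟩ := q
  simp only at hu he hN hk ⊢
  have g : GP V a N k c v u e w z := hq
  have hpi : Prime (p : ℤ) := Nat.prime_iff_prime_int.mp hp
  have hNz : (p : ℤ) ∣ (N : ℤ) := Int.natCast_dvd_natCast.mpr hN
  have hkz : (p : ℤ) ∣ (k : ℤ) := Int.natCast_dvd_natCast.mpr hk
  have hue : (p : ℤ) ∣ u * e := by
    rw [g.t1]
    exact dvd_sub (Dvd.dvd.mul_left hNz _) (Dvd.dvd.mul_left hkz _)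
  have hlt : p < V := by
    have h1 := h.hRP
    have h2 := h.hR
    have h3 := h.hV
    have h4 : P ≤ R * P := Nat.le_mul_of_pos_left P (by omega)
    have h5 : 12000 * R * P = 12000 * (R * P) := by ring
    have h6 := hp.pos
    omega
  have hne : ∀ c : ℕ, c.Prime → V ≤ c → ¬ (p : ℤ) ∣ (c : ℤ) := by
    intro c hc hVc hd
    have h1 : p ∣ c := Int.natCast_dvd_natCast.mp hd
    have h2 := (Nat.prime_dvd_prime_iff_eq hp hc).mp h1
    omega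
  have hco : Nat.Coprime p R := by
    rw [Nat.Prime.coprime_iff_not_dvd hp]
    intro hpR
    have h1 : (p : ℤ) ∣ (R : ℤ) := Int.natCast_dvd_natCast.mpr hpR
    have h2 := h1.trans hu
    have h3 := h1.trans he
    have h4 : (p : ℤ) ∣ 1 := by
      rcases hpi.dvd_or_dvd hue with h5 | h5
      · have := dvd_sub h5 h2
        simpa using this
      · have := dvd_sub h5 h3
        simpa using this
    exact hpi.not_dvd_one h4
  refine ⟨hco, ?_⟩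
  rcases hpi.dvd_or_dvd hue with h5 | h5
  · left
    refine ⟨h5, ?_⟩
    have h6 : (p : ℤ) ∣ (v : ℤ) * w := by
      rw [g.t2]
      exact dvd_sub (dvd_pow h5 two_ne_zero) (Dvd.dvd.mul_left hNz _)
    rcases hpi.dvd_or_dvd h6 with h7 | h7
    · exact absurd h7 (hne v g.pv g.v1)
    · exact h7
  · right
    refine ⟨h5, ?_⟩
    have h6 : (p : ℤ) ∣ (c : ℤ) * z := by
      rw [g.t3]
      exact dvd_sub (Dvd.dvd.mul_left hkz _) (dvd_pow h5 two_ne_zero)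
    rcases hpi.dvd_or_dvd h6 with h7 | h7
    · exact absurd h7 (hne c g.pc g.c1)
    · exact h7

theorem wcp (V a : ℕ) (q : Pt) (hq : GPq V a q) (h1 : ¬ (q.2.2.1 : ℤ) ∣ q.2.2.2.2.1)
    (h2 : ¬ (q.2.2.1 : ℤ) ∣ q.2.2.2.2.2.1) (h3 : ¬ (q.2.2.2.1 : ℤ) ∣ q.2.2.2.2.1)
    (h4 : ¬ (q.2.2.2.1 : ℤ) ∣ q.2.2.2.2.2.1) :
    IsCoprime ((q.2.2.1 : ℤ) * (q.2.2.2.1 : ℤ)) (q.2.2.2.2.1 * q.2.2.2.2.2.1) := by
  obtain ⟨N, k, c, v, u, e, w, z⟩ := q
  simp only at h1 h2 h3 h4 ⊢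
  have g : GP V a N k c v u e w z := hq
  have hc : Prime (c : ℤ) := Nat.prime_iff_prime_int.mp g.pc
  have hv : Prime (v : ℤ) := Nat.prime_iff_prime_int.mp g.pv
  have k1 := (hc.irreducible.coprime_iff_not_dvd).mpr h1
  have k2 := (hc.irreducible.coprime_iff_not_dvd).mpr h2
  have k3 := (hv.irreducible.coprime_iff_not_dvd).mpr h3
  have k4 := (hv.irreducible.coprime_iff_not_dvd).mpr h4
  exact IsCoprime.mul_left (IsCoprime.mul_right k1 k2) (IsCoprime.mul_right k3 k4)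

end Pool.Agent.FTL
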