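import Pool.Agent.FTL.DefsW

/-!
# FTL/WEx: integrality of the other coordinates

PROOF of `ex1`.  Let `c ^ 5 z - F = -v ^ 5 w`, `F = v ^ 4 u ^ 2 - c ^ 2 v ^ 2 u e - c ^ 4 e ^ 2`, i.e.
`v ^ 4 (u ^ 2 - v w) = c ^ 2 (v ^ 2 u e + c ^ 2 e ^ 2 + c ^ 3 z)`.  As `c ^ 2`, `v ^ 4` are coprime,
`u ^ 2 - v w = c ^ 2 N`, and (cancel `c ^ 2`) `v ^ 4 N = v ^ 2 u e + c ^ 2 e ^ 2 + c ^ 3 z`, i.e.
`v ^ 2 (v ^ 2 N - u e) = c ^ 2 (e ^ 2 + c z)`, so `e ^ 2 + c z = v ^ 2 k` and (cancel `v ^ 2`)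
`v ^ 2 N - u e = c ^ 2 k`.
PROOF of `ex2`.  `ex1` gives integers `w, N, k`.  `v ^ 2 k = e ^ 2 + c z > 0`, so `k > 0`;
`v ^ 2 N = u e + c ^ 2 k > 0`, so `N > 0`; take `N.toNat`, `k.toNat`.
-/

set_option autoImplicit false

namespace Pool.Agent.FTL

open Pool.Agent.FTB

theorem ex1 (c v u e z : ℤ) (hc : c ≠ 0) (hv : v ≠ 0) (hcv : IsCoprime c v)
    (h : v ^ 5 ∣ c ^ 5 * z - Fq c v u e) :
    ∃ w N k : ℤ, u * e = v ^ 2 * N - c ^ 2 * k ∧ v * w = u ^ 2 - c ^ 2 * N ∧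
      c * z = v ^ 2 * k - e ^ 2 := by
  obtain ⟨t, ht⟩ := h
  unfold Fq at ht
  have h1 : v ^ 4 * (u ^ 2 + v * t) = c ^ 2 * (v ^ 2 * u * e + c ^ 2 * e ^ 2 + c ^ 3 * z) := by
    linear_combination -ht
  have hd : c ^ 2 ∣ u ^ 2 + v * t := by
    have hco : IsCoprime (c ^ 2) (v ^ 4) := IsCoprime.pow hcv
    exact hco.dvd_of_dvd_mul_left ⟨_, h1⟩
  obtain ⟨N, hN⟩ := hd
  have hc2 : c ^ 2 ≠ 0 := pow_ne_zero 2 hc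
  have hv2 : v ^ 2 ≠ 0 := pow_ne_zero 2 hv
  have h2 : v ^ 4 * N = v ^ 2 * u * e + c ^ 2 * e ^ 2 + c ^ 3 * z := by
    apply mul_left_cancel₀ hc2
    rw [← h1, hN]
    ring
  have h3 : c ^ 2 * (e ^ 2 + c * z) = v ^ 2 * (v ^ 2 * N - u * e) := by
    linear_combination -h2
  have hd2 : v ^ 2 ∣ e ^ 2 + c * z := by
    have hco : IsCoprime (v ^ 2) (c ^ 2) := IsCoprime.pow hcv.symm
    exact hco.dvd_of_dvd_mul_left ⟨_, h3⟩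
  obtain ⟨k, hk⟩ := hd2
  have h4 : v ^ 2 * N - u * e = c ^ 2 * k := by
    apply mul_left_cancel₀ hv2
    rw [← h3, hk]
    ring
  refine ⟨-t, N, k, ?_, ?_, ?_⟩
  · linear_combination -h4
  · linear_combination -hN
  · linear_combination hk

theorem ex2 (V a c v : ℕ) (u e z : ℤ) (hV : 1 ≤ V) (ha : 1 ≤ a) (hx : (c, v) ∈ PP V)
    (u1 : (V : ℤ) * a ≤ u) (u2 : 1000 * u ≤ 1001 * ((V : ℤ) * a))
    (e1 : (V : ℤ) * a ≤ e) (e2 : 1000 * e ≤ 1001 * ((V : ℤ) * a))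
    (z1 : (V : ℤ) * a ^ 2 ≤ z) (z2 : 1000 * z ≤ 1001 * ((V : ℤ) * a ^ 2))
    (h : (v : ℤ) ^ 5 ∣ (c : ℤ) ^ 5 * z - Fq c v u e) :
    ∃ (N k : ℕ) (w : ℤ), GP V a N k c v u e w z := by
  rw [mem_PP] at hx
  obtain ⟨⟨⟨hc1, hc2⟩, hcp⟩, ⟨⟨hv1, hv2⟩, hvp⟩, hne⟩ := hx
  have hcop : IsCoprime (c : ℤ) (v : ℤ) :=
    Nat.isCoprime_iff_coprime.2 ((Nat.coprime_primes hcp hvp).2 hne)
  have hc0 : (c : ℤ) ≠ 0 := by exact_mod_cast hcp.ne_zero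
  have hv0 : (v : ℤ) ≠ 0 := by exact_mod_cast hvp.ne_zero
  have hcpos : (0 : ℤ) < c := by exact_mod_cast hcp.pos
  have hvpos : (0 : ℤ) < v := by exact_mod_cast hvp.pos
  obtain ⟨w, N, k, t1, t2, t3⟩ := ex1 (c : ℤ) v u e z hc0 hv0 hcop h
  have hVa : (0 : ℤ) < (V : ℤ) * a := by
    have h1 : 0 < V * a := Nat.mul_pos hV ha
    exact_mod_cast h1
  have hVa2 : (0 : ℤ) < (V : ℤ) * a ^ 2 := by
    have h1 : 0 < V * a ^ 2 := Nat.mul_pos hV (pow_pos ha 2)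
    exact_mod_cast h1
  have hu : 0 < u := lt_of_lt_of_le hVa u1
  have he : 0 < e := lt_of_lt_of_le hVa e1
  have hz : 0 < z := lt_of_lt_of_le hVa2 z1
  have hvk : 0 < (v : ℤ) ^ 2 * k := by
    have h1 : 0 < (c : ℤ) * z := mul_pos hcpos hz
    have h2 : 0 < e ^ 2 := pow_pos he 2
    linarith
  have hk : 0 < k := (mul_pos_iff_of_pos_left (pow_pos hvpos 2)).1 hvk
  have hvN : 0 < (v : ℤ) ^ 2 * N := by
    have h1 : 0 < u * e := mul_pos hu he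
    have h2 : 0 < (c : ℤ) ^ 2 * k := mul_pos (pow_pos hcpos 2) hk
    linarith
  have hN : 0 < N := (mul_pos_iff_of_pos_left (pow_pos hvpos 2)).1 hvN
  obtain ⟨N', rfl⟩ := Int.eq_ofNat_of_zero_le hN.le
  obtain ⟨k', rfl⟩ := Int.eq_ofNat_of_zero_le hk.le
  exact ⟨N', k', w, ⟨hcp, hvp, hne, hc1, hc2, hv1, hv2, u1, u2, e1, e2, z1, z2, t1, t2, t3⟩⟩

end Pool.Agent.FTL
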