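import Pool.Agent.FTL.WAv

/-!
# FTL/WS1: the sum over `(c, v)` for our parameters

PROOF of `ws1`.  Put `y = p R V ^ 2 / a`; `y ≥ 10 ^ 5` (`10 ^ 5 a ≤ V ^ 2`), so
`s = sp V a R p = ⌈80000 y⌉₊ ≤ 80001 y`, and `p ≤ 80000 y ≤ s`.  `C = CV V`, `1 ≤ C ≤ 1.001 V`.
`m ≤ 33000 p V ^ 4 / a ^ 2` and `12000 R p ≤ V ≤ a`, so `s ≤ 80001 p R V ^ 2 / a ≤ 7 V ^ 2`,
`m ≤ 33000 p V ^ 2 ≤ 3 V ^ 3`.  Apply `wav` with `Y = 10 V ^ 5` (`(20 Y) ^ 8 = (200 V ^ 5) ^ 8 ≤ Z`).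
Under the second root the four terms are (`y = p R V ^ 2 / a`)
`81 s ^ 4 m / p ≤ 1.1 * 10 ^ 26 p ^ 4 R ^ 4 V ^ 12 / a ^ 6`,
`1512 C V s ^ 4 / p ≤ 6.3 * 10 ^ 22 p ^ 3 R ^ 4 V ^ 10 / a ^ 4`,
`72 s ^ 2 C V m ≤ 1.6 * 10 ^ 16 p ^ 3 R ^ 2 V ^ 10 / a ^ 4`,
`216 s ^ 2 m ^ 2 ≤ 1.6 * 10 ^ 21 p ^ 4 R ^ 2 V ^ 12 / a ^ 6`
(`T ^ 2, T ^ 3 ≤ T ^ 4`), so the second root is at most
`T ^ 2 R ^ 2 (1.9 * 10 ^ 13 p ^ 2 V ^ 6 / a ^ 3 + 2.9 * 10 ^ 11 p √p V ^ 5 / a ^ 2)`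
(`√(x ^ 2 + y ^ 2) ≤ x + y`), and the first is at most `1.001 V √L`, as
`1 + log m ≤ 1 + log (3 V ^ 3) ≤ L` (if `m = 0` then `log m = 0`).
-/

set_option autoImplicit false

namespace Pool.Agent.FTL

open Pool.Agent.FTB

theorem ws1 (V a R P Z : ℕ) (T Q L : ℝ) (h : PW V a R P Z T Q L) (p m : ℕ)
    (hp : p = 1 ∨ p.Prime) (hpP : p ≤ P) (hm : (m : ℝ) * a ^ 2 ≤ 33000 * p * (V : ℝ) ^ 4) :
    ∑ x ∈ PP V, ∑ j ∈ Finset.Ico 1 m, √((BK p (sp V a R p) (5 * (j * R ^ 2)) x.1 x.2).card : ℝ) ≤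
      Q * T ^ 2 * (R : ℝ) ^ 2 * √L * (2 * 10 ^ 13 * (p : ℝ) ^ 2 * (V : ℝ) ^ 7 / (a : ℝ) ^ 3 +
        3 * 10 ^ 11 * (p : ℝ) * √(p : ℝ) * (V : ℝ) ^ 6 / (a : ℝ) ^ 2) := by
  obtain ⟨hR, hP, hRP, hV, hVa, haV, hT, hQ, hZ, hL⟩ := h
  have hp1 : 1 ≤ p := by
    rcases hp with h1 | h1
    · omega
    · exact h1.one_lt.le
  have hVr : (10 : ℝ) ^ 6 ≤ V := by exact_mod_cast hV
  have hV0 : (0 : ℝ) < V := by linarith [show (0 : ℝ) < 10 ^ 6 by norm_num]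
  have har : (V : ℝ) ≤ a := by exact_mod_cast hVa
  have ha0 : (0 : ℝ) < a := by linarith
  have haVr : (10 : ℝ) ^ 5 * a ≤ (V : ℝ) ^ 2 := by exact_mod_cast haV
  have hRr : (1 : ℝ) ≤ R := by exact_mod_cast hR
  have hpr : (1 : ℝ) ≤ p := by exact_mod_cast hp1
  have hp0 : (0 : ℝ) < p := by linarith
  have hRPr : 12000 * (R : ℝ) * p ≤ V := by
    have h1 : 12000 * R * p ≤ V := (Nat.mul_le_mul_left _ hpP).trans hRP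
    exact_mod_cast h1
  have hT1 : 1 ≤ T := hT.1
  have hQ1 : 1 ≤ Q := hQ.1
  -- the parameter `g = V ^ 2 / a`
  set g : ℝ := (V : ℝ) ^ 2 / a with hg
  have hg5 : (10 : ℝ) ^ 5 ≤ g := by
    rw [hg, le_div_iff₀ ha0]
    exact haVr
  have hg0 : (0 : ℝ) < g := by linarith [show (0 : ℝ) < 10 ^ 5 by norm_num]
  have hgV : g ≤ V := by
    rw [hg, div_le_iff₀ ha0]
    nlinarith
  -- the size of `s`
  have hσ : 1 ≤ (p : ℝ) * R * g := by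
    have h1 : 1 ≤ (p : ℝ) * R := one_le_mul_of_one_le_of_one_le hpr hRr
    nlinarith
  have hs1 : ((sp V a R p : ℕ) : ℝ) ≤ 80001 * ((p : ℝ) * R * g) := by
    have h1 : 80000 * (p : ℝ) * R * V ^ 2 / a = 80000 * ((p : ℝ) * R * g) := by
      rw [hg]
      ring
    unfold sp
    rw [h1]
    have h2 := (Nat.ceil_lt_add_one (show 0 ≤ 80000 * ((p : ℝ) * R * g) by positivity)).le
    linarith
  have hps : p ≤ sp V a R p := by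
    have h1 : 80000 * (p : ℝ) * R * V ^ 2 / a = 80000 * ((p : ℝ) * R * g) := by
      rw [hg]
      ring
    have h2 : (p : ℝ) ≤ ((sp V a R p : ℕ) : ℝ) := by
      unfold sp
      rw [h1]
      refine le_trans ?_ (Nat.le_ceil _)
      have h3 : 1 ≤ R * g := one_le_mul_of_one_le_of_one_le hRr (by linarith [show (1 : ℝ) ≤ 10 ^ 5 by norm_num])
      nlinarith
    exact_mod_cast h2
  have hm1 : (m : ℝ) ≤ 33000 * p * g ^ 2 := by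
    have h1 : 33000 * (p : ℝ) * g ^ 2 = 33000 * p * (V : ℝ) ^ 4 / (a : ℝ) ^ 2 := by
      rw [hg]
      ring
    rw [h1, le_div_iff₀ (by positivity)]
    exact hm
  have hm3 : (m : ℝ) ≤ 3 * (V : ℝ) ^ 3 := by
    refine hm1.trans ?_
    have h1 : g ^ 2 ≤ (V : ℝ) ^ 2 := pow_le_pow_left₀ hg0.le hgV 2
    have h2 : 12000 * (p : ℝ) ≤ V := by nlinarith
    calc 33000 * (p : ℝ) * g ^ 2 ≤ 33000 * (p : ℝ) * (V : ℝ) ^ 2 := by gcongr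
      _ ≤ 33000 * ((V : ℝ) / 12000) * (V : ℝ) ^ 2 := by
          have h3 : (p : ℝ) ≤ V / 12000 := by linarith
          gcongr
      _ ≤ 3 * (V : ℝ) ^ 3 := by
          have h4 : 0 ≤ (V : ℝ) ^ 3 := by positivity
          have h5 : 33000 * ((V : ℝ) / 12000) * (V : ℝ) ^ 2 = 11 / 4 * (V : ℝ) ^ 3 := by ring
          rw [h5]
          linarith
  have hsY : sp V a R p ≤ 10 * V ^ 5 := by
    have h1 : ((sp V a R p : ℕ) : ℝ) ≤ 10 * (V : ℝ) ^ 5 := by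
      refine hs1.trans ?_
      have h2 : (p : ℝ) * R ≤ V / 12000 := by linarith
      calc 80001 * ((p : ℝ) * R * g) ≤ 80001 * (V / 12000 * V) := by gcongr
        _ ≤ 10 * (V : ℝ) ^ 2 := by nlinarith
        _ ≤ 10 * (V : ℝ) ^ 5 := by
            have h3 : (V : ℝ) ^ 2 ≤ (V : ℝ) ^ 5 :=
              pow_le_pow_right₀ (by linarith [show (1 : ℝ) ≤ 10 ^ 6 by norm_num]) (by norm_num)
            linarith
    exact_mod_cast h1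
  have hV1 : 1 ≤ V := by omega
  have hV5 : V ≤ V ^ 5 := Nat.le_self_pow (by norm_num) V
  have hmY : m ≤ 10 * V ^ 5 := by
    have h1 : (m : ℝ) ≤ 10 * (V : ℝ) ^ 5 := by
      refine hm3.trans ?_
      have h3 : (V : ℝ) ^ 3 ≤ (V : ℝ) ^ 5 :=
        pow_le_pow_right₀ (by linarith [show (1 : ℝ) ≤ 10 ^ 6 by norm_num]) (by norm_num)
      have h4 : 0 ≤ (V : ℝ) ^ 5 := by positivity
      linarith
    exact_mod_cast h1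
  have hC1 : 1 ≤ CV V := by
    unfold CV
    omega
  have hC2 : 1000 * CV V ≤ 1001 * V := by
    unfold CV
    omega
  have hCY : CV V ≤ 10 * V ^ 5 := by omega
  have hV2 : 2 * V ≤ 10 * V ^ 5 := by omega
  have hC3 : ((CV V : ℕ) : ℝ) ≤ 1001 / 1000 * V := by
    have h1 : (1000 : ℝ) * ((CV V : ℕ) : ℝ) ≤ 1001 * V := by exact_mod_cast hC2
    linarith
  have hZ' : (20 * (10 * V ^ 5)) ^ 8 ≤ Z := by
    have h1 : 20 * (10 * V ^ 5) = 200 * V ^ 5 := by ring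
    rw [h1]
    exact hZ
  have hw := wav (CV V) V m R p (sp V a R p) (10 * V ^ 5) Z T Q hC1 hV1 hR hT hQ hZ' hp hps hsY
    hCY hV2 hmY
  have hsub : ∑ x ∈ PP V, ∑ j ∈ Finset.Ico 1 m,
      √((BK p (sp V a R p) (5 * (j * R ^ 2)) x.1 x.2).card : ℝ) ≤
      ∑ x ∈ Cv (CV V) V, ∑ j ∈ Finset.Ico 1 m,
        √((BK p (sp V a R p) (5 * (j * R ^ 2)) x.1 x.2).card : ℝ) :=
    Finset.sum_le_sum_of_subset_of_nonneg (PP_sub V (by omega)) fun x _ _ =>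
      Finset.sum_nonneg fun j _ => Real.sqrt_nonneg _
  refine (hsub.trans hw).trans ?_
  -- the logarithm
  have hlV : 0 ≤ Real.log V := Real.log_nonneg (by linarith [show (1 : ℝ) ≤ 10 ^ 6 by norm_num])
  have hL6 : 6 ≤ L := by linarith
  have hlog : 1 + Real.log m ≤ L := by
    rcases Nat.eq_zero_or_pos m with h0 | h0
    · rw [h0, Nat.cast_zero, Real.log_zero]
      linarith
    · have h1 : (0 : ℝ) < m := by exact_mod_cast h0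
      have h2 : Real.log m ≤ Real.log (3 * (V : ℝ) ^ 3) := Real.log_le_log h1 hm3
      have h3 : Real.log (3 * (V : ℝ) ^ 3) = Real.log 3 + 3 * Real.log V := by
        rw [Real.log_mul (by norm_num) (by positivity), Real.log_pow]
        norm_num
      have h4 : Real.log 3 ≤ 3 - 1 := Real.log_le_sub_one_of_pos (by norm_num)
      rw [h3] at h2
      linarith
  have hlog0 : 0 ≤ 1 + Real.log m := by
    rcases Nat.eq_zero_or_pos m with h0 | h0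
    · rw [h0, Nat.cast_zero, Real.log_zero]
      norm_num
    · have h1 : (1 : ℝ) ≤ m := by exact_mod_cast h0
      linarith [Real.log_nonneg h1]
  -- abbreviations
  set S : ℝ := ((sp V a R p : ℕ) : ℝ) with hS
  set C : ℝ := ((CV V : ℕ) : ℝ) with hC
  have hS0 : 0 ≤ S := Nat.cast_nonneg _
  have hC0 : 0 ≤ C := Nat.cast_nonneg _
  have hm0 : (0 : ℝ) ≤ m := Nat.cast_nonneg _
  have hT0 : 0 < T := by linarith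
  have hR0 : (0 : ℝ) < R := by linarith
  have b1 : 81 * S ^ 4 / p * m ≤ 11 * 10 ^ 25 * ((p : ℝ) ^ 4 * R ^ 4 * g ^ 6) := by
    calc 81 * S ^ 4 / p * m ≤ 81 * (80001 * ((p : ℝ) * R * g)) ^ 4 / p * (33000 * p * g ^ 2) := by
          gcongr
      _ = 81 * 80001 ^ 4 * 33000 * ((p : ℝ) ^ 4 * R ^ 4 * g ^ 6) := by field_simp
      _ ≤ 11 * 10 ^ 25 * ((p : ℝ) ^ 4 * R ^ 4 * g ^ 6) := by
          exact mul_le_mul_of_nonneg_right (by norm_num) (by positivity)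
  have b2 : 1512 * (C * V) * S ^ 4 / p ≤ 63 * 10 ^ 21 * ((p : ℝ) ^ 3 * V ^ 2 * R ^ 4 * g ^ 4) := by
    calc 1512 * (C * V) * S ^ 4 / p ≤
          1512 * (1001 / 1000 * V * V) * (80001 * ((p : ℝ) * R * g)) ^ 4 / p := by gcongr
      _ = 1512 * (1001 / 1000) * 80001 ^ 4 * ((p : ℝ) ^ 3 * V ^ 2 * R ^ 4 * g ^ 4) := by field_simp
      _ ≤ 63 * 10 ^ 21 * ((p : ℝ) ^ 3 * V ^ 2 * R ^ 4 * g ^ 4) := by
          exact mul_le_mul_of_nonneg_right (by norm_num) (by positivity)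
  have b3 : 72 * T ^ 2 * S ^ 2 * (T * (C * V) * m) ≤
      16 * 10 ^ 15 * (T ^ 3 * ((p : ℝ) ^ 3 * V ^ 2 * R ^ 2 * g ^ 4)) := by
    calc 72 * T ^ 2 * S ^ 2 * (T * (C * V) * m) ≤
          72 * T ^ 2 * (80001 * ((p : ℝ) * R * g)) ^ 2 *
            (T * (1001 / 1000 * V * V) * (33000 * p * g ^ 2)) := by gcongr
      _ = 72 * 80001 ^ 2 * (1001 / 1000) * 33000 *
          (T ^ 3 * ((p : ℝ) ^ 3 * V ^ 2 * R ^ 2 * g ^ 4)) := by ring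
      _ ≤ 16 * 10 ^ 15 * (T ^ 3 * ((p : ℝ) ^ 3 * V ^ 2 * R ^ 2 * g ^ 4)) := by
          exact mul_le_mul_of_nonneg_right (by norm_num) (by positivity)
  have b4 : 72 * T ^ 2 * S ^ 2 * (3 * (m : ℝ) ^ 2) ≤
      16 * 10 ^ 20 * (T ^ 2 * ((p : ℝ) ^ 4 * R ^ 2 * g ^ 6)) := by
    calc 72 * T ^ 2 * S ^ 2 * (3 * (m : ℝ) ^ 2) ≤
          72 * T ^ 2 * (80001 * ((p : ℝ) * R * g)) ^ 2 * (3 * (33000 * p * g ^ 2) ^ 2) := by gcongr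
      _ = 72 * 80001 ^ 2 * 3 * 33000 ^ 2 * (T ^ 2 * ((p : ℝ) ^ 4 * R ^ 2 * g ^ 6)) := by ring
      _ ≤ 16 * 10 ^ 20 * (T ^ 2 * ((p : ℝ) ^ 4 * R ^ 2 * g ^ 6)) := by
          exact mul_le_mul_of_nonneg_right (by norm_num) (by positivity)
  have hT34 : T ^ 3 ≤ T ^ 4 := pow_le_pow_right₀ hT1 (by norm_num)
  have hT24 : T ^ 2 ≤ T ^ 4 := pow_le_pow_right₀ hT1 (by norm_num)
  have hR24 : (R : ℝ) ^ 2 ≤ (R : ℝ) ^ 4 := pow_le_pow_right₀ hRr (by norm_num)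
  have b5 : T ^ 3 * ((p : ℝ) ^ 3 * V ^ 2 * R ^ 2 * g ^ 4) ≤
      T ^ 4 * ((p : ℝ) ^ 3 * V ^ 2 * R ^ 4 * g ^ 4) := by gcongr
  have b6 : T ^ 2 * ((p : ℝ) ^ 4 * R ^ 2 * g ^ 6) ≤
      T ^ 4 * ((p : ℝ) ^ 4 * R ^ 4 * g ^ 6) := by gcongr
  have hT4 : 0 ≤ T ^ 4 := by positivity
  have b7 : T ^ 4 * (81 * S ^ 4 / p * m + 1512 * (C * V) * S ^ 4 / p) +
      72 * T ^ 2 * S ^ 2 * (T * (C * V) * m + 3 * (m : ℝ) ^ 2) ≤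
      T ^ 4 * (2 * 10 ^ 26 * ((p : ℝ) ^ 4 * R ^ 4 * g ^ 6) +
        8 * 10 ^ 22 * ((p : ℝ) ^ 3 * V ^ 2 * R ^ 4 * g ^ 4)) := by
    have c1 := mul_le_mul_of_nonneg_left b1 hT4
    have c2 := mul_le_mul_of_nonneg_left b2 hT4
    have c3 : 0 ≤ T ^ 4 * ((p : ℝ) ^ 3 * V ^ 2 * R ^ 4 * g ^ 4) := by positivity
    have c4 : 0 ≤ T ^ 4 * ((p : ℝ) ^ 4 * R ^ 4 * g ^ 6) := by positivity
    have e1 : T ^ 4 * (81 * S ^ 4 / p * m + 1512 * (C * V) * S ^ 4 / p) +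
      72 * T ^ 2 * S ^ 2 * (T * (C * V) * m + 3 * (m : ℝ) ^ 2) =
      T ^ 4 * (81 * S ^ 4 / p * m) + T ^ 4 * (1512 * (C * V) * S ^ 4 / p) +
        72 * T ^ 2 * S ^ 2 * (T * (C * V) * m) + 72 * T ^ 2 * S ^ 2 * (3 * (m : ℝ) ^ 2) := by ring
    rw [e1]
    have e2 : T ^ 4 * (2 * 10 ^ 26 * ((p : ℝ) ^ 4 * R ^ 4 * g ^ 6) +
        8 * 10 ^ 22 * ((p : ℝ) ^ 3 * V ^ 2 * R ^ 4 * g ^ 4)) =
        2 * 10 ^ 26 * (T ^ 4 * ((p : ℝ) ^ 4 * R ^ 4 * g ^ 6)) +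
        8 * 10 ^ 22 * (T ^ 4 * ((p : ℝ) ^ 3 * V ^ 2 * R ^ 4 * g ^ 4)) := by ring
    rw [e2]
    have e3 : T ^ 4 * (11 * 10 ^ 25 * ((p : ℝ) ^ 4 * R ^ 4 * g ^ 6)) =
      11 * 10 ^ 25 * (T ^ 4 * ((p : ℝ) ^ 4 * R ^ 4 * g ^ 6)) := by ring
    have e4 : T ^ 4 * (63 * 10 ^ 21 * ((p : ℝ) ^ 3 * V ^ 2 * R ^ 4 * g ^ 4)) =
      63 * 10 ^ 21 * (T ^ 4 * ((p : ℝ) ^ 3 * V ^ 2 * R ^ 4 * g ^ 4)) := by ring
    rw [e3] at c1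
    rw [e4] at c2
    have c5 := b3.trans (mul_le_mul_of_nonneg_left b5 (by norm_num : (0 : ℝ) ≤ 16 * 10 ^ 15))
    have c6 := b4.trans (mul_le_mul_of_nonneg_left b6 (by norm_num : (0 : ℝ) ≤ 16 * 10 ^ 20))
    linarith
  have b8 : C * V * (1 + Real.log m) ≤ 1001 / 1000 * V * V * L := by gcongr
  have hL0 : 0 ≤ L := by linarith
  have hB0 : 0 ≤ C * V * (1 + Real.log m) := by positivity
  rw [mul_assoc, ← Real.sqrt_mul hB0]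
  have b9 : C * V * (1 + Real.log m) * (T ^ 4 * (81 * S ^ 4 / p * m + 1512 * (C * V) * S ^ 4 / p) +
      72 * T ^ 2 * S ^ 2 * (T * (C * V) * m + 3 * (m : ℝ) ^ 2)) ≤
      (T ^ 2 * R ^ 2 * √L * (2 * 10 ^ 13 * (p : ℝ) ^ 2 * V * g ^ 3 +
        3 * 10 ^ 11 * (p : ℝ) * √(p : ℝ) * V ^ 2 * g ^ 2)) ^ 2 := by
    refine (mul_le_mul b8 b7 (by positivity) (by positivity)).trans ?_
    have e1 : (T ^ 2 * R ^ 2 * √L * (2 * 10 ^ 13 * (p : ℝ) ^ 2 * V * g ^ 3 +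
        3 * 10 ^ 11 * (p : ℝ) * √(p : ℝ) * V ^ 2 * g ^ 2)) ^ 2 =
        T ^ 4 * R ^ 4 * (√L) ^ 2 * (4 * 10 ^ 26 * (p : ℝ) ^ 4 * V ^ 2 * g ^ 6 +
          12 * 10 ^ 24 * (p : ℝ) ^ 3 * √(p : ℝ) * V ^ 3 * g ^ 5 +
          9 * 10 ^ 22 * (p : ℝ) ^ 2 * (√(p : ℝ)) ^ 2 * V ^ 4 * g ^ 4) := by ring
    rw [e1, Real.sq_sqrt hL0, Real.sq_sqrt hp0.le]
    have e2 : 1001 / 1000 * (V : ℝ) * V * L * (T ^ 4 * (2 * 10 ^ 26 * ((p : ℝ) ^ 4 * R ^ 4 * g ^ 6) +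
        8 * 10 ^ 22 * ((p : ℝ) ^ 3 * V ^ 2 * R ^ 4 * g ^ 4))) =
        T ^ 4 * R ^ 4 * L * (1001 / 1000 * 2 * 10 ^ 26 * (p : ℝ) ^ 4 * V ^ 2 * g ^ 6 +
          1001 / 1000 * 8 * 10 ^ 22 * (p : ℝ) ^ 3 * V ^ 4 * g ^ 4) := by ring
    rw [e2]
    refine mul_le_mul_of_nonneg_left ?_ (by positivity)
    have c1 : 0 ≤ (p : ℝ) ^ 4 * V ^ 2 * g ^ 6 := by positivity
    have c2 : 0 ≤ (p : ℝ) ^ 3 * V ^ 4 * g ^ 4 := by positivity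
    have c3 : 0 ≤ 12 * 10 ^ 24 * (p : ℝ) ^ 3 * √(p : ℝ) * V ^ 3 * g ^ 5 := by positivity
    have e3 : 9 * 10 ^ 22 * (p : ℝ) ^ 2 * (p : ℝ) * V ^ 4 * g ^ 4 =
      9 * 10 ^ 22 * ((p : ℝ) ^ 3 * V ^ 4 * g ^ 4) := by ring
    rw [e3]
    linarith
  have b10 := Real.sqrt_le_sqrt b9
  rw [Real.sqrt_sq (by positivity)] at b10
  have e9 : Q * T ^ 2 * (R : ℝ) ^ 2 * √L * (2 * 10 ^ 13 * (p : ℝ) ^ 2 * (V : ℝ) ^ 7 / (a : ℝ) ^ 3 +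
        3 * 10 ^ 11 * (p : ℝ) * √(p : ℝ) * (V : ℝ) ^ 6 / (a : ℝ) ^ 2) =
      Q * (T ^ 2 * R ^ 2 * √L * (2 * 10 ^ 13 * (p : ℝ) ^ 2 * V * g ^ 3 +
        3 * 10 ^ 11 * (p : ℝ) * √(p : ℝ) * V ^ 2 * g ^ 2)) := by
    rw [hg]
    ring
  rw [e9]
  exact mul_le_mul_of_nonneg_left b10 (by linarith)

end Pool.Agent.FTL
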