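import Pool.Agent.FTL.WBi

/-!
# FTL/WUh: the hypothesis on `H5` for our parameters

PROOF of `wuh`.  `c, v` are primes in `[V, 1.001 V]`, `p ≤ P < V` is `1` or a prime, so
`p, c, v` are pairwise coprime.  Put `y = p R V ^ 2 / a`, `s = sp V a R p = ⌈80000 y⌉₊`.  Apply `wbi` with
`j R ^ 2` in place of `j` and `sA = 3010 y`, `sB = 9030 y`, `sJ = 33900 y`, `sK = 77800 y`
(all `< s + 1` as `80000 y ≤ s`).  With `1 / U ≤ 3000 p R / (V a)`, `1 / E ≤ 3000 R / (V a)`,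
`U ≤ V a / (1000 p R)`, `E ≤ V a / (1000 R)`, `j ≤ 33000 p V ^ 4 / a ^ 2`, `c, v ∈ [V, 1.001 V]`:
`v ^ 3 / U ≤ 1.003004 * 3000 y ≤ 3010 y`;
`p v ^ 3 / E + 2 c ^ 2 v / U ≤ 3 * 1.003004 * 3000 y ≤ 9030 y`;
`20 j R ^ 2 E ≤ 660 y V ^ 3 ≤ 660 y v ^ 3`, `c ^ 3 ≤ 1.003004 v ^ 3`, so
`20 j R ^ 2 E + 5 c ^ 3 sA + 2 c v ^ 2 sB ≤ (660 + 15096 + 18079) y v ^ 3 ≤ 33900 y v ^ 3`;
`20 j R ^ 2 p U ≤ 660 y v ^ 3` and
`20 j R ^ 2 p U + c ^ 3 sB + 2 c ^ 2 v sJ ≤ (660 + 9058 + 67936) y v ^ 3 ≤ 77800 y v ^ 3`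
(`c ≤ 1.001 V ≤ 1.001 v`).
-/

set_option autoImplicit false

namespace Pool.Agent.FTL

open Pool.Agent.FTB

theorem wuh (V a R P Z : ℕ) (T Q L : ℝ) (h : PW V a R P Z T Q L) (c v p j U E : ℕ)
    (hx : (c, v) ∈ PP V) (hp : p = 1 ∨ p.Prime) (hpP : p ≤ P)
    (hU1 : (V : ℝ) * a ≤ 3000 * p * R * U) (hU2 : 1000 * (p : ℝ) * R * U ≤ V * a)
    (hE1 : (V : ℝ) * a ≤ 3000 * R * E) (hE2 : 1000 * (R : ℝ) * E ≤ V * a)
    (cb : ℤ) (hcb : (p : ℤ) * (v : ℤ) ^ 5 ∣ cb * c - 1) (hj : 1 ≤ j)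
    (hj2 : (j : ℝ) * a ^ 2 ≤ 33000 * p * (V : ℝ) ^ 4) :
    ((H5 c v p (j * R ^ 2) cb U E).card : ℝ) ≤
      1 + ((BK p (sp V a R p) (5 * (j * R ^ 2)) c v).card : ℝ) := by
  rw [mem_PP] at hx
  obtain ⟨⟨⟨hc1, hc2⟩, hcp⟩, ⟨⟨hv1, hv2⟩, hvp⟩, hne⟩ := hx
  simp only at hc1 hc2 hcp hv1 hv2 hvp hne
  have hV6 := h.hV
  have hVa := h.hVa
  have hR := h.hR
  have hP := h.hP
  have hRP := h.hRP
  have hPV : P < V := by
    have h1 : 12000 * P ≤ 12000 * R * P := by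
      calc 12000 * P = 12000 * 1 * P := by ring
        _ ≤ 12000 * R * P := by gcongr
    omega
  have hp1 : 1 ≤ p := by
    rcases hp with hp | hp
    · omega
    · exact hp.one_lt.le
  have hpc : Nat.Coprime p c := by
    rcases hp with hp | hp
    · rw [hp]; exact Nat.coprime_one_left c
    · exact (Nat.coprime_primes hp hcp).2 (by omega)
  have hpv : Nat.Coprime p v := by
    rcases hp with hp | hp
    · rw [hp]; exact Nat.coprime_one_left v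
    · exact (Nat.coprime_primes hp hvp).2 (by omega)
  have hV0 : (0 : ℝ) < V := by
    have : 0 < V := by omega
    exact_mod_cast this
  have ha0 : (0 : ℝ) < a := by
    have : 0 < a := by omega
    exact_mod_cast this
  have hR0 : (0 : ℝ) < R := by exact_mod_cast hR
  have hp0 : (0 : ℝ) < p := by exact_mod_cast hp1
  have hVapos : (0 : ℝ) < V * a := mul_pos hV0 ha0
  have hUpos : 1 ≤ U := by
    rcases Nat.eq_zero_or_pos U with h0 | h0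
    · exfalso
      rw [h0] at hU1
      simp only [Nat.cast_zero, mul_zero] at hU1
      linarith
    · exact h0
  have hEpos : 1 ≤ E := by
    rcases Nat.eq_zero_or_pos E with h0 | h0
    · exfalso
      rw [h0] at hE1
      simp only [Nat.cast_zero, mul_zero] at hE1
      linarith
    · exact h0
  have hU0 : (0 : ℝ) < U := by exact_mod_cast hUpos
  have hE0 : (0 : ℝ) < E := by exact_mod_cast hEpos
  have hj0 : (0 : ℝ) < j := by exact_mod_cast hj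
  have hcR : (V : ℝ) ≤ c := by exact_mod_cast hc1
  have hcR2 : 1000 * (c : ℝ) ≤ 1001 * V := by exact_mod_cast hc2
  have hvR : (V : ℝ) ≤ v := by exact_mod_cast hv1
  have hvR2 : 1000 * (v : ℝ) ≤ 1001 * V := by exact_mod_cast hv2
  have hc0 : (0 : ℝ) < c := by linarith
  have hv0 : (0 : ℝ) < v := by linarith
  have hcv : 1000 * (c : ℝ) ≤ 1001 * v := by linarith
  set y : ℝ := p * R * (V : ℝ) ^ 2 / a with hy
  have hy0 : 0 < y := by positivity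
  have hya : y * a = p * R * (V : ℝ) ^ 2 := by
    rw [hy]
    field_simp
  -- the cubes
  have hV3 : (V : ℝ) ^ 3 ≤ (v : ℝ) ^ 3 := pow_le_pow_left₀ hV0.le hvR 3
  have hvV3 : (v : ℝ) ^ 3 ≤ 1.003004 * (V : ℝ) ^ 3 := by
    have h1 : (1000 * (v : ℝ)) ^ 3 ≤ (1001 * (V : ℝ)) ^ 3 := pow_le_pow_left₀ (by positivity) hvR2 3
    have h2 : (0 : ℝ) < (V : ℝ) ^ 3 := by positivity
    nlinarith
  have hccv : (c : ℝ) ^ 2 * v ≤ 1.003004 * (V : ℝ) ^ 3 := by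
    have h1 : (1000 * (c : ℝ)) ^ 2 ≤ (1001 * (V : ℝ)) ^ 2 := pow_le_pow_left₀ (by positivity) hcR2 2
    have h3 : (1000 * (c : ℝ)) ^ 2 * (1000 * v) ≤ (1001 * (V : ℝ)) ^ 2 * (1001 * V) :=
      mul_le_mul h1 hvR2 (by positivity) (by positivity)
    have h2 : (0 : ℝ) < (V : ℝ) ^ 3 := by positivity
    nlinarith
  have hc3 : (c : ℝ) ^ 3 ≤ 1.003004 * (v : ℝ) ^ 3 := by
    have h1 : (1000 * (c : ℝ)) ^ 3 ≤ (1001 * (v : ℝ)) ^ 3 := pow_le_pow_left₀ (by positivity) hcv 3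
    have h2 : (0 : ℝ) < (v : ℝ) ^ 3 := by positivity
    nlinarith
  have hcvv : (c : ℝ) * (v : ℝ) ^ 2 ≤ 1.001 * (v : ℝ) ^ 3 := by
    have h2 : (0 : ℝ) < (v : ℝ) ^ 2 := by positivity
    nlinarith
  have hc2v : (c : ℝ) ^ 2 * v ≤ 1.002001 * (v : ℝ) ^ 3 := by
    have h1 : (1000 * (c : ℝ)) ^ 2 ≤ (1001 * (v : ℝ)) ^ 2 := pow_le_pow_left₀ (by positivity) hcv 2
    nlinarith
  -- y against U and E
  have hyU : (V : ℝ) ^ 3 ≤ 3000 * (y * U) := by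
    have h1 : (V : ℝ) ^ 3 * a ≤ 3000 * (y * U) * a := by
      have h2 : 3000 * (y * U) * a = 3000 * (y * a) * U := by ring
      rw [h2, hya]
      have h3 : (V : ℝ) ^ 2 * (V * a) ≤ (V : ℝ) ^ 2 * (3000 * p * R * U) :=
        mul_le_mul_of_nonneg_left hU1 (by positivity)
      linarith
    exact le_of_mul_le_mul_right h1 ha0
  have hyE : (p : ℝ) * (V : ℝ) ^ 3 ≤ 3000 * (y * E) := by
    have h1 : (p : ℝ) * (V : ℝ) ^ 3 * a ≤ 3000 * (y * E) * a := by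
      have h2 : 3000 * (y * E) * a = 3000 * (y * a) * E := by ring
      rw [h2, hya]
      have h3 : (p : ℝ) * (V : ℝ) ^ 2 * (V * a) ≤ (p : ℝ) * (V : ℝ) ^ 2 * (3000 * R * E) :=
        mul_le_mul_of_nonneg_left hE1 (by positivity)
      linarith
    exact le_of_mul_le_mul_right h1 ha0
  have key : (j : ℝ) * R * (V * a) ≤ 33000 * y * (V : ℝ) ^ 3 := by
    have h1 : (j : ℝ) * R * (V * a) * a ≤ 33000 * y * (V : ℝ) ^ 3 * a := by
      have h2 : 33000 * y * (V : ℝ) ^ 3 * a = 33000 * (y * a) * (V : ℝ) ^ 3 := by ring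
      rw [h2, hya]
      have h3 : (R : ℝ) * V * (j * a ^ 2) ≤ (R : ℝ) * V * (33000 * p * (V : ℝ) ^ 4) :=
        mul_le_mul_of_nonneg_left hj2 (by positivity)
      linarith
    exact le_of_mul_le_mul_right h1 ha0
  have hJE : 20 * ((j : ℝ) * R ^ 2) * E ≤ 660 * y * (V : ℝ) ^ 3 := by
    have h1 : (j : ℝ) * R * (1000 * R * E) ≤ (j : ℝ) * R * (V * a) :=
      mul_le_mul_of_nonneg_left hE2 (by positivity)
    linarith
  have hJU : 20 * ((j : ℝ) * R ^ 2) * p * U ≤ 660 * y * (V : ℝ) ^ 3 := by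
    have h1 : (j : ℝ) * R * (1000 * p * R * U) ≤ (j : ℝ) * R * (V * a) :=
      mul_le_mul_of_nonneg_left hU2 (by positivity)
    linarith
  have hyV : y * (V : ℝ) ^ 3 ≤ y * (v : ℝ) ^ 3 := mul_le_mul_of_nonneg_left hV3 hy0.le
  have hyv : 0 < y * (v : ℝ) ^ 3 := by positivity
  have hs : 80000 * y ≤ sp V a R p := by
    have : 80000 * y = 80000 * (p : ℝ) * R * V ^ 2 / a := by rw [hy]; ring
    rw [this]
    exact Nat.le_ceil _
  refine wbi c v p (j * R ^ 2) U E (sp V a R p) cb hcp.one_lt.le hvp.one_lt.le hp1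
    (Nat.one_le_iff_ne_zero.2 (by positivity)) hUpos hEpos
    ((Nat.coprime_primes hcp hvp).2 hne) hpc hpv hcb (3010 * y) (9030 * y) (33900 * y) (77800 * y)
    ?_ ?_ ?_ ?_ ⟨by linarith, by linarith, by linarith, by linarith⟩
  · rw [div_le_iff₀ hU0]
    nlinarith [mul_pos hy0 hU0]
  · have h1 : (p : ℝ) * (v : ℝ) ^ 3 / E ≤ 3009.1 * y := by
      rw [div_le_iff₀ hE0]
      have h2 : (p : ℝ) * (v : ℝ) ^ 3 ≤ p * (1.003004 * (V : ℝ) ^ 3) :=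
        mul_le_mul_of_nonneg_left hvV3 hp0.le
      nlinarith [mul_pos hy0 hE0]
    have h2 : 2 * (c : ℝ) ^ 2 * v / U ≤ 6018.2 * y := by
      rw [div_le_iff₀ hU0]
      nlinarith [mul_pos hy0 hU0]
    linarith
  · push_cast
    have h1 : (c : ℝ) ^ 3 * y ≤ 1.003004 * (v : ℝ) ^ 3 * y := mul_le_mul_of_nonneg_right hc3 hy0.le
    have h2 : (c : ℝ) * (v : ℝ) ^ 2 * y ≤ 1.001 * (v : ℝ) ^ 3 * y :=
      mul_le_mul_of_nonneg_right hcvv hy0.le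
    nlinarith
  · push_cast
    have h1 : (c : ℝ) ^ 3 * y ≤ 1.003004 * (v : ℝ) ^ 3 * y := mul_le_mul_of_nonneg_right hc3 hy0.le
    have h2 : (c : ℝ) ^ 2 * v * y ≤ 1.002001 * (v : ℝ) ^ 3 * y :=
      mul_le_mul_of_nonneg_right hc2v hy0.le
    nlinarith

end Pool.Agent.FTL
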