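import Pool.Agent.FTL.WTl
import Pool.Agent.FTL.WUh
import Pool.Agent.FTL.WS1
import Pool.Agent.FTL.WEx

/-!
# FTL/WLo: the lower bound for the number of points with `u ≡ e ≡ 1` modulo `R`

PROOF of `low`.  For every `(c, v) ∈ PP V` apply `tlo` with `m = ⌊33000 V ^ 4 / a ^ 2⌋₊`,
`U = ⌊V a / (2000 R)⌋₊ - 1`, `a1 = a2 = ⌈(V a - 1) / R⌉`, `z1 = V a ^ 2`, `z2 = 1.001 V a ^ 2`,
`s = sp V a R 1`.  Conditions: `m ≥ 33000 V ^ 4 / a ^ 2 - 1 ≥ 32900 V ^ 4 / a ^ 2`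
(`V ^ 4 ≥ 10 ^ 10 a ^ 2`), `v ^ 5 ≤ 1.00502 V ^ 5`, so `32 v ^ 5 ≤ 32.17 V ^ 5 ≤ m V a ^ 2 / 1000`;
`U ≥ V a / (2000 R) - 2 ≥ 0.99 V a / (2000 R)` (`V a / (2000 R) ≥ 6 a ≥ 10 ^ 6`), so the conditions
of `wuh` (`p = 1`, `P ≥ 1`) hold.  For `q = (x, y, z) ∈ G` put `u = 1 + R x`, `e = 1 + R y`:
`u ≥ 1 + R a1 ≥ V a` and `u ≤ 1 + R a1 + 2 R U ≤ (V a + R) + V a / 1000 - 2 R ≤ 1.001 V a`; the same for
`e`; `ex2` gives `N, k, w` with `GP V a N k c v u e w z`.  The tuples obtained are distinct for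
distinct `(c, v, x, y, z)`.  So there is a set `S` as wanted with
`card S ≥ ∑ x ∈ PP V, 1 / m ((2 U + 1) ^ 2 / 2 - 21 U (1 + log U) ∑ j (1 + √..))
≥ n * 2 U ^ 2 / m - 21 U L / m (m n + S1)`, `n = card (PP V) ≤ V ^ 2`, `1 + log U ≤ L`
(`U ≤ V a ≤ V ^ 3`), `S1 ≤ Q T ^ 2 R ^ 2 √L (2 * 10 ^ 13 V ^ 7 / a ^ 3 + 3 * 10 ^ 11 V ^ 6 / a ^ 2)` by
`ws1` with `p = 1`.
`2 U ^ 2 / m ≥ 2 * 0.98 V ^ 2 a ^ 2 / (4 * 10 ^ 6 R ^ 2) * a ^ 2 / (33000 V ^ 4) ≥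
1.4 * 10 ^ (-11) a ^ 4 / (R ^ 2 V ^ 2)`.
`21 U L n ≤ L V ^ 3 a`; `21 U L S1 / m ≤ 21 * V a / (2000 R) * L * a ^ 2 / (32900 V ^ 4) * S1 ≤
Q T ^ 2 R L ^ 2 (10 ^ 7 V ^ 4 + 10 ^ 6 V ^ 3 a)`.  Both together are at most `Er V a R T Q L 1`.
-/

set_option autoImplicit false

namespace Pool.Agent.FTL

open Pool.Agent.FTB

private theorem wlo_card (V : ℕ) (hV : 1000 ≤ V) : ((PP V).card : ℝ) ≤ (V : ℝ) ^ 2 := by
  have h1 : (PP V).card ≤ (Pr V).card * (Pr V).card := by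
    unfold PP
    refine (Finset.card_filter_le _ _).trans ?_
    rw [Finset.card_product]
  have h2 : (Pr V).card ≤ V := by
    unfold Pr
    refine (Finset.card_filter_le _ _).trans ?_
    rw [Nat.card_Icc]
    omega
  have h3 : (PP V).card ≤ V ^ 2 := by
    calc (PP V).card ≤ (Pr V).card * (Pr V).card := h1
      _ ≤ V * V := Nat.mul_le_mul h2 h2
      _ = V ^ 2 := by ring
  exact_mod_cast h3

/-- the choice of `m` -/
private theorem wlo_m (V a : ℝ) (hV : 10 ^ 6 ≤ V) (hVa : V ≤ a) (haV : 10 ^ 5 * a ≤ V ^ 2) :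
    ∃ m : ℕ, 1 ≤ m ∧ (m : ℝ) * a ^ 2 ≤ 33000 * V ^ 4 ∧ 32900 * V ^ 4 ≤ m * a ^ 2 := by
  have ha : 0 < a := by linarith
  have hV0 : 0 < V := by linarith
  have ha2 : 0 < a ^ 2 := by positivity
  have h1 : (10 ^ 5 * a) ^ 2 ≤ (V ^ 2) ^ 2 := by
    apply pow_le_pow_left₀ (by positivity) haV
  have h2 : 10 ^ 10 * a ^ 2 ≤ V ^ 4 := by nlinarith [h1]
  have hpos : 0 ≤ 33000 * V ^ 4 / a ^ 2 := by positivity
  have hf1 : ((⌊33000 * V ^ 4 / a ^ 2⌋₊ : ℕ) : ℝ) ≤ 33000 * V ^ 4 / a ^ 2 := Nat.floor_le hpos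
  have hf2 : 33000 * V ^ 4 / a ^ 2 < ((⌊33000 * V ^ 4 / a ^ 2⌋₊ : ℕ) : ℝ) + 1 :=
    Nat.lt_floor_add_one _
  rw [le_div_iff₀ ha2] at hf1
  rw [div_lt_iff₀ ha2] at hf2
  refine ⟨⌊33000 * V ^ 4 / a ^ 2⌋₊, ?_, hf1, ?_⟩
  · rw [Nat.one_le_floor_iff, le_div_iff₀ ha2]
    linarith
  · linarith

/-- the choice of `U` -/
private theorem wlo_U (V a R : ℝ) (hR : 1 ≤ R) (hRV : 12000 * R ≤ V) (hV : 10 ^ 6 ≤ V)
    (hVa : V ≤ a) :
    ∃ U : ℕ, 1 ≤ U ∧ 2000 * R * (U + 1) ≤ V * a ∧ 99 / 100 * (V * a) ≤ 2000 * R * U := by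
  have ha : 0 < a := by linarith
  have hV0 : 0 < V := by linarith
  have hR0 : 0 < 2000 * R := by linarith
  have hpos : 0 ≤ V * a / (2000 * R) := by positivity
  have hf1 : ((⌊V * a / (2000 * R)⌋₊ : ℕ) : ℝ) ≤ V * a / (2000 * R) := Nat.floor_le hpos
  have hf2 : V * a / (2000 * R) < ((⌊V * a / (2000 * R)⌋₊ : ℕ) : ℝ) + 1 := Nat.lt_floor_add_one _
  rw [le_div_iff₀ hR0] at hf1
  rw [div_lt_iff₀ hR0] at hf2
  have h3 : 12000 * R * 10 ^ 6 ≤ V * a := by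
    have := mul_le_mul hRV (hV.trans hVa) (by norm_num) hV0.le
    exact this
  have h4 : 2 ≤ ⌊V * a / (2000 * R)⌋₊ := by
    rw [Nat.le_floor_iff hpos, le_div_iff₀ hR0]
    push_cast
    linarith
  obtain ⟨U, hU⟩ : ∃ U, ⌊V * a / (2000 * R)⌋₊ = U + 1 := ⟨⌊V * a / (2000 * R)⌋₊ - 1, by omega⟩
  rw [hU] at hf1 hf2
  push_cast at hf1 hf2
  refine ⟨U, by omega, by linarith, ?_⟩
  nlinarith

/-- one pair -/
private theorem wlo_pair (V a R P Z : ℕ) (T Q L : ℝ) (h : PW V a R P Z T Q L) (m U : ℕ)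
    (hm : 1 ≤ m) (hm1 : (m : ℝ) * (a : ℝ) ^ 2 ≤ 33000 * (V : ℝ) ^ 4)
    (hm2 : 32900 * (V : ℝ) ^ 4 ≤ m * (a : ℝ) ^ 2) (hU : 1 ≤ U)
    (hU1 : 2000 * (R : ℝ) * (U + 1) ≤ V * a) (hU2 : 99 / 100 * ((V : ℝ) * a) ≤ 2000 * R * U)
    (hUL : 1 + Real.log U ≤ L) (x : ℕ × ℕ) (hx : x ∈ PP V) :
    ∃ G : Finset (ℤ × ℤ × ℤ),
      (∀ q ∈ G, ∃ p : Pt, (GPq V a p ∧ (R : ℤ) ∣ p.2.2.2.2.1 - 1 ∧ (R : ℤ) ∣ p.2.2.2.2.2.1 - 1) ∧
        p.2.2.1 = x.1 ∧ p.2.2.2.1 = x.2 ∧ p.2.2.2.2.1 = 1 + R * q.1 ∧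
        p.2.2.2.2.2.1 = 1 + R * q.2.1 ∧ p.2.2.2.2.2.2.2 = q.2.2) ∧
      1 / (m : ℝ) * (2 * (U : ℝ) ^ 2 - 21 * U * L * ∑ j ∈ Finset.Ico 1 m,
        (1 + √((BK 1 (sp V a R 1) (5 * (j * R ^ 2)) x.1 x.2).card : ℝ))) ≤ G.card := by
  obtain ⟨c, v⟩ := x
  have hxP := (mem_PP V (c, v)).1 hx
  obtain ⟨⟨⟨c1, c2⟩, pc⟩, ⟨⟨v1, v2⟩, pv⟩, hne⟩ := hxP
  simp only at c1 c2 pc v1 v2 pv hne
  have hV0 : (0 : ℝ) < V := by
    have : 0 < V := by have := h.hV; omega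
    exact_mod_cast this
  have ha0 : (0 : ℝ) < a := by
    have : 0 < a := by have := h.hV; have := h.hVa; omega
    exact_mod_cast this
  have hR0 : (1 : ℝ) ≤ R := by exact_mod_cast h.hR
  have hP0 : (1 : ℝ) ≤ P := by exact_mod_cast h.hP
  have hRP : (12000 : ℝ) * R * P ≤ V := by exact_mod_cast h.hRP
  have hRV : (12000 : ℝ) * R ≤ V := by nlinarith
  have hcop : Nat.Coprime c v := (Nat.coprime_primes pc pv).2 hne
  have hv2R : (1000 : ℝ) * v ≤ 1001 * V := by exact_mod_cast v2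
  have hv5 : (v : ℝ) ^ 5 ≤ 1006 / 1000 * (V : ℝ) ^ 5 := by
    have h1 : (v : ℝ) ≤ 1001 / 1000 * V := by linarith
    have h2 : (v : ℝ) ^ 5 ≤ (1001 / 1000 * V) ^ 5 := pow_le_pow_left₀ (by positivity) h1 5
    have h3 : (1001 / 1000 * (V : ℝ)) ^ 5 = (1001 / 1000) ^ 5 * (V : ℝ) ^ 5 := by ring
    have h4 : ((1001 : ℝ) / 1000) ^ 5 ≤ 1006 / 1000 := by norm_num
    have h5 : ((1001 : ℝ) / 1000) ^ 5 * (V : ℝ) ^ 5 ≤ 1006 / 1000 * (V : ℝ) ^ 5 :=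
      mul_le_mul_of_nonneg_right h4 (by positivity)
    linarith
  have hcond : 32 * (v : ℝ) ^ 5 ≤ m * (1001 / 1000 * ((V : ℝ) * a ^ 2) - (V : ℝ) * a ^ 2) := by
    have h1 : 32900 * (V : ℝ) ^ 4 * V ≤ m * (a : ℝ) ^ 2 * V :=
      mul_le_mul_of_nonneg_right hm2 hV0.le
    have h2 : (V : ℝ) ^ 4 * V = (V : ℝ) ^ 5 := by ring
    have h3 : (0 : ℝ) < (V : ℝ) ^ 5 := by positivity
    nlinarith
  set a1 : ℤ := ⌈((V : ℝ) * a - 1) / R⌉ with ha1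
  have hc1 : ((V : ℝ) * a - 1) / R ≤ (a1 : ℝ) := Int.le_ceil _
  have hc2 : (a1 : ℝ) < ((V : ℝ) * a - 1) / R + 1 := Int.ceil_lt_add_one _
  have hRpos : (0 : ℝ) < R := by linarith
  have hc1' : (V : ℝ) * a ≤ 1 + R * a1 := by
    rw [div_le_iff₀ hRpos] at hc1
    linarith
  have hc2' : 1 + (R : ℝ) * a1 ≤ V * a + R := by
    have : (a1 : ℝ) - 1 < ((V : ℝ) * a - 1) / R := by linarith
    rw [lt_div_iff₀ hRpos] at this
    linarith
  obtain ⟨G, hG1, hG2⟩ := tlo c v R m (sp V a R 1) U a1 a1 ((V : ℝ) * a ^ 2)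
    (1001 / 1000 * ((V : ℝ) * a ^ 2)) pc.one_lt.le pv.one_lt.le h.hR hU hm hcop hcond (by
      intro cb hcb j hj
      rw [Finset.mem_Ico] at hj
      apply wuh V a R P Z T Q L h c v 1 j U U hx (Or.inl rfl) h.hP
      · push_cast
        nlinarith
      · push_cast
        nlinarith
      · nlinarith
      · nlinarith
      · exact hcb
      · exact hj.1
      · have : (j : ℝ) ≤ m := by exact_mod_cast hj.2.le
        push_cast
        nlinarith [sq_nonneg (a : ℝ)])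
  refine ⟨G, ?_, ?_⟩
  · rintro ⟨p, q, z⟩ hq
    obtain ⟨⟨hp1, hp2⟩, ⟨hq1, hq2⟩, ⟨hz1, hz2⟩, hdv⟩ := hG1 _ hq
    simp only at hp1 hp2 hq1 hq2 hz1 hz2 hdv
    have key : ∀ t : ℤ, a1 ≤ t → t ≤ a1 + 2 * (U : ℤ) →
        (V : ℤ) * a ≤ 1 + R * t ∧ 1000 * (1 + R * t) ≤ 1001 * ((V : ℤ) * a) := by
      intro t ht1 ht2
      have ht1' : (a1 : ℝ) ≤ t := by exact_mod_cast ht1
      have ht2' : (t : ℝ) ≤ a1 + 2 * U := by exact_mod_cast ht2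
      constructor
      · have : (V : ℝ) * a ≤ 1 + R * t := by nlinarith
        exact_mod_cast this
      · have : 1000 * (1 + (R : ℝ) * t) ≤ 1001 * ((V : ℝ) * a) := by nlinarith
        exact_mod_cast this
    obtain ⟨hu1, hu2⟩ := key p hp1 hp2
    obtain ⟨he1, he2⟩ := key q hq1 hq2
    obtain ⟨N, k, w, hgp⟩ := ex2 V a c v (1 + R * p) (1 + R * q) z
      (by have := h.hV; omega) (by have := h.hV; have := h.hVa; omega) hx hu1 hu2 he1 he2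
      (by exact_mod_cast hz1) (by
        have : (1000 : ℝ) * z ≤ 1001 * ((V : ℝ) * a ^ 2) := by linarith
        exact_mod_cast this) hdv
    refine ⟨(N, k, c, v, 1 + R * p, 1 + R * q, w, z), ⟨hgp, ?_, ?_⟩, rfl, rfl, rfl, rfl, rfl⟩
    · exact ⟨p, by ring⟩
    · exact ⟨q, by ring⟩
  · refine le_trans ?_ hG2
    have hmpos : (0 : ℝ) < 1 / (m : ℝ) := by
      have : (0 : ℝ) < m := by exact_mod_cast hm
      positivity
    apply mul_le_mul_of_nonneg_left _ hmpos.le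
    have hU0 : (1 : ℝ) ≤ U := by exact_mod_cast hU
    have hs : 0 ≤ ∑ j ∈ Finset.Ico 1 m,
        (1 + √((BK 1 (sp V a R 1) (5 * (j * R ^ 2)) c v).card : ℝ)) :=
      Finset.sum_nonneg fun j _ => by positivity
    have h5 : 21 * (U : ℝ) * (1 + Real.log U) * ∑ j ∈ Finset.Ico 1 m,
        (1 + √((BK 1 (sp V a R 1) (5 * (j * R ^ 2)) c v).card : ℝ)) ≤
        21 * U * L * ∑ j ∈ Finset.Ico 1 m,
        (1 + √((BK 1 (sp V a R 1) (5 * (j * R ^ 2)) c v).card : ℝ)) := by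
      apply mul_le_mul_of_nonneg_right _ hs
      apply mul_le_mul_of_nonneg_left hUL (by positivity)
    have h6 : 2 * (U : ℝ) ^ 2 ≤ (2 * (U : ℝ) + 1) ^ 2 / 2 := by nlinarith
    simp only
    linarith

/-- the final inequality -/
private theorem wlo_fin (V a R T Q L m U n S1 : ℝ) (hV : 10 ^ 6 ≤ V) (hVa : V ≤ a)
    (hR : 1 ≤ R) (hT : 1 ≤ T) (hQ : 1 ≤ Q) (hL : 1 ≤ L)
    (hm0 : 0 < m) (hm1 : m * a ^ 2 ≤ 33000 * V ^ 4) (hm2 : 32900 * V ^ 4 ≤ m * a ^ 2)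
    (hU : 1 ≤ U) (hU1 : 2000 * R * (U + 1) ≤ V * a) (hU2 : 99 / 100 * (V * a) ≤ 2000 * R * U)
    (hn0 : 0 ≤ n) (hn : n ≤ V ^ 2) (hS : S1 ≤ Q * T ^ 2 * R ^ 2 * √L *
      (2 * 10 ^ 13 * V ^ 7 / a ^ 3 + 3 * 10 ^ 11 * V ^ 6 / a ^ 2)) :
    5 / 10 ^ 12 * (a ^ 4 * n / (R ^ 2 * V ^ 2)) -
      10 ^ 15 * R * T ^ 2 * Q * L ^ 2 * (V ^ 4 + V ^ 3 * a) ≤
    1 / m * (n * (2 * U ^ 2) - 21 * U * L * (m * n + S1)) := by
  have hV0 : 0 < V := by linarith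
  have ha0 : 0 < a := by linarith
  have hR0 : 0 < R := by linarith
  have hL0 : 0 < L := by linarith
  have hQ0 : 0 < Q := by linarith
  have hT0 : 0 < T := by linarith
  have hU0 : 0 < U := by linarith
  -- (i)
  have e1 : 5 / 10 ^ 12 * (a ^ 4 * n / (R ^ 2 * V ^ 2)) ≤ 1 / m * (n * (2 * U ^ 2)) := by
    have h1 : 5 / 10 ^ 12 * (a ^ 4 / (R ^ 2 * V ^ 2)) * m ≤ 2 * U ^ 2 := by
      have h2 : m ≤ 33000 * V ^ 4 / a ^ 2 := by
        rw [le_div_iff₀ (by positivity)]; exact hm1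
      have h3 : 99 / 100 * (V * a) / (2000 * R) ≤ U := by
        rw [div_le_iff₀ (by positivity)]; linarith
      have h4 : (99 / 100 * (V * a) / (2000 * R)) ^ 2 ≤ U ^ 2 :=
        pow_le_pow_left₀ (by positivity) h3 2
      calc 5 / 10 ^ 12 * (a ^ 4 / (R ^ 2 * V ^ 2)) * m
          ≤ 5 / 10 ^ 12 * (a ^ 4 / (R ^ 2 * V ^ 2)) * (33000 * V ^ 4 / a ^ 2) :=
            mul_le_mul_of_nonneg_left h2 (by positivity)
        _ = 165 / 10 ^ 9 * (a ^ 2 * V ^ 2 / R ^ 2) := by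
            field_simp
            ring
        _ ≤ 2 * (99 / 100 * (V * a) / (2000 * R)) ^ 2 := by
            have h5 : 2 * (99 / 100 * (V * a) / (2000 * R)) ^ 2 =
              2 * (99 / 200000) ^ 2 * (a ^ 2 * V ^ 2 / R ^ 2) := by
              field_simp
              ring
            rw [h5]
            apply mul_le_mul_of_nonneg_right _ (by positivity)
            norm_num
        _ ≤ 2 * U ^ 2 := by linarith
    have h6 : 5 / 10 ^ 12 * (a ^ 4 * n / (R ^ 2 * V ^ 2)) =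
        1 / m * (n * (5 / 10 ^ 12 * (a ^ 4 / (R ^ 2 * V ^ 2)) * m)) := by
      field_simp
    rw [h6]
    apply mul_le_mul_of_nonneg_left _ (by positivity)
    exact mul_le_mul_of_nonneg_left h1 hn0
  -- (ii)
  have hUle : U ≤ V * a / (2000 * R) := by
    rw [le_div_iff₀ (by positivity)]
    nlinarith
  have e2 : 21 * U * L * n ≤ R * T ^ 2 * Q * L ^ 2 * (V ^ 3 * a) := by
    have h1 : 21 * U ≤ V * a := by
      nlinarith
    calc 21 * U * L * n ≤ (V * a) * L * V ^ 2 := by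
          apply mul_le_mul _ hn hn0 (by positivity)
          exact mul_le_mul_of_nonneg_right h1 hL0.le
      _ = (1 * 1 ^ 2 * 1 * (L * 1)) * (V ^ 3 * a) := by ring
      _ ≤ R * T ^ 2 * Q * L ^ 2 * (V ^ 3 * a) := by
          apply mul_le_mul_of_nonneg_right _ (by positivity)
          have h2 : 1 * (1 : ℝ) ^ 2 * 1 ≤ R * T ^ 2 * Q := by
            apply mul_le_mul _ hQ zero_le_one (by positivity)
            apply mul_le_mul hR _ (by norm_num) hR0.le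
            exact pow_le_pow_left₀ zero_le_one hT 2
          have h3 : L * 1 ≤ L ^ 2 := by nlinarith
          exact mul_le_mul h2 h3 (by positivity) (by positivity)
  -- (iii)
  have hsq : √L ≤ L := by
    rw [Real.sqrt_le_left (by positivity)]
    nlinarith
  have e3 : 21 * U * L * S1 / m ≤
      10 ^ 7 * R * T ^ 2 * Q * L ^ 2 * (V ^ 4 + V ^ 3 * a) := by
    have h1 : 1 / m ≤ a ^ 2 / (32900 * V ^ 4) := by
      rw [div_le_div_iff₀ hm0 (by positivity)]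
      linarith
    have hBpos : 0 ≤ Q * T ^ 2 * R ^ 2 * √L *
      (2 * 10 ^ 13 * V ^ 7 / a ^ 3 + 3 * 10 ^ 11 * V ^ 6 / a ^ 2) := by positivity
    calc 21 * U * L * S1 / m = 21 * U * L * S1 * (1 / m) := by ring
      _ ≤ 21 * U * L * (Q * T ^ 2 * R ^ 2 * √L *
          (2 * 10 ^ 13 * V ^ 7 / a ^ 3 + 3 * 10 ^ 11 * V ^ 6 / a ^ 2)) * (1 / m) := by
          apply mul_le_mul_of_nonneg_right _ (by positivity)
          exact mul_le_mul_of_nonneg_left hS (by positivity)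
      _ ≤ 21 * (V * a / (2000 * R)) * L * (Q * T ^ 2 * R ^ 2 * √L *
          (2 * 10 ^ 13 * V ^ 7 / a ^ 3 + 3 * 10 ^ 11 * V ^ 6 / a ^ 2)) *
          (a ^ 2 / (32900 * V ^ 4)) := by
          apply mul_le_mul _ h1 (by positivity) (by positivity)
          apply mul_le_mul_of_nonneg_right _ hBpos
          apply mul_le_mul_of_nonneg_right _ hL0.le
          linarith
      _ = R * T ^ 2 * Q * (L * √L) * (21 * 2 * 10 ^ 13 / (2000 * 32900) * V ^ 4 +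
          21 * 3 * 10 ^ 11 / (2000 * 32900) * (V ^ 3 * a)) := by
          field_simp
      _ ≤ R * T ^ 2 * Q * (L ^ 2) * (10 ^ 7 * V ^ 4 + 10 ^ 7 * (V ^ 3 * a)) := by
          apply mul_le_mul _ _ (by positivity) (by positivity)
          · apply mul_le_mul_of_nonneg_left _ (by positivity)
            nlinarith
          · apply add_le_add
            · apply mul_le_mul_of_nonneg_right _ (by positivity)
              norm_num
            · apply mul_le_mul_of_nonneg_right _ (by positivity)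
              norm_num
      _ = 10 ^ 7 * R * T ^ 2 * Q * L ^ 2 * (V ^ 4 + V ^ 3 * a) := by ring
  have e4 : 1 / m * (n * (2 * U ^ 2) - 21 * U * L * (m * n + S1)) =
      1 / m * (n * (2 * U ^ 2)) - 21 * U * L * n - 21 * U * L * S1 / m := by
    field_simp
    ring
  rw [e4]
  have e5 : 0 ≤ R * T ^ 2 * Q * L ^ 2 * V ^ 4 := by positivity
  have e6 : 0 ≤ R * T ^ 2 * Q * L ^ 2 * (V ^ 3 * a) := by positivity
  nlinarith

theorem low (V a R P Z : ℕ) (T Q L : ℝ) (h : PW V a R P Z T Q L) :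
    ∃ S : Finset Pt, (∀ q ∈ S, GPq V a q ∧ (R : ℤ) ∣ q.2.2.2.2.1 - 1 ∧
      (R : ℤ) ∣ q.2.2.2.2.2.1 - 1) ∧
      5 / 10 ^ 12 * ((a : ℝ) ^ 4 * (PP V).card / ((R : ℝ) ^ 2 * (V : ℝ) ^ 2)) -
        Er V a R T Q L 1 ≤ S.card := by
  classical
  have hV : (10 : ℝ) ^ 6 ≤ V := by exact_mod_cast h.hV
  have hVa : (V : ℝ) ≤ a := by exact_mod_cast h.hVa
  have haV : (10 : ℝ) ^ 5 * a ≤ (V : ℝ) ^ 2 := by exact_mod_cast h.haV
  have hR0 : (1 : ℝ) ≤ R := by exact_mod_cast h.hR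
  have hP0 : (1 : ℝ) ≤ P := by exact_mod_cast h.hP
  have hRP : (12000 : ℝ) * R * P ≤ V := by exact_mod_cast h.hRP
  have hRV : (12000 : ℝ) * R ≤ V := by nlinarith
  have hV0 : (0 : ℝ) < V := by linarith
  have ha0 : (0 : ℝ) < a := by linarith
  have hlV : 0 ≤ Real.log V := Real.log_nonneg (by linarith)
  have hL1 : 1 ≤ L := by have := h.hL; linarith
  obtain ⟨m, hm, hm1, hm2⟩ := wlo_m V a hV hVa haV
  obtain ⟨U, hU, hU1, hU2⟩ := wlo_U V a R hR0 hRV hV hVa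
  have hUr : (1 : ℝ) ≤ U := by exact_mod_cast hU
  have hUL : 1 + Real.log U ≤ L := by
    have h1 : (U : ℝ) ≤ (V : ℝ) ^ 3 := by
      have h2 : (U : ℝ) ≤ V * a := by nlinarith
      have h3 : (a : ℝ) ≤ (V : ℝ) ^ 2 := by nlinarith
      calc (U : ℝ) ≤ V * a := h2
        _ ≤ V * (V : ℝ) ^ 2 := mul_le_mul_of_nonneg_left h3 hV0.le
        _ = (V : ℝ) ^ 3 := by ring
    have h2 : Real.log U ≤ Real.log ((V : ℝ) ^ 3) := Real.log_le_log (by linarith) h1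
    rw [Real.log_pow] at h2
    push_cast at h2
    have := h.hL
    linarith
  have hall : ∀ x : ℕ × ℕ, ∃ G : Finset (ℤ × ℤ × ℤ), x ∈ PP V →
      (∀ q ∈ G, ∃ p : Pt, (GPq V a p ∧ (R : ℤ) ∣ p.2.2.2.2.1 - 1 ∧ (R : ℤ) ∣ p.2.2.2.2.2.1 - 1) ∧
        p.2.2.1 = x.1 ∧ p.2.2.2.1 = x.2 ∧ p.2.2.2.2.1 = 1 + R * q.1 ∧
        p.2.2.2.2.2.1 = 1 + R * q.2.1 ∧ p.2.2.2.2.2.2.2 = q.2.2) ∧
      1 / (m : ℝ) * (2 * (U : ℝ) ^ 2 - 21 * U * L * ∑ j ∈ Finset.Ico 1 m,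
        (1 + √((BK 1 (sp V a R 1) (5 * (j * R ^ 2)) x.1 x.2).card : ℝ))) ≤ G.card := by
    intro x
    by_cases hx : x ∈ PP V
    · obtain ⟨G, hG⟩ := wlo_pair V a R P Z T Q L h m U hm hm1 hm2 hU hU1 hU2 hUL x hx
      exact ⟨G, fun _ => hG⟩
    · exact ⟨∅, fun h => absurd h hx⟩
  choose G hG using hall
  have hpt : ∀ t : (_ : ℕ × ℕ) × (ℤ × ℤ × ℤ), ∃ p : Pt, t ∈ (PP V).sigma G →
      (GPq V a p ∧ (R : ℤ) ∣ p.2.2.2.2.1 - 1 ∧ (R : ℤ) ∣ p.2.2.2.2.2.1 - 1) ∧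
        p.2.2.1 = t.1.1 ∧ p.2.2.2.1 = t.1.2 ∧ p.2.2.2.2.1 = 1 + R * t.2.1 ∧
        p.2.2.2.2.2.1 = 1 + R * t.2.2.1 ∧ p.2.2.2.2.2.2.2 = t.2.2.2 := by
    intro t
    by_cases ht : t ∈ (PP V).sigma G
    · have ht' := ht
      rw [Finset.mem_sigma] at ht'
      obtain ⟨p, hp⟩ := (hG t.1 ht'.1).1 t.2 ht'.2
      exact ⟨p, fun _ => hp⟩
    · exact ⟨(0, 0, 0, 0, 0, 0, 0, 0), fun h => absurd h ht⟩
  choose f hf using hpt
  have hinj : Set.InjOn f ((PP V).sigma G) := by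
    intro t ht t' ht' htt
    obtain ⟨-, h1, h2, h3, h4, h5⟩ := hf t ht
    obtain ⟨-, h1', h2', h3', h4', h5'⟩ := hf t' ht'
    rw [htt] at h1 h2 h3 h4 h5
    obtain ⟨⟨c, v⟩, x, y, z⟩ := t
    obtain ⟨⟨c', v'⟩, x', y', z'⟩ := t'
    simp only at h1 h2 h3 h4 h5 h1' h2' h3' h4' h5'
    have hRz : (R : ℤ) ≠ 0 := by
      have := h.hR
      exact_mod_cast (by omega : R ≠ 0)
    have e1 : c = c' := h1.symm.trans h1'
    have e2 : v = v' := h2.symm.trans h2'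
    have e3 : x = x' := by
      have : (R : ℤ) * x = R * x' := by linarith
      exact mul_left_cancel₀ hRz this
    have e4 : y = y' := by
      have : (R : ℤ) * y = R * y' := by linarith
      exact mul_left_cancel₀ hRz this
    have e5 : z = z' := h5.symm.trans h5'
    subst e1 e2 e3 e4 e5
    rfl
  refine ⟨((PP V).sigma G).image f, ?_, ?_⟩
  · intro q hq
    rw [Finset.mem_image] at hq
    obtain ⟨t, ht, rfl⟩ := hq
    exact (hf t ht).1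
  · rw [Finset.card_image_of_injOn hinj, Finset.card_sigma]
    push_cast
    have hsum : ∑ x ∈ PP V, 1 / (m : ℝ) * (2 * (U : ℝ) ^ 2 - 21 * U * L * ∑ j ∈ Finset.Ico 1 m,
        (1 + √((BK 1 (sp V a R 1) (5 * (j * R ^ 2)) x.1 x.2).card : ℝ))) ≤
        ∑ x ∈ PP V, ((G x).card : ℝ) :=
      Finset.sum_le_sum fun x hx => (hG x hx).2
    refine le_trans ?_ hsum
    have hm0 : (0 : ℝ) < m := by exact_mod_cast hm
    have hws := ws1 V a R P Z T Q L h 1 m (Or.inl rfl) h.hP (by push_cast; linarith)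
    set S1 : ℝ := ∑ x ∈ PP V, ∑ j ∈ Finset.Ico 1 m,
      √((BK 1 (sp V a R 1) (5 * (j * R ^ 2)) x.1 x.2).card : ℝ) with hS1
    have hws' : S1 ≤ Q * T ^ 2 * (R : ℝ) ^ 2 * √L *
      (2 * 10 ^ 13 * (V : ℝ) ^ 7 / (a : ℝ) ^ 3 + 3 * 10 ^ 11 * (V : ℝ) ^ 6 / (a : ℝ) ^ 2) := by
      refine hws.trans (le_of_eq ?_)
      push_cast
      rw [Real.sqrt_one]
      ring
    have hfin := wlo_fin V a R T Q L m U (PP V).card S1 hV hVa hR0 h.hT.1 h.hQ.1 hL1 hm0 hm1 hm2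
      hUr hU1 hU2 (by positivity) (wlo_card V (by have := h.hV; omega)) hws'
    have hEr : Er V a R T Q L 1 = 10 ^ 15 * (R : ℝ) * T ^ 2 * Q * L ^ 2 *
        ((V : ℝ) ^ 4 + (V : ℝ) ^ 3 * a) := by
      unfold Er
      push_cast
      rw [Real.sqrt_one, one_mul]
    rw [hEr]
    refine hfin.trans ?_
    have e1 : ∑ x ∈ PP V, 1 / (m : ℝ) * (2 * (U : ℝ) ^ 2 - 21 * U * L * ∑ j ∈ Finset.Ico 1 m,
        (1 + √((BK 1 (sp V a R 1) (5 * (j * R ^ 2)) x.1 x.2).card : ℝ))) =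
        1 / (m : ℝ) * ((PP V).card * (2 * (U : ℝ) ^ 2) - 21 * U * L *
          (((m - 1 : ℕ) : ℝ) * (PP V).card + S1)) := by
      have e0 : ∀ x ∈ PP V, 1 / (m : ℝ) * (2 * (U : ℝ) ^ 2 - 21 * U * L * ∑ j ∈ Finset.Ico 1 m,
          (1 + √((BK 1 (sp V a R 1) (5 * (j * R ^ 2)) x.1 x.2).card : ℝ))) =
          1 / (m : ℝ) * (2 * (U : ℝ) ^ 2 - 21 * U * L * ((m - 1 : ℕ) : ℝ)) -
          1 / (m : ℝ) * (21 * U * L) * ∑ j ∈ Finset.Ico 1 m,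
          √((BK 1 (sp V a R 1) (5 * (j * R ^ 2)) x.1 x.2).card : ℝ) := by
        intro x _
        rw [Finset.sum_add_distrib, Finset.sum_const, Nat.card_Ico, nsmul_eq_mul, mul_one]
        ring
      have e5 : ∑ x ∈ PP V, 1 / (m : ℝ) * (21 * U * L) * ∑ j ∈ Finset.Ico 1 m,
          √((BK 1 (sp V a R 1) (5 * (j * R ^ 2)) x.1 x.2).card : ℝ) =
          1 / (m : ℝ) * (21 * U * L) * S1 := by
        rw [hS1, Finset.mul_sum]
      rw [Finset.sum_congr rfl e0, Finset.sum_sub_distrib, e5, Finset.sum_const, nsmul_eq_mul]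
      ring
    rw [e1]
    apply mul_le_mul_of_nonneg_left _ (by positivity)
    have e2 : ((m - 1 : ℕ) : ℝ) ≤ m := by exact_mod_cast Nat.sub_le m 1
    have e3 : ((m - 1 : ℕ) : ℝ) * (PP V).card + S1 ≤ m * (PP V).card + S1 := by
      have : ((m - 1 : ℕ) : ℝ) * (PP V).card ≤ m * (PP V).card :=
        mul_le_mul_of_nonneg_right e2 (by positivity)
      linarith
    have e4 : 21 * (U : ℝ) * L * (((m - 1 : ℕ) : ℝ) * (PP V).card + S1) ≤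
        21 * U * L * (m * (PP V).card + S1) :=
      mul_le_mul_of_nonneg_left e3 (by positivity)
    linarith

end Pool.Agent.FTL
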