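import Pool.Agent.FTL.DefsW

/-!
# FTL/WPs: the sum over the primes of the sieve

PROOF of `wps`.  A prime `p` coprime to `R` is `> z0` by `hz` (if `p ≤ z0` then `p ∣ R`, but `p` is prime
and coprime to `R`).  So the sum is at most `∑ n ∈ Ioc z0 P, 1 / n ^ 2 ≤
∑ n ∈ Ioc z0 P, (1 / (n - 1) - 1 / n) ≤ 1 / z0` (telescoping, `z0 ≥ 1`).
PROOF of `er_mono`: `√p ≤ √p'` and all other factors are nonnegative.
-/

set_option autoImplicit false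

namespace Pool.Agent.FTL

open Pool.Agent.FTB

theorem wps (R P z0 : ℕ) (hz0 : 1 ≤ z0) (hz : ∀ p : ℕ, p.Prime → p ≤ z0 → p ∣ R) :
    ∑ p ∈ (Finset.Icc 1 P).filter (fun p => p.Prime ∧ Nat.Coprime p R), (1 : ℝ) / (p : ℝ) ^ 2 ≤
      (1 : ℝ) / (z0 : ℝ) := by
  have hsub : (Finset.Icc 1 P).filter (fun p => p.Prime ∧ Nat.Coprime p R) ⊆ Finset.Ioc z0 P := by
    intro p hp
    obtain ⟨h1, h2, h3⟩ := Finset.mem_filter.mp hp
    obtain ⟨_, h5⟩ := Finset.mem_Icc.mp h1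
    refine Finset.mem_Ioc.mpr ⟨?_, h5⟩
    by_contra hle
    have hle' : p ≤ z0 := by omega
    have hd := hz p h2 hle'
    have h1' : p = 1 := Nat.Coprime.eq_one_of_dvd h3 hd
    exact h2.one_lt.ne' h1'
  have h0 : ∀ i ∈ Finset.Ioc z0 P,
      i ∉ (Finset.Icc 1 P).filter (fun p => p.Prime ∧ Nat.Coprime p R) →
      (0 : ℝ) ≤ 1 / (i : ℝ) ^ 2 := by
    intro i _ _
    positivity
  have h1 := Finset.sum_le_sum_of_subset_of_nonneg hsub h0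
  rcases le_or_gt z0 P with hP | hP
  · have h2 := sum_Ioc_inv_sq_le_sub (α := ℝ) (k := z0) (n := P) (by omega) hP
    have h3 : ∑ i ∈ Finset.Ioc z0 P, (1 : ℝ) / (i : ℝ) ^ 2 =
        ∑ i ∈ Finset.Ioc z0 P, ((i : ℝ) ^ 2)⁻¹ := by
      refine Finset.sum_congr rfl fun i _ => ?_
      rw [one_div]
    have h4 : (0 : ℝ) ≤ ((P : ℝ))⁻¹ := by positivity
    rw [h3] at h1
    rw [one_div]
    linarith
  · have h2 : Finset.Ioc z0 P = ∅ := Finset.Ioc_eq_empty (by omega)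
    rw [h2, Finset.sum_empty] at h1
    have : (0 : ℝ) ≤ 1 / (z0 : ℝ) := by positivity
    linarith

theorem er_mono (V a R : ℕ) (T Q L : ℝ) (hT : 0 ≤ T) (hQ : 0 ≤ Q) (hL : 0 ≤ L) (p p' : ℕ)
    (h : p ≤ p') : Er V a R T Q L p ≤ Er V a R T Q L p' := by
  have hs : √(p : ℝ) ≤ √(p' : ℝ) := Real.sqrt_le_sqrt (by exact_mod_cast h)
  unfold Er
  have h1 : (0 : ℝ) ≤ 10 ^ 15 * (R : ℝ) * T ^ 2 * Q * L ^ 2 := by positivity
  have h2 : √(p : ℝ) * (V : ℝ) ^ 4 + (V : ℝ) ^ 3 * a ≤ √(p' : ℝ) * (V : ℝ) ^ 4 + (V : ℝ) ^ 3 * a := by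
    have := mul_le_mul_of_nonneg_right hs (by positivity : (0 : ℝ) ≤ (V : ℝ) ^ 4)
    linarith
  exact mul_le_mul_of_nonneg_left h2 h1

end Pool.Agent.FTL
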