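import Pool.Agent.FTL.DefsW

/-!
# FTL/WRg: the size of the coordinates of a point of the box

PROOF of `rg`.  `v ^ 5 w + c ^ 5 z = v ^ 4 u ^ 2 - c ^ 2 v ^ 2 u e - c ^ 4 e ^ 2` (from the three
equations, see `Pool.Agent.FTB.cong`).  Write `c = V c'`, `v = V v'`, `u = V a u'`, `e = V a e'`,
`z = V a ^ 2 z'` with real `c', v', u', e', z' ∈ [1, 1.001]`, `w = V a ^ 2 w'`, `N = a ^ 2 N'`,
`k = a ^ 2 k'` (`V, a > 0`).  Then `v' ^ 5 w' = v' ^ 4 u' ^ 2 - c' ^ 2 v' ^ 2 u' e' - c' ^ 4 e' ^ 2 - c' ^ 5 z'`.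
A monomial of degree `≤ 6` lies in `[1, 1.00602]`, so the right hand side lies in
`[1 - 3 * 1.00602, 1.00602 - 3] = [-2.01806, -1.99398]`, and `v' ^ 5 ∈ [1, 1.00502]`, so
`-2.0181 ≤ w' ≤ -1.984`.  `c' ^ 2 N' = u' ^ 2 - v' w' ∈ [1 + 1.984, 1.0021 + 1.001 * 2.0181]`,
`c' ^ 2 ∈ [1, 1.0021]`: `2.97 ≤ N' ≤ 3.03`.  `v' ^ 2 k' = e' ^ 2 + c' z' ∈ [2, 2.0041]`:
`1.99 ≤ k' ≤ 2.01`.
The fields of `Fr V a 1` follow (`3 V a ^ 2 ≥ 1.001 V a ^ 2`, `2.0181 ≤ 3`, `N ≥ 2.97 a ^ 2 ≥ 1`).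
(Monomials: products of reals in `[1, x]` and `[1, y]` lie in `[1, x y]`.)
-/

set_option autoImplicit false

namespace Pool.Agent.FTL

open Pool.Agent.FTB

/-- products of reals `≥ 1` -/
private lemma rg_mb {x y p q : ℝ} (hx : 1 ≤ x ∧ x ≤ p) (hy : 1 ≤ y ∧ y ≤ q) :
    1 ≤ x * y ∧ x * y ≤ p * q := by
  refine ⟨one_le_mul_of_one_le_of_one_le hx.1 hy.1, ?_⟩
  exact mul_le_mul hx.2 hy.2 (by linarith [hy.1]) (by linarith [hx.1, hx.2])

/-- the scaled version -/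
private lemma rg_core (c v u e z w N k : ℝ) (hc : 1 ≤ c ∧ c ≤ 1.001) (hv : 1 ≤ v ∧ v ≤ 1.001)
    (hu : 1 ≤ u ∧ u ≤ 1.001) (he : 1 ≤ e ∧ e ≤ 1.001) (hz : 1 ≤ z ∧ z ≤ 1.001)
    (t1 : u * e = v ^ 2 * N - c ^ 2 * k) (t2 : v * w = u ^ 2 - c ^ 2 * N)
    (t3 : c * z = v ^ 2 * k - e ^ 2) :
    (-2.02 ≤ w ∧ w ≤ -1.98) ∧ (2.97 ≤ N ∧ N ≤ 3.03) ∧ (1.99 ≤ k ∧ k ≤ 2.01) := by
  have hcc := rg_mb hc hc
  have hvv := rg_mb hv hv
  have huu := rg_mb hu hu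
  have hee := rg_mb he he
  have hue := rg_mb hu he
  have hcz := rg_mb hc hz
  have hv4 := rg_mb hvv hvv
  have hc4 := rg_mb hcc hcc
  have hv5 := rg_mb hv4 hv
  have m1 := rg_mb hv4 huu
  have m2 := rg_mb (rg_mb hcc hvv) hue
  have m3 := rg_mb hc4 hee
  have m4 := rg_mb hc4 hcz
  have key : (v * v * (v * v) * v) * w = (v * v * (v * v)) * (u * u) - (c * c * (v * v)) * (u * e) -
      (c * c * (c * c)) * (e * e) - (c * c * (c * c)) * (c * z) := by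
    linear_combination (v ^ 4) * t2 + (c ^ 2 * v ^ 2) * t1 + (c ^ 4) * t3
  norm_num at hcc hvv huu hee hue hcz hv4 hc4 hv5 m1 m2 m3 m4
  have hw0 : w < 0 := by
    by_contra hcon
    push Not at hcon
    have : 0 ≤ (v * v * (v * v) * v) * w := mul_nonneg (by linarith [hv5.1]) hcon
    linarith [m1.2, m2.1, m3.1, m4.1]
  have hw1 : -2.0181 ≤ w := by
    have h1 : (v * v * (v * v) * v) * w ≤ w := by nlinarith [hv5.1]
    linarith [m1.1, m2.2, m3.2, m4.2]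
  have hw2 : w ≤ -1.983 := by
    have h1 : (1.0051 : ℝ) * w ≤ (v * v * (v * v) * v) * w := by nlinarith [hv5.2]
    linarith [m1.2, m2.1, m3.1, m4.1]
  have hvw1 : v * w ≤ -1.983 := by nlinarith [hv.1]
  have hvw2 : -2.0202 ≤ v * w := by nlinarith [hv.2, hv.1]
  have hN : c * c * N = u * u - v * w := by linear_combination t2
  have hk : v * v * k = e * e + c * z := by linear_combination -t3
  have hN0 : 0 < N := by
    by_contra hcon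
    push Not at hcon
    nlinarith [hcc.1, huu.1]
  have hk0 : 0 < k := by
    by_contra hcon
    push Not at hcon
    nlinarith [hvv.1, hee.1, hcz.1]
  refine ⟨⟨by linarith, by linarith⟩, ⟨?_, ?_⟩, ?_, ?_⟩
  · nlinarith [hcc.2, huu.1]
  · nlinarith [hcc.1, huu.2]
  · nlinarith [hvv.2, hee.1, hcz.1]
  · nlinarith [hvv.1, hee.2, hcz.2]

theorem rg (V a N k c v : ℕ) (u e w z : ℤ) (hV : 1 ≤ V) (ha : 1 ≤ a)
    (h : GP V a N k c v u e w z) :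
    Fr V a 1 N k c v u e w z ∧
    -(202 * ((V : ℤ) * a ^ 2)) ≤ 100 * w ∧ 100 * w ≤ -(198 * ((V : ℤ) * a ^ 2)) ∧
    297 * a ^ 2 ≤ 100 * N ∧ 100 * N ≤ 303 * a ^ 2 ∧
    199 * a ^ 2 ≤ 100 * k ∧ 100 * k ≤ 201 * a ^ 2 := by
  have hVr : (1 : ℝ) ≤ V := by exact_mod_cast hV
  have har : (1 : ℝ) ≤ a := by exact_mod_cast ha
  have hV0 : (0 : ℝ) < V := by linarith
  have ha0 : (0 : ℝ) < a := by linarith
  have c1 : (V : ℝ) ≤ c := by exact_mod_cast h.c1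
  have c2 : (1000 : ℝ) * c ≤ 1001 * V := by exact_mod_cast h.c2
  have v1 : (V : ℝ) ≤ v := by exact_mod_cast h.v1
  have v2 : (1000 : ℝ) * v ≤ 1001 * V := by exact_mod_cast h.v2
  have u1 : (V : ℝ) * a ≤ u := by exact_mod_cast h.u1
  have u2 : (1000 : ℝ) * u ≤ 1001 * (V * a) := by exact_mod_cast h.u2
  have e1 : (V : ℝ) * a ≤ e := by exact_mod_cast h.e1
  have e2 : (1000 : ℝ) * e ≤ 1001 * (V * a) := by exact_mod_cast h.e2
  have z1 : (V : ℝ) * a ^ 2 ≤ z := by exact_mod_cast h.z1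
  have z2 : (1000 : ℝ) * z ≤ 1001 * (V * a ^ 2) := by exact_mod_cast h.z2
  have t1 : (u : ℝ) * e = (v : ℝ) ^ 2 * N - (c : ℝ) ^ 2 * k := by exact_mod_cast h.t1
  have t2 : (v : ℝ) * w = (u : ℝ) ^ 2 - (c : ℝ) ^ 2 * N := by exact_mod_cast h.t2
  have t3 : (c : ℝ) * z = (v : ℝ) ^ 2 * k - (e : ℝ) ^ 2 := by exact_mod_cast h.t3
  have hVa : (0 : ℝ) < V * a := by positivity
  have hVaa : (0 : ℝ) < V * a ^ 2 := by positivity
  have haa : (0 : ℝ) < (a : ℝ) ^ 2 := by positivity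
  obtain ⟨⟨w1, w2⟩, ⟨n1, n2⟩, k1, k2⟩ := rg_core ((c : ℝ) / V) ((v : ℝ) / V) ((u : ℝ) / (V * a))
    ((e : ℝ) / (V * a)) ((z : ℝ) / (V * a ^ 2)) ((w : ℝ) / (V * a ^ 2)) ((N : ℝ) / a ^ 2)
    ((k : ℝ) / a ^ 2)
    ⟨by rw [le_div_iff₀ hV0]; linarith, by rw [div_le_iff₀ hV0]; linarith⟩
    ⟨by rw [le_div_iff₀ hV0]; linarith, by rw [div_le_iff₀ hV0]; linarith⟩
    ⟨by rw [le_div_iff₀ hVa]; linarith, by rw [div_le_iff₀ hVa]; linarith⟩
    ⟨by rw [le_div_iff₀ hVa]; linarith, by rw [div_le_iff₀ hVa]; linarith⟩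
    ⟨by rw [le_div_iff₀ hVaa]; linarith, by rw [div_le_iff₀ hVaa]; linarith⟩
    (by field_simp; linarith) (by field_simp; linarith) (by field_simp; linarith)
  rw [le_div_iff₀ hVaa] at w1
  rw [div_le_iff₀ hVaa] at w2
  rw [le_div_iff₀ haa] at n1 k1
  rw [div_le_iff₀ haa] at n2 k2
  have W1 : -(202 * ((V : ℤ) * a ^ 2)) ≤ 100 * w := by
    have : (-(202 * ((V : ℝ) * a ^ 2)) : ℝ) ≤ 100 * w := by linarith
    exact_mod_cast this
  have W2 : 100 * w ≤ -(198 * ((V : ℤ) * a ^ 2)) := by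
    have : (100 * w : ℝ) ≤ -(198 * ((V : ℝ) * a ^ 2)) := by linarith
    exact_mod_cast this
  have N1 : 297 * a ^ 2 ≤ 100 * N := by
    have : (297 * (a : ℝ) ^ 2 : ℝ) ≤ 100 * N := by linarith
    exact_mod_cast this
  have N2 : 100 * N ≤ 303 * a ^ 2 := by
    have : (100 * (N : ℝ) : ℝ) ≤ 303 * (a : ℝ) ^ 2 := by linarith
    exact_mod_cast this
  have K1 : 199 * a ^ 2 ≤ 100 * k := by
    have : (199 * (a : ℝ) ^ 2 : ℝ) ≤ 100 * k := by linarith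
    exact_mod_cast this
  have K2 : 100 * k ≤ 201 * a ^ 2 := by
    have : (100 * (k : ℝ) : ℝ) ≤ 201 * (a : ℝ) ^ 2 := by linarith
    exact_mod_cast this
  have ha2 : 1 ≤ a ^ 2 := Nat.one_le_pow _ _ ha
  have hP : (1 : ℤ) ≤ (V : ℤ) * a ^ 2 := by
    have : 1 ≤ V * a ^ 2 := Nat.mul_pos hV ha2
    exact_mod_cast this
  refine ⟨?_, W1, W2, N1, N2, K1, K2⟩
  exact
    { hs := Or.inl rfl
      pc := h.pc
      pv := h.pv
      ne := h.ne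
      c1 := h.c1
      c2 := h.c2
      v1 := h.v1
      v2 := h.v2
      u1 := h.u1
      u2 := h.u2
      e1 := by rw [one_mul]; exact h.e1
      e2 := by rw [one_mul]; exact h.e2
      z1 := by linarith [h.z1]
      z2 := by linarith [h.z2]
      w1 := by linarith
      w2 := by linarith
      N1 := by omega
      N2 := by omega
      k1 := by omega
      k2 := by omega
      t1 := h.t1
      t2 := h.t2
      t3 := h.t3 }

end Pool.Agent.FTL
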