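import Pool.Agent.FTL.DefsW

/-!
# FTL/WSw: the mirror image of a point

PROOF of `mir_inj`: compare the components.
PROOF of `mir_fr`: unfold `Frq`, `mir`; every field is a field of the hypothesis (with `s = 1`), after
`ring_nf`/`push_cast`: the new `u` is `e`, the new `e` is `-u`, the new `z` is `-w`, the new `w` is `-z`;
the equations: `e (-u) = c² k - v² N`, `c (-z) = e² - v² k`, `v (-w) = c² N - (-u)²`.
-/

set_option autoImplicit false

namespace Pool.Agent.FTL

open Pool.Agent.FTB

theorem mir_inj : Function.Injective mir := by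
  rintro ⟨N, k, c, v, u, e, w, z⟩ ⟨N', k', c', v', u', e', w', z'⟩ h
  simp only [mir, Prod.mk.injEq, neg_inj] at h
  obtain ⟨h1, h2, h3, h4, h5, h6, h7, h8⟩ := h
  subst h1 h2 h3 h4 h5 h6 h7 h8
  rfl

theorem mir_fr (V a : ℕ) (q : Pt) (h : Frq V a 1 q) : Frq V a (-1) (mir q) := by
  obtain ⟨N, k, c, v, u, e, w, z⟩ := q
  have h' : Fr V a 1 N k c v u e w z := h
  have g : Fr V a (-1) k N v c e (-u) (-z) (-w) :=
    { hs := Or.inr rfl
      pc := h'.pv
      pv := h'.pc
      ne := h'.ne.symm
      c1 := h'.v1
      c2 := h'.v2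
      v1 := h'.c1
      v2 := h'.c2
      u1 := by have := h'.e1; linarith
      u2 := by have := h'.e2; linarith
      e1 := by have := h'.u1; linarith
      e2 := by have := h'.u2; linarith
      z1 := by have := h'.w1; linarith
      z2 := by have := h'.w2; linarith
      w1 := by have := h'.z1; linarith
      w2 := by have := h'.z2; linarith
      N1 := h'.k1
      N2 := h'.k2
      k1 := h'.N1
      k2 := h'.N2
      t1 := by have := h'.t1; linarith
      t2 := by have := h'.t3; linarith
      t3 := by have := h'.t2; linarith }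
  exact g

end Pool.Agent.FTL
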