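import Pool.Agent.FTL.DefsW

/-!
# FTL/WXb: the points with `v ∤ u`, `v ∣ e`, `v ^ 2 ∤ e`

PROOF of `wxb`.  `u e = v ^ 2 N - c ^ 2 k` and `v ∣ e` give `v ∣ k` (`v` prime, `c ≠ v`), `k = v k'`,
`1 ≤ k' ≤ 4 a ^ 2 / V`, `e = v e'`.  `c z = v ^ 3 k' - v ^ 2 e' ^ 2` gives `v ^ 2 ∣ z` (`c, v` coprime),
`z = v ^ 2 z'`, `c z' = v k' - e' ^ 2`, `z' > 0`: `c` divides the positive integer `v k' - e' ^ 2 ≤ k ≤ Z`:
at most `T` values of `c` for given `(v, k', e')`.  The number of `(v, k', e')` is at most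
`V * (4 a ^ 2 / V) * a` (number of `v`: `V / 1000 + 1 ≤ V`; `s e' ∈ [V a / v, 1.001 V a / v]`: at most
`a / 1000 + 1 ≤ a` values).  For given `c, v, k', e'` (so `k, e, z` are known) the number of `u` is at most
`2 a / V`: from `u e = v ^ 2 N - c ^ 2 k`, `u e' = v N - c ^ 2 k'` (cancel `v`), and
`c ^ 2 N = u ^ 2 - v w` gives `c ^ 2 u e' + c ^ 4 k' = v (u ^ 2 - v w) ≡ v u ^ 2` modulo `v ^ 2`.
If `u0` is another solution then `v ∣ c ^ 2 e' (u - u0)`, and `v ∤ e'` (as `v ^ 2 ∤ e`), so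
`v ∣ u - u0`, so `v ^ 2 ∣ v (u ^ 2 - u0 ^ 2)`, so `v ^ 2 ∣ c ^ 2 e' (u - u0)`, `v ^ 2 ∣ u - u0`.
As `u ∈ [V a, 1.001 V a]`, there are at most `V a / (1000 v ^ 2) + 1 ≤ a / (1000 V) + 1 ≤ 2 a / V`
such `u` (`V ≤ a`).  `N` is determined by the first, `w` by the second equation.
So `card S ≤ 4 a ^ 3 * T * 2 a / V`.
-/

set_option autoImplicit false

namespace Pool.Agent.FTL

open Pool.Agent.FTB

private theorem wxbA (V a : ℕ) (s : ℤ) (N k c v : ℕ) (u e w z : ℤ)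
    (h : Fr V a s N k c v u e w z) (he : (v : ℤ) ∣ e) :
    ∃ (K : ℕ) (E Z' : ℤ), k = v * K ∧ e = v * E ∧ z = (v : ℤ) ^ 2 * Z' ∧
      (c : ℤ) * Z' = v * K - E ^ 2 ∧ 0 < Z' := by
  have hvp : Prime (v : ℤ) := Nat.prime_iff_prime_int.1 h.pv
  have hv0 : (0 : ℤ) < v := by exact_mod_cast h.pv.pos
  have hvc : ¬ (v : ℤ) ∣ (c : ℤ) := by
    intro hd
    have h1 : v ∣ c := Int.natCast_dvd_natCast.1 hd
    exact h.ne ((Nat.prime_dvd_prime_iff_eq h.pv h.pc).1 h1).symm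
  have hk : v ∣ k := by
    have h1 : (v : ℤ) ∣ (c : ℤ) ^ 2 * k := by
      have e1 : (c : ℤ) ^ 2 * k = (v : ℤ) ^ 2 * N - u * e := by
        have := h.t1
        linarith
      rw [e1]
      exact Int.dvd_sub (Dvd.dvd.mul_right (dvd_pow_self _ (by norm_num)) _)
        (Dvd.dvd.mul_left he _)
    rcases hvp.dvd_or_dvd h1 with h2 | h2
    · exact absurd (hvp.dvd_of_dvd_pow h2) hvc
    · exact Int.natCast_dvd_natCast.1 h2
  obtain ⟨K, hK⟩ := hk
  obtain ⟨E, hE⟩ := he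
  have hKz : (k : ℤ) = v * K := by
    rw [hK]
    push_cast
    ring
  have e2 : (c : ℤ) * z = (v : ℤ) ^ 2 * (v * K - E ^ 2) := by
    have h3 := h.t3
    rw [hKz, hE] at h3
    linear_combination h3
  have hcop : IsCoprime ((v : ℤ) ^ 2) (c : ℤ) := by
    apply IsCoprime.pow_left
    exact (Prime.coprime_iff_not_dvd hvp).2 hvc
  have hz : (v : ℤ) ^ 2 ∣ z := by
    apply hcop.dvd_of_dvd_mul_left
    rw [e2]
    exact dvd_mul_right _ _
  obtain ⟨Z', hZ'⟩ := hz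
  refine ⟨K, E, Z', hK, hE, hZ', ?_, ?_⟩
  · have h4 : (v : ℤ) ^ 2 ≠ 0 := (pow_pos hv0 2).ne'
    apply mul_left_cancel₀ h4
    rw [← e2, hZ']
    ring
  · have h5 := h.z1
    rw [hZ'] at h5
    exact (mul_pos_iff_of_pos_left (pow_pos hv0 2)).1 h5

private theorem wxbC (V a : ℕ) (s : ℤ) (N N' k c v : ℕ) (u u' e w w' z z' : ℤ)
    (h : Fr V a s N k c v u e w z) (h' : Fr V a s N' k c v u' e w' z')
    (he : (v : ℤ) ∣ e) (he2 : ¬ (v : ℤ) ^ 2 ∣ e) :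
    (v : ℤ) ^ 2 ∣ u - u' ∧ z = z' ∧ (u = u' → N = N' ∧ w = w') := by
  have hvp : Prime (v : ℤ) := Nat.prime_iff_prime_int.1 h.pv
  have hv0 : (v : ℤ) ≠ 0 := hvp.ne_zero
  have hcp : Prime (c : ℤ) := Nat.prime_iff_prime_int.1 h.pc
  have hc0 : (c : ℤ) ≠ 0 := hcp.ne_zero
  have hvc : ¬ (v : ℤ) ∣ (c : ℤ) := by
    intro hd
    have h1 : v ∣ c := Int.natCast_dvd_natCast.1 hd
    exact h.ne ((Nat.prime_dvd_prime_iff_eq h.pv h.pc).1 h1).symm
  have hz : z = z' := by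
    apply mul_left_cancel₀ hc0
    rw [h.t3, h'.t3]
  obtain ⟨E, hE⟩ := he
  have hvE : ¬ (v : ℤ) ∣ E := by
    rintro ⟨F, hF⟩
    exact he2 ⟨F, by rw [hE, hF]; ring⟩
  have e1 : (u - u') * E = (v : ℤ) * ((N : ℤ) - N') := by
    apply mul_left_cancel₀ hv0
    have h1 := h.t1
    have h2 := h'.t1
    rw [hE] at h1 h2
    linear_combination h1 - h2
  have e2 : (u - u') * ((v : ℤ) * (u + u') - (c : ℤ) ^ 2 * E) = (v : ℤ) ^ 2 * (w - w') := by
    have h1 := h.t2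
    have h2 := h'.t2
    linear_combination (-(v : ℤ)) * h1 + (v : ℤ) * h2 - (c : ℤ) ^ 2 * e1
  have hnd : ¬ (v : ℤ) ∣ (v : ℤ) * (u + u') - (c : ℤ) ^ 2 * E := by
    intro hd
    have h3 : (v : ℤ) ∣ (c : ℤ) ^ 2 * E := by
      have h4 : (v : ℤ) ∣ (v : ℤ) * (u + u') := dvd_mul_right _ _
      have h5 := Int.dvd_sub h4 hd
      have h6 : (v : ℤ) * (u + u') - ((v : ℤ) * (u + u') - (c : ℤ) ^ 2 * E) = (c : ℤ) ^ 2 * E := by
        ring
      rwa [h6] at h5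
    rcases hvp.dvd_or_dvd h3 with h4 | h4
    · exact hvc (hvp.dvd_of_dvd_pow h4)
    · exact hvE h4
  have hcop : IsCoprime ((v : ℤ) ^ 2) ((v : ℤ) * (u + u') - (c : ℤ) ^ 2 * E) := by
    apply IsCoprime.pow_left
    exact (Prime.coprime_iff_not_dvd hvp).2 hnd
  refine ⟨?_, hz, ?_⟩
  · apply hcop.dvd_of_dvd_mul_right
    rw [e2]
    exact dvd_mul_right _ _
  · intro hu
    rw [hu, sub_self, zero_mul] at e1 e2
    have h3 : (N : ℤ) - N' = 0 := by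
      rcases mul_eq_zero.1 e1.symm with h4 | h4
      · exact absurd h4 hv0
      · exact h4
    have h5 : w - w' = 0 := by
      rcases mul_eq_zero.1 e2.symm with h4 | h4
      · exact absurd h4 (pow_ne_zero 2 hv0)
      · exact h4
    constructor
    · have : (N : ℤ) = N' := by linarith
      exact_mod_cast this
    · linarith

open Classical in
private theorem wxbG (V a : ℕ) (s : ℤ) (k c v : ℕ) (e : ℤ) (hV : 10 ^ 6 ≤ V) (hVa : V ≤ a)
    (G : Finset Pt)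
    (hG : ∀ q ∈ G, Frq V a s q ∧ (v : ℤ) ∣ e ∧ ¬ (v : ℤ) ^ 2 ∣ e ∧
      q.2.1 = k ∧ q.2.2.1 = c ∧ q.2.2.2.1 = v ∧ q.2.2.2.2.2.1 = e) :
    (G.card : ℝ) ≤ 4 * a / V := by
  have hV0 : (0 : ℝ) < V := by
    have : 0 < V := by omega
    exact_mod_cast this
  rcases G.eq_empty_or_nonempty with h0 | ⟨q0, hq0⟩
  · rw [h0, Finset.card_empty]
    push_cast
    positivity
  have hq0F := (hG q0 hq0).1
  have hvV : V ≤ v := by
    have h1 : V ≤ q0.2.2.2.1 := hq0F.v1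
    have h2 := (hG q0 hq0).2.2.2.2.2.1
    omega
  have hv0 : (0 : ℤ) < (v : ℤ) ^ 2 := by
    have h1 : 0 < v := by omega
    have h2 : (0 : ℤ) < v := by exact_mod_cast h1
    positivity
  have key : G.card ≤ (Finset.Icc (0 : ℤ) ((2 * V * a : ℤ) / (v : ℤ) ^ 2)).card := by
    apply Finset.card_le_card_of_injOn (fun q => q.2.2.2.2.1 / (v : ℤ) ^ 2)
    · intro q hq
      have hqF := (hG q hq).1
      have h1 : (V : ℤ) * a ≤ q.2.2.2.2.1 := hqF.u1
      have h2 : 1000 * q.2.2.2.2.1 ≤ 1001 * ((V : ℤ) * a) := hqF.u2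
      have h3 : (0 : ℤ) ≤ (V : ℤ) * a := by positivity
      rw [Finset.mem_coe, Finset.mem_Icc]
      constructor
      · exact Int.ediv_nonneg (by linarith) hv0.le
      · apply Int.ediv_le_ediv hv0
        linarith
    · intro q hq q' hq' hqq
      have hq1 := hG q hq
      have hq2 := hG q' hq'
      obtain ⟨hF, he, he2, hk, hc, hv, hee⟩ := hq1
      obtain ⟨hF', -, -, hk', hc', hv', hee'⟩ := hq2
      obtain ⟨N, k1, c1, v1, u, e1, w, z⟩ := q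
      obtain ⟨N', k1', c1', v1', u', e1', w', z'⟩ := q'
      simp only at hk hc hv hee hk' hc' hv' hee' hqq
      subst hk hc hv hee
      subst hk' hc' hv' hee'
      obtain ⟨hd, hz, hu⟩ := wxbC V a s N N' _ _ _ u u' _ w w' z z' hF hF' he he2
      have huu : u = u' := by
        have h0 : u' ≡ u [ZMOD (v1' : ℤ) ^ 2] := Int.modEq_iff_dvd.2 hd
        have h1 : u % (v1' : ℤ) ^ 2 = u' % (v1' : ℤ) ^ 2 := h0.symm
        have h2 := Int.emod_add_mul_ediv u ((v1' : ℤ) ^ 2)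
        have h3 := Int.emod_add_mul_ediv u' ((v1' : ℤ) ^ 2)
        rw [← h2, ← h3, h1, hqq]
      obtain ⟨hN, hw⟩ := hu huu
      rw [huu, hN, hw, hz]
  have h4 : ((Finset.Icc (0 : ℤ) ((2 * V * a : ℤ) / (v : ℤ) ^ 2)).card : ℝ) ≤ 2 * a / V + 1 := by
    rw [Int.card_Icc]
    have h5 : (0 : ℤ) ≤ (2 * V * a : ℤ) / (v : ℤ) ^ 2 := Int.ediv_nonneg (by positivity) hv0.le
    have h6 : (((((2 * V * a : ℤ) / (v : ℤ) ^ 2 + 1 - 0).toNat : ℕ) : ℤ) : ℝ) =
        (((2 * V * a : ℤ) / (v : ℤ) ^ 2 : ℤ) : ℝ) + 1 := by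
      rw [Int.toNat_of_nonneg (by linarith)]
      push_cast
      ring
    have h7 : ((((2 * V * a : ℤ) / (v : ℤ) ^ 2 + 1 - 0).toNat : ℕ) : ℝ) =
        (((((2 * V * a : ℤ) / (v : ℤ) ^ 2 + 1 - 0).toNat : ℕ) : ℤ) : ℝ) := by
      push_cast
      ring
    rw [h7, h6]
    have h8 : (((2 * V * a : ℤ) / (v : ℤ) ^ 2 : ℤ) : ℝ) ≤ 2 * a / V := by
      rw [le_div_iff₀ hV0]
      have h9 : ((2 * V * a : ℤ) / (v : ℤ) ^ 2) * (v : ℤ) ^ 2 ≤ 2 * V * a :=
        Int.ediv_mul_le _ hv0.ne'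
      have h10 : ((2 * V * a : ℤ) / (v : ℤ) ^ 2) * (V : ℤ) ^ 2 ≤
          ((2 * V * a : ℤ) / (v : ℤ) ^ 2) * (v : ℤ) ^ 2 := by
        apply mul_le_mul_of_nonneg_left _ h5
        have : (V : ℤ) ≤ v := by exact_mod_cast hvV
        exact pow_le_pow_left₀ (by positivity) this 2
      have h11 : ((2 * V * a : ℤ) / (v : ℤ) ^ 2) * (V : ℤ) ≤ 2 * a := by
        have hVz : (0 : ℤ) < V := by
          have : 0 < V := by omega
          exact_mod_cast this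
        have h12 : (V : ℤ) * (((2 * V * a : ℤ) / (v : ℤ) ^ 2) * (V : ℤ)) ≤ V * (2 * a) := by
          linarith
        exact le_of_mul_le_mul_left h12 hVz
      have h13 : ((((2 * V * a : ℤ) / (v : ℤ) ^ 2) * (V : ℤ) : ℤ) : ℝ) ≤ ((2 * a : ℤ) : ℝ) := by
        exact_mod_cast h11
      push_cast at h13
      exact_mod_cast h13
    linarith
  have h14 : (1 : ℝ) ≤ a / V := by
    rw [le_div_iff₀ hV0, one_mul]
    exact_mod_cast hVa
  have h15 : (G.card : ℝ) ≤ 2 * a / V + 1 := by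
    refine le_trans ?_ h4
    exact_mod_cast key
  have h16 : 2 * (a : ℝ) / V = 2 * (a / V) := by ring
  have h17 : 4 * (a : ℝ) / V = 4 * (a / V) := by ring
  rw [h16] at h15
  rw [h17]
  linarith

open Classical in
private theorem wxbF (V a R P Z : ℕ) (T Q L : ℝ) (h : PW V a R P Z T Q L) (s : ℤ)
    (v K : ℕ) (E : ℤ) (F : Finset Pt)
    (hF : ∀ q ∈ F, Frq V a s q ∧ (q.2.2.2.1 : ℤ) ∣ q.2.2.2.2.2.1 ∧
      ¬ (q.2.2.2.1 : ℤ) ^ 2 ∣ q.2.2.2.2.2.1 ∧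
      q.2.2.2.1 = v ∧ q.2.1 = v * K ∧ q.2.2.2.2.2.1 = v * E) :
    (F.card : ℝ) ≤ T * (4 * a / V) := by
  have hT1 : 1 ≤ T := h.hT.1
  have hV0 : (0 : ℝ) < V := by
    have : 0 < V := by
      have := h.hV
      omega
    exact_mod_cast this
  rcases F.eq_empty_or_nonempty with h0 | ⟨q0, hq0⟩
  · rw [h0, Finset.card_empty]
    push_cast
    positivity
  have hdv : ∀ q ∈ F, 0 < (v : ℤ) * K - E ^ 2 ∧ (q.2.2.1 : ℤ) ∣ (v : ℤ) * K - E ^ 2 := by
    intro q hq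
    obtain ⟨hqF, hd, -, hv, hk, he⟩ := hF q hq
    obtain ⟨K', E', Z', h1, h2, h3, h4, h5⟩ := wxbA V a s _ _ _ _ _ _ _ _ hqF hd
    have hv0 : 0 < q.2.2.2.1 := hqF.pv.pos
    have hc0 : 0 < q.2.2.1 := hqF.pc.pos
    rw [hv] at hv0
    rw [hv] at h1 h2 h4
    have hK : K = K' := by
      rw [hk] at h1
      exact Nat.eq_of_mul_eq_mul_left hv0 h1
    have hE : E = E' := by
      rw [he] at h2
      have h6 : (v : ℤ) ≠ 0 := by
        have : v ≠ 0 := by omega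
        exact_mod_cast this
      exact mul_left_cancel₀ h6 h2
    rw [hK, hE, ← h4]
    refine ⟨mul_pos (by exact_mod_cast hc0) h5, dvd_mul_right _ _⟩
  set m : ℕ := ((v : ℤ) * K - E ^ 2).toNat with hm
  have hm0 : 1 ≤ m := by
    have := (hdv q0 hq0).1
    omega
  have hmc : (m : ℤ) = (v : ℤ) * K - E ^ 2 := by
    have := (hdv q0 hq0).1
    omega
  have hmZ : m ≤ Z := by
    have h1 : (m : ℤ) ≤ (v : ℤ) * K := by
      rw [hmc]
      have := sq_nonneg E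
      linarith
    have h2 : m ≤ v * K := by exact_mod_cast h1
    obtain ⟨hqF, -, -, hv, hk, he⟩ := hF q0 hq0
    have h3 : q0.2.1 ≤ 4 * a ^ 2 := hqF.k2
    rw [hk] at h3
    have h4 : a ≤ V ^ 2 := by
      have := h.haV
      omega
    have h5 : a ^ 2 ≤ (V ^ 2) ^ 2 := Nat.pow_le_pow_left h4 2
    have h6 : 4 * (V ^ 2) ^ 2 ≤ (200 * V ^ 5) ^ 8 := by
      have h7 : 1 ≤ V := by
        have := h.hV
        omega
      calc 4 * (V ^ 2) ^ 2 = 4 * V ^ 4 := by ring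
        _ ≤ 200 * V ^ 5 := by
          have : V ^ 4 ≤ V ^ 5 := Nat.pow_le_pow_right h7 (by norm_num)
          omega
        _ ≤ (200 * V ^ 5) ^ 8 := by
          apply Nat.le_self_pow (by norm_num)
    have h8 := h.hZ
    omega
  have hmap : ∀ q ∈ F, q.2.2.1 ∈ m.divisors := by
    intro q hq
    rw [Nat.mem_divisors]
    refine ⟨?_, by omega⟩
    have h1 := (hdv q hq).2
    rw [← hmc] at h1
    exact Int.natCast_dvd_natCast.1 h1
  have hcard := Finset.card_eq_sum_card_fiberwise (f := fun q : Pt => q.2.2.1) (s := F)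
    (t := m.divisors) (fun q hq => hmap q hq)
  rw [hcard]
  push_cast
  have hb : ∀ c ∈ m.divisors, (((F.filter fun q : Pt => q.2.2.1 = c).card : ℕ) : ℝ) ≤
      4 * a / V := by
    intro c _
    apply wxbG V a s (v * K) c v (v * E) h.hV h.hVa
    intro q hq
    rw [Finset.mem_filter] at hq
    obtain ⟨hq1, hq2⟩ := hq
    obtain ⟨hqF, hd, hd2, hv, hk, he⟩ := hF q hq1
    rw [hv, he] at hd hd2
    exact ⟨hqF, hd, hd2, hk, hq2, hv, he⟩
  refine (Finset.sum_le_sum hb).trans ?_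
  rw [Finset.sum_const, nsmul_eq_mul]
  apply mul_le_mul_of_nonneg_right _ (by positivity)
  exact h.hT.2 m hm0 hmZ

open Classical in
theorem wxb (V a R P Z : ℕ) (T Q L : ℝ) (h : PW V a R P Z T Q L) (s : ℤ) (S : Finset Pt)
    (hS : ∀ q ∈ S, Frq V a s q ∧ ¬ (q.2.2.2.1 : ℤ) ∣ q.2.2.2.2.1 ∧
      (q.2.2.2.1 : ℤ) ∣ q.2.2.2.2.2.1 ∧ ¬ (q.2.2.2.1 : ℤ) ^ 2 ∣ q.2.2.2.2.2.1) :
    (S.card : ℝ) ≤ 16 * T * (a : ℝ) ^ 4 / V := by
  have hT1 : 1 ≤ T := h.hT.1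
  have hVn : 0 < V := by
    have := h.hV
    omega
  have hV0 : (0 : ℝ) < V := by exact_mod_cast hVn
  rcases S.eq_empty_or_nonempty with h0 | ⟨q0, hq0⟩
  · rw [h0, Finset.card_empty]
    push_cast
    positivity
  have hs : s = 1 ∨ s = -1 := (hS q0 hq0).1.hs
  have hss : s * s = 1 := by
    rcases hs with h1 | h1 <;> rw [h1] <;> norm_num
  set t : Finset (ℕ × ℕ × ℤ) := Finset.Icc V (1001 * V / 1000) ×ˢ
    Finset.Icc 1 (4 * a ^ 2 / V) ×ˢ Finset.Icc (1 : ℤ) (2 * a) with ht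
  set f : Pt → ℕ × ℕ × ℤ := fun q =>
    (q.2.2.2.1, q.2.1 / q.2.2.2.1, s * (q.2.2.2.2.2.1 / (q.2.2.2.1 : ℤ))) with hf
  have hmap : ∀ q ∈ S, f q ∈ t := by
    intro q hq
    obtain ⟨hqF, -, hd, hd2⟩ := hS q hq
    obtain ⟨K, E, Z', h1, h2, h3, h4, h5⟩ := wxbA V a s _ _ _ _ _ _ _ _ hqF hd
    have hv0 : 0 < q.2.2.2.1 := hqF.pv.pos
    have hvz : (0 : ℤ) < q.2.2.2.1 := by exact_mod_cast hv0
    have hv1 : V ≤ q.2.2.2.1 := hqF.v1
    have hv2 : 1000 * q.2.2.2.1 ≤ 1001 * V := hqF.v2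
    have hk1 : 1 ≤ q.2.1 := hqF.k1
    have hk2 : q.2.1 ≤ 4 * a ^ 2 := hqF.k2
    have he1 : (V : ℤ) * a ≤ s * q.2.2.2.2.2.1 := hqF.e1
    have he2 : 1000 * (s * q.2.2.2.2.2.1) ≤ 1001 * ((V : ℤ) * a) := hqF.e2
    have hKK : q.2.1 / q.2.2.2.1 = K := by
      rw [h1]
      exact Nat.mul_div_cancel_left _ hv0
    have hEE : q.2.2.2.2.2.1 / (q.2.2.2.1 : ℤ) = E := by
      rw [h2]
      exact Int.mul_ediv_cancel_left _ hvz.ne'
    rw [ht, hf]
    simp only [Finset.mem_product, Finset.mem_Icc, hKK, hEE]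
    refine ⟨⟨hv1, ?_⟩, ⟨?_, ?_⟩, ?_, ?_⟩
    · rw [Nat.le_div_iff_mul_le (by norm_num)]
      omega
    · rcases Nat.eq_zero_or_pos K with h6 | h6
      · rw [h6, mul_zero] at h1
        omega
      · exact h6
    · rw [Nat.le_div_iff_mul_le hVn]
      calc K * V ≤ K * q.2.2.2.1 := Nat.mul_le_mul_left _ hv1
        _ = q.2.1 := by rw [h1]; ring
        _ ≤ 4 * a ^ 2 := hk2
    · have h6 : 0 < (q.2.2.2.1 : ℤ) * (s * E) := by
        have h7 : (q.2.2.2.1 : ℤ) * (s * E) = s * q.2.2.2.2.2.1 := by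
          rw [h2]
          ring
        rw [h7]
        have h8 : (0 : ℤ) < (V : ℤ) * a := by
          have h9 : 0 < a := by
            have := h.hVa
            omega
          have : 0 < V * a := Nat.mul_pos hVn h9
          exact_mod_cast this
        linarith
      exact (mul_pos_iff_of_pos_left hvz).1 h6
    · have h7 : (q.2.2.2.1 : ℤ) * (s * E) = s * q.2.2.2.2.2.1 := by
        rw [h2]
        ring
      have h8 : (q.2.2.2.1 : ℤ) * (s * E) ≤ (q.2.2.2.1 : ℤ) * (2 * a) := by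
        rw [h7]
        have h9 : (V : ℤ) * a ≤ (q.2.2.2.1 : ℤ) * a := by
          apply mul_le_mul_of_nonneg_right _ (by positivity)
          exact_mod_cast hv1
        have h10 : (0 : ℤ) ≤ (V : ℤ) * a := by positivity
        linarith
      exact le_of_mul_le_mul_left h8 hvz
  have hcard := Finset.card_eq_sum_card_fiberwise (f := f) (s := S) (t := t)
    (fun q hq => hmap q hq)
  rw [hcard]
  push_cast
  have hb : ∀ b ∈ t, (((S.filter fun q : Pt => f q = b).card : ℕ) : ℝ) ≤ T * (4 * a / V) := by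
    rintro ⟨v, K, E⟩ _
    apply wxbF V a R P Z T Q L h s v K (s * E)
    intro q hq
    rw [Finset.mem_filter] at hq
    obtain ⟨hq1, hq2⟩ := hq
    obtain ⟨hqF, -, hd, hd2⟩ := hS q hq1
    obtain ⟨K', E', Z', h1, h2, h3, h4, h5⟩ := wxbA V a s _ _ _ _ _ _ _ _ hqF hd
    have hv0 : 0 < q.2.2.2.1 := hqF.pv.pos
    have hvz : (0 : ℤ) < q.2.2.2.1 := by exact_mod_cast hv0
    have hKK : q.2.1 / q.2.2.2.1 = K' := by
      rw [h1]
      exact Nat.mul_div_cancel_left _ hv0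
    have hEE : q.2.2.2.2.2.1 / (q.2.2.2.1 : ℤ) = E' := by
      rw [h2]
      exact Int.mul_ediv_cancel_left _ hvz.ne'
    rw [hf] at hq2
    simp only [Prod.mk.injEq, hKK, hEE] at hq2
    obtain ⟨g1, g2, g3⟩ := hq2
    refine ⟨hqF, hd, hd2, g1, ?_, ?_⟩
    · rw [← g1, ← g2]
      exact h1
    · rw [← g3, ← g1, ← mul_assoc s s E', hss, one_mul]
      exact h2
  refine (Finset.sum_le_sum hb).trans ?_
  rw [Finset.sum_const, nsmul_eq_mul]
  have ht1 : ((t.card : ℕ) : ℝ) ≤ 4 * (a : ℝ) ^ 3 := by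
    have e1 : t.card = (1001 * V / 1000 + 1 - V) * ((4 * a ^ 2 / V) * (2 * a)) := by
      rw [ht, Finset.card_product, Finset.card_product, Nat.card_Icc, Nat.card_Icc, Int.card_Icc]
      congr 2
      omega
    have e2 : 2 * (1001 * V / 1000 + 1 - V) ≤ V := by
      have := h.hV
      omega
    have e3 : V * (4 * a ^ 2 / V) ≤ 4 * a ^ 2 := Nat.mul_div_le _ _
    have e4 : t.card ≤ 4 * a ^ 3 := by
      have e5 : 2 * t.card ≤ 2 * (4 * a ^ 3) := by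
        calc 2 * t.card = (2 * (1001 * V / 1000 + 1 - V)) * ((4 * a ^ 2 / V) * (2 * a)) := by
              rw [e1]
              ring
          _ ≤ V * ((4 * a ^ 2 / V) * (2 * a)) := Nat.mul_le_mul_right _ e2
          _ = (V * (4 * a ^ 2 / V)) * (2 * a) := by ring
          _ ≤ (4 * a ^ 2) * (2 * a) := Nat.mul_le_mul_right _ e3
          _ = 2 * (4 * a ^ 3) := by ring
      omega
    exact_mod_cast e4
  calc ((t.card : ℕ) : ℝ) * (T * (4 * a / V)) ≤ 4 * (a : ℝ) ^ 3 * (T * (4 * a / V)) := by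
        apply mul_le_mul_of_nonneg_right ht1
        positivity
    _ = 16 * T * (a : ℝ) ^ 4 / V := by ring

end Pool.Agent.FTL
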