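import Pool.Agent.FTL.DefsW

/-!
# FTL/WXc: the points with `v ∣ u`, `v ∣ e`, or `v ^ 2 ∣ e`

PROOF of `wxc0`.  `v ^ 5 w + c ^ 5 z = Fq c v u e` (`Pool.Agent.FTB.cong`), so `c ^ 5 (z - z') ` is divisible by
`v ^ 5`, so `v ^ 5 ∣ z - z'` and `|z - z'| < 3 V a ^ 2 + 1 ≤ V ^ 5` (`10 ^ 5 a ≤ V ^ 2`), so `z = z'`;
then `w` is determined, `c ^ 2 N = u ^ 2 - v w` and `v ^ 2 k = e ^ 2 + c z`.
PROOF of `wxc`.  By `wxc0` the map `q ↦ (c, v, u, e)` is injective on `S`.  There are at most `V ^ 2`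
pairs `(c, v)`.  If `v ∣ u` and `v ∣ e`: at most `a` values of `u` (`V a / (1000 v) + 1 ≤ a`) and of `e`.
If `v ^ 2 ∣ e`: at most `V a / (1000 v ^ 2) + 1 ≤ 2 a / V` values of `e` (`V ≤ a`) and at most `V a` of
`u` (`V a / 1000 + 1`).  Total `V ^ 2 a ^ 2 + 2 V ^ 2 a ^ 2`.
-/

set_option autoImplicit false

namespace Pool.Agent.FTL

open Pool.Agent.FTB

private theorem wxc_id (N k c v : ℕ) (u e w z : ℤ)
    (t1 : u * e = (v : ℤ) ^ 2 * N - (c : ℤ) ^ 2 * k)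
    (t2 : (v : ℤ) * w = u ^ 2 - (c : ℤ) ^ 2 * N)
    (t3 : (c : ℤ) * z = (v : ℤ) ^ 2 * k - e ^ 2) :
    (v : ℤ) ^ 5 * w + (c : ℤ) ^ 5 * z =
      (v : ℤ) ^ 4 * u ^ 2 - (c : ℤ) ^ 2 * (v : ℤ) ^ 2 * (u * e) - (c : ℤ) ^ 4 * e ^ 2 := by
  have h2 : (v : ℤ) ^ 5 * w = (v : ℤ) ^ 4 * ((v : ℤ) * w) := by ring
  have h3 : (c : ℤ) ^ 5 * z = (c : ℤ) ^ 4 * ((c : ℤ) * z) := by ring
  rw [h2, h3, t2, t3, t1]
  ring

theorem wxc0 (V a R P Z : ℕ) (T Q L : ℝ) (h : PW V a R P Z T Q L) (s : ℤ) (q q' : Pt)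
    (hq : Frq V a s q) (hq' : Frq V a s q') (hc : q.2.2.1 = q'.2.2.1)
    (hv : q.2.2.2.1 = q'.2.2.2.1) (hu : q.2.2.2.2.1 = q'.2.2.2.2.1)
    (he : q.2.2.2.2.2.1 = q'.2.2.2.2.2.1) : q = q' := by
  obtain ⟨N, k, c, v, u, e, w, z⟩ := q
  obtain ⟨N', k', c', v', u', e', w', z'⟩ := q'
  simp only at hc hv hu he
  subst hc hv hu he
  have H : Fr V a s N k c v u e w z := hq
  have H' : Fr V a s N' k' c v u e w' z' := hq'
  have i1 := wxc_id N k c v u e w z H.t1 H.t2 H.t3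
  have i2 := wxc_id N' k' c v u e w' z' H'.t1 H'.t2 H'.t3
  have hcv : IsCoprime ((v : ℤ) ^ 5) ((c : ℤ) ^ 5) := by
    have : Nat.Coprime v c := (Nat.coprime_primes H.pv H.pc).2 (Ne.symm H.ne)
    exact (Nat.isCoprime_iff_coprime.2 this).pow
  have hv0 : 0 < (v : ℤ) := by exact_mod_cast H.pv.pos
  have hc0 : 0 < (c : ℤ) := by exact_mod_cast H.pc.pos
  have hdiv : (v : ℤ) ^ 5 ∣ (c : ℤ) ^ 5 * (z - z') := ⟨w' - w, by linear_combination i1 - i2⟩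
  have hdiv2 : (v : ℤ) ^ 5 ∣ z - z' := hcv.dvd_of_dvd_mul_left hdiv
  have hVa : (10 : ℤ) ^ 5 * a ≤ (V : ℤ) ^ 2 := by exact_mod_cast h.haV
  have ha0 : (0 : ℤ) ≤ a := by positivity
  have hVpos : (0 : ℤ) < V := by
    have := h.hV
    have : (0 : ℕ) < V := by omega
    exact_mod_cast this
  have hbig : 3 * ((V : ℤ) * a ^ 2) < (v : ℤ) ^ 5 := by
    have h1 : (V : ℤ) ^ 5 ≤ (v : ℤ) ^ 5 := by
      have : (V : ℤ) ≤ v := by exact_mod_cast H.v1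
      exact pow_le_pow_left₀ (by positivity) this 5
    have h2 : ((10 : ℤ) ^ 5 * a) ^ 2 ≤ ((V : ℤ) ^ 2) ^ 2 := pow_le_pow_left₀ (by positivity) hVa 2
    have h3 : 10 ^ 10 * (a : ℤ) ^ 2 ≤ (V : ℤ) ^ 4 := by nlinarith
    have h4 : (V : ℤ) * (10 ^ 10 * (a : ℤ) ^ 2) ≤ (V : ℤ) * (V : ℤ) ^ 4 :=
      mul_le_mul_of_nonneg_left h3 hVpos.le
    have h5 : 0 < (V : ℤ) ^ 5 := by positivity
    have h6 : 0 ≤ (V : ℤ) * a ^ 2 := by positivity
    nlinarith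
  have hz : z = z' := by
    have hlt : |z - z'| < (v : ℤ) ^ 5 := by
      have := H.z1
      have := H.z2
      have := H'.z1
      have := H'.z2
      rw [abs_lt]
      constructor <;> linarith
    have := Int.eq_zero_of_abs_lt_dvd hdiv2 hlt
    linarith
  subst hz
  have hw : w = w' := by
    have : (v : ℤ) ^ 5 * w = (v : ℤ) ^ 5 * w' := by linarith
    exact mul_left_cancel₀ (by positivity) this
  subst hw
  have hN : N = N' := by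
    have : (c : ℤ) ^ 2 * N = (c : ℤ) ^ 2 * N' := by
      have := H.t2
      have := H'.t2
      linarith
    have := mul_left_cancel₀ (by positivity) this
    exact_mod_cast this
  have hk : k = k' := by
    have : (v : ℤ) ^ 2 * k = (v : ℤ) ^ 2 * k' := by
      have := H.t3
      have := H'.t3
      linarith
    have := mul_left_cancel₀ (by positivity) this
    exact_mod_cast this
  rw [hN, hk]

private theorem wxc_mem (V x : ℕ) (hV : 1 ≤ V) (h1 : V ≤ x) (h2 : 1000 * x ≤ 1001 * V) :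
    x ∈ Finset.Ico V (2 * V) := by
  rw [Finset.mem_Ico]
  omega

/-- `m v` in `[V a, 1.001 V a]`, `v` in `[V, 1.001 V]` -/
private theorem wxc_m (V a v : ℕ) (m x : ℤ) (hV : 1 ≤ V) (ha : 10 ^ 6 ≤ a) (h1 : V ≤ v)
    (h2 : 1000 * v ≤ 1001 * V) (hx : x = v * m) (hx1 : (V : ℤ) * a ≤ x)
    (hx2 : 1000 * x ≤ 1001 * ((V : ℤ) * a)) :
    m ∈ Finset.Ioc ((a : ℤ) / 2) ((a : ℤ) / 2 + a) := by
  have hVp : (0 : ℤ) < V := by exact_mod_cast hV
  have h1' : (V : ℤ) ≤ v := by exact_mod_cast h1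
  have h2' : 1000 * (v : ℤ) ≤ 1001 * V := by exact_mod_cast h2
  have ha' : (10 : ℤ) ^ 6 ≤ a := by exact_mod_cast ha
  have hm : 0 < m := by
    by_contra hcon
    push Not at hcon
    have : (v : ℤ) * m ≤ 0 := mul_nonpos_of_nonneg_of_nonpos (by linarith) hcon
    have : 0 < (V : ℤ) * a := by positivity
    linarith
  have h3 : 1000 * (a : ℤ) ≤ 1001 * m := by
    have : (V : ℤ) * (1000 * a) ≤ V * (1001 * m) := by
      have : 1000 * (v : ℤ) * m ≤ 1001 * V * m := mul_le_mul_of_nonneg_right h2' hm.le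
      nlinarith
    exact le_of_mul_le_mul_left this hVp
  have h4 : 1000 * m ≤ 1001 * (a : ℤ) := by
    have : (V : ℤ) * (1000 * m) ≤ V * (1001 * a) := by
      have : (V : ℤ) * m ≤ v * m := mul_le_mul_of_nonneg_right h1' hm.le
      nlinarith
    exact le_of_mul_le_mul_left this hVp
  rw [Finset.mem_Ioc]
  omega

private theorem wxc_S1 (V a R P Z : ℕ) (T Q L : ℝ) (h : PW V a R P Z T Q L) (s : ℤ)
    (S : Finset Pt) (hS : ∀ q ∈ S, Frq V a s q ∧ ((q.2.2.2.1 : ℤ) ∣ q.2.2.2.2.1 ∧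
      (q.2.2.2.1 : ℤ) ∣ q.2.2.2.2.2.1)) :
    S.card ≤ V ^ 2 * a ^ 2 := by
  have hV1 : 1 ≤ V := by have := h.hV; omega
  have ha6 : 10 ^ 6 ≤ a := le_trans h.hV h.hVa
  have hcard : ((Finset.Ico V (2 * V)) ×ˢ ((Finset.Ico V (2 * V)) ×ˢ
      ((Finset.Ioc ((a : ℤ) / 2) ((a : ℤ) / 2 + a)) ×ˢ
      (Finset.Ioc ((a : ℤ) / 2) ((a : ℤ) / 2 + a))))).card = V ^ 2 * a ^ 2 := by
    rw [Finset.card_product, Finset.card_product, Finset.card_product, Nat.card_Ico, Int.card_Ioc]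
    have e1 : 2 * V - V = V := by omega
    have e2 : ((a : ℤ) / 2 + a - (a : ℤ) / 2).toNat = a := by
      rw [add_sub_cancel_left]
      exact Int.toNat_natCast a
    rw [e1, e2]
    ring
  rw [← hcard]
  refine Finset.card_le_card_of_injOn (fun q : Pt => (q.2.2.1, q.2.2.2.1,
    q.2.2.2.2.1 / (q.2.2.2.1 : ℤ), s * (q.2.2.2.2.2.1 / (q.2.2.2.1 : ℤ)))) ?_ ?_
  · intro q hq
    obtain ⟨hF, hd1, hd2⟩ := hS q hq
    have F : Fr V a s q.1 q.2.1 q.2.2.1 q.2.2.2.1 q.2.2.2.2.1 q.2.2.2.2.2.1 q.2.2.2.2.2.2.1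
      q.2.2.2.2.2.2.2 := hF
    simp only [Finset.coe_product, Set.mem_prod, Finset.mem_coe]
    refine ⟨wxc_mem V _ hV1 F.c1 F.c2, wxc_mem V _ hV1 F.v1 F.v2, ?_, ?_⟩
    · exact wxc_m V a q.2.2.2.1 _ q.2.2.2.2.1 hV1 ha6 F.v1 F.v2 (Int.mul_ediv_cancel' hd1).symm
        F.u1 F.u2
    · refine wxc_m V a q.2.2.2.1 _ (s * q.2.2.2.2.2.1) hV1 ha6 F.v1 F.v2 ?_ F.e1 F.e2
      have := Int.mul_ediv_cancel' hd2
      rw [mul_left_comm, this]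
  · intro q hq q' hq' hqq
    obtain ⟨hF, hd1, hd2⟩ := hS q hq
    obtain ⟨hF', hd1', hd2'⟩ := hS q' hq'
    have F : Fr V a s q.1 q.2.1 q.2.2.1 q.2.2.2.1 q.2.2.2.2.1 q.2.2.2.2.2.1 q.2.2.2.2.2.2.1
      q.2.2.2.2.2.2.2 := hF
    simp only [Prod.mk.injEq] at hqq
    obtain ⟨g1, g2, g3, g4⟩ := hqq
    have hs : s ≠ 0 := by rcases F.hs with hs | hs <;> rw [hs] <;> norm_num
    refine wxc0 V a R P Z T Q L h s q q' hF hF' g1 g2 ?_ ?_
    · rw [← Int.mul_ediv_cancel' hd1, ← Int.mul_ediv_cancel' hd1', g3, g2]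
    · have g4' := mul_left_cancel₀ hs g4
      rw [← Int.mul_ediv_cancel' hd2, ← Int.mul_ediv_cancel' hd2', g4', g2]

private theorem wxc_S2 (V a R P Z : ℕ) (T Q L : ℝ) (h : PW V a R P Z T Q L) (s : ℤ)
    (S : Finset Pt) (hS : ∀ q ∈ S, Frq V a s q ∧ (q.2.2.2.1 : ℤ) ^ 2 ∣ q.2.2.2.2.2.1) :
    S.card ≤ 2 * V ^ 2 * a ^ 2 := by
  have hV6 := h.hV
  have hV1 : 1 ≤ V := by omega
  have ha6 : 10 ^ 6 ≤ a := le_trans h.hV h.hVa
  have hK : (2 * a / V) * V ≤ 2 * a := Nat.div_mul_le_self _ _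
  have hcard : ((Finset.Ico V (2 * V)) ×ˢ ((Finset.Ico V (2 * V)) ×ˢ
      ((Finset.Ico ((V : ℤ) * a) ((V : ℤ) * a + (V * a : ℕ))) ×ˢ
      (Finset.Ioc (0 : ℤ) (2 * a / V : ℕ))))).card ≤ 2 * V ^ 2 * a ^ 2 := by
    rw [Finset.card_product, Finset.card_product, Finset.card_product, Nat.card_Ico, Int.card_Ioc,
      Int.card_Ico]
    have e1 : 2 * V - V = V := by omega
    have e2 : ((V : ℤ) * a + (V * a : ℕ) - (V : ℤ) * a).toNat = V * a := by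
      rw [add_sub_cancel_left]
      exact Int.toNat_natCast _
    have e3 : (((2 * a / V : ℕ) : ℤ) - 0).toNat = 2 * a / V := by
      rw [sub_zero]
      exact Int.toNat_natCast _
    rw [e1, e2, e3]
    calc V * (V * (V * a * (2 * a / V))) = V ^ 2 * a * ((2 * a / V) * V) := by ring
      _ ≤ V ^ 2 * a * (2 * a) := Nat.mul_le_mul_left _ hK
      _ = 2 * V ^ 2 * a ^ 2 := by ring
  refine le_trans ?_ hcard
  refine Finset.card_le_card_of_injOn (fun q : Pt => (q.2.2.1, q.2.2.2.1,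
    q.2.2.2.2.1, s * (q.2.2.2.2.2.1 / (q.2.2.2.1 : ℤ) ^ 2))) ?_ ?_
  · intro q hq
    obtain ⟨hF, hd⟩ := hS q hq
    have F : Fr V a s q.1 q.2.1 q.2.2.1 q.2.2.2.1 q.2.2.2.2.1 q.2.2.2.2.2.1 q.2.2.2.2.2.2.1
      q.2.2.2.2.2.2.2 := hF
    simp only [Finset.coe_product, Set.mem_prod, Finset.mem_coe]
    refine ⟨wxc_mem V _ hV1 F.c1 F.c2, wxc_mem V _ hV1 F.v1 F.v2, ?_, ?_⟩
    · rw [Finset.mem_Ico]
      have h1 := F.u1
      have h2 := F.u2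
      have h3 : (0 : ℤ) < (V : ℤ) * a := by
        have : (0 : ℕ) < V * a := by positivity
        exact_mod_cast this
      refine ⟨h1, ?_⟩
      push_cast
      linarith
    · set m : ℤ := s * (q.2.2.2.2.2.1 / (q.2.2.2.1 : ℤ) ^ 2) with hm
      have hx : s * q.2.2.2.2.2.1 = (q.2.2.2.1 : ℤ) ^ 2 * m := by
        rw [hm, mul_left_comm, Int.mul_ediv_cancel' hd]
      have h1 := F.e1
      have h2 := F.e2
      rw [hx] at h1 h2
      have hv1 : (V : ℤ) ≤ q.2.2.2.1 := by exact_mod_cast F.v1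
      have hVp : (0 : ℤ) < V := by exact_mod_cast hV1
      have hap : (0 : ℤ) < a := by
        have : 0 < a := by omega
        exact_mod_cast this
      have hm0 : 0 < m := by
        by_contra hcon
        push Not at hcon
        have h3 : ((q.2.2.2.1 : ℤ)) ^ 2 * m ≤ 0 :=
          mul_nonpos_of_nonneg_of_nonpos (by positivity) hcon
        have : 0 < (V : ℤ) * a := by positivity
        linarith
      have h5 : (V : ℤ) ^ 2 * m ≤ (q.2.2.2.1 : ℤ) ^ 2 * m :=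
        mul_le_mul_of_nonneg_right (pow_le_pow_left₀ hVp.le hv1 2) hm0.le
      have h6 : m * V ≤ 2 * a := by
        have h7 : (V : ℤ) * (1000 * (m * V)) ≤ V * (1001 * a) := by nlinarith
        have h8 := le_of_mul_le_mul_left h7 hVp
        linarith
      rw [Finset.mem_Ioc]
      refine ⟨hm0, ?_⟩
      push_cast
      exact (Int.le_ediv_iff_mul_le hVp).2 h6
  · intro q hq q' hq' hqq
    obtain ⟨hF, hd⟩ := hS q hq
    obtain ⟨hF', hd'⟩ := hS q' hq'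
    have F : Fr V a s q.1 q.2.1 q.2.2.1 q.2.2.2.1 q.2.2.2.2.1 q.2.2.2.2.2.1 q.2.2.2.2.2.2.1
      q.2.2.2.2.2.2.2 := hF
    simp only [Prod.mk.injEq] at hqq
    obtain ⟨g1, g2, g3, g4⟩ := hqq
    have hs : s ≠ 0 := by rcases F.hs with hs | hs <;> rw [hs] <;> norm_num
    refine wxc0 V a R P Z T Q L h s q q' hF hF' g1 g2 g3 ?_
    have g4' := mul_left_cancel₀ hs g4
    rw [← Int.mul_ediv_cancel' hd, ← Int.mul_ediv_cancel' hd', g4', g2]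

theorem wxc (V a R P Z : ℕ) (T Q L : ℝ) (h : PW V a R P Z T Q L) (s : ℤ) (S : Finset Pt)
    (hS : ∀ q ∈ S, Frq V a s q ∧ (((q.2.2.2.1 : ℤ) ∣ q.2.2.2.2.1 ∧
      (q.2.2.2.1 : ℤ) ∣ q.2.2.2.2.2.1) ∨ (q.2.2.2.1 : ℤ) ^ 2 ∣ q.2.2.2.2.2.1)) :
    (S.card : ℝ) ≤ 3 * (V : ℝ) ^ 2 * (a : ℝ) ^ 2 := by
  classical
  set S1 := S.filter (fun q : Pt => (q.2.2.2.1 : ℤ) ∣ q.2.2.2.2.1 ∧
      (q.2.2.2.1 : ℤ) ∣ q.2.2.2.2.2.1) with hS1
  set S2 := S.filter (fun q : Pt => (q.2.2.2.1 : ℤ) ^ 2 ∣ q.2.2.2.2.2.1) with hS2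
  have h1 := wxc_S1 V a R P Z T Q L h s S1 (fun q hq => by
    rw [hS1, Finset.mem_filter] at hq
    exact ⟨(hS q hq.1).1, hq.2⟩)
  have h2 := wxc_S2 V a R P Z T Q L h s S2 (fun q hq => by
    rw [hS2, Finset.mem_filter] at hq
    exact ⟨(hS q hq.1).1, hq.2⟩)
  have h3 : S ⊆ S1 ∪ S2 := by
    intro q hq
    rw [Finset.mem_union, hS1, hS2, Finset.mem_filter, Finset.mem_filter]
    rcases (hS q hq).2 with h4 | h4
    · exact Or.inl ⟨hq, h4⟩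
    · exact Or.inr ⟨hq, h4⟩
  have h4 : S.card ≤ S1.card + S2.card := (Finset.card_le_card h3).trans (Finset.card_union_le _ _)
  have h5 : S.card ≤ 3 * V ^ 2 * a ^ 2 := by
    have : 3 * V ^ 2 * a ^ 2 = V ^ 2 * a ^ 2 + 2 * V ^ 2 * a ^ 2 := by ring
    omega
  exact_mod_cast h5

end Pool.Agent.FTL
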