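import Pool.Agent.FTL.WXa
import Pool.Agent.FTL.WXb
import Pool.Agent.FTL.WXc

/-!
# FTL/WXs: the points with `v ∣ u` or `v ∣ e`

PROOF of `wxs`.  `S` is the union of the sets of `wxa` (`v ∣ u`, `v ∤ e`), `wxb` (`v ∤ u`, `v ∣ e`,
`v ^ 2 ∤ e`) and `wxc` (the rest).  `16 T a ^ 4 / V ≤ T V a ^ 3` as `16 a ≤ V ^ 2`;
`3 V ^ 2 a ^ 2 ≤ 3 T V a ^ 3` as `V ≤ a`, `T ≥ 1`.
-/

set_option autoImplicit false

namespace Pool.Agent.FTL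

open Pool.Agent.FTB

theorem wxs (V a R P Z : ℕ) (T Q L : ℝ) (h : PW V a R P Z T Q L) (s : ℤ) (S : Finset Pt)
    (hS : ∀ q ∈ S, Frq V a s q ∧ ((q.2.2.2.1 : ℤ) ∣ q.2.2.2.2.1 ∨
      (q.2.2.2.1 : ℤ) ∣ q.2.2.2.2.2.1)) :
    (S.card : ℝ) ≤ 8 * T * V * (a : ℝ) ^ 3 := by
  classical
  set A := S.filter (fun q => (q.2.2.2.1 : ℤ) ∣ q.2.2.2.2.1 ∧
      ¬ (q.2.2.2.1 : ℤ) ∣ q.2.2.2.2.2.1) with hA
  set B := S.filter (fun q => ¬ (q.2.2.2.1 : ℤ) ∣ q.2.2.2.2.1 ∧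
      (q.2.2.2.1 : ℤ) ∣ q.2.2.2.2.2.1 ∧ ¬ (q.2.2.2.1 : ℤ) ^ 2 ∣ q.2.2.2.2.2.1) with hB
  set C := S.filter (fun q => (((q.2.2.2.1 : ℤ) ∣ q.2.2.2.2.1 ∧
      (q.2.2.2.1 : ℤ) ∣ q.2.2.2.2.2.1) ∨ (q.2.2.2.1 : ℤ) ^ 2 ∣ q.2.2.2.2.2.1)) with hC
  have hsub : S ⊆ A ∪ B ∪ C := by
    intro q hq
    have h1 := (hS q hq).2
    simp only [hA, hB, hC, Finset.mem_union, Finset.mem_filter]
    by_cases hu : (q.2.2.2.1 : ℤ) ∣ q.2.2.2.2.1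
    · by_cases he : (q.2.2.2.1 : ℤ) ∣ q.2.2.2.2.2.1
      · exact Or.inr ⟨hq, Or.inl ⟨hu, he⟩⟩
      · exact Or.inl (Or.inl ⟨hq, hu, he⟩)
    · have he : (q.2.2.2.1 : ℤ) ∣ q.2.2.2.2.2.1 := h1.resolve_left hu
      by_cases h2 : (q.2.2.2.1 : ℤ) ^ 2 ∣ q.2.2.2.2.2.1
      · exact Or.inr ⟨hq, Or.inr h2⟩
      · exact Or.inl (Or.inr ⟨hq, hu, he, h2⟩)
  have hcard : (S.card : ℝ) ≤ A.card + B.card + C.card := by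
    have h1 := Finset.card_le_card hsub
    have h2 := Finset.card_union_le (A ∪ B) C
    have h3 := Finset.card_union_le A B
    have h4 : S.card ≤ A.card + B.card + C.card := by omega
    exact_mod_cast h4
  have bA := wxa V a R P Z T Q L h s A (fun q hq => by
    rw [hA, Finset.mem_filter] at hq
    exact ⟨(hS q hq.1).1, hq.2.1, hq.2.2⟩)
  have bB := wxb V a R P Z T Q L h s B (fun q hq => by
    rw [hB, Finset.mem_filter] at hq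
    exact ⟨(hS q hq.1).1, hq.2.1, hq.2.2.1, hq.2.2.2⟩)
  have bC := wxc V a R P Z T Q L h s C (fun q hq => by
    rw [hC, Finset.mem_filter] at hq
    exact ⟨(hS q hq.1).1, hq.2⟩)
  have hT1 : (1 : ℝ) ≤ T := h.hT.1
  have hV6 : (10 : ℝ) ^ 6 ≤ V := by exact_mod_cast h.hV
  have hVa : (V : ℝ) ≤ a := by exact_mod_cast h.hVa
  have haV : (10 : ℝ) ^ 5 * a ≤ (V : ℝ) ^ 2 := by exact_mod_cast h.haV
  have hV0 : (0 : ℝ) < V := by linarith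
  have ha0 : (0 : ℝ) < a := by linarith
  have h1 : 16 * T * (a : ℝ) ^ 4 / V ≤ T * V * (a : ℝ) ^ 3 := by
    rw [div_le_iff₀ hV0]
    have : 16 * (a : ℝ) ≤ (V : ℝ) ^ 2 := by nlinarith
    have h3 : 0 ≤ T * (a : ℝ) ^ 3 := by positivity
    calc 16 * T * (a : ℝ) ^ 4 = (16 * (a : ℝ)) * (T * (a : ℝ) ^ 3) := by ring
      _ ≤ (V : ℝ) ^ 2 * (T * (a : ℝ) ^ 3) := mul_le_mul_of_nonneg_right this h3
      _ = T * V * (a : ℝ) ^ 3 * V := by ring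
  have h2 : 3 * (V : ℝ) ^ 2 * (a : ℝ) ^ 2 ≤ 3 * (T * V * (a : ℝ) ^ 3) := by
    have h3 : 0 ≤ 3 * (V : ℝ) * (a : ℝ) ^ 2 := by positivity
    have h4 : (V : ℝ) ≤ T * a := by nlinarith
    calc 3 * (V : ℝ) ^ 2 * (a : ℝ) ^ 2 = (3 * (V : ℝ) * (a : ℝ) ^ 2) * V := by ring
      _ ≤ (3 * (V : ℝ) * (a : ℝ) ^ 2) * (T * a) := mul_le_mul_of_nonneg_left h4 h3
      _ = 3 * (T * V * (a : ℝ) ^ 3) := by ring
  linarith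

end Pool.Agent.FTL
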