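import Pool.Agent.FTL.WUp
import Pool.Agent.FTL.WLo
import Pool.Agent.FTL.WXs
import Pool.Agent.FTL.WSw
import Pool.Agent.FTL.WRg
import Pool.Agent.FTL.WPs
import Pool.Agent.FTL.WBd

/-!
# FTL/WCm: the good points

PROOF of `wcm`.  Let `S0` be the set of `low`, `A := a ^ 4 n / (R ^ 2 V ^ 2)`, and `S` the subset of
the good points (coprime, no common prime factor `p ≤ P`).  A bad point `q ∈ S0` is (`wcp`, `wbd`) in one
of the following sets: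
* `v ∣ u` or `v ∣ e`: at most `8 T V a ^ 3` points (`rg` gives `Fr V a 1`, then `wxs` with `s = 1`);
* `c ∣ u` or `c ∣ e`: the mirror images `mir q` (`mir_inj`, `mir_fr`) satisfy the hypothesis of `wxs` with
  `s = -1` (`v' = c`, `u' = e`, `e' = -u`): at most `8 T V a ^ 3` points;
* for a prime `p ≤ P` coprime to `R`: `p ∣ u` and `p ∣ w`: at most `A / (1000 p ^ 2) + Er p` points by
  `upp` with `s = 1`;
* for such a `p`: `p ∣ e` and `p ∣ z`: the same bound by `upp` with `s = -1` for the mirror images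
  (`u' = e`, `e' = -u`, `w' = -z`; `R ∣ u' - 1`, `R ∣ e' + 1`).
Sum over the primes `p ≤ P` coprime to `R` with `wps`: `2 A / (1000 z0) + 2 P Er P ≤
2 / 10 ^ 13 * A + 2 P Er P` (`er_mono`).  With `low` (`Er 1 ≤ Er P`):
`card S ≥ (5 / 10 ^ 12 - 2 / 10 ^ 13) A - (2 P + 1) Er P - 16 T V a ^ 3`.
-/

set_option autoImplicit false

namespace Pool.Agent.FTL

open Pool.Agent.FTB

theorem wcm_bound {S0 S B1 B2 : Finset Pt} {I : Finset ℕ} {C1 C2 : ℕ → Finset Pt}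
    (hcov : ∀ q ∈ S0, q ∈ S ∨ q ∈ B1 ∨ q ∈ B2 ∨ ∃ p ∈ I, q ∈ C1 p ∨ q ∈ C2 p) :
    (S0.card : ℝ) ≤ S.card + B1.card + B2.card + ∑ p ∈ I, (((C1 p).card : ℝ) + (C2 p).card) := by
  classical
  have hsub : S0 ⊆ ((S ∪ B1) ∪ B2) ∪ I.biUnion (fun p => C1 p ∪ C2 p) := by
    intro q hq
    rcases hcov q hq with h | h | h | ⟨p, hp, h⟩
    · exact Finset.mem_union_left _ (Finset.mem_union_left _ (Finset.mem_union_left _ h))
    · exact Finset.mem_union_left _ (Finset.mem_union_left _ (Finset.mem_union_right _ h))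
    · exact Finset.mem_union_left _ (Finset.mem_union_right _ h)
    · refine Finset.mem_union_right _ (Finset.mem_biUnion.mpr ⟨p, hp, ?_⟩)
      exact Finset.mem_union.mpr h
  have h1 := Finset.card_le_card hsub
  have h2 := Finset.card_union_le ((S ∪ B1) ∪ B2) (I.biUnion (fun p => C1 p ∪ C2 p))
  have h3 := Finset.card_union_le (S ∪ B1) B2
  have h4 := Finset.card_union_le S B1
  have h5 : (I.biUnion (fun p => C1 p ∪ C2 p)).card ≤ ∑ p ∈ I, ((C1 p).card + (C2 p).card) := by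
    refine Finset.card_biUnion_le.trans (Finset.sum_le_sum fun p _ => ?_)
    exact Finset.card_union_le _ _
  have h6 : S0.card ≤ S.card + B1.card + B2.card + ∑ p ∈ I, ((C1 p).card + (C2 p).card) := by
    omega
  exact_mod_cast h6

theorem wcm_mir {S : Finset Pt} : ∃ S' : Finset Pt, S'.card = S.card ∧ ∀ q ∈ S', ∃ q0 ∈ S,
    mir q0 = q := by
  classical
  refine ⟨S.image mir, Finset.card_image_of_injective _ mir_inj, ?_⟩
  intro q hq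
  exact Finset.mem_image.mp hq

theorem wcm (V a R P Z z0 : ℕ) (T Q L : ℝ) (h : PW V a R P Z T Q L) (hz0 : 10 ^ 10 ≤ z0)
    (hz : ∀ p : ℕ, p.Prime → p ≤ z0 → p ∣ R) :
    ∃ S : Finset Pt, (∀ q ∈ S, GPq V a q ∧
      IsCoprime ((q.2.2.1 : ℤ) * (q.2.2.2.1 : ℤ)) (q.2.2.2.2.1 * q.2.2.2.2.2.1) ∧
      ∀ p : ℕ, p.Prime → p ≤ P → ¬ (p ∣ q.1 ∧ p ∣ q.2.1)) ∧
      3 / 10 ^ 12 * ((a : ℝ) ^ 4 * (PP V).card / ((R : ℝ) ^ 2 * (V : ℝ) ^ 2)) -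
        (2 * (P : ℝ) + 1) * Er V a R T Q L P - 16 * T * V * (a : ℝ) ^ 3 ≤ S.card := by
  classical
  obtain ⟨S0, hS0, hc0⟩ := low V a R P Z T Q L h
  have hV : 1 ≤ V := le_trans (by norm_num) h.hV
  have ha : 1 ≤ a := hV.trans h.hVa
  have hT1 : (1 : ℝ) ≤ T := h.hT.1
  have hQ1 : (1 : ℝ) ≤ Q := h.hQ.1
  have hL0 : (0 : ℝ) ≤ L := by
    have h1 : (0 : ℝ) ≤ Real.log V := Real.log_nonneg (by exact_mod_cast hV)
    have h2 := h.hL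
    linarith
  have hfr : ∀ q ∈ S0, Frq V a 1 q := by
    intro q hq
    exact (rg V a _ _ _ _ _ _ _ _ hV ha (hS0 q hq).1).1
  have hmf : ∀ q ∈ S0, Frq V a (-1) (mir q) := fun q hq => mir_fr V a q (hfr q hq)
  obtain ⟨A, hA⟩ : ∃ A : ℝ, A = (a : ℝ) ^ 4 * (PP V).card / ((R : ℝ) ^ 2 * (V : ℝ) ^ 2) := ⟨_, rfl⟩
  have hA0 : 0 ≤ A := by rw [hA]; positivity
  -- the bad sets
  obtain ⟨B1, hB1⟩ : ∃ B : Finset Pt, B = S0.filter (fun q => (q.2.2.2.1 : ℤ) ∣ q.2.2.2.2.1 ∨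
      (q.2.2.2.1 : ℤ) ∣ q.2.2.2.2.2.1) := ⟨_, rfl⟩
  obtain ⟨B2, hB2⟩ : ∃ B : Finset Pt, B = S0.filter (fun q => (q.2.2.1 : ℤ) ∣ q.2.2.2.2.1 ∨
      (q.2.2.1 : ℤ) ∣ q.2.2.2.2.2.1) := ⟨_, rfl⟩
  have cB1 : (B1.card : ℝ) ≤ 8 * T * V * (a : ℝ) ^ 3 := by
    refine wxs V a R P Z T Q L h 1 B1 ?_
    intro q hq
    rw [hB1] at hq
    obtain ⟨h1, h2⟩ := Finset.mem_filter.mp hq
    exact ⟨hfr q h1, h2⟩
  have cB2 : (B2.card : ℝ) ≤ 8 * T * V * (a : ℝ) ^ 3 := by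
    obtain ⟨B', hc, hB'⟩ := wcm_mir (S := B2)
    rw [← hc]
    refine wxs V a R P Z T Q L h (-1) B' ?_
    intro q hq
    obtain ⟨q0, hq0, rfl⟩ := hB' q hq
    rw [hB2] at hq0
    obtain ⟨h1, h2⟩ := Finset.mem_filter.mp hq0
    refine ⟨hmf q0 h1, ?_⟩
    show (q0.2.2.1 : ℤ) ∣ q0.2.2.2.2.2.1 ∨ (q0.2.2.1 : ℤ) ∣ -q0.2.2.2.2.1
    rcases h2 with h2 | h2
    · exact Or.inr ((dvd_neg).mpr h2)
    · exact Or.inl h2
  obtain ⟨I, hI⟩ : ∃ I : Finset ℕ, I = (Finset.Icc 1 P).filter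
      (fun p => p.Prime ∧ Nat.Coprime p R) := ⟨_, rfl⟩
  obtain ⟨C1, hC1⟩ : ∃ C : ℕ → Finset Pt, C = fun p : ℕ => S0.filter (fun q =>
      (p : ℤ) ∣ q.2.2.2.2.1 ∧ (p : ℤ) ∣ q.2.2.2.2.2.2.1) := ⟨_, rfl⟩
  obtain ⟨C2, hC2⟩ : ∃ C : ℕ → Finset Pt, C = fun p : ℕ => S0.filter (fun q =>
      (p : ℤ) ∣ q.2.2.2.2.2.1 ∧ (p : ℤ) ∣ q.2.2.2.2.2.2.2) := ⟨_, rfl⟩
  have hIm : ∀ p ∈ I, p.Prime ∧ p ≤ P ∧ Nat.Coprime p R := by
    intro p hp
    rw [hI] at hp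
    obtain ⟨h1, h2, h3⟩ := Finset.mem_filter.mp hp
    exact ⟨h2, (Finset.mem_Icc.mp h1).2, h3⟩
  have cC1 : ∀ p ∈ I, ((C1 p).card : ℝ) ≤ 1 / 1000 * A / (p : ℝ) ^ 2 + Er V a R T Q L p := by
    intro p hp
    obtain ⟨h1, h2, h3⟩ := hIm p hp
    rw [hA]
    refine upp V a R P Z T Q L h p h1 h2 h3 1 (C1 p) ?_
    intro q hq
    rw [hC1] at hq
    obtain ⟨h4, h5, h6⟩ := Finset.mem_filter.mp hq
    obtain ⟨_, h7, h8⟩ := hS0 q h4
    exact ⟨hfr q h4, h7, h8, h5, h6⟩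
  have cC2 : ∀ p ∈ I, ((C2 p).card : ℝ) ≤ 1 / 1000 * A / (p : ℝ) ^ 2 + Er V a R T Q L p := by
    intro p hp
    obtain ⟨h1, h2, h3⟩ := hIm p hp
    rw [hA]
    obtain ⟨B', hc, hB'⟩ := wcm_mir (S := C2 p)
    rw [← hc]
    refine upp V a R P Z T Q L h p h1 h2 h3 (-1) B' ?_
    intro q hq
    obtain ⟨q0, hq0, rfl⟩ := hB' q hq
    rw [hC2] at hq0
    obtain ⟨h4, h5, h6⟩ := Finset.mem_filter.mp hq0
    obtain ⟨_, h7, h8⟩ := hS0 q0 h4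
    refine ⟨hmf q0 h4, ?_, ?_, ?_, ?_⟩
    · show (R : ℤ) ∣ q0.2.2.2.2.2.1 - 1
      exact h8
    · show (R : ℤ) ∣ -q0.2.2.2.2.1 - (-1)
      have : -q0.2.2.2.2.1 - (-1) = -(q0.2.2.2.2.1 - 1) := by ring
      rw [this]
      exact (dvd_neg).mpr h7
    · show (p : ℤ) ∣ q0.2.2.2.2.2.1
      exact h5
    · show (p : ℤ) ∣ -q0.2.2.2.2.2.2.2
      exact (dvd_neg).mpr h6
  -- the good points
  obtain ⟨S, hS⟩ : ∃ S : Finset Pt, S = S0.filter (fun q =>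
      IsCoprime ((q.2.2.1 : ℤ) * (q.2.2.2.1 : ℤ)) (q.2.2.2.2.1 * q.2.2.2.2.2.1) ∧
      ∀ p : ℕ, p.Prime → p ≤ P → ¬ (p ∣ q.1 ∧ p ∣ q.2.1)) := ⟨_, rfl⟩
  have hcov : ∀ q ∈ S0, q ∈ S ∨ q ∈ B1 ∨ q ∈ B2 ∨ ∃ p ∈ I, q ∈ C1 p ∨ q ∈ C2 p := by
    intro q hq
    by_cases h1 : q ∈ B1
    · exact Or.inr (Or.inl h1)
    by_cases h2 : q ∈ B2
    · exact Or.inr (Or.inr (Or.inl h2))
    by_cases h3 : ∃ p ∈ I, q ∈ C1 p ∨ q ∈ C2 p
    · exact Or.inr (Or.inr (Or.inr h3))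
    left
    rw [hS]
    obtain ⟨hG, hu, he⟩ := hS0 q hq
    have n1 : ¬ ((q.2.2.2.1 : ℤ) ∣ q.2.2.2.2.1 ∨ (q.2.2.2.1 : ℤ) ∣ q.2.2.2.2.2.1) := by
      intro h4
      apply h1
      rw [hB1]
      exact Finset.mem_filter.mpr ⟨hq, h4⟩
    have n2 : ¬ ((q.2.2.1 : ℤ) ∣ q.2.2.2.2.1 ∨ (q.2.2.1 : ℤ) ∣ q.2.2.2.2.2.1) := by
      intro h4
      apply h2
      rw [hB2]
      exact Finset.mem_filter.mpr ⟨hq, h4⟩
    refine Finset.mem_filter.mpr ⟨hq, ?_, ?_⟩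
    · refine wcp V a q hG ?_ ?_ ?_ ?_
      · exact fun h4 => n2 (Or.inl h4)
      · exact fun h4 => n2 (Or.inr h4)
      · exact fun h4 => n1 (Or.inl h4)
      · exact fun h4 => n1 (Or.inr h4)
    · intro p hp hpP hpd
      obtain ⟨h5, h6⟩ := wbd V a R P Z T Q L h q hG hu he p hp hpP hpd.1 hpd.2
      apply h3
      refine ⟨p, ?_, ?_⟩
      · rw [hI]
        exact Finset.mem_filter.mpr ⟨Finset.mem_Icc.mpr ⟨hp.one_lt.le, hpP⟩, hp, h5⟩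
      · rcases h6 with h6 | h6
        · left
          rw [hC1]
          exact Finset.mem_filter.mpr ⟨hq, h6⟩
        · right
          rw [hC2]
          exact Finset.mem_filter.mpr ⟨hq, h6⟩
  have hmain := wcm_bound hcov
  -- the sum over the primes
  have hEr0 : ∀ p : ℕ, 0 ≤ Er V a R T Q L p := by
    intro p
    unfold Er
    positivity
  have hsum : ∑ p ∈ I, (((C1 p).card : ℝ) + (C2 p).card) ≤
      2 * (1 / 1000 * A) * (1 / (z0 : ℝ)) + 2 * (P : ℝ) * Er V a R T Q L P := by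
    have h1 : ∑ p ∈ I, (((C1 p).card : ℝ) + (C2 p).card) ≤
        ∑ p ∈ I, (2 * (1 / 1000 * A) * (1 / (p : ℝ) ^ 2) + 2 * Er V a R T Q L P) := by
      refine Finset.sum_le_sum fun p hp => ?_
      have h2 := cC1 p hp
      have h3 := cC2 p hp
      have h4 := er_mono V a R T Q L (by linarith) (by linarith) hL0 p P (hIm p hp).2.1
      have h5 : 1 / 1000 * A / (p : ℝ) ^ 2 = 1 / 1000 * A * (1 / (p : ℝ) ^ 2) := by ring
      rw [h5] at h2 h3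
      linarith
    have h2 : ∑ p ∈ I, (2 * (1 / 1000 * A) * (1 / (p : ℝ) ^ 2) + 2 * Er V a R T Q L P) =
        2 * (1 / 1000 * A) * ∑ p ∈ I, (1 / (p : ℝ) ^ 2) + (I.card : ℝ) * (2 * Er V a R T Q L P) := by
      rw [Finset.sum_add_distrib, ← Finset.mul_sum, Finset.sum_const, nsmul_eq_mul]
    have h3 : ∑ p ∈ I, (1 / (p : ℝ) ^ 2) ≤ 1 / (z0 : ℝ) := by
      rw [hI]
      exact wps R P z0 (le_trans (by norm_num) hz0) hz
    have h4 : (I.card : ℝ) ≤ P := by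
      have h5 : I.card ≤ P := by
        rw [hI]
        refine (Finset.card_filter_le _ _).trans ?_
        rw [Nat.card_Icc]
        omega
      exact_mod_cast h5
    have h5 : 2 * (1 / 1000 * A) * ∑ p ∈ I, (1 / (p : ℝ) ^ 2) ≤
        2 * (1 / 1000 * A) * (1 / (z0 : ℝ)) := mul_le_mul_of_nonneg_left h3 (by positivity)
    have h6 : (I.card : ℝ) * (2 * Er V a R T Q L P) ≤ (P : ℝ) * (2 * Er V a R T Q L P) :=
      mul_le_mul_of_nonneg_right h4 (by have := hEr0 P; linarith)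
    linarith
  have hz1 : 2 * (1 / 1000 * A) * (1 / (z0 : ℝ)) ≤ 2 / 10 ^ 13 * A := by
    have h1 : (10 : ℝ) ^ 10 ≤ (z0 : ℝ) := by exact_mod_cast hz0
    have h2 : 1 / (z0 : ℝ) ≤ 1 / 10 ^ 10 := one_div_le_one_div_of_le (by norm_num) h1
    have h3 := mul_le_mul_of_nonneg_left h2 (show (0 : ℝ) ≤ 2 * (1 / 1000 * A) by positivity)
    refine h3.trans (le_of_eq ?_)
    ring
  have hE1 : Er V a R T Q L 1 ≤ Er V a R T Q L P :=
    er_mono V a R T Q L (by linarith) (by linarith) hL0 1 P h.hP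
  refine ⟨S, ?_, ?_⟩
  · intro q hq
    rw [hS] at hq
    obtain ⟨h1, h2, h3⟩ := Finset.mem_filter.mp hq
    exact ⟨(hS0 q h1).1, h2, h3⟩
  · rw [← hA] at hc0 ⊢
    have e1 : (2 * (P : ℝ) + 1) * Er V a R T Q L P =
        2 * (P : ℝ) * Er V a R T Q L P + Er V a R T Q L P := by ring
    rw [e1]
    linarith

end Pool.Agent.FTL
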