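import Pool.Agent.FTB.Bas

/-!
# FTL/WFa: the Fejer kernel, lower bound for the sum over all points

PROOF of `wfa`.  For complex numbers `‖w‖ ^ 2 = w * conj w`, so (with `t x = θ x - t0`)
`∑ x, ‖∑ j ∈ range m, ex (j t x)‖ ^ 2 = ∑ i, ∑ j, ∑ x, ex ((i - j) t x)` (`ex_conj`, `ex_add`), a real
number.  The diagonal gives `m * card S`.  For `i ≠ j` the absolute value of the inner sum is
`‖ex (-(i - j) t0) * ∑ x, ex ((i - j) θ x)‖ = ‖∑ x, ex (|i - j| θ x)‖` (for `i < j` the sum is the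
complex conjugate), and every `d = |i - j| ∈ Ico 1 m` occurs for at most `2 m` pairs.  So the real part
is at least `m card S - 2 m ∑ d ∈ Ico 1 m, ‖∑ x ∈ S, ex (d θ x)‖`.
(Compare `Pool/Agent/FTB/FjB.lean`, where the same expansion is used for an upper bound.)
-/

set_option autoImplicit false

namespace Pool.Agent.FTL

open Pool.Agent.FTB

private theorem WFa_row (F : ℕ → ℝ) (hF : ∀ d, 0 ≤ F d) (m i : ℕ) (hi : i < m) :
    ∑ j ∈ Finset.range m, (if j ≤ i then F (i - j) else F (j - i)) ≤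
      F 0 + 2 * ∑ d ∈ Finset.Ico 1 m, F d := by
  have h1 : ∑ j ∈ Finset.range m, (if j ≤ i then F (i - j) else F (j - i)) =
      ∑ j ∈ Finset.range (i + 1), F (i - j) + ∑ j ∈ Finset.Ico (i + 1) m, F (j - i) := by
    rw [← Finset.sum_range_add_sum_Ico _ (by omega : i + 1 ≤ m)]
    congr 1
    · refine Finset.sum_congr rfl fun j hj => ?_
      rw [if_pos (by have := Finset.mem_range.1 hj; omega)]
    · refine Finset.sum_congr rfl fun j hj => ?_
      rw [if_neg (by have := Finset.mem_Ico.1 hj; omega)]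
  have h2 : ∑ j ∈ Finset.range (i + 1), F (i - j) = ∑ d ∈ Finset.range (i + 1), F d := by
    have := Finset.sum_range_reflect F (i + 1)
    rw [← this]
    refine Finset.sum_congr rfl fun j hj => ?_
    congr 1
  have h3 : ∑ d ∈ Finset.range (i + 1), F d ≤ F 0 + ∑ d ∈ Finset.Ico 1 m, F d := by
    have e : ∑ d ∈ Finset.range m, F d = F 0 + ∑ d ∈ Finset.Ico 1 m, F d := by
      rw [← Finset.sum_range_add_sum_Ico F (by omega : 1 ≤ m), Finset.sum_range_one]
    rw [← e]
    exact Finset.sum_le_sum_of_subset_of_nonneg (Finset.range_mono (by omega))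
      (fun d _ _ => hF d)
  have h4 : ∑ j ∈ Finset.Ico (i + 1) m, F (j - i) ≤ ∑ d ∈ Finset.Ico 1 m, F d := by
    have e : ∑ j ∈ Finset.Ico (i + 1) m, F (j - i) = ∑ d ∈ Finset.Ico 1 (m - i), F d := by
      refine Finset.sum_bij' (fun j _ => j - i) (fun d _ => d + i) ?_ ?_ ?_ ?_ ?_
      · intro j hj
        have := Finset.mem_Ico.1 hj
        rw [Finset.mem_Ico]
        omega
      · intro d hd
        have := Finset.mem_Ico.1 hd
        rw [Finset.mem_Ico]
        omega
      · intro j hj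
        have := Finset.mem_Ico.1 hj
        omega
      · intro d hd
        omega
      · intro j hj
        rfl
    rw [e]
    refine Finset.sum_le_sum_of_subset_of_nonneg ?_ (fun d _ _ => hF d)
    intro d hd
    have := Finset.mem_Ico.1 hd
    rw [Finset.mem_Ico]
    omega
  rw [h1, h2]
  linarith

private theorem WFa_norm {α : Type*} (S : Finset α) (θ : α → ℝ) (i j : ℕ) :
    ‖∑ x ∈ S, ex ((i : ℝ) * θ x) * (starRingEnd ℂ) (ex ((j : ℝ) * θ x))‖ =
      if j ≤ i then ‖∑ x ∈ S, ex (((i - j : ℕ) : ℝ) * θ x)‖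
      else ‖∑ x ∈ S, ex (((j - i : ℕ) : ℝ) * θ x)‖ := by
  split_ifs with h
  · congr 1
    refine Finset.sum_congr rfl fun x _ => ?_
    rw [ex_conj, ← ex_add]
    congr 1
    rw [Nat.cast_sub h]
    ring
  · have h' : i ≤ j := by omega
    rw [← Complex.norm_conj, map_sum]
    congr 1
    refine Finset.sum_congr rfl fun x _ => ?_
    rw [map_mul, Complex.conj_conj, ex_conj, ← ex_add]
    congr 1
    rw [Nat.cast_sub h']
    ring

private theorem WFa_shift {α : Type*} (S : Finset α) (θ : α → ℝ) (t0 : ℝ) (d : ℕ) :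
    ‖∑ x ∈ S, ex ((d : ℝ) * (θ x - t0))‖ = ‖∑ x ∈ S, ex ((d : ℝ) * θ x)‖ := by
  have : ∑ x ∈ S, ex ((d : ℝ) * (θ x - t0)) = ex (-((d : ℝ) * t0)) * ∑ x ∈ S, ex ((d : ℝ) * θ x) := by
    rw [Finset.mul_sum]
    refine Finset.sum_congr rfl fun x _ => ?_
    rw [← ex_add]
    congr 1
    ring
  rw [this, norm_mul, norm_ex, one_mul]

theorem wfa {α : Type*} (S : Finset α) (θ : α → ℝ) (t0 : ℝ) (m : ℕ) (hm : 1 ≤ m) :
    (m : ℝ) * S.card - 2 * m * ∑ d ∈ Finset.Ico 1 m, ‖∑ x ∈ S, ex ((d : ℝ) * θ x)‖ ≤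
      ∑ x ∈ S, ‖∑ j ∈ Finset.range m, ex ((j : ℝ) * (θ x - t0))‖ ^ 2 := by
  classical
  set τ : α → ℝ := fun x => θ x - t0 with hτ
  set F : ℕ → ℝ := fun d => if d = 0 then 0 else ‖∑ x ∈ S, ex ((d : ℝ) * θ x)‖ with hF
  have hF0 : ∀ d, 0 ≤ F d := by
    intro d
    simp only [hF]
    split_ifs
    · exact le_refl _
    · exact norm_nonneg _
  set G : ℕ → ℕ → ℂ := fun i j =>
    ∑ x ∈ S, ex ((i : ℝ) * τ x) * (starRingEnd ℂ) (ex ((j : ℝ) * τ x)) with hG
  have e : ((∑ x ∈ S, ‖∑ j ∈ Finset.range m, ex ((j : ℝ) * τ x)‖ ^ 2 : ℝ) : ℂ) =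
      ∑ i ∈ Finset.range m, ∑ j ∈ Finset.range m, G i j := by
    have e1 : ∀ x, ((‖∑ j ∈ Finset.range m, ex ((j : ℝ) * τ x)‖ ^ 2 : ℝ) : ℂ) =
        ∑ i ∈ Finset.range m, ∑ j ∈ Finset.range m,
          ex ((i : ℝ) * τ x) * (starRingEnd ℂ) (ex ((j : ℝ) * τ x)) := by
      intro x
      rw [← Finset.sum_mul_sum, ← map_sum, Complex.mul_conj']
      push_cast
      rfl
    rw [Complex.ofReal_sum, Finset.sum_congr rfl (fun x _ => e1 x), Finset.sum_comm]
    refine Finset.sum_congr rfl fun i _ => ?_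
    rw [Finset.sum_comm]
  have e2 : ∑ x ∈ S, ‖∑ j ∈ Finset.range m, ex ((j : ℝ) * τ x)‖ ^ 2 =
      ∑ i ∈ Finset.range m, ∑ j ∈ Finset.range m, (G i j).re := by
    have := congrArg Complex.re e
    rw [Complex.ofReal_re, Complex.re_sum] at this
    rw [this]
    refine Finset.sum_congr rfl fun i _ => ?_
    rw [Complex.re_sum]
  have h1 : ∀ i j : ℕ, (if j = i then (S.card : ℝ) else 0) -
      (if j ≤ i then F (i - j) else F (j - i)) ≤ (G i j).re := by
    intro i j
    by_cases hij : j = i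
    · subst hij
      rw [if_pos rfl, if_pos (le_refl _), Nat.sub_self]
      have hFz : F 0 = 0 := by simp [hF]
      rw [hFz, sub_zero]
      have : G j j = (S.card : ℂ) := by
        simp only [hG]
        have : ∀ x ∈ S, ex ((j : ℝ) * τ x) * (starRingEnd ℂ) (ex ((j : ℝ) * τ x)) = 1 := by
          intro x _
          rw [ex_conj, ← ex_add, add_neg_cancel, ex_zero]
        rw [Finset.sum_congr rfl this]
        simp
      rw [this, Complex.natCast_re]
    · rw [if_neg hij]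
      have h2 : ‖G i j‖ = (if j ≤ i then F (i - j) else F (j - i)) := by
        simp only [hG]
        rw [WFa_norm S τ i j]
        split_ifs with h
        · simp only [hF, hτ]
          rw [if_neg (by omega), WFa_shift]
        · simp only [hF, hτ]
          rw [if_neg (by omega), WFa_shift]
      rw [← h2, zero_sub]
      have := Complex.abs_re_le_norm (G i j)
      have := (abs_le.1 this).1
      linarith
  have h3 : ∀ i ∈ Finset.range m, (S.card : ℝ) - 2 * ∑ d ∈ Finset.Ico 1 m, F d ≤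
      ∑ j ∈ Finset.range m, (G i j).re := by
    intro i hi
    have h4 := Finset.sum_le_sum (fun j (_ : j ∈ Finset.range m) => h1 i j)
    rw [Finset.sum_sub_distrib, Finset.sum_ite_eq' (Finset.range m) i, if_pos hi] at h4
    have h5 := WFa_row F hF0 m i (Finset.mem_range.1 hi)
    have hFz : F 0 = 0 := by simp [hF]
    rw [hFz, zero_add] at h5
    linarith
  have h6 := Finset.sum_le_sum h3
  rw [Finset.sum_const, Finset.card_range, nsmul_eq_mul, ← e2] at h6
  have h7 : ∑ d ∈ Finset.Ico 1 m, F d = ∑ d ∈ Finset.Ico 1 m, ‖∑ x ∈ S, ex ((d : ℝ) * θ x)‖ := by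
    refine Finset.sum_congr rfl fun d hd => ?_
    have := Finset.mem_Ico.1 hd
    simp only [hF]
    rw [if_neg (by omega)]
  rw [h7] at h6
  calc _ = (m : ℝ) * ((S.card : ℝ) - 2 * ∑ d ∈ Finset.Ico 1 m, ‖∑ x ∈ S, ex ((d : ℝ) * θ x)‖) := by
        ring
    _ ≤ _ := h6

end Pool.Agent.FTL
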