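import Pool.Agent.FTB.Geo
import Pool.Agent.FTB.FjB

/-!
# FTL/WFb: the Fejer kernel, the points far from `t0`

Put `Σ = ∑ d ∈ Ico 1 m, ‖∑ x ∈ S, ex (d θ x)‖`.
PROOF of `wfb1`: `Pool.Agent.FTB.geo` with the interval `[0, m - 1]` (`L` with `m - 1 ≤ 2 L`, e.g. `L = m`), or
directly; in both cases of `gm` the bound is at most `1 / (2 dn t)` if `dn t > 0`: in the first case
`2 L + 1 ≤ 1 / (2 dn t)` because `2 (2 L + 1) dn t ≤ 1`.
PROOF of `wfb2`: `Pool.Agent.FTB.fjb` with `θ x - s0` in place of `θ x`: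
`‖∑ x, ex (j (θ x - s0))‖ = ‖ex (-j s0) * ∑ x, ex (j θ x)‖ = ‖∑ x, ex (j θ x)‖` (`norm_ex`).
PROOF of `wfb`.  For `x` with `δ x = dn (θ x - t0) > η` let `i = ⌊2 m δ x⌋₊`; `32 ≤ i ≤ m` as
`2 m η ≥ 32` and `δ x ≤ 1 / 2`.  By `wfb1` the summand is `≤ 1 / (4 δ x ^ 2) ≤ m ^ 2 / i ^ 2`
(`δ x ≥ i / (2 m)`).  The `x` with a given `i` satisfy `|(θ x - t0) - n| ∈ [i / (2 m), (i + 1) / (2 m)]` for an
integer `n`, so `|θ x - s0 - n| ≤ 1 / (4 m)` with `s0 = t0 + (2 i + 1) / (4 m)` or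
`s0 = t0 - (2 i + 1) / (4 m)`; by `wfb2` there are at most `2 * 2 / m * (card S + 2 Σ)` of them.  So the
sum is at most `∑ i ∈ Icc 32 m, (4 / m) (card S + 2 Σ) m ^ 2 / i ^ 2 ≤ 4 m (card S + 2 Σ) / 31`
(`∑_{i ≥ 32} 1 / i ^ 2 ≤ 1 / 31`, telescoping).
-/

set_option autoImplicit false

namespace Pool.Agent.FTL

open Pool.Agent.FTB

theorem wfb1 (m : ℕ) (t : ℝ) (ht : 0 < dn t) :
    ‖∑ j ∈ Finset.range m, ex ((j : ℝ) * t)‖ ≤ 1 / (2 * dn t) := by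
  have e : ∑ j ∈ Finset.range m, ex ((j : ℝ) * t) =
      ∑ n ∈ Finset.Icc (0 : ℤ) ((m : ℤ) - 1), ex ((n : ℝ) * t) := by
    refine Finset.sum_bij' (fun j _ => (j : ℤ)) (fun n _ => n.toNat) ?_ ?_ ?_ ?_ ?_
    · intro j hj
      have := Finset.mem_range.mp hj
      refine Finset.mem_Icc.mpr ⟨?_, ?_⟩ <;> omega
    · intro n hn
      have := Finset.mem_Icc.mp hn
      refine Finset.mem_range.mpr ?_
      omega
    · intro j hj
      simp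
    · intro n hn
      have := Finset.mem_Icc.mp hn
      exact Int.toNat_of_nonneg this.1
    · intro j hj
      simp
  rw [e]
  refine (geo 0 ((m : ℤ) - 1) t m (by omega)).trans ?_
  unfold gm
  split_ifs with hc
  · rw [le_div_iff₀ (by positivity)]
    linarith
  · exact le_refl _

theorem wfb2 {α : Type*} (S T : Finset α) (θ : α → ℝ) (s0 : ℝ) (m : ℕ) (hm : 1 ≤ m)
    (hTS : T ⊆ S) (hT : ∀ x ∈ T, ∃ n : ℤ, |θ x - s0 - n| ≤ 1 / (4 * (m : ℝ))) :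
    (T.card : ℝ) ≤ 2 / (m : ℝ) *
      ((S.card : ℝ) + 2 * ∑ j ∈ Finset.Ico 1 m, ‖∑ x ∈ S, ex ((j : ℝ) * θ x)‖) := by
  have h1 := fjb S T (fun x => θ x - s0) m hm hTS hT
  have h2 : ∀ j : ℕ, ‖∑ x ∈ S, ex ((j : ℝ) * (θ x - s0))‖ = ‖∑ x ∈ S, ex ((j : ℝ) * θ x)‖ := by
    intro j
    have h3 : ∑ x ∈ S, ex ((j : ℝ) * (θ x - s0)) =
        ex (-((j : ℝ) * s0)) * ∑ x ∈ S, ex ((j : ℝ) * θ x) := by
      rw [Finset.mul_sum]
      refine Finset.sum_congr rfl fun x _ => ?_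
      rw [← ex_add]
      congr 1
      ring
    rw [h3, norm_mul, norm_ex, one_mul]
  have h4 : ∑ j ∈ Finset.Ico 1 m, ‖∑ x ∈ S, ex ((j : ℝ) * (θ x - s0))‖ =
      ∑ j ∈ Finset.Ico 1 m, ‖∑ x ∈ S, ex ((j : ℝ) * θ x)‖ :=
    Finset.sum_congr rfl fun j _ => h2 j
  rw [← h4]
  exact h1

theorem wfb_sum (m : ℕ) : ∑ i ∈ Finset.Icc 32 m, (1 : ℝ) / (i : ℝ) ^ 2 ≤ 1 / 31 := by
  rcases le_or_gt 31 m with h | h
  · have h1 := sum_Ioc_inv_sq_le_sub (α := ℝ) (k := 31) (n := m) (by norm_num) h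
    have h2 : Finset.Icc 32 m = Finset.Ioc 31 m := by
      ext x
      simp only [Finset.mem_Icc, Finset.mem_Ioc]
      omega
    have h3 : ∑ i ∈ Finset.Ioc 31 m, (1 : ℝ) / (i : ℝ) ^ 2 =
        ∑ i ∈ Finset.Ioc 31 m, ((i : ℝ) ^ 2)⁻¹ := by
      refine Finset.sum_congr rfl fun i _ => ?_
      rw [one_div]
    have h4 : (0 : ℝ) ≤ ((m : ℝ))⁻¹ := by positivity
    rw [h2, h3]
    refine h1.trans ?_
    push_cast
    linarith
  · rw [Finset.Icc_eq_empty (by omega), Finset.sum_empty]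
    norm_num

open Classical in
theorem wfb_fib {α : Type*} (S : Finset α) (θ : α → ℝ) (t0 : ℝ) (m i : ℕ) (hm : 1 ≤ m)
    (T : Finset α) (hTS : T ⊆ S) (hT1 : ∀ x ∈ T, (i : ℝ) ≤ 2 * m * dn (θ x - t0))
    (hT2 : ∀ x ∈ T, 2 * m * dn (θ x - t0) ≤ (i : ℝ) + 1) :
    (T.card : ℝ) ≤ 4 / (m : ℝ) *
      ((S.card : ℝ) + 2 * ∑ j ∈ Finset.Ico 1 m, ‖∑ x ∈ S, ex ((j : ℝ) * θ x)‖) := by
  have hm0 : (0 : ℝ) < m := by exact_mod_cast hm
  obtain ⟨K, hK⟩ : ∃ K : ℝ, K = (S.card : ℝ) +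
      2 * ∑ j ∈ Finset.Ico 1 m, ‖∑ x ∈ S, ex ((j : ℝ) * θ x)‖ := ⟨_, rfl⟩
  have key : ∀ d : ℝ, (i : ℝ) ≤ 2 * m * d → 2 * m * d ≤ (i : ℝ) + 1 →
      |d - (2 * (i : ℝ) + 1) / (4 * m)| ≤ 1 / (4 * (m : ℝ)) := by
    intro d h1 h2
    have e : d - (2 * (i : ℝ) + 1) / (4 * m) = (4 * m * d - (2 * i + 1)) / (4 * m) := by
      field_simp
    rw [e, abs_div, abs_of_pos (show (0 : ℝ) < 4 * m by positivity)]
    refine div_le_div_of_nonneg_right ?_ (by positivity)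
    rw [abs_le]
    constructor <;> linarith
  have h1 : ((T.filter (fun x => 0 ≤ θ x - t0 - round (θ x - t0))).card : ℝ) ≤ 2 / (m : ℝ) * K := by
    rw [hK]
    refine wfb2 S _ θ (t0 + (2 * (i : ℝ) + 1) / (4 * m)) m hm
      ((Finset.filter_subset _ _).trans hTS) ?_
    intro x hx
    obtain ⟨hxT, hx0⟩ := Finset.mem_filter.mp hx
    refine ⟨round (θ x - t0), ?_⟩
    have hd : dn (θ x - t0) = θ x - t0 - round (θ x - t0) := abs_of_nonneg hx0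
    have h2 := key _ (hT1 x hxT) (hT2 x hxT)
    rw [hd] at h2
    have e : θ x - (t0 + (2 * (i : ℝ) + 1) / (4 * m)) - (round (θ x - t0) : ℤ) =
        θ x - t0 - round (θ x - t0) - (2 * (i : ℝ) + 1) / (4 * m) := by ring
    rw [e]
    exact h2
  have h2 : ((T.filter (fun x => ¬ (0 ≤ θ x - t0 - round (θ x - t0)))).card : ℝ) ≤
      2 / (m : ℝ) * K := by
    rw [hK]
    refine wfb2 S _ θ (t0 - (2 * (i : ℝ) + 1) / (4 * m)) m hm
      ((Finset.filter_subset _ _).trans hTS) ?_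
    intro x hx
    obtain ⟨hxT, hx0⟩ := Finset.mem_filter.mp hx
    refine ⟨round (θ x - t0), ?_⟩
    have hd : dn (θ x - t0) = -(θ x - t0 - round (θ x - t0)) := abs_of_neg (not_le.mp hx0)
    have h2 := key _ (hT1 x hxT) (hT2 x hxT)
    rw [hd] at h2
    have e : θ x - (t0 - (2 * (i : ℝ) + 1) / (4 * m)) - (round (θ x - t0) : ℤ) =
        -(-(θ x - t0 - round (θ x - t0)) - (2 * (i : ℝ) + 1) / (4 * m)) := by ring
    rw [e, abs_neg]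
    exact h2
  have h3 : T.card = (T.filter (fun x => 0 ≤ θ x - t0 - round (θ x - t0))).card +
      (T.filter (fun x => ¬ (0 ≤ θ x - t0 - round (θ x - t0)))).card :=
    (Finset.card_filter_add_card_filter_not _).symm
  rw [← hK, h3]
  push_cast
  have e : 4 / (m : ℝ) * K = 2 / (m : ℝ) * K + 2 / (m : ℝ) * K := by ring
  rw [e]
  exact add_le_add h1 h2

open Classical in
theorem wfb {α : Type*} (S : Finset α) (θ : α → ℝ) (t0 η : ℝ) (m : ℕ) (hm : 1 ≤ m)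
    (hη : 16 ≤ m * η) :
    ∑ x ∈ S.filter (fun x => η < dn (θ x - t0)),
        ‖∑ j ∈ Finset.range m, ex ((j : ℝ) * (θ x - t0))‖ ^ 2 ≤
      4 * (m : ℝ) / 31 *
        ((S.card : ℝ) + 2 * ∑ j ∈ Finset.Ico 1 m, ‖∑ x ∈ S, ex ((j : ℝ) * θ x)‖) := by
  have hm0 : (0 : ℝ) < m := by exact_mod_cast hm
  have hη0 : 0 < η := by
    by_contra hle
    have : (m : ℝ) * η ≤ 0 := mul_nonpos_of_nonneg_of_nonpos hm0.le (not_lt.mp hle)
    linarith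
  obtain ⟨K, hK⟩ : ∃ K : ℝ, K = (S.card : ℝ) +
      2 * ∑ j ∈ Finset.Ico 1 m, ‖∑ x ∈ S, ex ((j : ℝ) * θ x)‖ := ⟨_, rfl⟩
  have hK0 : 0 ≤ K := by
    rw [hK]
    have : 0 ≤ ∑ j ∈ Finset.Ico 1 m, ‖∑ x ∈ S, ex ((j : ℝ) * θ x)‖ :=
      Finset.sum_nonneg fun j _ => norm_nonneg _
    positivity
  obtain ⟨F, hF⟩ : ∃ F : Finset α, F = S.filter (fun x => η < dn (θ x - t0)) := ⟨_, rfl⟩
  obtain ⟨ι, hι⟩ : ∃ ι : α → ℕ, ι = fun x => ⌊2 * (m : ℝ) * dn (θ x - t0)⌋₊ := ⟨_, rfl⟩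
  have hFm : ∀ x ∈ F, x ∈ S ∧ η < dn (θ x - t0) := by
    intro x hx
    rw [hF] at hx
    exact Finset.mem_filter.mp hx
  have hlo : ∀ x ∈ F, (ι x : ℝ) ≤ 2 * m * dn (θ x - t0) := by
    intro x hx
    have h0 := (hFm x hx).2
    rw [hι]
    refine Nat.floor_le ?_
    have := dn_nonneg (θ x - t0)
    positivity
  have hhi : ∀ x ∈ F, 2 * m * dn (θ x - t0) ≤ (ι x : ℝ) + 1 := by
    intro x hx
    rw [hι]
    exact (Nat.lt_floor_add_one _).le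
  have hmap : ∀ x ∈ F, ι x ∈ Finset.Icc 32 m := by
    intro x hx
    obtain ⟨_, h0⟩ := hFm x hx
    rw [Finset.mem_Icc]
    constructor
    · rw [hι]
      refine Nat.le_floor ?_
      push_cast
      have := mul_lt_mul_of_pos_left h0 hm0
      linarith
    · have h1 := hlo x hx
      have h2 := dn_le_half (θ x - t0)
      have h3 : (ι x : ℝ) ≤ m := by
        have := mul_le_mul_of_nonneg_left h2 hm0.le
        linarith
      exact_mod_cast h3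
  have hterm : ∀ x ∈ F, ‖∑ j ∈ Finset.range m, ex ((j : ℝ) * (θ x - t0))‖ ^ 2 ≤
      (m : ℝ) ^ 2 * (1 / (ι x : ℝ) ^ 2) := by
    intro x hx
    obtain ⟨_, h0⟩ := hFm x hx
    have hd : 0 < dn (θ x - t0) := hη0.trans h0
    have h1 := wfb1 m (θ x - t0) hd
    have hi : (0 : ℝ) < (ι x : ℝ) := by
      have := (Finset.mem_Icc.mp (hmap x hx)).1
      exact_mod_cast (by omega : 0 < ι x)
    have h2 : 1 / (2 * dn (θ x - t0)) ≤ (m : ℝ) / (ι x : ℝ) := by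
      rw [div_le_div_iff₀ (by positivity) hi]
      have := hlo x hx
      linarith
    have h3 := pow_le_pow_left₀ (norm_nonneg _) (h1.trans h2) 2
    refine h3.trans (le_of_eq ?_)
    rw [div_pow]
    ring
  have h1 : ∑ x ∈ F, ‖∑ j ∈ Finset.range m, ex ((j : ℝ) * (θ x - t0))‖ ^ 2 ≤
      ∑ x ∈ F, (m : ℝ) ^ 2 * (1 / (ι x : ℝ) ^ 2) := Finset.sum_le_sum hterm
  have h2 : ∑ x ∈ F, (m : ℝ) ^ 2 * (1 / (ι x : ℝ) ^ 2) =
      ∑ i ∈ Finset.Icc 32 m, ∑ x ∈ F.filter (fun x => ι x = i),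
        (m : ℝ) ^ 2 * (1 / (ι x : ℝ) ^ 2) :=
    (Finset.sum_fiberwise_of_maps_to hmap _).symm
  have h3 : ∀ i ∈ Finset.Icc 32 m, ∑ x ∈ F.filter (fun x => ι x = i),
        (m : ℝ) ^ 2 * (1 / (ι x : ℝ) ^ 2) ≤ 4 * m * K * (1 / (i : ℝ) ^ 2) := by
    intro i hi
    have h4 : ∑ x ∈ F.filter (fun x => ι x = i), (m : ℝ) ^ 2 * (1 / (ι x : ℝ) ^ 2) =
        ∑ x ∈ F.filter (fun x => ι x = i), (m : ℝ) ^ 2 * (1 / (i : ℝ) ^ 2) := by
      refine Finset.sum_congr rfl fun x hx => ?_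
      rw [(Finset.mem_filter.mp hx).2]
    rw [h4, Finset.sum_const, nsmul_eq_mul]
    have h5 : ((F.filter (fun x => ι x = i)).card : ℝ) ≤ 4 / (m : ℝ) * K := by
      rw [hK]
      refine wfb_fib S θ t0 m i hm _ ?_ ?_ ?_
      · intro x hx
        exact (hFm x (Finset.mem_filter.mp hx).1).1
      · intro x hx
        obtain ⟨h6, h7⟩ := Finset.mem_filter.mp hx
        rw [← h7]
        exact hlo x h6
      · intro x hx
        obtain ⟨h6, h7⟩ := Finset.mem_filter.mp hx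
        rw [← h7]
        exact hhi x h6
    have h6 := mul_le_mul_of_nonneg_right h5
      (show (0 : ℝ) ≤ (m : ℝ) ^ 2 * (1 / (i : ℝ) ^ 2) by positivity)
    refine h6.trans (le_of_eq ?_)
    have h7 : 4 / (m : ℝ) * K * ((m : ℝ) ^ 2 * (1 / (i : ℝ) ^ 2)) =
        4 * K * (1 / (i : ℝ) ^ 2) * ((m : ℝ) ^ 2 / m) := by ring
    have h8 : (m : ℝ) ^ 2 / m = m := by field_simp
    rw [h7, h8]
    ring
  have h4 := Finset.sum_le_sum h3
  rw [← Finset.mul_sum] at h4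
  have h5 := mul_le_mul_of_nonneg_left (wfb_sum m) (show (0 : ℝ) ≤ 4 * m * K by positivity)
  rw [← hF, ← hK]
  calc ∑ x ∈ F, ‖∑ j ∈ Finset.range m, ex ((j : ℝ) * (θ x - t0))‖ ^ 2
      ≤ 4 * m * K * ∑ i ∈ Finset.Icc 32 m, 1 / (i : ℝ) ^ 2 := h1.trans (h2.trans_le h4)
    _ ≤ 4 * m * K * (1 / 31) := h5
    _ = 4 * (m : ℝ) / 31 * K := by ring

end Pool.Agent.FTL
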