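import Pool.Agent.FTL.WFa
import Pool.Agent.FTL.WFb

/-!
# FTL/WFc: a lower bound for the number of points near `t0`

PROOF of `wfc`.  Put `Σ = ∑ d, ‖..‖`.  Split the sum of `wfa` at `dn (θ x - t0) ≤ η`.  Each summand is
at most `m ^ 2` (`m` terms of norm 1), so the near points give at most `m ^ 2 * card`, and the others at
most `4 m / 31 * (card S + 2 Σ)` (`wfb`).  So
`m ^ 2 card ≥ m card S - 2 m Σ - 4 m / 31 (card S + 2 Σ) ≥ m (card S / 2 - 3 Σ)`.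
-/

set_option autoImplicit false

namespace Pool.Agent.FTL

open Pool.Agent.FTB

open Classical in
theorem wfc {α : Type*} (S : Finset α) (θ : α → ℝ) (t0 η : ℝ) (m : ℕ) (hm : 1 ≤ m)
    (hη : 16 ≤ m * η) :
    1 / (m : ℝ) * ((S.card : ℝ) / 2 - 3 * ∑ j ∈ Finset.Ico 1 m, ‖∑ x ∈ S, ex ((j : ℝ) * θ x)‖) ≤
      ((S.filter fun x => dn (θ x - t0) ≤ η).card : ℝ) := by
  have h1 := wfa S θ t0 m hm
  have h2 := wfb S θ t0 η m hm hη
  set Sg : ℝ := ∑ j ∈ Finset.Ico 1 m, ‖∑ x ∈ S, ex ((j : ℝ) * θ x)‖ with hSg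
  have hSg0 : 0 ≤ Sg := Finset.sum_nonneg fun j _ => norm_nonneg _
  have hm0 : (0 : ℝ) < m := by exact_mod_cast hm
  have h3 : ∑ x ∈ S, ‖∑ j ∈ Finset.range m, ex ((j : ℝ) * (θ x - t0))‖ ^ 2 =
      ∑ x ∈ S.filter (fun x => dn (θ x - t0) ≤ η),
        ‖∑ j ∈ Finset.range m, ex ((j : ℝ) * (θ x - t0))‖ ^ 2 +
      ∑ x ∈ S.filter (fun x => η < dn (θ x - t0)),
        ‖∑ j ∈ Finset.range m, ex ((j : ℝ) * (θ x - t0))‖ ^ 2 := by
    have h4 : S.filter (fun x => η < dn (θ x - t0)) =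
        S.filter (fun x => ¬ dn (θ x - t0) ≤ η) := by
      apply Finset.filter_congr
      intro x _
      exact not_le.symm
    rw [h4]
    exact (Finset.sum_filter_add_sum_filter_not S _ _).symm
  have h5 : ∑ x ∈ S.filter (fun x => dn (θ x - t0) ≤ η),
        ‖∑ j ∈ Finset.range m, ex ((j : ℝ) * (θ x - t0))‖ ^ 2 ≤
      ((S.filter fun x => dn (θ x - t0) ≤ η).card : ℝ) * (m : ℝ) ^ 2 := by
    rw [← nsmul_eq_mul]
    apply Finset.sum_le_card_nsmul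
    intro x _
    have h6 : ‖∑ j ∈ Finset.range m, ex ((j : ℝ) * (θ x - t0))‖ ≤ (m : ℝ) := by
      calc ‖∑ j ∈ Finset.range m, ex ((j : ℝ) * (θ x - t0))‖
          ≤ ∑ j ∈ Finset.range m, ‖ex ((j : ℝ) * (θ x - t0))‖ := norm_sum_le _ _
        _ = (m : ℝ) := by simp [norm_ex]
    exact pow_le_pow_left₀ (norm_nonneg _) h6 2
  set C : ℝ := ((S.filter fun x => dn (θ x - t0) ≤ η).card : ℝ) with hC
  have hS0 : (0 : ℝ) ≤ (S.card : ℝ) := Nat.cast_nonneg _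
  rw [h3] at h1
  have h7 : (m : ℝ) * ((S.card : ℝ) / 2 - 3 * Sg) ≤ C * (m : ℝ) ^ 2 := by
    nlinarith [mul_nonneg hm0.le hS0, mul_nonneg hm0.le hSg0]
  have h8 : 1 / (m : ℝ) * ((S.card : ℝ) / 2 - 3 * Sg) =
      (m : ℝ) * ((S.card : ℝ) / 2 - 3 * Sg) / (m : ℝ) ^ 2 := by
    field_simp
  rw [h8, div_le_iff₀ (by positivity)]
  exact h7

end Pool.Agent.FTL
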