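import Mathlib

/-!
# FTL/WPa: the parameters

PROOF of `wpa`.  `P = ⌊X ^ (12 δ / 5)⌋₊`, `a = ⌊X ^ (1 / 4 - δ / 2)⌋₊`, `V = ⌈7 a ^ 3 / √X⌉₊`.  For large
`X` (all exponents below are positive as `δ ≤ 1 / 100`): `X ^ (1 / 4 - δ / 2) ≥ 2`, so
`X ^ (1 / 4 - δ / 2) ≤ 2 a` (and even `≤ 1.001 a`).  `V √X ≥ 7 a ^ 3`, so `49 a ^ 6 ≤ X V ^ 2`;
`V √X ≤ 7 a ^ 3 + √X ≤ 7.07 a ^ 3` because `a ^ 3 ≥ X ^ (3 / 4 - 3 δ / 2) / 8 ≥ 100 √X`; so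
`X V ^ 2 ≤ 50 a ^ 6`.  `V ≤ 8 a ^ 3 / √X ≤ 8 X ^ (1 / 4 - 3 δ / 2)` and
`V ≥ 7 a ^ 3 / √X ≥ (7 / 8) X ^ (1 / 4 - 3 δ / 2)`, which tends to infinity; so `V ≥ V0`,
`12000 R P ≤ 12000 R X ^ (12 δ / 5) ≤ V` (`12 δ / 5 < 1 / 4 - 3 δ / 2`),
`V ≤ 8 X ^ (1 / 4 - 3 δ / 2) ≤ X ^ (1 / 4 - δ / 2) / 2 ≤ a` and
`10 ^ 5 a ≤ 10 ^ 5 X ^ (1 / 4 - δ / 2) ≤ (49 / 64) X ^ (1 / 2 - 3 δ) ≤ V ^ 2`.
(Use `tendsto_rpow_atTop` for the finitely many conditions of the form: for large `X`.)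
-/

set_option autoImplicit false

namespace Pool.Agent.FTL

theorem wpa (δ : ℝ) (hδ : 0 < δ) (hδ2 : δ ≤ 1 / 100) (R V0 : ℕ) : ∃ X0 : ℕ, 2 ≤ X0 ∧ ∀ X : ℕ,
    X0 ≤ X → ∃ V a P : ℕ, 49 * a ^ 6 ≤ X * V ^ 2 ∧ X * V ^ 2 ≤ 50 * a ^ 6 ∧
      (a : ℝ) ≤ (X : ℝ) ^ (1 / 4 - δ / 2) ∧ (X : ℝ) ^ (1 / 4 - δ / 2) ≤ 2 * a ∧
      (V : ℝ) ≤ 8 * (X : ℝ) ^ (1 / 4 - 3 * δ / 2) ∧
      (P : ℝ) ≤ (X : ℝ) ^ (12 * δ / 5) ∧ (X : ℝ) ^ (12 * δ / 5) < P + 1 ∧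
      1 ≤ P ∧ 12000 * R * P ≤ V ∧ 10 ^ 6 ≤ V ∧ V0 ≤ V ∧ V ≤ a ∧ 10 ^ 5 * a ≤ V ^ 2 := by
  have ev : ∀ c : ℝ, 0 < c → ∀ B : ℝ, ∀ᶠ X : ℕ in Filter.atTop, B ≤ (X : ℝ) ^ c := fun c hc B =>
    ((tendsto_rpow_atTop hc).comp tendsto_natCast_atTop_atTop).eventually_ge_atTop B
  obtain ⟨X1, hX1⟩ := Filter.eventually_atTop.1
    ((ev (1 / 4 - δ / 2) (by linarith) 1000).and
    ((ev (1 / 4 - 3 * δ / 2) (by linarith) (10 ^ 6 + V0)).and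
    ((ev (1 / 4 - 39 * δ / 10) (by linarith) (2000 * R)).and
    ((ev δ hδ 16).and (ev (1 / 4 - 5 * δ / 2) (by linarith) (10 ^ 5))))))
  refine ⟨max X1 2, le_max_right _ _, fun X hX => ?_⟩
  have hX2 : 2 ≤ X := le_trans (le_max_right _ _) hX
  obtain ⟨h1, h2, h3, h4, h5⟩ := hX1 X (le_trans (le_max_left _ _) hX)
  set x : ℝ := (X : ℝ) with hx
  have hx2 : (2 : ℝ) ≤ x := by rw [hx]; exact_mod_cast hX2
  have hx0 : 0 < x := by linarith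
  set y : ℝ := x ^ (1 / 4 - δ / 2) with hy
  set W : ℝ := x ^ (1 / 4 - 3 * δ / 2) with hW
  set p : ℝ := x ^ (12 * δ / 5) with hp
  set r : ℝ := √x with hr
  have hr0 : 0 < r := Real.sqrt_pos.2 hx0
  have hrr : r ^ 2 = x := Real.sq_sqrt hx0.le
  have hV0 : (0 : ℝ) ≤ V0 := Nat.cast_nonneg _
  have hR0 : (0 : ℝ) ≤ R := Nat.cast_nonneg _
  have hy3 : y ^ 3 = r * W := by
    rw [hy, hr, hW, Real.sqrt_eq_rpow, ← Real.rpow_natCast, ← Real.rpow_mul hx0.le,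
      ← Real.rpow_add hx0]
    congr 1
    push_cast
    ring
  have hWp : W = p * x ^ (1 / 4 - 39 * δ / 10) := by
    rw [hW, hp, ← Real.rpow_add hx0]
    congr 1
    ring
  have hyW : y = W * x ^ δ := by
    rw [hW, hy, ← Real.rpow_add hx0]
    congr 1
    ring
  have hWy : W ^ 2 = y * x ^ (1 / 4 - 5 * δ / 2) := by
    rw [hW, hy, ← Real.rpow_natCast, ← Real.rpow_mul hx0.le, ← Real.rpow_add hx0]
    congr 1
    push_cast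
    ring
  have hp1 : 1 ≤ p := Real.one_le_rpow (by linarith) (by positivity)
  have hW1 : (10 : ℝ) ^ 6 ≤ W := by linarith
  have hWV0 : (V0 : ℝ) ≤ W := by linarith
  have hy0 : 0 < y := by linarith
  have hW0 : 0 < W := by linarith
  set a : ℕ := ⌊y⌋₊ with ha
  have ha1 : (a : ℝ) ≤ y := Nat.floor_le hy0.le
  have ha2 : y < a + 1 := Nat.lt_floor_add_one y
  have ha3 : (999 : ℝ) ≤ a := by linarith
  have ha0 : (0 : ℝ) < a := by linarith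
  have ha4 : 999 * y ≤ 1000 * a := by linarith
  have ha5 : (a : ℝ) ^ 3 ≤ r * W := by
    rw [← hy3]
    exact pow_le_pow_left₀ ha0.le ha1 3
  have ha6 : 99 * (r * W) ≤ 100 * (a : ℝ) ^ 3 := by
    have : (999 * y) ^ 3 ≤ (1000 * (a : ℝ)) ^ 3 := pow_le_pow_left₀ (by positivity) ha4 3
    rw [mul_pow, mul_pow, hy3] at this
    have h0 : 0 < r * W := mul_pos hr0 hW0
    nlinarith
  set V : ℕ := ⌈7 * (a : ℝ) ^ 3 / r⌉₊ with hV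
  have hV1 : 7 * (a : ℝ) ^ 3 / r ≤ V := Nat.le_ceil _
  have hV2 : (V : ℝ) < 7 * (a : ℝ) ^ 3 / r + 1 := Nat.ceil_lt_add_one (by positivity)
  have hV3 : 7 * (a : ℝ) ^ 3 ≤ V * r := by rwa [div_le_iff₀ hr0] at hV1
  have hV4 : V * r ≤ 7 * (a : ℝ) ^ 3 + r := by
    have : (V : ℝ) - 1 < 7 * (a : ℝ) ^ 3 / r := by linarith
    rw [lt_div_iff₀ hr0] at this
    linarith
  have hra : 100 * r ≤ (a : ℝ) ^ 3 := by
    have : r * 10 ^ 6 ≤ r * W := mul_le_mul_of_nonneg_left hW1 hr0.le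
    linarith
  have hV5 : V * r ≤ 8 * (r * W) := by
    have : r * 10 ^ 6 ≤ r * W := mul_le_mul_of_nonneg_left hW1 hr0.le
    linarith
  have hV6 : (V : ℝ) ≤ 8 * W := by
    have : (V : ℝ) * r ≤ (8 * W) * r := by linarith
    exact le_of_mul_le_mul_right this hr0
  have hV7 : 6 * W ≤ (V : ℝ) := by
    have : (6 * W) * r ≤ (V : ℝ) * r := by nlinarith [mul_pos hr0 hW0]
    exact le_of_mul_le_mul_right this hr0
  have hpf1 : ((⌊p⌋₊ : ℕ) : ℝ) ≤ p := Nat.floor_le (by linarith)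
  have hpf2 : p < (⌊p⌋₊ : ℕ) + 1 := Nat.lt_floor_add_one p
  refine ⟨V, a, ⌊p⌋₊, ?_, ?_, ha1, by linarith, hV6, hpf1, hpf2, ?_, ?_, ?_, ?_, ?_, ?_⟩
  · have h : (7 * (a : ℝ) ^ 3) ^ 2 ≤ (V * r) ^ 2 := pow_le_pow_left₀ (by positivity) hV3 2
    have h' : (49 * (a : ℝ) ^ 6) ≤ x * (V : ℝ) ^ 2 := by
      have e1 : (7 * (a : ℝ) ^ 3) ^ 2 = 49 * (a : ℝ) ^ 6 := by ring
      have e2 : ((V : ℝ) * r) ^ 2 = x * (V : ℝ) ^ 2 := by rw [mul_pow, hrr]; ring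
      rw [e1, e2] at h
      exact h
    rw [hx] at h'
    exact_mod_cast h'
  · have hV8 : V * r ≤ 7.01 * (a : ℝ) ^ 3 := by linarith
    have h : (V * r) ^ 2 ≤ (7.01 * (a : ℝ) ^ 3) ^ 2 := pow_le_pow_left₀ (by positivity) hV8 2
    have h' : x * (V : ℝ) ^ 2 ≤ 50 * (a : ℝ) ^ 6 := by
      have e1 : (7.01 * (a : ℝ) ^ 3) ^ 2 = 49.1401 * (a : ℝ) ^ 6 := by ring
      have e2 : ((V : ℝ) * r) ^ 2 = x * (V : ℝ) ^ 2 := by rw [mul_pow, hrr]; ring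
      rw [e1, e2] at h
      have h6 : 0 ≤ (a : ℝ) ^ 6 := by positivity
      linarith
    rw [hx] at h'
    exact_mod_cast h'
  · exact Nat.le_floor (by exact_mod_cast hp1)
  · have h : (12000 * (R : ℝ) * (⌊p⌋₊ : ℕ)) ≤ V := by
      have h6 : 2000 * (R : ℝ) * p ≤ W := by
        rw [hWp]
        nlinarith [mul_le_mul_of_nonneg_left h3 (by linarith : (0 : ℝ) ≤ p)]
      have h7 : (R : ℝ) * (⌊p⌋₊ : ℕ) ≤ R * p := mul_le_mul_of_nonneg_left hpf1 hR0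
      nlinarith
    exact_mod_cast h
  · have h : ((10 : ℝ) ^ 6) ≤ V := by linarith
    exact_mod_cast h
  · have h : (V0 : ℝ) ≤ V := by linarith
    exact_mod_cast h
  · have h : (V : ℝ) ≤ a := by
      have h6 : W * 16 ≤ y := by
        rw [hyW]
        exact mul_le_mul_of_nonneg_left h4 hW0.le
      linarith
    exact_mod_cast h
  · have h : (10 : ℝ) ^ 5 * a ≤ (V : ℝ) ^ 2 := by
      have h6 : y * 10 ^ 5 ≤ W ^ 2 := by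
        rw [hWy]
        exact mul_le_mul_of_nonneg_left h5 hy0.le
      have h7 : (6 * W) ^ 2 ≤ (V : ℝ) ^ 2 := pow_le_pow_left₀ (by positivity) hV7 2
      nlinarith
    exact_mod_cast h

end Pool.Agent.FTL
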