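import Pool.Agent.H84.Pnt.Psi
import Pool.Agent.FTL.DefsW

/-!
# FTL/WPr: the number of primes in `[V, 1.001 V]`

PROOF of `wpr`.  `Pool.Agent.H84.Pnt.theta_bound` with `K = 1`: `|θ(x) - x| ≤ C x / log x`.  For large `V`
(`C / log V` small) `θ(1.001 V) - θ(V) ≥ 0.001 V - 4 C V / log V ≥ V / 2000`.  The difference is the sum of
`log p` over the primes `p` in `(V, 1.001 V]` (`Chebyshev.theta`), each `log p ≤ log (2 V) ≤ 2 log V`, so
`card (Pr V) ≥ V / (4000 log V)`.  `card (PP V) ≥ card (Pr V) ^ 2 - card (Pr V) ≥ card (Pr V) ^ 2 / 2`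
(remove the diagonal; `card (Pr V) ≥ 2` for large `V`), and `2 * 4000 ^ 2 ≤ 10 ^ 8`.
-/

set_option autoImplicit false

namespace Pool.Agent.FTL

open Pool.Agent.FTB

theorem wpr : ∃ V0 : ℕ, ∀ V : ℕ, V0 ≤ V →
    (V : ℝ) ^ 2 / (10 ^ 8 * (Real.log V) ^ 2) ≤ ((PP V).card : ℝ) := by
  obtain ⟨C, hC, hth⟩ := Pool.Agent.H84.Pnt.theta_bound 1
  refine ⟨max (⌈Real.exp (10 ^ 4 * C)⌉₊) (16000 ^ 2), fun V hV => ?_⟩
  have hV1 : Real.exp (10 ^ 4 * C) ≤ (V : ℝ) :=
    (Nat.le_ceil _).trans (by exact_mod_cast (le_max_left _ _).trans hV)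
  have hV2 : (16000 ^ 2 : ℕ) ≤ V := (le_max_right _ _).trans hV
  have hV3 : (16000 : ℝ) ^ 2 ≤ (V : ℝ) := by exact_mod_cast hV2
  have hV0 : (0 : ℝ) < V := by linarith [show (0 : ℝ) < 16000 ^ 2 by norm_num]
  set l : ℝ := Real.log V with hl
  have hl1 : 10 ^ 4 * C ≤ l := (Real.le_log_iff_exp_le hV0).mpr hV1
  have hl0 : 0 < l := Real.log_pos (by linarith [show (1 : ℝ) < 16000 ^ 2 by norm_num])
  have hsq : (16000 : ℝ) ≤ √(V : ℝ) := Real.le_sqrt_of_sq_le hV3
  have hss : √(V : ℝ) * √(V : ℝ) = V := Real.mul_self_sqrt hV0.le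
  have hl2 : 8000 * l ≤ V := by
    have h1 : l = 2 * Real.log (√(V : ℝ)) := by
      rw [Real.log_sqrt hV0.le]
      ring
    have h2 : Real.log (√(V : ℝ)) ≤ √(V : ℝ) - 1 :=
      Real.log_le_sub_one_of_pos (by linarith)
    nlinarith
  -- the number M
  set M : ℕ := 1001 * V / 1000 with hM
  have hM1 : 1000 * M ≤ 1001 * V := Nat.mul_div_le _ _
  have hM2 : 1001 * V < 1000 * M + 1000 := by omega
  have hM3 : V ≤ M := by omega
  have hM1r : 1000 * (M : ℝ) ≤ 1001 * V := by exact_mod_cast hM1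
  have hM2r : 1001 * (V : ℝ) ≤ 1000 * M + 1000 := by exact_mod_cast hM2.le
  have hM3r : (V : ℝ) ≤ M := by exact_mod_cast hM3
  have hM0 : (0 : ℝ) < M := lt_of_lt_of_le hV0 hM3r
  have hlM : l ≤ Real.log M := Real.log_le_log hV0 hM3r
  have hlM2 : Real.log M ≤ 2 * l := by
    have h1 : (M : ℝ) ≤ (V : ℝ) ^ 2 := by nlinarith
    calc Real.log M ≤ Real.log ((V : ℝ) ^ 2) := Real.log_le_log hM0 h1
      _ = 2 * l := by
        rw [Real.log_pow, hl]
        norm_num
  have hV2' : (2 : ℝ) ≤ V := by linarith [show (2 : ℝ) ≤ 16000 ^ 2 by norm_num]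
  have t1 := hth V hV2'
  have t2 := hth M (hV2'.trans hM3r)
  rw [pow_one] at t1 t2
  rw [abs_le] at t1 t2
  have hCl : C / l ≤ 1 / 10 ^ 4 := by
    rw [div_le_div_iff₀ hl0 (by norm_num)]
    linarith
  have t3 : C * ((V : ℝ) / l) ≤ V / 10 ^ 4 := by
    calc C * ((V : ℝ) / l) = (C / l) * V := by ring
      _ ≤ 1 / 10 ^ 4 * V := mul_le_mul_of_nonneg_right hCl hV0.le
      _ = V / 10 ^ 4 := by ring
  have t4 : C * ((M : ℝ) / Real.log M) ≤ M / 10 ^ 4 := by
    calc C * ((M : ℝ) / Real.log M) ≤ C * ((M : ℝ) / l) :=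
          mul_le_mul_of_nonneg_left (div_le_div_of_nonneg_left hM0.le hl0 hlM) hC.le
      _ = (C / l) * M := by ring
      _ ≤ 1 / 10 ^ 4 * M := mul_le_mul_of_nonneg_right hCl hM0.le
      _ = M / 10 ^ 4 := by ring
  have t5 : (V : ℝ) / 2000 ≤ Chebyshev.theta M - Chebyshev.theta V := by
    have h1 := t1.2
    have h2 := t2.1
    have h3 : (16000 : ℝ) ^ 2 = 256000000 := by norm_num
    linarith
  -- the sum over primes
  have t6 : Chebyshev.theta M - Chebyshev.theta V =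
      ∑ p ∈ (Finset.Ioc V M).filter Nat.Prime, Real.log p := by
    unfold Chebyshev.theta
    rw [Nat.floor_natCast, Nat.floor_natCast]
    have h1 : (Finset.Ioc 0 M).filter Nat.Prime =
        (Finset.Ioc 0 V).filter Nat.Prime ∪ (Finset.Ioc V M).filter Nat.Prime := by
      rw [← Finset.filter_union, Finset.Ioc_union_Ioc_eq_Ioc (Nat.zero_le _) hM3]
    have h2 : Disjoint ((Finset.Ioc 0 V).filter Nat.Prime) ((Finset.Ioc V M).filter Nat.Prime) := by
      rw [Finset.disjoint_left]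
      intro x hx hx'
      rw [Finset.mem_filter, Finset.mem_Ioc] at hx hx'
      omega
    rw [h1, Finset.sum_union h2]
    ring
  have t7 : ∑ p ∈ (Finset.Ioc V M).filter Nat.Prime, Real.log p ≤ ((Pr V).card : ℝ) * (2 * l) := by
    calc ∑ p ∈ (Finset.Ioc V M).filter Nat.Prime, Real.log p
        ≤ ∑ p ∈ (Finset.Ioc V M).filter Nat.Prime, 2 * l := by
          apply Finset.sum_le_sum
          intro p hp
          rw [Finset.mem_filter, Finset.mem_Ioc] at hp
          have h1 : (p : ℝ) ≤ M := by exact_mod_cast hp.1.2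
          have h2 : (0 : ℝ) < p := by exact_mod_cast hp.2.pos
          exact (Real.log_le_log h2 h1).trans hlM2
      _ = (((Finset.Ioc V M).filter Nat.Prime).card : ℝ) * (2 * l) := by
          rw [Finset.sum_const, nsmul_eq_mul]
      _ ≤ ((Pr V).card : ℝ) * (2 * l) := by
          apply mul_le_mul_of_nonneg_right _ (by linarith)
          have h1 : (Finset.Ioc V M).filter Nat.Prime ⊆ Pr V := by
            intro x hx
            rw [Finset.mem_filter, Finset.mem_Ioc] at hx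
            unfold Pr
            rw [Finset.mem_filter, Finset.mem_Icc]
            exact ⟨⟨hx.1.1.le, hx.1.2⟩, hx.2⟩
          exact_mod_cast Finset.card_le_card h1
  have t8 : (V : ℝ) ≤ 4000 * l * ((Pr V).card : ℝ) := by
    rw [t6] at t5
    nlinarith
  set K : ℝ := ((Pr V).card : ℝ) with hK
  have hK2 : 2 ≤ K := by
    by_contra hlt
    have h1 : K < 2 := lt_of_not_ge hlt
    have h2 : 4000 * l * K < 4000 * l * 2 := by
      apply mul_lt_mul_of_pos_left h1
      linarith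
    linarith
  have t9 : ((PP V).card : ℝ) = K * K - K := by
    have h1 : PP V = (Pr V).offDiag := by
      ext x
      unfold PP
      rw [Finset.mem_filter, Finset.mem_product, Finset.mem_offDiag, and_assoc]
    rw [h1, Finset.offDiag_card, Nat.cast_sub (Nat.le_mul_self _)]
    push_cast
    rfl
  rw [t9, div_le_iff₀ (by positivity)]
  have t10 : (V : ℝ) ^ 2 ≤ (4000 * l * K) ^ 2 := pow_le_pow_left₀ hV0.le t8 2
  have t11 : K * K / 2 ≤ K * K - K := by nlinarith
  have t12 : (0 : ℝ) ≤ 10 ^ 8 * l ^ 2 := by positivity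
  calc (V : ℝ) ^ 2 ≤ (4000 * l * K) ^ 2 := t10
    _ = (3.2 * 10 ^ 7 * l ^ 2) * (K * K / 2) := by ring
    _ ≤ (10 ^ 8 * l ^ 2) * (K * K / 2) := by
      apply mul_le_mul_of_nonneg_right _ (by positivity)
      nlinarith [sq_nonneg l]
    _ ≤ (10 ^ 8 * l ^ 2) * (K * K - K) := mul_le_mul_of_nonneg_left t11 t12
    _ = (K * K - K) * (10 ^ 8 * l ^ 2) := by ring

end Pool.Agent.FTL
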