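import Pool.Agent.FTA.DivB
import Pool.Agent.FTB.SUn
import Pool.Agent.FTL.DefsW

/-!
# FTL/WTq: the bounds `TauB` and `UniB`

PROOF of `wtq`: as in the proof of `Pool.Agent.FTB.ptB` (file `Pool/Agent/FTB/PtB.lean`, `hT` and `hQ`) with
`Pool.Agent.FTA.divisor_bound` and `Pool.Agent.FTB.sun` for the exponent `η / 2`:
`TauB Z (1 + c Z ^ (η / 2))` and `UniB Z (1 + C Z ^ (η / 2) Z ^ (η / 2))`; both are at most
`(1 + c + C) Z ^ η` (`Z ^ (η / 2) ≤ Z ^ η`, `1 ≤ Z ^ η`), and `TauB Z T`, `UniB Z Q` are monotone in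
`T`, `Q`.
-/

set_option autoImplicit false

namespace Pool.Agent.FTL

open Pool.Agent.FTB

theorem wtq (η : ℝ) (hη : 0 < η) : ∃ C : ℝ, 1 ≤ C ∧ ∀ Z : ℕ, 1 ≤ Z →
    TauB Z (C * (Z : ℝ) ^ η) ∧ UniB Z (C * (Z : ℝ) ^ η) := by
  obtain ⟨c, hc, hdiv⟩ := Pool.Agent.FTA.divisor_bound (ε := η) hη
  obtain ⟨c', hc', hs⟩ := Pool.Agent.FTB.sun (η / 2) (by positivity)
  refine ⟨1 + c + c', by linarith, fun Z hZ => ?_⟩
  have hZ1 : (1 : ℝ) ≤ Z := by exact_mod_cast hZ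
  have hZ0 : (0 : ℝ) < Z := by linarith
  have hp : (1 : ℝ) ≤ (Z : ℝ) ^ η := Real.one_le_rpow hZ1 hη.le
  have h1 : (1 : ℝ) ≤ (1 + c + c') * (Z : ℝ) ^ η := by
    have : (1 : ℝ) ≤ 1 + c + c' := by linarith
    nlinarith
  refine ⟨⟨h1, fun n hn hnZ => ?_⟩, ⟨h1, fun r hr hrZ => ?_⟩⟩
  · have h2 := hdiv n (by omega)
    have h3 : (n : ℝ) ^ η ≤ (Z : ℝ) ^ η :=
      Real.rpow_le_rpow (by positivity) (by exact_mod_cast hnZ) hη.le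
    calc (n.divisors.card : ℝ) ≤ c * (n : ℝ) ^ η := h2
      _ ≤ c * (Z : ℝ) ^ η := by gcongr
      _ ≤ (1 + c + c') * (Z : ℝ) ^ η := by gcongr; linarith
  · have h2 := hs Z r hZ hr
    have h3 : (r : ℝ) ^ (η / 2) ≤ (Z : ℝ) ^ (η / 2) :=
      Real.rpow_le_rpow (by positivity) (by exact_mod_cast hrZ) (by positivity)
    have h4 : (Z : ℝ) ^ (η / 2) * (Z : ℝ) ^ (η / 2) = (Z : ℝ) ^ η := by
      rw [← Real.rpow_add hZ0]; congr 1; ring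
    calc _ ≤ c' * (Z : ℝ) ^ (η / 2) * (r : ℝ) ^ (η / 2) := h2
      _ ≤ c' * (Z : ℝ) ^ (η / 2) * (Z : ℝ) ^ (η / 2) := by gcongr
      _ = c' * (Z : ℝ) ^ η := by rw [mul_assoc, h4]
      _ ≤ (1 + c + c') * (Z : ℝ) ^ η := by gcongr; linarith

end Pool.Agent.FTL
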