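import Pool.Agent.FTL.WCm
import Pool.Agent.FTL.WPr
import Pool.Agent.FTL.WTq
import Pool.Agent.FTL.WPa

/-!
# FTL/WFn: the number of good points, final form

PROOF of `cnt`.  Let `z0 = 10 ^ 10`, `R = z0 !` (keep `R` as a variable: only `1 ≤ R` and
`p ∣ R` for the primes `p ≤ z0` are used; `obtain ⟨R, ..⟩`), `η = min δ ε / 100`, `C` from `wtq (η / 10)`,
`V0` from `wpr`, and `V, a, P` from `wpa`.  Put `Z = (200 V ^ 5) ^ 8`, `T = Q = C Z ^ (η / 10)`,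
`L = 6 + 6 log V`.  Then `PW V a R P Z T Q L`, and `wcm` gives `S`; the primes `p ≤ X ^ (12 δ / 5)` are
`≤ P` (`X ^ (12 δ / 5) < P + 1`).  It remains to bound `card S` from below.  `V ≤ a ≤ X ^ (1 / 4)`, so
`Z ≤ 200 ^ 8 X ^ 10`, `T = Q ≤ C1 X ^ η`, `L ≤ 6 + 2 log X ≤ C2 X ^ η` (`Real.log_le_rpow_div`).
Main term: `a ^ 4 ≥ X ^ (1 - 2 δ) / 16`, `card (PP V) / V ^ 2 ≥ 1 / (10 ^ 8 (log V) ^ 2)` and
`0 < log V ≤ L ≤ C2 X ^ η`, so it is at least `c X ^ (1 - 2 δ - 2 η)` with `c > 0` depending on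
`R, δ, ε` only.
Errors: `(2 P + 1) Er P ≤ 3 P * 10 ^ 15 R T ^ 2 Q L ^ 2 (√P V ^ 4 + V ^ 3 a) ≤
C3 X ^ (5 η) (X ^ (18 δ / 5 + 1 - 6 δ) + X ^ (12 δ / 5 + 3 / 4 - 9 δ / 2 + 1 / 4 - δ / 2)) ≤
2 C3 X ^ (1 - 12 δ / 5 + 5 η)` (the second exponent is `1 - 13 δ / 5`), and
`16 T V a ^ 3 ≤ C4 X ^ (η + 1 / 4 - 3 δ / 2 + 3 / 4 - 3 δ / 2) = C4 X ^ (1 - 3 δ + η)`.
As `η ≤ δ / 100`, all these exponents are smaller than `1 - 2 δ - 2 η - δ / 10`, so for large `X` the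
errors are at most half of the main term, and `c / 2 X ^ (1 - 2 δ - 2 η) ≥ X ^ (1 - 2 δ - ε)` for
large `X` (`2 η < ε`).
-/

set_option autoImplicit false

namespace Pool.Agent.FTL

open Pool.Agent.FTB

private theorem WFn_lim (b c : ℝ) (hb : 0 < b) (hc : 0 < c) :
    ∃ X1 : ℕ, ∀ X : ℕ, X1 ≤ X → (X : ℝ) ^ (-b) ≤ c := by
  have h := (tendsto_rpow_neg_atTop hb).comp tendsto_natCast_atTop_atTop
  have h2 := h.eventually (eventually_le_nhds hc)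
  obtain ⟨X1, h3⟩ := Filter.eventually_atTop.1 h2
  exact ⟨X1, fun X hX => h3 X hX⟩

private theorem WFn_fin (δ ε η c0 C5 : ℝ) (hδ : 0 < δ) (hε : 0 < ε) (h1 : 100 * η ≤ δ)
    (h2 : 100 * η ≤ ε) (hc0 : 0 < c0) (hC5 : 0 < C5) : ∃ X1 : ℕ, ∀ X : ℕ, X1 ≤ X → 2 ≤ X →
    (X : ℝ) ^ (1 - 2 * δ - ε) ≤ c0 * ((X : ℝ) ^ (1 - 2 * δ) / ((X : ℝ) ^ η) ^ 2) -
      C5 * (((X : ℝ) ^ η) ^ 5 * (X : ℝ) ^ (1 - 12 * δ / 5)) := by
  obtain ⟨X1, hX1⟩ := WFn_lim (δ / 5) (c0 / (2 * C5)) (by positivity) (by positivity)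
  obtain ⟨X2, hX2⟩ := WFn_lim (ε / 2) (c0 / 2) (by positivity) (by positivity)
  refine ⟨max X1 X2, fun X hX hX3 => ?_⟩
  have a1 := hX1 X (le_trans (le_max_left _ _) hX)
  have a2 := hX2 X (le_trans (le_max_right _ _) hX)
  have hx1 : (1 : ℝ) ≤ X := by exact_mod_cast (by omega : 1 ≤ X)
  have hx : (0 : ℝ) < X := by linarith
  set x : ℝ := (X : ℝ) with hxd
  have e1 : x ^ (1 - 2 * δ) / (x ^ η) ^ 2 = x ^ (1 - 2 * δ - 2 * η) := by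
    rw [← Real.rpow_natCast, ← Real.rpow_mul hx.le, ← Real.rpow_sub hx]
    congr 1
    push_cast
    ring
  have e2 : (x ^ η) ^ 5 * x ^ (1 - 12 * δ / 5) =
      x ^ (1 - 2 * δ - 2 * η) * x ^ (-(2 * δ / 5) + 7 * η) := by
    rw [← Real.rpow_natCast, ← Real.rpow_mul hx.le, ← Real.rpow_add hx, ← Real.rpow_add hx]
    congr 1
    push_cast
    ring
  have e3 : x ^ (1 - 2 * δ - ε) = x ^ (1 - 2 * δ - 2 * η) * x ^ (2 * η - ε) := by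
    rw [← Real.rpow_add hx]
    congr 1
    ring
  have f1 : x ^ (-(2 * δ / 5) + 7 * η) ≤ c0 / (2 * C5) :=
    (Real.rpow_le_rpow_of_exponent_le hx1 (by linarith)).trans a1
  have f2 : x ^ (2 * η - ε) ≤ c0 / 2 :=
    (Real.rpow_le_rpow_of_exponent_le hx1 (by linarith)).trans a2
  have hW : 0 < x ^ (1 - 2 * δ - 2 * η) := Real.rpow_pos_of_pos hx _
  rw [e1, e2, e3]
  set W := x ^ (1 - 2 * δ - 2 * η) with hWd
  have g1 : C5 * (W * x ^ (-(2 * δ / 5) + 7 * η)) ≤ C5 * (W * (c0 / (2 * C5))) := by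
    gcongr
  have g2 : C5 * (W * (c0 / (2 * C5))) = W * (c0 / 2) := by
    field_simp
  have g3 : W * x ^ (2 * η - ε) ≤ W * (c0 / 2) := by gcongr
  linarith

private theorem WFn_T (η C : ℝ) (hη : 0 < η) (hη2 : η ≤ 1) (hC : 1 ≤ C) (X V : ℕ)
    (hX : 2 ≤ X) (hVX : (V : ℝ) ≤ (X : ℝ) ^ ((1 : ℝ) / 4)) :
    C * (((200 * V ^ 5) ^ 8 : ℕ) : ℝ) ^ (η / 10) ≤ C * 200 ^ 8 * (X : ℝ) ^ η := by
  have hx : (1 : ℝ) ≤ X := by exact_mod_cast (by omega : 1 ≤ X)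
  have h1 : (((200 * V ^ 5) ^ 8 : ℕ) : ℝ) ≤ 200 ^ 8 * (X : ℝ) ^ (10 : ℝ) := by
    push_cast
    have h2 : (V : ℝ) ^ 40 ≤ (X : ℝ) ^ (10 : ℝ) := by
      calc (V : ℝ) ^ 40 ≤ ((X : ℝ) ^ ((1 : ℝ) / 4)) ^ 40 := by gcongr
        _ = (X : ℝ) ^ (10 : ℝ) := by
          rw [← Real.rpow_natCast, ← Real.rpow_mul (by positivity)]
          norm_num
    calc (200 * (V : ℝ) ^ 5) ^ 8 = 200 ^ 8 * (V : ℝ) ^ 40 := by ring
      _ ≤ _ := by gcongr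
  have h3 : (((200 * V ^ 5) ^ 8 : ℕ) : ℝ) ^ (η / 10) ≤ 200 ^ 8 * (X : ℝ) ^ η := by
    calc (((200 * V ^ 5) ^ 8 : ℕ) : ℝ) ^ (η / 10)
        ≤ (200 ^ 8 * (X : ℝ) ^ (10 : ℝ)) ^ (η / 10) :=
          Real.rpow_le_rpow (by positivity) h1 (by positivity)
      _ = ((200 : ℝ) ^ 8) ^ (η / 10) * (X : ℝ) ^ η := by
        rw [Real.mul_rpow (by positivity) (by positivity), ← Real.rpow_mul (by positivity)]
        congr 2
        ring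
      _ ≤ 200 ^ 8 * (X : ℝ) ^ η := by
        gcongr
        calc ((200 : ℝ) ^ 8) ^ (η / 10) ≤ ((200 : ℝ) ^ 8) ^ (1 : ℝ) :=
              Real.rpow_le_rpow_of_exponent_le (by norm_num) (by linarith)
          _ = _ := Real.rpow_one _
  calc C * (((200 * V ^ 5) ^ 8 : ℕ) : ℝ) ^ (η / 10) ≤ C * (200 ^ 8 * (X : ℝ) ^ η) := by gcongr
    _ = _ := by ring

private theorem WFn_L (η : ℝ) (hη : 0 < η) (X V : ℕ) (hV : 1 ≤ V) (hVX : V ≤ X) :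
    Real.log V ≤ (X : ℝ) ^ η / η := by
  have h1 : (0 : ℝ) < V := by exact_mod_cast hV
  have h2 : (V : ℝ) ≤ X := by exact_mod_cast hVX
  exact (Real.log_le_log h1 h2).trans (Real.log_le_rpow_div (by positivity) hη)

private theorem WFn_err (δ y C1 C2 T L x V a P : ℝ) (R : ℝ) (hδ : 0 < δ) (hy : 1 ≤ y)
    (hT0 : 0 ≤ T) (hT : T ≤ C1 * y) (hL0 : 0 ≤ L) (hL : L ≤ C2 * y)
    (hx1 : 1 ≤ x) (hR : 0 ≤ R) (hV0 : 0 ≤ V) (hV : V ≤ 8 * x ^ (1 / 4 - 3 * δ / 2)) (ha0 : 0 ≤ a)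
    (ha : a ≤ x ^ (1 / 4 - δ / 2)) (hP1 : 1 ≤ P) (hP : P ≤ x ^ (12 * δ / 5)) :
    (2 * P + 1) * (10 ^ 15 * R * T ^ 2 * T * L ^ 2 * (√P * V ^ 4 + V ^ 3 * a)) +
      16 * T * V * a ^ 3 ≤
      (3 * 10 ^ 15 * R * C1 ^ 3 * C2 ^ 2 * (8 ^ 4 + 8 ^ 3) + 128 * C1) *
        (y ^ 5 * x ^ (1 - 12 * δ / 5)) := by
  have hx : 0 < x := by linarith
  have hC1 : 0 ≤ C1 := by
    by_contra hc
    push Not at hc
    nlinarith
  have hC2 : 0 ≤ C2 := by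
    by_contra hc
    push Not at hc
    nlinarith
  have hW : 0 < x ^ (1 - 12 * δ / 5) := Real.rpow_pos_of_pos hx _
  have s1 : √P ≤ x ^ (6 * δ / 5) := by
    calc √P ≤ √(x ^ (12 * δ / 5)) := Real.sqrt_le_sqrt hP
      _ = x ^ (6 * δ / 5) := by
        rw [Real.sqrt_eq_rpow, ← Real.rpow_mul hx.le]
        congr 1
        ring
  have s2 : V ^ 4 ≤ 8 ^ 4 * x ^ (1 - 6 * δ) := by
    calc V ^ 4 ≤ (8 * x ^ (1 / 4 - 3 * δ / 2)) ^ 4 := by gcongr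
      _ = 8 ^ 4 * x ^ (1 - 6 * δ) := by
        rw [mul_pow, ← Real.rpow_natCast (x ^ (1 / 4 - 3 * δ / 2)), ← Real.rpow_mul hx.le]
        congr 2
        push_cast
        ring
  have s3 : V ^ 3 ≤ 8 ^ 3 * x ^ (3 / 4 - 9 * δ / 2) := by
    calc V ^ 3 ≤ (8 * x ^ (1 / 4 - 3 * δ / 2)) ^ 3 := by gcongr
      _ = 8 ^ 3 * x ^ (3 / 4 - 9 * δ / 2) := by
        rw [mul_pow, ← Real.rpow_natCast (x ^ (1 / 4 - 3 * δ / 2)), ← Real.rpow_mul hx.le]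
        congr 2
        push_cast
        ring
  have s4 : a ^ 3 ≤ x ^ (3 / 4 - 3 * δ / 2) := by
    calc a ^ 3 ≤ (x ^ (1 / 4 - δ / 2)) ^ 3 := by gcongr
      _ = x ^ (3 / 4 - 3 * δ / 2) := by
        rw [← Real.rpow_natCast (x ^ (1 / 4 - δ / 2)), ← Real.rpow_mul hx.le]
        congr 1
        push_cast
        ring
  have t1 : P * (√P * V ^ 4) ≤ 8 ^ 4 * x ^ (1 - 12 * δ / 5) := by
    calc P * (√P * V ^ 4) ≤ x ^ (12 * δ / 5) * (x ^ (6 * δ / 5) * (8 ^ 4 * x ^ (1 - 6 * δ))) := by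
          gcongr
      _ = 8 ^ 4 * (x ^ (12 * δ / 5) * (x ^ (6 * δ / 5) * x ^ (1 - 6 * δ))) := by ring
      _ = 8 ^ 4 * x ^ (1 - 12 * δ / 5) := by
        rw [← Real.rpow_add hx, ← Real.rpow_add hx]
        congr 2
        ring
  have t2 : P * (V ^ 3 * a) ≤ 8 ^ 3 * x ^ (1 - 12 * δ / 5) := by
    calc P * (V ^ 3 * a) ≤ x ^ (12 * δ / 5) * ((8 ^ 3 * x ^ (3 / 4 - 9 * δ / 2)) *
          x ^ (1 / 4 - δ / 2)) := by gcongr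
      _ = 8 ^ 3 * (x ^ (12 * δ / 5) * (x ^ (3 / 4 - 9 * δ / 2) * x ^ (1 / 4 - δ / 2))) := by ring
      _ = 8 ^ 3 * x ^ (1 - 13 * δ / 5) := by
        rw [← Real.rpow_add hx, ← Real.rpow_add hx]
        congr 2
        ring
      _ ≤ 8 ^ 3 * x ^ (1 - 12 * δ / 5) := by
        gcongr 8 ^ 3 * ?_
        exact Real.rpow_le_rpow_of_exponent_le hx1 (by linarith)
  have t3 : V * a ^ 3 ≤ 8 * x ^ (1 - 12 * δ / 5) := by
    calc V * a ^ 3 ≤ (8 * x ^ (1 / 4 - 3 * δ / 2)) * x ^ (3 / 4 - 3 * δ / 2) := by gcongr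
      _ = 8 * (x ^ (1 / 4 - 3 * δ / 2) * x ^ (3 / 4 - 3 * δ / 2)) := by ring
      _ = 8 * x ^ (1 - 3 * δ) := by
        rw [← Real.rpow_add hx]
        congr 2
        ring
      _ ≤ 8 * x ^ (1 - 12 * δ / 5) := by
        gcongr 8 * ?_
        exact Real.rpow_le_rpow_of_exponent_le hx1 (by linarith)
  have u1 : T ^ 2 * T * L ^ 2 ≤ (C1 ^ 3 * C2 ^ 2) * y ^ 5 := by
    calc T ^ 2 * T * L ^ 2 ≤ (C1 * y) ^ 2 * (C1 * y) * (C2 * y) ^ 2 := by gcongr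
      _ = _ := by ring
  have u2 : (2 * P + 1) * (√P * V ^ 4 + V ^ 3 * a) ≤
      3 * ((8 ^ 4 + 8 ^ 3) * x ^ (1 - 12 * δ / 5)) := by
    have u3 : 0 ≤ √P * V ^ 4 + V ^ 3 * a := by positivity
    calc (2 * P + 1) * (√P * V ^ 4 + V ^ 3 * a) ≤ (3 * P) * (√P * V ^ 4 + V ^ 3 * a) := by
          gcongr
          linarith
      _ = 3 * (P * (√P * V ^ 4) + P * (V ^ 3 * a)) := by ring
      _ ≤ 3 * (8 ^ 4 * x ^ (1 - 12 * δ / 5) + 8 ^ 3 * x ^ (1 - 12 * δ / 5)) := by gcongr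
      _ = _ := by ring
  have v1 : (2 * P + 1) * (10 ^ 15 * R * T ^ 2 * T * L ^ 2 * (√P * V ^ 4 + V ^ 3 * a)) ≤
      10 ^ 15 * R * ((C1 ^ 3 * C2 ^ 2) * y ^ 5) *
        (3 * ((8 ^ 4 + 8 ^ 3) * x ^ (1 - 12 * δ / 5))) := by
    calc (2 * P + 1) * (10 ^ 15 * R * T ^ 2 * T * L ^ 2 * (√P * V ^ 4 + V ^ 3 * a)) =
          10 ^ 15 * R * (T ^ 2 * T * L ^ 2) * ((2 * P + 1) * (√P * V ^ 4 + V ^ 3 * a)) := by ring
      _ ≤ _ := by gcongr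
  have v2 : 16 * T * V * a ^ 3 ≤ 128 * C1 * (y ^ 5 * x ^ (1 - 12 * δ / 5)) := by
    have y5 : y ≤ y ^ 5 := by
      calc y = y ^ 1 := (pow_one y).symm
        _ ≤ y ^ 5 := pow_le_pow_right₀ hy (by norm_num)
    calc 16 * T * V * a ^ 3 = 16 * T * (V * a ^ 3) := by ring
      _ ≤ 16 * (C1 * y ^ 5) * (8 * x ^ (1 - 12 * δ / 5)) := by
        have : T ≤ C1 * y ^ 5 := hT.trans (by gcongr)
        gcongr
      _ = _ := by ring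
  calc _ ≤ _ := add_le_add v1 v2
    _ = _ := by ring

private theorem WFn_main (δ y η x V a R K : ℝ) (hη : 0 < η) (hy : 0 < y) (hx : 0 < x)
    (hR : 1 ≤ R) (hV : 1 < V) (ha : x ^ (1 / 4 - δ / 2) ≤ 2 * a)
    (hl : Real.log V ≤ y / η) (hK : V ^ 2 / (10 ^ 8 * (Real.log V) ^ 2) ≤ K) :
    3 * η ^ 2 / (16 * 10 ^ 20 * R ^ 2) * (x ^ (1 - 2 * δ) / y ^ 2) ≤
      3 / 10 ^ 12 * (a ^ 4 * K / (R ^ 2 * V ^ 2)) := by
  have hlog : 0 < Real.log V := Real.log_pos hV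
  have hV0 : 0 < V := by linarith
  have a4 : x ^ (1 - 2 * δ) ≤ 16 * a ^ 4 := by
    calc x ^ (1 - 2 * δ) = (x ^ (1 / 4 - δ / 2)) ^ 4 := by
          rw [← Real.rpow_natCast (x ^ (1 / 4 - δ / 2)), ← Real.rpow_mul hx.le]
          congr 1
          push_cast
          ring
      _ ≤ (2 * a) ^ 4 := by gcongr
      _ = _ := by ring
  have a5 : x ^ (1 - 2 * δ) / 16 ≤ a ^ 4 := by linarith
  have k1 : V ^ 2 / (10 ^ 8 * (y / η) ^ 2) ≤ K := by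
    refine le_trans ?_ hK
    gcongr
  calc 3 * η ^ 2 / (16 * 10 ^ 20 * R ^ 2) * (x ^ (1 - 2 * δ) / y ^ 2) =
        3 / 10 ^ 12 * ((x ^ (1 - 2 * δ) / 16) * (V ^ 2 / (10 ^ 8 * (y / η) ^ 2)) /
          (R ^ 2 * V ^ 2)) := by
        field_simp
    _ ≤ _ := by gcongr

theorem cnt (δ ε : ℝ) (hδ : 0 < δ) (hδ2 : δ ≤ 1 / 100) (hε : 0 < ε) : ∃ X0 : ℕ, ∀ X : ℕ,
    X0 ≤ X → ∃ (V a : ℕ) (S : Finset Pt), 10 ^ 6 ≤ V ∧ V ≤ a ∧ 10 ^ 5 * a ≤ V ^ 2 ∧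
      49 * a ^ 6 ≤ X * V ^ 2 ∧ X * V ^ 2 ≤ 50 * a ^ 6 ∧
      (a : ℝ) ≤ (X : ℝ) ^ (1 / 4 - δ / 2) ∧ (X : ℝ) ^ (1 / 4 - δ / 2) ≤ 2 * a ∧
      (∀ q ∈ S, GPq V a q ∧
        IsCoprime ((q.2.2.1 : ℤ) * (q.2.2.2.1 : ℤ)) (q.2.2.2.2.1 * q.2.2.2.2.2.1) ∧
        ∀ p : ℕ, p.Prime → (p : ℝ) ≤ (X : ℝ) ^ (12 * δ / 5) → ¬ (p ∣ q.1 ∧ p ∣ q.2.1)) ∧
      (X : ℝ) ^ (1 - 2 * δ - ε) ≤ S.card := by
  classical
  obtain ⟨R, hR1, hRz⟩ : ∃ R : ℕ, 1 ≤ R ∧ ∀ p : ℕ, p.Prime → p ≤ 10 ^ 10 → p ∣ R :=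
    ⟨Nat.factorial (10 ^ 10), Nat.factorial_pos _, fun p hp hp2 =>
      Nat.dvd_factorial hp.pos hp2⟩
  obtain ⟨η, hη, h1, h2⟩ : ∃ η : ℝ, 0 < η ∧ 100 * η ≤ δ ∧ 100 * η ≤ ε := by
    refine ⟨min δ ε / 100, ?_, ?_, ?_⟩
    · have := lt_min hδ hε
      positivity
    · have := min_le_left δ ε
      linarith
    · have := min_le_right δ ε
      linarith
  obtain ⟨C, hC, hCZ⟩ := wtq (η / 10) (by positivity)
  obtain ⟨V0, hV0⟩ := wpr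
  obtain ⟨X0, hX0, hX⟩ := wpa δ hδ hδ2 R V0
  have hRr : (1 : ℝ) ≤ (R : ℝ) := by exact_mod_cast hR1
  have hc0 : 0 < 3 * η ^ 2 / (16 * 10 ^ 20 * (R : ℝ) ^ 2) := by positivity
  have hC5 : 0 < 3 * 10 ^ 15 * (R : ℝ) * (C * 200 ^ 8) ^ 3 * (6 + 6 / η) ^ 2 * (8 ^ 4 + 8 ^ 3) +
      128 * (C * 200 ^ 8) := by
    have : 0 < C := by linarith
    positivity
  obtain ⟨X1, hX1⟩ := WFn_fin δ ε η _ _ hδ hε h1 h2 hc0 hC5
  refine ⟨max X0 X1, fun X hXX => ?_⟩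
  have hXa : X0 ≤ X := le_trans (le_max_left _ _) hXX
  have hXb : X1 ≤ X := le_trans (le_max_right _ _) hXX
  have hX2 : 2 ≤ X := hX0.trans hXa
  obtain ⟨V, a, P, b1, b2, b3, b4, b5, b6, b7, b8, b9, b10, b11, b12, b13⟩ := hX X hXa
  have hx1 : (1 : ℝ) ≤ X := by exact_mod_cast (by omega : 1 ≤ X)
  have hx : (0 : ℝ) < X := by linarith
  have hy : (1 : ℝ) ≤ (X : ℝ) ^ η := Real.one_le_rpow hx1 hη.le
  have ha4 : (a : ℝ) ≤ (X : ℝ) ^ ((1 : ℝ) / 4) :=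
    b3.trans (Real.rpow_le_rpow_of_exponent_le hx1 (by linarith))
  have hV4 : (V : ℝ) ≤ (X : ℝ) ^ ((1 : ℝ) / 4) :=
    le_trans (by exact_mod_cast b12) ha4
  have hVX : V ≤ X := by
    have : (V : ℝ) ≤ (X : ℝ) := by
      calc (V : ℝ) ≤ (X : ℝ) ^ ((1 : ℝ) / 4) := hV4
        _ ≤ (X : ℝ) ^ (1 : ℝ) := Real.rpow_le_rpow_of_exponent_le hx1 (by norm_num)
        _ = X := Real.rpow_one _
    exact_mod_cast this
  have hV1 : 1 ≤ V := le_trans (by norm_num) b10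
  have hVr : (1 : ℝ) < V := by exact_mod_cast lt_of_lt_of_le (by norm_num) b10
  have hlog := WFn_L η hη X V hV1 hVX
  have hlog0 : 0 < Real.log V := Real.log_pos hVr
  obtain ⟨hTB, hQB⟩ := hCZ ((200 * V ^ 5) ^ 8) (Nat.one_le_pow _ _ (by positivity))
  have hTle := WFn_T η C hη (by linarith) hC X V hX2 hV4
  set T : ℝ := C * (((200 * V ^ 5) ^ 8 : ℕ) : ℝ) ^ (η / 10) with hTd
  have hT1 : 1 ≤ T := hTB.1
  have hPW : PW V a R P ((200 * V ^ 5) ^ 8) T T (6 + 6 * Real.log V) :=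
    ⟨hR1, b8, b9, b10, b12, b13, hTB, hQB, le_rfl, le_rfl⟩
  obtain ⟨S, hS1, hS2⟩ := wcm V a R P _ (10 ^ 10) T T _ hPW le_rfl hRz
  refine ⟨V, a, S, b10, b12, b13, b1, b2, b3, b4, ?_, ?_⟩
  · intro q hq
    obtain ⟨c1, c2, c3⟩ := hS1 q hq
    refine ⟨c1, c2, fun p hp hpX => c3 p hp ?_⟩
    have : (p : ℝ) < (P : ℝ) + 1 := lt_of_le_of_lt hpX b7
    have h3 : p < P + 1 := by exact_mod_cast this
    omega
  · have hL : 6 + 6 * Real.log V ≤ (6 + 6 / η) * (X : ℝ) ^ η := by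
      calc 6 + 6 * Real.log V ≤ 6 * (X : ℝ) ^ η + 6 * ((X : ℝ) ^ η / η) := by
            gcongr
            linarith
        _ = _ := by ring
    have m1 := WFn_main δ ((X : ℝ) ^ η) η X V a R ((PP V).card : ℝ) hη (by linarith) hx hRr hVr b4
      hlog (hV0 V b11)
    have m2 := WFn_err δ ((X : ℝ) ^ η) (C * 200 ^ 8) (6 + 6 / η) T (6 + 6 * Real.log V) X V a P R
      hδ hy (by linarith) hTle (by positivity) hL hx1 (by linarith) (by positivity) b5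
      (by positivity) b3 (by exact_mod_cast b8) b6
    have m3 := hX1 X hXb hX2
    have hEr : Er V a R T T (6 + 6 * Real.log V) P =
        10 ^ 15 * (R : ℝ) * T ^ 2 * T * (6 + 6 * Real.log V) ^ 2 *
          (√(P : ℝ) * (V : ℝ) ^ 4 + (V : ℝ) ^ 3 * a) := rfl
    rw [hEr] at hS2
    linarith

end Pool.Agent.FTL
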