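import Pool.Agent.FTL.Way
import Pool.Agent.FTB.Cel

/-!
# FTL/WSh: the bound for an exponential sum over an arbitrary box

PROOF of `sqrl`.  Substitute `x = (a1 + U + x'.1, a2 + E + x'.2)` with `x' ∈ bx U E` (a bijection of
`bx U E` onto the box).  `qf α β γ x + l1 x.1 + l2 x.2 = qf α β γ x' + l1' x'.1 + l2' x'.2 + const`,
and the constant has no influence on the norm (`ex_add`, `norm_ex`).  Then `wayl` and
`Pool.Agent.FTB.cel` as in the proof of `Pool.Agent.FTB.sqr` (file `Pool/Agent/FTB/Sqr.lean`).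
-/

set_option autoImplicit false

namespace Pool.Agent.FTL

open Pool.Agent.FTB

theorem sqrl (α β γ l1 l2 : ℝ) (a1 a2 : ℤ) (U E : ℕ) (hU : 1 ≤ U) (hE : 1 ≤ E) :
    ‖∑ x ∈ Finset.Icc a1 (a1 + 2 * (U : ℤ)) ×ˢ Finset.Icc a2 (a2 + 2 * (E : ℤ)),
        ex (qf α β γ x + l1 * (x.1 : ℝ) + l2 * (x.2 : ℝ))‖ ≤
      7 * √((U : ℝ) * (E : ℝ) * (1 + Real.log U) * (1 + Real.log E)) *
        √((H0 α β γ U E).card : ℝ) := by
  set p1 : ℤ := a1 + U with hp1
  set p2 : ℤ := a2 + E with hp2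
  set m1 : ℝ := 2 * α * p1 + β * p2 + l1 with hm1
  set m2 : ℝ := β * p1 + 2 * γ * p2 + l2 with hm2
  set c0 : ℝ := α * p1 ^ 2 + β * p1 * p2 + γ * p2 ^ 2 + l1 * p1 + l2 * p2 with hc0
  have hsum : ∑ x ∈ Finset.Icc a1 (a1 + 2 * (U : ℤ)) ×ˢ Finset.Icc a2 (a2 + 2 * (E : ℤ)),
        ex (qf α β γ x + l1 * (x.1 : ℝ) + l2 * (x.2 : ℝ)) =
      ex c0 * ∑ x ∈ bx U E, ex (qf α β γ x + m1 * (x.1 : ℝ) + m2 * (x.2 : ℝ)) := by
    rw [Finset.mul_sum]
    refine Finset.sum_bij' (fun x _ => (x.1 - p1, x.2 - p2)) (fun y _ => (y.1 + p1, y.2 + p2))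
      ?_ ?_ ?_ ?_ ?_
    · intro x hx
      rw [Finset.mem_product, Finset.mem_Icc, Finset.mem_Icc] at hx
      rw [mem_bx, abs_le, abs_le]
      refine ⟨⟨?_, ?_⟩, ⟨?_, ?_⟩⟩
      · show -(U : ℤ) ≤ x.1 - p1
        omega
      · show x.1 - p1 ≤ (U : ℤ)
        omega
      · show -(E : ℤ) ≤ x.2 - p2
        omega
      · show x.2 - p2 ≤ (E : ℤ)
        omega
    · intro y hy
      rw [mem_bx, abs_le, abs_le] at hy
      rw [Finset.mem_product, Finset.mem_Icc, Finset.mem_Icc]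
      refine ⟨⟨?_, ?_⟩, ⟨?_, ?_⟩⟩
      · show a1 ≤ y.1 + p1
        omega
      · show y.1 + p1 ≤ a1 + 2 * (U : ℤ)
        omega
      · show a2 ≤ y.2 + p2
        omega
      · show y.2 + p2 ≤ a2 + 2 * (E : ℤ)
        omega
    · intro x _
      simp
    · intro y _
      simp
    · intro x _
      rw [← ex_add]
      congr 1
      unfold qf
      push_cast
      rw [hm1, hm2, hc0]
      ring
  rw [hsum, norm_mul, norm_ex, one_mul]
  have h1 := (wayl α β γ m1 m2 U E).trans (cel α β γ U E hU hE)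
  have hU1 : (1 : ℝ) ≤ U := by exact_mod_cast hU
  have hE1 : (1 : ℝ) ≤ E := by exact_mod_cast hE
  have hlU : 0 ≤ Real.log U := Real.log_nonneg hU1
  have hlE : 0 ≤ Real.log E := Real.log_nonneg hE1
  have h0 : (0 : ℝ) ≤ (U : ℝ) * (E : ℝ) * (1 + Real.log U) * (1 + Real.log E) := by positivity
  apply (pow_le_pow_iff_left₀ (norm_nonneg _) (by positivity) two_ne_zero).1
  rw [mul_pow, mul_pow, Real.sq_sqrt h0, Real.sq_sqrt (Nat.cast_nonneg _)]
  refine h1.trans (le_of_eq ?_)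
  ring

end Pool.Agent.FTL
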