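import Pool.Agent.FTL.WSh
import Pool.Agent.FTL.DefsW
import Pool.Agent.FTL.WFc

/-!
# FTL/WTl: the lower bound for fixed `(c, v)`

PROOF of `tlo`.  Let `cb` be an inverse of `c` modulo `v ^ 5` (`1 * v ^ 5 ∣ cb * c - 1`),
`θ (x, y) := cb ^ 5 * Fq c v (1 + R x) (1 + R y) / v ^ 5`, `t0 := (z1 + z2) / (2 v ^ 5)`,
`η := (z2 - z1) / (2 v ^ 5)`, so `16 ≤ m η` by `hm2`.  Apply `wfc` with the box
`B := Icc a1 (a1 + 2 U) ×ˢ Icc a2 (a2 + 2 U)`, `card B = (2 U + 1) ^ 2`.  As in `WTu.lean` (`p = 1`):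
`‖∑ x ∈ B, ex (j θ x)‖ ≤ 7 √(U U (1 + log U) (1 + log U)) √(card (H5 c v 1 (j R ^ 2) cb U U))
≤ 7 U (1 + log U) (1 + √(card (BK 1 s (5 (j R ^ 2)) c v)))` by `sqrl`.  For `(x, y) ∈ B` with
`dn (θ (x, y) - t0) ≤ η` there is an integer `n` with `|θ (x, y) - t0 - n| ≤ η`; then
`z := cb ^ 5 * Fq c v (1 + R x) (1 + R y) - n v ^ 5` satisfies `|z - (z1 + z2) / 2| ≤ (z2 - z1) / 2`,
i.e. `z1 ≤ z ≤ z2`, and `v ^ 5 ∣ c ^ 5 z - Fq c v (1 + R x) (1 + R y)`.  Let `G` be the image of the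
filtered set under `(x, y) ↦ (x, y, z)`.
-/

set_option autoImplicit false

namespace Pool.Agent.FTL

open Pool.Agent.FTB

theorem tlo (c v R m s U : ℕ) (a1 a2 : ℤ) (z1 z2 : ℝ) (hc : 1 ≤ c) (hv : 1 ≤ v)
    (hR : 1 ≤ R) (hU : 1 ≤ U) (hm : 1 ≤ m) (hcv : Nat.Coprime c v)
    (hm2 : 32 * (v : ℝ) ^ 5 ≤ m * (z2 - z1))
    (hH : ∀ cb : ℤ, ((1 : ℕ) : ℤ) * (v : ℤ) ^ 5 ∣ cb * c - 1 → ∀ j ∈ Finset.Ico 1 m,
      ((H5 c v 1 (j * R ^ 2) cb U U).card : ℝ) ≤ 1 + ((BK 1 s (5 * (j * R ^ 2)) c v).card : ℝ)) :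
    ∃ G : Finset (ℤ × ℤ × ℤ),
      (∀ q ∈ G, (a1 ≤ q.1 ∧ q.1 ≤ a1 + 2 * (U : ℤ)) ∧
        (a2 ≤ q.2.1 ∧ q.2.1 ≤ a2 + 2 * (U : ℤ)) ∧ (z1 ≤ (q.2.2 : ℝ) ∧ (q.2.2 : ℝ) ≤ z2) ∧
        (v : ℤ) ^ 5 ∣ (c : ℤ) ^ 5 * q.2.2 - Fq c v (1 + R * q.1) (1 + R * q.2.1)) ∧
      1 / (m : ℝ) * ((2 * (U : ℝ) + 1) ^ 2 / 2 - 21 * U * (1 + Real.log U) *
        ∑ j ∈ Finset.Ico 1 m, (1 + √((BK 1 s (5 * (j * R ^ 2)) c v).card : ℝ))) ≤ G.card := by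
  classical
  have hc0 : (0 : ℝ) < c := by exact_mod_cast hc
  have hv0 : (0 : ℝ) < v := by exact_mod_cast hv
  have hm0 : (0 : ℝ) < m := by exact_mod_cast hm
  have hU1 : (1 : ℝ) ≤ U := by exact_mod_cast hU
  have hlU : 0 ≤ Real.log U := Real.log_nonneg hU1
  have hv5 : (0 : ℝ) < (v : ℝ) ^ 5 := by positivity
  -- an inverse of `c` modulo `v ^ 5`
  obtain ⟨cb, hcb⟩ : ∃ cb : ℤ, ((1 : ℕ) : ℤ) * (v : ℤ) ^ 5 ∣ cb * c - 1 := by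
    have h1 : IsCoprime (c : ℤ) ((v : ℤ) ^ 5) :=
      ((Nat.isCoprime_iff_coprime).2 hcv).pow_right
    obtain ⟨a, b, hab⟩ := h1
    exact ⟨a, -b, by push_cast; linarith⟩
  have hcb5 : (v : ℤ) ^ 5 ∣ cb ^ 5 * c ^ 5 - 1 := by
    have h1 : cb ^ 5 * (c : ℤ) ^ 5 - 1 = (cb * c) ^ 5 - 1 ^ 5 := by ring
    rw [h1]
    have h2 : (v : ℤ) ^ 5 ∣ cb * c - 1 := by simpa using hcb
    exact h2.trans (sub_dvd_pow_sub_pow _ _ 5)
  set θ : ℤ × ℤ → ℝ := fun x =>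
    (cb : ℝ) ^ 5 * ((Fq c v (1 + R * x.1) (1 + R * x.2) : ℤ) : ℝ) / (v : ℝ) ^ 5 with hθ
  set t0 : ℝ := (z1 + z2) / (2 * (v : ℝ) ^ 5) with ht0
  set η : ℝ := (z2 - z1) / (2 * (v : ℝ) ^ 5) with hη
  have hmη : 16 ≤ m * η := by
    rw [hη, ← mul_div_assoc, le_div_iff₀ (by positivity)]
    linarith
  set B : Finset (ℤ × ℤ) := Finset.Icc a1 (a1 + 2 * (U : ℤ)) ×ˢ Finset.Icc a2 (a2 + 2 * (U : ℤ))
    with hB
  have hBc : (B.card : ℝ) = (2 * (U : ℝ) + 1) ^ 2 := by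
    have h3 : B.card = (2 * U + 1) * (2 * U + 1) := by
      rw [hB, Finset.card_product, Int.card_Icc, Int.card_Icc]
      congr 1
      · have : a1 + 2 * (U : ℤ) + 1 - a1 = ((2 * U + 1 : ℕ) : ℤ) := by push_cast; ring
        rw [this, Int.toNat_natCast]
      · have : a2 + 2 * (U : ℤ) + 1 - a2 = ((2 * U + 1 : ℕ) : ℤ) := by push_cast; ring
        rw [this, Int.toNat_natCast]
    rw [h3]
    push_cast
    ring
  have hw := wfc B θ t0 η m hm hmη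
  -- the exponential sums
  have h3 : ∀ j ∈ Finset.Ico 1 m, ‖∑ x ∈ B, ex ((j : ℝ) * θ x)‖ ≤
      7 * (U * (1 + Real.log U)) *
        (1 + √((BK 1 s (5 * (j * R ^ 2)) c v).card : ℝ)) := by
    intro j hj
    set α : ℝ := ((j * R ^ 2 : ℕ) : ℝ) * ((cb : ℝ) ^ 5 * ((1 : ℕ) : ℝ) / v) with hα
    set β : ℝ := ((j * R ^ 2 : ℕ) : ℝ) * (-(cb : ℝ) ^ 5 * c ^ 2 / v ^ 3) with hβ
    set γ : ℝ := ((j * R ^ 2 : ℕ) : ℝ) * (-(cb : ℝ) ^ 5 * c ^ 4 / (((1 : ℕ) : ℝ) * v ^ 5)) with hγ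
    set l1 : ℝ := (j : ℝ) * ((cb : ℝ) ^ 5 * (2 * R * (v : ℝ) ^ 4 - R * (c : ℝ) ^ 2 * (v : ℝ) ^ 2) /
      (v : ℝ) ^ 5) with hl1
    set l2 : ℝ := (j : ℝ) * ((cb : ℝ) ^ 5 * (-(R * (c : ℝ) ^ 2 * (v : ℝ) ^ 2) -
      2 * R * (c : ℝ) ^ 4) / (v : ℝ) ^ 5) with hl2
    set κ : ℝ := (j : ℝ) * ((cb : ℝ) ^ 5 * ((v : ℝ) ^ 4 - (c : ℝ) ^ 2 * (v : ℝ) ^ 2 -
      (c : ℝ) ^ 4) / (v : ℝ) ^ 5) with hκ
    have h4 := sqrl α β γ l1 l2 a1 a2 U U hU hU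
    have h5 : (∑ x ∈ B, ex ((j : ℝ) * θ x)) =
        (∑ x ∈ B, ex (qf α β γ x + l1 * (x.1 : ℝ) + l2 * (x.2 : ℝ))) * ex κ := by
      rw [Finset.sum_mul]
      refine Finset.sum_congr rfl fun x _ => ?_
      rw [← ex_add]
      congr 1
      rw [hθ, hα, hβ, hγ, hl1, hl2, hκ]
      unfold qf Fq
      push_cast
      field_simp
      ring
    rw [h5, norm_mul, norm_ex, mul_one]
    have h6 : √((U : ℝ) * (U : ℝ) * (1 + Real.log U) * (1 + Real.log U)) =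
        U * (1 + Real.log U) := by
      have h7 : (U : ℝ) * (U : ℝ) * (1 + Real.log U) * (1 + Real.log U) =
          (U * (1 + Real.log U)) ^ 2 := by ring
      rw [h7, Real.sqrt_sq (by positivity)]
    rw [h6] at h4
    refine h4.trans (mul_le_mul_of_nonneg_left ?_ (by positivity))
    have h8 := hH cb hcb j hj
    unfold H5 at h8
    have hB0 : (0 : ℝ) ≤ ((BK 1 s (5 * (j * R ^ 2)) c v).card : ℝ) := Nat.cast_nonneg _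
    have h7 := Real.sqrt_nonneg ((BK 1 s (5 * (j * R ^ 2)) c v).card : ℝ)
    rw [Real.sqrt_le_left (by positivity)]
    refine h8.trans ?_
    have h9 := Real.sq_sqrt hB0
    nlinarith
  have h4 := Finset.sum_le_sum h3
  rw [← Finset.mul_sum] at h4
  -- the points
  have hn : ∀ x : ℤ × ℤ, ∃ n : ℤ, dn (θ x - t0) = |θ x - t0 - n| := fun x => dn_exists _
  choose n hn using hn
  set F : ℤ × ℤ → ℤ × ℤ × ℤ := fun x =>
    (x.1, x.2, cb ^ 5 * Fq c v (1 + R * x.1) (1 + R * x.2) - n x * (v : ℤ) ^ 5) with hF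
  have hFi : Function.Injective F := by
    intro x y hxy
    rw [hF] at hxy
    have e := Prod.mk.inj hxy
    exact Prod.ext e.1 (Prod.mk.inj e.2).1
  refine ⟨(B.filter fun x => dn (θ x - t0) ≤ η).image F, ?_, ?_⟩
  · intro q hq
    obtain ⟨x, hx, rfl⟩ := Finset.mem_image.1 hq
    obtain ⟨hxB, hxn⟩ := Finset.mem_filter.1 hx
    obtain ⟨hx1, hx2⟩ := Finset.mem_product.1 hxB
    rw [Finset.mem_Icc] at hx1 hx2
    refine ⟨hx1, hx2, ?_, ?_⟩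
    · rw [hn x] at hxn
      have e1 : ((F x).2.2 : ℝ) = (v : ℝ) ^ 5 * (θ x - n x) := by
        rw [hF, hθ]
        push_cast
        field_simp
      have e2 : (v : ℝ) ^ 5 * t0 = (z1 + z2) / 2 := by
        rw [ht0]
        field_simp
      have e3 : (v : ℝ) ^ 5 * η = (z2 - z1) / 2 := by
        rw [hη]
        field_simp
      obtain ⟨h5, h6⟩ := abs_le.1 hxn
      rw [e1]
      have h7 := mul_le_mul_of_nonneg_left h5 hv5.le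
      have h8 := mul_le_mul_of_nonneg_left h6 hv5.le
      constructor
      · nlinarith
      · nlinarith
    · have e1 : (c : ℤ) ^ 5 * (F x).2.2 - Fq c v (1 + R * (F x).1) (1 + R * (F x).2.1) =
          (cb ^ 5 * c ^ 5 - 1) * Fq c v (1 + R * x.1) (1 + R * x.2) -
            (v : ℤ) ^ 5 * (c ^ 5 * n x) := by
        rw [hF]
        ring
      rw [e1]
      exact dvd_sub (hcb5.mul_right _) (dvd_mul_right _ _)
  · rw [Finset.card_image_of_injective _ hFi]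
    refine le_trans ?_ hw
    refine mul_le_mul_of_nonneg_left ?_ (by positivity)
    rw [hBc]
    linarith

end Pool.Agent.FTL
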