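import Pool.Agent.FTL.WSh
import Pool.Agent.FTL.DefsW
import Pool.Agent.FTB.FjB

/-!
# FTL/WTu: the upper bound for fixed `(c, v)`, with a prime `p` and a congruence modulo `R`

PROOF of `tup`: as `Pool.Agent.FTB.tcv` (file `Pool/Agent/FTB/Tcv.lean`).  Let `cb` be an inverse of `c`
modulo `M := p v ^ 5`, and
`θ (x, y) := cb ^ 5 * Fq c v (p (r + R x)) (e0 + R y) / M`.  For `q ∈ S`,
`q.2.2 = cb ^ 5 * Fq .. - n M` for an integer `n` (multiply the divisibility by `cb ^ 5`), so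
`|θ (q.1, q.2.1) - n| ≤ W / M ≤ 1 / (4 m)`; and `q.2.2` is determined by `(q.1, q.2.1)`, because
two values differ by a multiple of `M` and `2 W ≤ M / 2 < M` (`M > 0`).  So `S` maps injectively into
the set of the points of the box `Icc a1 (a1 + 2 U) ×ˢ Icc a2 (a2 + 2 E)`
(`(2 U + 1) (2 E + 1) ≤ 9 U E` points) at which `θ` is `1 / (4 m)`-close to an integer; use
`Pool.Agent.FTB.fjb`.  The quadratic part of `θ` is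
`qf (R ^ 2 (cb ^ 5 p / v)) (R ^ 2 (-cb ^ 5 c ^ 2 / v ^ 3)) (R ^ 2 (-cb ^ 5 c ^ 4 / (p v ^ 5)))`
(`Fq c v (p (r + R x)) (e0 + R y) = p ^ 2 v ^ 4 (r + R x) ^ 2 - c ^ 2 v ^ 2 p (r + R x) (e0 + R y) -
c ^ 4 (e0 + R y) ^ 2`), plus a linear form in `(x, y)`, plus a constant.  So `sqrl` (the constant does
not change the norm: `ex_add`, `norm_ex`) gives for `1 ≤ j < m`
`‖∑ ex (j θ)‖ ≤ 7 √(U E (1 + log U) (1 + log E)) √(card (H5 c v p (j R ^ 2) cb U E))`, and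
`√(1 + b) ≤ 1 + √b`.
-/

set_option autoImplicit false

namespace Pool.Agent.FTL

open Pool.Agent.FTB

theorem tup (c v p R m s U E : ℕ) (r e0 a1 a2 : ℤ) (W : ℝ) (hc : 1 ≤ c) (hv : 1 ≤ v)
    (hp : 1 ≤ p) (hR : 1 ≤ R) (hU : 1 ≤ U) (hE : 1 ≤ E) (hm : 1 ≤ m) (hcv : Nat.Coprime c v)
    (hpc : Nat.Coprime p c) (hW0 : 0 ≤ W) (hW : 4 * (m : ℝ) * W ≤ p * (v : ℝ) ^ 5)
    (hH : ∀ cb : ℤ, (p : ℤ) * (v : ℤ) ^ 5 ∣ cb * c - 1 → ∀ j ∈ Finset.Ico 1 m,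
      ((H5 c v p (j * R ^ 2) cb U E).card : ℝ) ≤ 1 + ((BK p s (5 * (j * R ^ 2)) c v).card : ℝ))
    (S : Finset (ℤ × ℤ × ℤ))
    (hS : ∀ q ∈ S, (a1 ≤ q.1 ∧ q.1 ≤ a1 + 2 * (U : ℤ)) ∧ (a2 ≤ q.2.1 ∧ q.2.1 ≤ a2 + 2 * (E : ℤ)) ∧
      |(q.2.2 : ℝ)| ≤ W ∧
      (p : ℤ) * (v : ℤ) ^ 5 ∣ (c : ℤ) ^ 5 * q.2.2 -
        Fq c v (p * (r + R * q.1)) (e0 + R * q.2.1)) :
    (S.card : ℝ) ≤ 2 / (m : ℝ) * (9 * U * E +
      14 * √((U : ℝ) * (E : ℝ) * (1 + Real.log U) * (1 + Real.log E)) *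
        ∑ j ∈ Finset.Ico 1 m, (1 + √((BK p s (5 * (j * R ^ 2)) c v).card : ℝ))) := by
  classical
  have hc0 : (0 : ℝ) < c := by exact_mod_cast hc
  have hv0 : (0 : ℝ) < v := by exact_mod_cast hv
  have hp0 : (0 : ℝ) < p := by exact_mod_cast hp
  have hm0 : (0 : ℝ) < m := by exact_mod_cast hm
  have hU1 : (1 : ℝ) ≤ U := by exact_mod_cast hU
  have hE1 : (1 : ℝ) ≤ E := by exact_mod_cast hE
  have hlU : 0 ≤ Real.log U := Real.log_nonneg hU1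
  have hlE : 0 ≤ Real.log E := Real.log_nonneg hE1
  have hcop : IsCoprime (c : ℤ) ((p : ℤ) * (v : ℤ) ^ 5) :=
    ((Nat.isCoprime_iff_coprime).2 hpc.symm).mul_right
      (((Nat.isCoprime_iff_coprime).2 hcv).pow_right)
  -- an inverse of `c` modulo `p v ^ 5`
  obtain ⟨cb, hcb⟩ : ∃ cb : ℤ, (p : ℤ) * (v : ℤ) ^ 5 ∣ cb * c - 1 := by
    obtain ⟨a, b, hab⟩ := hcop
    exact ⟨a, -b, by linarith⟩
  have hcb5 : (p : ℤ) * (v : ℤ) ^ 5 ∣ cb ^ 5 * c ^ 5 - 1 := by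
    have h1 : cb ^ 5 * (c : ℤ) ^ 5 - 1 = (cb * c) ^ 5 - 1 ^ 5 := by ring
    rw [h1]
    exact hcb.trans (sub_dvd_pow_sub_pow _ _ 5)
  have hv5 : (0 : ℝ) < (p : ℝ) * (v : ℝ) ^ 5 := by positivity
  -- the map to the first two coordinates
  have hinj : Set.InjOn (fun q : ℤ × ℤ × ℤ => ((q.1, q.2.1) : ℤ × ℤ)) (S : Set (ℤ × ℤ × ℤ)) := by
    intro q hq r' hr hqr
    have hqr' : ((q.1, q.2.1) : ℤ × ℤ) = (r'.1, r'.2.1) := hqr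
    have e1 : q.1 = r'.1 := (Prod.mk.inj hqr').1
    have e2 : q.2.1 = r'.2.1 := (Prod.mk.inj hqr').2
    obtain ⟨q1, q2, q3, q4⟩ := hS q (Finset.mem_coe.1 hq)
    obtain ⟨r1, r2, r3, r4⟩ := hS r' (Finset.mem_coe.1 hr)
    have h1 : (p : ℤ) * (v : ℤ) ^ 5 ∣ (c : ℤ) ^ 5 * (q.2.2 - r'.2.2) := by
      have h2 := dvd_sub q4 r4
      rw [e1, e2] at h2
      have h3 : (c : ℤ) ^ 5 * q.2.2 - Fq c v (p * (r + R * r'.1)) (e0 + R * r'.2.1) -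
        ((c : ℤ) ^ 5 * r'.2.2 - Fq c v (p * (r + R * r'.1)) (e0 + R * r'.2.1)) =
        (c : ℤ) ^ 5 * (q.2.2 - r'.2.2) := by ring
      rw [h3] at h2
      exact h2
    have h2 : (p : ℤ) * (v : ℤ) ^ 5 ∣ q.2.2 - r'.2.2 := by
      have h3 : IsCoprime ((p : ℤ) * (v : ℤ) ^ 5) ((c : ℤ) ^ 5) := hcop.symm.pow_right
      exact h3.dvd_of_dvd_mul_left h1
    have h4 : |q.2.2 - r'.2.2| < (p : ℤ) * (v : ℤ) ^ 5 := by
      have h5 : (|q.2.2 - r'.2.2| : ℝ) < (p : ℝ) * (v : ℝ) ^ 5 := by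
        have h6 : |(q.2.2 : ℝ) - (r'.2.2 : ℝ)| ≤ |(q.2.2 : ℝ)| + |(r'.2.2 : ℝ)| := abs_sub _ _
        have h7 : (1 : ℝ) ≤ m := by exact_mod_cast hm
        have h8 : W ≤ (m : ℝ) * W := by nlinarith
        linarith
      have h9 : ((|q.2.2 - r'.2.2| : ℤ) : ℝ) < (((p : ℤ) * (v : ℤ) ^ 5 : ℤ) : ℝ) := by
        push_cast
        exact h5
      exact_mod_cast h9
    have h5 := Int.eq_zero_of_abs_lt_dvd h2 h4
    have e3 : q.2.2 = r'.2.2 := by linarith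
    exact Prod.ext e1 (Prod.ext e2 e3)
  set T : Finset (ℤ × ℤ) := S.image (fun q : ℤ × ℤ × ℤ => ((q.1, q.2.1) : ℤ × ℤ)) with hTdef
  set B : Finset (ℤ × ℤ) := Finset.Icc a1 (a1 + 2 * (U : ℤ)) ×ˢ Finset.Icc a2 (a2 + 2 * (E : ℤ))
    with hBdef
  have hTcard : T.card = S.card := Finset.card_image_of_injOn hinj
  have hTS : T ⊆ B := by
    intro x hx
    obtain ⟨q, hq, rfl⟩ := Finset.mem_image.1 hx
    obtain ⟨q1, q2, q3, q4⟩ := hS q hq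
    rw [hBdef, Finset.mem_product, Finset.mem_Icc, Finset.mem_Icc]
    exact ⟨q1, q2⟩
  set θ : ℤ × ℤ → ℝ := fun x => (cb : ℝ) ^ 5 * ((v : ℝ) ^ 4 * ((p : ℝ) * (r + R * x.1)) ^ 2 -
    (c : ℝ) ^ 2 * (v : ℝ) ^ 2 * ((p : ℝ) * (r + R * x.1)) * (e0 + R * x.2) -
    (c : ℝ) ^ 4 * ((e0 : ℝ) + R * x.2) ^ 2) / ((p : ℝ) * (v : ℝ) ^ 5) with hθ
  have hT : ∀ x ∈ T, ∃ n : ℤ, |θ x - n| ≤ 1 / (4 * (m : ℝ)) := by
    intro x hx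
    obtain ⟨q, hq, rfl⟩ := Finset.mem_image.1 hx
    obtain ⟨q1, q2, q3, q4⟩ := hS q hq
    have h1 : (p : ℤ) * (v : ℤ) ^ 5 ∣ q.2.2 - cb ^ 5 *
        Fq c v (p * (r + R * q.1)) (e0 + R * q.2.1) := by
      have h2 : q.2.2 - cb ^ 5 * Fq c v (p * (r + R * q.1)) (e0 + R * q.2.1) =
        cb ^ 5 * ((c : ℤ) ^ 5 * q.2.2 - Fq c v (p * (r + R * q.1)) (e0 + R * q.2.1)) -
        (cb ^ 5 * c ^ 5 - 1) * q.2.2 := by ring
      rw [h2]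
      exact dvd_sub (q4.mul_left _) (hcb5.mul_right _)
    obtain ⟨k, hk⟩ := h1
    refine ⟨-k, ?_⟩
    have hk2 : (q.2.2 : ℝ) - (cb : ℝ) ^ 5 * ((v : ℝ) ^ 4 * ((p : ℝ) * (r + R * q.1)) ^ 2 -
        (c : ℝ) ^ 2 * (v : ℝ) ^ 2 * ((p : ℝ) * (r + R * q.1)) * (e0 + R * q.2.1) -
        (c : ℝ) ^ 4 * ((e0 : ℝ) + R * q.2.1) ^ 2) =
        (p : ℝ) * (v : ℝ) ^ 5 * k := by
      have h3 : ((q.2.2 - cb ^ 5 * Fq c v (p * (r + R * q.1)) (e0 + R * q.2.1) : ℤ) : ℝ) =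
        (((p : ℤ) * (v : ℤ) ^ 5 * k : ℤ) : ℝ) := by rw [hk]
      unfold Fq at h3
      push_cast at h3
      exact h3
    have h4 : θ ((q.1, q.2.1) : ℤ × ℤ) - ((-k : ℤ) : ℝ) =
        (q.2.2 : ℝ) / ((p : ℝ) * (v : ℝ) ^ 5) := by
      have h5 : (q.2.2 : ℝ) = (p : ℝ) * (v : ℝ) ^ 5 * k +
        (cb : ℝ) ^ 5 * ((v : ℝ) ^ 4 * ((p : ℝ) * (r + R * q.1)) ^ 2 -
        (c : ℝ) ^ 2 * (v : ℝ) ^ 2 * ((p : ℝ) * (r + R * q.1)) * (e0 + R * q.2.1) -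
        (c : ℝ) ^ 4 * ((e0 : ℝ) + R * q.2.1) ^ 2) := by
        linarith
      rw [h5, hθ]
      push_cast
      rw [add_div, mul_div_cancel_left₀ _ hv5.ne']
      ring
    rw [h4, abs_div, abs_of_pos hv5, div_le_div_iff₀ hv5 (by positivity)]
    have h6 : |(q.2.2 : ℝ)| * (4 * (m : ℝ)) ≤ W * (4 * (m : ℝ)) :=
      mul_le_mul_of_nonneg_right q3 (by positivity)
    linarith
  have h1 := fjb B T θ m hm hTS hT
  rw [hTcard] at h1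
  refine h1.trans (mul_le_mul_of_nonneg_left ?_ (by positivity))
  have h2 : (B.card : ℝ) ≤ 9 * U * E := by
    have h3 : B.card = (2 * U + 1) * (2 * E + 1) := by
      rw [hBdef, Finset.card_product, Int.card_Icc, Int.card_Icc]
      congr 1
      · have : a1 + 2 * (U : ℤ) + 1 - a1 = ((2 * U + 1 : ℕ) : ℤ) := by push_cast; ring
        rw [this, Int.toNat_natCast]
      · have : a2 + 2 * (E : ℤ) + 1 - a2 = ((2 * E + 1 : ℕ) : ℤ) := by push_cast; ring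
        rw [this, Int.toNat_natCast]
    rw [h3]
    push_cast
    nlinarith
  have h3 : ∀ j ∈ Finset.Ico 1 m, ‖∑ x ∈ B, ex ((j : ℝ) * θ x)‖ ≤
      7 * √((U : ℝ) * (E : ℝ) * (1 + Real.log U) * (1 + Real.log E)) *
        (1 + √((BK p s (5 * (j * R ^ 2)) c v).card : ℝ)) := by
    intro j hj
    set A1 : ℝ := ((j * R ^ 2 : ℕ) : ℝ) * ((cb : ℝ) ^ 5 * p / v) with hA1
    set A2 : ℝ := ((j * R ^ 2 : ℕ) : ℝ) * (-(cb : ℝ) ^ 5 * c ^ 2 / v ^ 3) with hA2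
    set A3 : ℝ := ((j * R ^ 2 : ℕ) : ℝ) * (-(cb : ℝ) ^ 5 * c ^ 4 / (p * v ^ 5)) with hA3
    set l1 : ℝ := (j : ℝ) * (cb : ℝ) ^ 5 * ((v : ℝ) ^ 4 * p ^ 2 * (2 * r * R) -
      (c : ℝ) ^ 2 * (v : ℝ) ^ 2 * p * R * e0) / ((p : ℝ) * (v : ℝ) ^ 5) with hl1
    set l2 : ℝ := (j : ℝ) * (cb : ℝ) ^ 5 * (-((c : ℝ) ^ 2 * (v : ℝ) ^ 2 * p * r * R) -
      (c : ℝ) ^ 4 * (2 * e0 * R)) / ((p : ℝ) * (v : ℝ) ^ 5) with hl2
    set l0 : ℝ := (j : ℝ) * (cb : ℝ) ^ 5 * ((v : ℝ) ^ 4 * p ^ 2 * r ^ 2 -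
      (c : ℝ) ^ 2 * (v : ℝ) ^ 2 * p * r * e0 - (c : ℝ) ^ 4 * e0 ^ 2) /
      ((p : ℝ) * (v : ℝ) ^ 5) with hl0
    have h4 := sqrl A1 A2 A3 l1 l2 a1 a2 U E hU hE
    have h5 : (∑ x ∈ B, ex ((j : ℝ) * θ x)) =
        ex l0 * ∑ x ∈ B, ex (qf A1 A2 A3 x + l1 * (x.1 : ℝ) + l2 * (x.2 : ℝ)) := by
      rw [Finset.mul_sum]
      refine Finset.sum_congr rfl fun x _ => ?_
      rw [← ex_add]
      congr 1
      rw [hθ, hA1, hA2, hA3, hl1, hl2, hl0]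
      unfold qf
      push_cast
      field_simp
      ring
    rw [h5, norm_mul, norm_ex, one_mul]
    refine h4.trans (mul_le_mul_of_nonneg_left ?_ (by positivity))
    have h6 := hH cb hcb j hj
    have h6' : ((H0 A1 A2 A3 U E).card : ℝ) ≤
        1 + ((BK p s (5 * (j * R ^ 2)) c v).card : ℝ) := h6
    have hB0 : (0 : ℝ) ≤ ((BK p s (5 * (j * R ^ 2)) c v).card : ℝ) := Nat.cast_nonneg _
    have h7 := Real.sqrt_nonneg ((BK p s (5 * (j * R ^ 2)) c v).card : ℝ)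
    rw [Real.sqrt_le_left (by positivity)]
    refine h6'.trans ?_
    have h8 := Real.sq_sqrt hB0
    nlinarith
  have h4 := Finset.sum_le_sum h3
  rw [← Finset.mul_sum] at h4
  have h5 : 0 ≤ √((U : ℝ) * (E : ℝ) * (1 + Real.log U) * (1 + Real.log E)) := Real.sqrt_nonneg _
  linarith

end Pool.Agent.FTL
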