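import Pool.Agent.FTL.WTu
import Pool.Agent.FTL.WUh
import Pool.Agent.FTL.WS1

/-!
# FTL/WUp: the number of points with `p ∣ u` and `p ∣ w`

PROOF of `upp`.  Let `S c v` be the set of the points of `S` with these `c, v` (`(c, v) ∈ PP V` by
`Fr`), so `card S = ∑ x ∈ PP V, card (S x)`.  Fix `(c, v)`.  Let `p r ≡ 1` modulo `R`.  A point has
`u = p u1`, `u1 ≡ r` modulo `R` (as `p u1 ≡ 1`), so `u = p (r + R x)`, and `e = s + R y` (integers
`x, y`).  Map the point to `(x, y, z)`.  This is injective: `u, e, z, c, v` determine `w` by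
`v ^ 5 w = Fq c v u e - c ^ 5 z` (`Pool.Agent.FTB.cong`), then `N` by `c ^ 2 N = u ^ 2 - v w` and `k` by
`v ^ 2 k = e ^ 2 + c z`.  Let `W = 3 V a ^ 2`, `m = ⌊p V ^ 4 / (12 a ^ 2)⌋₊`,
`U = ⌊V a / (2000 p R)⌋₊ + 1`, `E = ⌊V a / (2000 R)⌋₊ + 1`, `a1 = ⌈(V a / p - r) / R⌉`,
`a2 = ⌈(V a - s) / R⌉` if `s = 1`, `a2 = ⌈(-1.001 V a - s) / R⌉` if `s = -1`.  As
`u ∈ [V a, 1.001 V a]`, `x` lies in an interval of length `V a / (1000 p R) ≤ 2 U` starting at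
`(V a / p - r) / R`, so `a1 ≤ x ≤ a1 + 2 U`; the same for `y`.  `|z| ≤ W`,
`4 m W ≤ p V ^ 5 ≤ p v ^ 5`, and `p v ^ 5 ∣ c ^ 5 z - Fq c v u e = -v ^ 5 w` as `p ∣ w`.
The conditions of `wuh` hold (`V a / (2000 p R) ≥ 6 a ≥ 6`, as `12000 R p ≤ V`; `j < m`).  So `tup` gives
`card (S x) ≤ 2 / m (9 U E + 14 √(U E (1 + log U) (1 + log E)) ∑ j (1 + √..))`.  Sum over `x ∈ PP V`
(`n := card (PP V) ≤ V ^ 2`: `(V / 1000 + 1) ^ 2 ≤ V ^ 2`) and use `ws1`: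
`card S ≤ 2 / m (9 U E n + 14 √(U E) L (m n + Q T ^ 2 R ^ 2 √L (2 * 10 ^ 13 p ^ 2 V ^ 7 / a ^ 3 +
3 * 10 ^ 11 p √p V ^ 6 / a ^ 2)))`, where `1 + log U, 1 + log E ≤ 1 + log (V a) ≤ 1 + 3 log V ≤ L`
(`10 ^ 5 a ≤ V ^ 2`).  `m ≥ p V ^ 4 / (13 a ^ 2)` (`V ^ 4 ≥ 10 ^ 10 a ^ 2`),
`U E ≤ 1.1 V ^ 2 a ^ 2 / (4 * 10 ^ 6 p R ^ 2)`, `√(U E) ≤ V a / (1900 R √p)`.  So
`18 U E n / m ≤ 18 * 13 * 1.1 / (4 * 10 ^ 6) a ^ 4 n / (p ^ 2 R ^ 2 V ^ 2)` (`≤ 1 / 1000 ..`),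
`28 √(U E) L n ≤ L V ^ 3 a`, and
`28 * 13 / 1900 * V a / (R √p) * a ^ 2 / (p V ^ 4) * L * Q T ^ 2 R ^ 2 √L (..) ≤
Q T ^ 2 R L ^ 2 (4 * 10 ^ 12 √p V ^ 4 + 6 * 10 ^ 10 V ^ 3 a)` (`L ≥ 1`, so `√L ≤ L`; `p / √p = √p`).
The sum of the last two is at most `Er V a R T Q L p` (`T, Q, R, L ≥ 1`).
-/

set_option autoImplicit false

namespace Pool.Agent.FTL

open Pool.Agent.FTB

private theorem wup_card (V : ℕ) (hV : 1000 ≤ V) : ((PP V).card : ℝ) ≤ (V : ℝ) ^ 2 := by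
  have h1 : (PP V).card ≤ (Pr V).card * (Pr V).card := by
    unfold PP
    refine (Finset.card_filter_le _ _).trans ?_
    rw [Finset.card_product]
  have h2 : (Pr V).card ≤ V := by
    unfold Pr
    refine (Finset.card_filter_le _ _).trans ?_
    rw [Nat.card_Icc]
    omega
  have h3 : (PP V).card ≤ V ^ 2 := by
    calc (PP V).card ≤ (Pr V).card * (Pr V).card := h1
      _ ≤ V * V := Nat.mul_le_mul h2 h2
      _ = V ^ 2 := by ring
  exact_mod_cast h3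

/-- the choice of `m` -/
private theorem wup_m (V a p : ℝ) (hV : 10 ^ 6 ≤ V) (hVa : V ≤ a) (haV : 10 ^ 5 * a ≤ V ^ 2)
    (hp : 1 ≤ p) :
    ∃ m : ℕ, 1 ≤ m ∧ 12 * (m : ℝ) * a ^ 2 ≤ p * V ^ 4 ∧ p * V ^ 4 ≤ 13 * m * a ^ 2 := by
  have ha : 0 < a := by linarith
  have hV0 : 0 < V := by linarith
  have ha2 : 0 < 12 * a ^ 2 := by positivity
  have h1 : (10 ^ 5 * a) ^ 2 ≤ (V ^ 2) ^ 2 := by
    apply pow_le_pow_left₀ (by positivity) haV
  have h2 : 10 ^ 10 * a ^ 2 ≤ V ^ 4 := by nlinarith [h1]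
  have h2' : 10 ^ 10 * a ^ 2 ≤ p * V ^ 4 := by
    have : V ^ 4 ≤ p * V ^ 4 := le_mul_of_one_le_left (by positivity) hp
    linarith
  have hpos : 0 ≤ p * V ^ 4 / (12 * a ^ 2) := by positivity
  have hf1 : ((⌊p * V ^ 4 / (12 * a ^ 2)⌋₊ : ℕ) : ℝ) ≤ p * V ^ 4 / (12 * a ^ 2) :=
    Nat.floor_le hpos
  have hf2 : p * V ^ 4 / (12 * a ^ 2) < ((⌊p * V ^ 4 / (12 * a ^ 2)⌋₊ : ℕ) : ℝ) + 1 :=
    Nat.lt_floor_add_one _
  rw [le_div_iff₀ ha2] at hf1
  rw [div_lt_iff₀ ha2] at hf2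
  refine ⟨⌊p * V ^ 4 / (12 * a ^ 2)⌋₊, ?_, by linarith, ?_⟩
  · rw [Nat.one_le_floor_iff, le_div_iff₀ ha2]
    linarith
  · nlinarith

/-- the choice of `U` and `E` -/
private theorem wup_U (V a D : ℝ) (hD : 1 ≤ D) (hDV : 12000 * D ≤ V) (hV : 10 ^ 6 ≤ V)
    (hVa : V ≤ a) :
    ∃ U : ℕ, 1 ≤ U ∧ V * a ≤ 2000 * D * U ∧ 2000 * D * U ≤ 101 / 100 * (V * a) := by
  have ha : 0 < a := by linarith
  have hV0 : 0 < V := by linarith
  have hR0 : 0 < 2000 * D := by linarith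
  have hpos : 0 ≤ V * a / (2000 * D) := by positivity
  have hf1 : ((⌊V * a / (2000 * D)⌋₊ : ℕ) : ℝ) ≤ V * a / (2000 * D) := Nat.floor_le hpos
  have hf2 : V * a / (2000 * D) < ((⌊V * a / (2000 * D)⌋₊ : ℕ) : ℝ) + 1 := Nat.lt_floor_add_one _
  rw [le_div_iff₀ hR0] at hf1
  rw [div_lt_iff₀ hR0] at hf2
  have h3 : 12000 * D * 10 ^ 6 ≤ V * a := mul_le_mul hDV (hV.trans hVa) (by norm_num) hV0.le
  refine ⟨⌊V * a / (2000 * D)⌋₊ + 1, by omega, ?_, ?_⟩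
  · push_cast
    linarith
  · push_cast
    linarith

private theorem wup_inj (V a : ℕ) (s : ℤ) (q q' : Pt) (hq : Frq V a s q) (hq' : Frq V a s q')
    (hc : q.2.2.1 = q'.2.2.1) (hv : q.2.2.2.1 = q'.2.2.2.1)
    (hu : q.2.2.2.2.1 = q'.2.2.2.2.1) (he : q.2.2.2.2.2.1 = q'.2.2.2.2.2.1)
    (hz : q.2.2.2.2.2.2.2 = q'.2.2.2.2.2.2.2) : q = q' := by
  obtain ⟨N, k, c, v, u, e, w, z⟩ := q
  obtain ⟨N', k', c', v', u', e', w', z'⟩ := q'
  simp only at hc hv hu he hz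
  subst hc hv hu he hz
  have h1 : Fr V a s N k c v u e w z := hq
  have h2 : Fr V a s N' k' c v u e w' z := hq'
  have hcz : (c : ℤ) ≠ 0 := by exact_mod_cast h1.pc.ne_zero
  have hvz : (v : ℤ) ≠ 0 := by exact_mod_cast h1.pv.ne_zero
  have t1 := h1.t1
  have t2 := h1.t2
  have t3 := h1.t3
  have t1' := h2.t1
  have t2' := h2.t2
  have t3' := h2.t3
  have hk : (k : ℤ) = k' := by
    have : (v : ℤ) ^ 2 * k = (v : ℤ) ^ 2 * k' := by linarith
    exact mul_left_cancel₀ (pow_ne_zero 2 hvz) this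
  have hN : (N : ℤ) = N' := by
    have : (v : ℤ) ^ 2 * N = (v : ℤ) ^ 2 * N' := by
      rw [hk] at t1
      linarith
    exact mul_left_cancel₀ (pow_ne_zero 2 hvz) this
  have hw : w = w' := by
    have : (v : ℤ) * w = v * w' := by
      rw [hN] at t2
      linarith
    exact mul_left_cancel₀ hvz this
  have hk' : k = k' := by exact_mod_cast hk
  have hN' : N = N' := by exact_mod_cast hN
  subst hk' hN' hw
  rfl

private theorem wup_cong (c v N k u e w z : ℤ) (t1 : u * e = v ^ 2 * N - c ^ 2 * k)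
    (t2 : v * w = u ^ 2 - c ^ 2 * N) (t3 : c * z = v ^ 2 * k - e ^ 2) :
    c ^ 5 * z - Fq c v u e = -(v ^ 5 * w) := by
  unfold Fq
  linear_combination c ^ 4 * t3 + v ^ 4 * t2 + c ^ 2 * v ^ 2 * t1

/-- one pair -/
private theorem wup_pair (V a R P Z : ℕ) (T Q L : ℝ) (h : PW V a R P Z T Q L) (p : ℕ)
    (hp : p.Prime) (hpP : p ≤ P) (hpR : Nat.Coprime p R) (s : ℤ) (S : Finset Pt)
    (hS : ∀ q ∈ S, Frq V a s q ∧ (R : ℤ) ∣ q.2.2.2.2.1 - 1 ∧ (R : ℤ) ∣ q.2.2.2.2.2.1 - s ∧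
      (p : ℤ) ∣ q.2.2.2.2.1 ∧ (p : ℤ) ∣ q.2.2.2.2.2.2.1) (m U E : ℕ) (hm : 1 ≤ m)
    (hm1 : 12 * (m : ℝ) * (a : ℝ) ^ 2 ≤ p * (V : ℝ) ^ 4) (hU : 1 ≤ U)
    (hU1 : (V : ℝ) * a ≤ 2000 * (p * R) * U) (hU2 : 2000 * ((p : ℝ) * R) * U ≤ 101 / 100 * (V * a))
    (hE : 1 ≤ E)
    (hE1 : (V : ℝ) * a ≤ 2000 * R * E) (hE2 : 2000 * (R : ℝ) * E ≤ 101 / 100 * (V * a))
    (x : ℕ × ℕ) (hx : x ∈ PP V) :
    ((S.filter fun q => (q.2.2.1, q.2.2.2.1) = x).card : ℝ) ≤ 2 / (m : ℝ) * (9 * U * E +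
      14 * √((U : ℝ) * (E : ℝ) * (1 + Real.log U) * (1 + Real.log E)) *
        ∑ j ∈ Finset.Ico 1 m,
          (1 + √((BK p (sp V a R p) (5 * (j * R ^ 2)) x.1 x.2).card : ℝ))) := by
  classical
  obtain ⟨c, v⟩ := x
  have hxP := (mem_PP V (c, v)).1 hx
  obtain ⟨⟨⟨c1, c2⟩, pc⟩, ⟨⟨v1, v2⟩, pv⟩, hne⟩ := hxP
  simp only at c1 c2 pc v1 v2 pv hne
  have hV0 : (0 : ℝ) < V := by
    have : 0 < V := by have := h.hV; omega
    exact_mod_cast this
  have ha0 : (0 : ℝ) < a := by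
    have : 0 < a := by have := h.hV; have := h.hVa; omega
    exact_mod_cast this
  have hR0 : (1 : ℝ) ≤ R := by exact_mod_cast h.hR
  have hP0 : (1 : ℝ) ≤ P := by exact_mod_cast h.hP
  have hRP : (12000 : ℝ) * R * P ≤ V := by exact_mod_cast h.hRP
  have hRV : (12000 : ℝ) * R ≤ V := by nlinarith
  have hRpos : (0 : ℝ) < R := by linarith
  have hp1 : (1 : ℝ) ≤ p := by exact_mod_cast hp.one_lt.le
  have hppos : (0 : ℝ) < p := by linarith
  have hcop : Nat.Coprime c v := (Nat.coprime_primes pc pv).2 hne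
  have hPV : P < V := by
    have h1 := h.hRP
    have h2 := h.hR
    have h3 := h.hP
    nlinarith
  have hpc : Nat.Coprime p c := (Nat.coprime_primes hp pc).2 (by omega)
  -- the inverse of `p` modulo `R`
  obtain ⟨r, hr⟩ : ∃ r : ℤ, (R : ℤ) ∣ p * r - 1 := by
    have hic : IsCoprime (p : ℤ) (R : ℤ) := Nat.isCoprime_iff_coprime.2 hpR
    obtain ⟨r, t, hrt⟩ := hic
    exact ⟨r, ⟨-t, by linear_combination hrt⟩⟩
  -- the interval for `e`
  have hlo : ∃ lo : ℝ, ∀ e : ℤ, (s = 1 ∨ s = -1) → (V : ℤ) * a ≤ s * e →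
      1000 * (s * e) ≤ 1001 * ((V : ℤ) * a) → lo ≤ e ∧ (e : ℝ) ≤ lo + V * a / 1000 := by
    by_cases hs1 : s = 1
    · refine ⟨V * a, ?_⟩
      intro e _ h1 h2
      subst hs1
      have h1' : (V : ℝ) * a ≤ 1 * e := by exact_mod_cast h1
      have h2' : 1000 * (1 * (e : ℝ)) ≤ 1001 * ((V : ℝ) * a) := by exact_mod_cast h2
      constructor
      · linarith
      · linarith
    · refine ⟨-(1001 / 1000 * (V * a)), ?_⟩
      intro e h0 h1 h2
      have hs2 : s = -1 := by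
        rcases h0 with h0 | h0
        · exact absurd h0 hs1
        · exact h0
      subst hs2
      have h1' : (V : ℝ) * a ≤ -1 * e := by exact_mod_cast h1
      have h2' : 1000 * (-1 * (e : ℝ)) ≤ 1001 * ((V : ℝ) * a) := by exact_mod_cast h2
      constructor
      · linarith
      · linarith
  obtain ⟨lo, hlo⟩ := hlo
  set a1 : ℤ := ⌈((V : ℝ) * a / p - r) / R⌉ with ha1
  have ha1' : ((V : ℝ) * a / p - r) / R ≤ (a1 : ℝ) := Int.le_ceil _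
  set a2 : ℤ := ⌈(lo - s) / R⌉ with ha2
  have ha2' : (lo - s) / R ≤ (a2 : ℝ) := Int.le_ceil _
  -- the coordinates
  set S' := S.filter fun q => (q.2.2.1, q.2.2.2.1) = (c, v) with hS'
  let φ : Pt → ℤ × ℤ × ℤ := fun q =>
    ((q.2.2.2.2.1 / p - r) / R, (q.2.2.2.2.2.1 - s) / R, q.2.2.2.2.2.2.2)
  have hφ : ∀ q ∈ S', q.2.2.2.2.1 = p * (r + R * (φ q).1) ∧
      q.2.2.2.2.2.1 = s + R * (φ q).2.1 ∧ q.2.2.2.2.2.2.2 = (φ q).2.2 := by
    intro q hq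
    rw [hS', Finset.mem_filter] at hq
    obtain ⟨-, hd1, hd2, hd3, -⟩ := hS q hq.1
    obtain ⟨u1, hu1⟩ := hd3
    have hpz : (p : ℤ) ≠ 0 := by exact_mod_cast hp.ne_zero
    have hRz : (R : ℤ) ≠ 0 := by
      have := h.hR
      exact_mod_cast (by omega : R ≠ 0)
    have hdiv : q.2.2.2.2.1 / p = u1 := by
      rw [hu1]
      exact Int.mul_ediv_cancel_left u1 hpz
    have hRu : (R : ℤ) ∣ u1 - r := by
      have h1 : (R : ℤ) ∣ p * (u1 - r) := by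
        have : (p : ℤ) * (u1 - r) = (q.2.2.2.2.1 - 1) - (p * r - 1) := by
          rw [hu1]; ring
        rw [this]
        exact dvd_sub hd1 hr
      have hic : IsCoprime (R : ℤ) (p : ℤ) := (Nat.isCoprime_iff_coprime.2 hpR).symm
      exact hic.dvd_of_dvd_mul_left h1
    refine ⟨?_, ?_, rfl⟩
    · change q.2.2.2.2.1 = p * (r + R * ((q.2.2.2.2.1 / p - r) / R))
      rw [hdiv, Int.mul_ediv_cancel' hRu, hu1]
      ring
    · change q.2.2.2.2.2.1 = s + R * ((q.2.2.2.2.2.1 - s) / R)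
      rw [Int.mul_ediv_cancel' hd2]
      ring
  have hinj : Set.InjOn φ S' := by
    intro q hq q' hq' hqq
    have hq1 := hq
    have hq1' := hq'
    rw [Finset.mem_coe, hS', Finset.mem_filter] at hq1 hq1'
    obtain ⟨e1, e2, e3⟩ := hφ q hq
    obtain ⟨e1', e2', e3'⟩ := hφ q' hq'
    rw [hqq] at e1 e2 e3
    have hcv : (q.2.2.1, q.2.2.2.1) = (q'.2.2.1, q'.2.2.2.1) := hq1.2.trans hq1'.2.symm
    rw [Prod.mk.injEq] at hcv
    exact wup_inj V a s q q' (hS q hq1.1).1 (hS q' hq1'.1).1 hcv.1 hcv.2 (e1.trans e1'.symm)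
      (e2.trans e2'.symm) (e3.trans e3'.symm)
  rw [← Finset.card_image_of_injOn hinj]
  have hv5 : (V : ℝ) ^ 5 ≤ (v : ℝ) ^ 5 := by
    have : (V : ℝ) ≤ v := by exact_mod_cast v1
    exact pow_le_pow_left₀ hV0.le this 5
  apply tup c v p R m (sp V a R p) U E r s a1 a2 (3 * (V * (a : ℝ) ^ 2)) pc.one_lt.le pv.one_lt.le
    hp.one_lt.le h.hR hU hE hm hcop hpc (by positivity)
  · have h1 : 12 * (m : ℝ) * (a : ℝ) ^ 2 * V ≤ p * (V : ℝ) ^ 4 * V :=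
      mul_le_mul_of_nonneg_right hm1 hV0.le
    have h2 : (p : ℝ) * (V : ℝ) ^ 5 ≤ p * (v : ℝ) ^ 5 := mul_le_mul_of_nonneg_left hv5 hppos.le
    nlinarith
  · intro cb hcb j hj
    rw [Finset.mem_Ico] at hj
    have hVap : 0 < (V : ℝ) * a := by positivity
    apply wuh V a R P Z T Q L h c v p j U E hx (Or.inr hp) hpP
    · nlinarith
    · nlinarith
    · nlinarith
    · nlinarith
    · exact hcb
    · exact hj.1
    · have hjm : (j : ℝ) ≤ m := by exact_mod_cast hj.2.le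
      have h1 : (j : ℝ) * (a : ℝ) ^ 2 ≤ m * (a : ℝ) ^ 2 :=
        mul_le_mul_of_nonneg_right hjm (by positivity)
      have h2 : 0 < (p : ℝ) * (V : ℝ) ^ 4 := by positivity
      nlinarith
  · intro t ht
    rw [Finset.mem_image] at ht
    obtain ⟨q, hq, rfl⟩ := ht
    obtain ⟨e1, e2, e3⟩ := hφ q hq
    rw [hS', Finset.mem_filter] at hq
    obtain ⟨hfr, -, -, -, hpw⟩ := hS q hq.1
    have hcv := hq.2
    rw [Prod.mk.injEq] at hcv
    have hfr' : Fr V a s q.1 q.2.1 c v (p * (r + R * (φ q).1)) (s + R * (φ q).2.1)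
        q.2.2.2.2.2.2.1 (φ q).2.2 := by
      have := hfr
      unfold Frq at this
      rw [hcv.1, hcv.2, e1, e2] at this
      exact this
    have hppos' : (0 : ℝ) < p * R := by positivity
    refine ⟨⟨?_, ?_⟩, ⟨?_, ?_⟩, ?_, ?_⟩
    · rw [ha1, Int.ceil_le, div_le_iff₀ hRpos]
      have h1 : (V : ℝ) * a ≤ p * (r + R * (φ q).1) := by exact_mod_cast hfr'.u1
      have h2 : (V : ℝ) * a / p ≤ r + R * (φ q).1 := by
        rw [div_le_iff₀ hppos]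
        linarith
      linarith
    · have h1 : 1000 * ((p : ℝ) * (r + R * (φ q).1)) ≤ 1001 * (V * a) := by
        exact_mod_cast hfr'.u2
      have h2 : ((φ q).1 : ℝ) ≤ a1 + 2 * U := by
        rw [div_le_iff₀ hRpos, sub_le_iff_le_add, div_le_iff₀ hppos] at ha1'
        have h3 : (p : ℝ) * R * (φ q).1 ≤ p * R * (a1 + 2 * U) := by nlinarith
        exact le_of_mul_le_mul_left h3 hppos'
      exact_mod_cast h2
    · rw [ha2, Int.ceil_le, div_le_iff₀ hRpos]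
      have h1 := (hlo _ hfr'.hs hfr'.e1 hfr'.e2).1
      push_cast at h1
      linarith
    · have h1 := (hlo _ hfr'.hs hfr'.e1 hfr'.e2).2
      push_cast at h1
      have h2 : ((φ q).2.1 : ℝ) ≤ a2 + 2 * E := by
        rw [div_le_iff₀ hRpos] at ha2'
        have h3 : (R : ℝ) * (φ q).2.1 ≤ R * (a2 + 2 * E) := by nlinarith
        exact le_of_mul_le_mul_left h3 hRpos
      exact_mod_cast h2
    · have h1 : (0 : ℝ) < (φ q).2.2 := by exact_mod_cast hfr'.z1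
      have h2 : ((φ q).2.2 : ℝ) ≤ 3 * (V * (a : ℝ) ^ 2) := by exact_mod_cast hfr'.z2
      rw [abs_of_pos h1]
      exact h2
    · rw [wup_cong c v q.1 q.2.1 _ _ _ _ hfr'.t1 hfr'.t2 hfr'.t3, dvd_neg, mul_comm]
      exact mul_dvd_mul_left _ hpw

/-- the final inequality -/
private theorem wup_fin (V a R T Q L m t K UE n S1 : ℝ) (hV : 10 ^ 6 ≤ V) (hVa : V ≤ a)
    (hR : 1 ≤ R) (hT : 1 ≤ T) (hQ : 1 ≤ Q) (hL : 1 ≤ L) (ht : 1 ≤ t)
    (hm0 : 0 < m) (hm2 : t ^ 2 * V ^ 4 ≤ 13 * m * a ^ 2)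
    (hUE : UE ≤ 103 / 100 * (V ^ 2 * a ^ 2 / (4 * 10 ^ 6 * t ^ 2 * R ^ 2)))
    (hK0 : 0 ≤ K) (hK : K ≤ V * a / (1900 * R * t))
    (hn0 : 0 ≤ n) (hn : n ≤ V ^ 2) (hS : S1 ≤ Q * T ^ 2 * R ^ 2 * √L *
      (2 * 10 ^ 13 * (t ^ 2) ^ 2 * V ^ 7 / a ^ 3 + 3 * 10 ^ 11 * t ^ 2 * t * V ^ 6 / a ^ 2)) :
    2 / m * (n * (9 * UE) + 14 * (K * L) * (m * n + S1)) ≤
    1 / 1000 * (a ^ 4 * n / (R ^ 2 * V ^ 2)) / (t ^ 2) ^ 2 +
      10 ^ 15 * R * T ^ 2 * Q * L ^ 2 * (t * V ^ 4 + V ^ 3 * a) := by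
  have hV0 : 0 < V := by linarith
  have ha0 : 0 < a := by linarith
  have hR0 : 0 < R := by linarith
  have hL0 : 0 < L := by linarith
  have hQ0 : 0 < Q := by linarith
  have hT0 : 0 < T := by linarith
  have ht0 : 0 < t := by linarith
  have hminv : 1 / m ≤ 13 * a ^ 2 / (t ^ 2 * V ^ 4) := by
    rw [div_le_div_iff₀ hm0 (by positivity)]
    linarith
  have e1 : 2 / m * (n * (9 * UE)) ≤
      1 / 1000 * (a ^ 4 * n / (R ^ 2 * V ^ 2)) / (t ^ 2) ^ 2 := by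
    calc 2 / m * (n * (9 * UE)) = 18 * n * UE * (1 / m) := by ring
      _ ≤ 18 * n * (103 / 100 * (V ^ 2 * a ^ 2 / (4 * 10 ^ 6 * t ^ 2 * R ^ 2))) * (1 / m) := by
          apply mul_le_mul_of_nonneg_right _ (by positivity)
          exact mul_le_mul_of_nonneg_left hUE (by positivity)
      _ ≤ 18 * n * (103 / 100 * (V ^ 2 * a ^ 2 / (4 * 10 ^ 6 * t ^ 2 * R ^ 2))) *
          (13 * a ^ 2 / (t ^ 2 * V ^ 4)) :=
          mul_le_mul_of_nonneg_left hminv (by positivity)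
      _ = 18 * 103 * 13 / (100 * 4 * 10 ^ 6) *
          ((a ^ 4 * n / (R ^ 2 * V ^ 2)) / (t ^ 2) ^ 2) := by
          field_simp
          try ring
      _ ≤ 1 / 1000 * ((a ^ 4 * n / (R ^ 2 * V ^ 2)) / (t ^ 2) ^ 2) := by
          apply mul_le_mul_of_nonneg_right _ (by positivity)
          norm_num
      _ = 1 / 1000 * (a ^ 4 * n / (R ^ 2 * V ^ 2)) / (t ^ 2) ^ 2 := by ring
  have hKle : 28 * K ≤ V * a := by
    have h1 : V * a / (1900 * R * t) ≤ V * a / 1900 := by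
      apply div_le_div_of_nonneg_left (by positivity) (by norm_num)
      nlinarith [mul_le_mul hR ht zero_le_one hR0.le]
    have h2 : 28 * (V * a / 1900) ≤ V * a := by
      have : 0 < V * a := by positivity
      linarith
    linarith
  have e2 : 28 * K * L * n ≤ R * T ^ 2 * Q * L ^ 2 * (V ^ 3 * a) := by
    calc 28 * K * L * n ≤ (V * a) * L * V ^ 2 := by
          apply mul_le_mul _ hn hn0 (by positivity)
          exact mul_le_mul_of_nonneg_right hKle hL0.le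
      _ = (1 * 1 ^ 2 * 1 * (L * 1)) * (V ^ 3 * a) := by ring
      _ ≤ R * T ^ 2 * Q * L ^ 2 * (V ^ 3 * a) := by
          apply mul_le_mul_of_nonneg_right _ (by positivity)
          have h2 : 1 * (1 : ℝ) ^ 2 * 1 ≤ R * T ^ 2 * Q := by
            apply mul_le_mul _ hQ zero_le_one (by positivity)
            apply mul_le_mul hR _ (by norm_num) hR0.le
            exact pow_le_pow_left₀ zero_le_one hT 2
          have h3 : L * 1 ≤ L ^ 2 := by nlinarith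
          exact mul_le_mul h2 h3 (by positivity) (by positivity)
  have hsq : √L ≤ L := by
    rw [Real.sqrt_le_left (by positivity)]
    nlinarith
  have e3 : 28 * K * L * S1 / m ≤
      10 ^ 13 * R * T ^ 2 * Q * L ^ 2 * (t * V ^ 4 + V ^ 3 * a) := by
    have hBpos : 0 ≤ Q * T ^ 2 * R ^ 2 * √L *
      (2 * 10 ^ 13 * (t ^ 2) ^ 2 * V ^ 7 / a ^ 3 + 3 * 10 ^ 11 * t ^ 2 * t * V ^ 6 / a ^ 2) := by
      positivity
    calc 28 * K * L * S1 / m = 28 * K * L * S1 * (1 / m) := by ring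
      _ ≤ 28 * K * L * (Q * T ^ 2 * R ^ 2 * √L *
          (2 * 10 ^ 13 * (t ^ 2) ^ 2 * V ^ 7 / a ^ 3 + 3 * 10 ^ 11 * t ^ 2 * t * V ^ 6 / a ^ 2)) *
          (1 / m) := by
          apply mul_le_mul_of_nonneg_right _ (by positivity)
          exact mul_le_mul_of_nonneg_left hS (by positivity)
      _ ≤ 28 * (V * a / (1900 * R * t)) * L * (Q * T ^ 2 * R ^ 2 * √L *
          (2 * 10 ^ 13 * (t ^ 2) ^ 2 * V ^ 7 / a ^ 3 + 3 * 10 ^ 11 * t ^ 2 * t * V ^ 6 / a ^ 2)) *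
          (13 * a ^ 2 / (t ^ 2 * V ^ 4)) := by
          apply mul_le_mul _ hminv (by positivity) (by positivity)
          apply mul_le_mul_of_nonneg_right _ hBpos
          apply mul_le_mul_of_nonneg_right _ hL0.le
          linarith
      _ = R * T ^ 2 * Q * (L * √L) * (28 * 13 * 2 * 10 ^ 13 / 1900 * (t * V ^ 4) +
          28 * 13 * 3 * 10 ^ 11 / 1900 * (V ^ 3 * a)) := by
          field_simp
          try ring
      _ ≤ R * T ^ 2 * Q * (L ^ 2) * (10 ^ 13 * (t * V ^ 4) + 10 ^ 13 * (V ^ 3 * a)) := by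
          apply mul_le_mul _ _ (by positivity) (by positivity)
          · apply mul_le_mul_of_nonneg_left _ (by positivity)
            nlinarith
          · apply add_le_add
            · apply mul_le_mul_of_nonneg_right _ (by positivity)
              norm_num
            · apply mul_le_mul_of_nonneg_right _ (by positivity)
              norm_num
      _ = 10 ^ 13 * R * T ^ 2 * Q * L ^ 2 * (t * V ^ 4 + V ^ 3 * a) := by ring
  have e4 : 2 / m * (n * (9 * UE) + 14 * (K * L) * (m * n + S1)) =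
      2 / m * (n * (9 * UE)) + 28 * K * L * n + 28 * K * L * S1 / m := by
    field_simp
    try ring
  rw [e4]
  have e5 : 0 ≤ R * T ^ 2 * Q * L ^ 2 * (t * V ^ 4) := by positivity
  have e6 : 0 ≤ R * T ^ 2 * Q * L ^ 2 * (V ^ 3 * a) := by positivity
  nlinarith

theorem upp (V a R P Z : ℕ) (T Q L : ℝ) (h : PW V a R P Z T Q L) (p : ℕ) (hp : p.Prime)
    (hpP : p ≤ P) (hpR : Nat.Coprime p R) (s : ℤ) (S : Finset Pt)
    (hS : ∀ q ∈ S, Frq V a s q ∧ (R : ℤ) ∣ q.2.2.2.2.1 - 1 ∧ (R : ℤ) ∣ q.2.2.2.2.2.1 - s ∧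
      (p : ℤ) ∣ q.2.2.2.2.1 ∧ (p : ℤ) ∣ q.2.2.2.2.2.2.1) :
    (S.card : ℝ) ≤ 1 / 1000 * ((a : ℝ) ^ 4 * (PP V).card / ((R : ℝ) ^ 2 * (V : ℝ) ^ 2)) /
      (p : ℝ) ^ 2 + Er V a R T Q L p := by
  classical
  have hV : (10 : ℝ) ^ 6 ≤ V := by exact_mod_cast h.hV
  have hVa : (V : ℝ) ≤ a := by exact_mod_cast h.hVa
  have haV : (10 : ℝ) ^ 5 * a ≤ (V : ℝ) ^ 2 := by exact_mod_cast h.haV
  have hR0 : (1 : ℝ) ≤ R := by exact_mod_cast h.hR
  have hP0 : (1 : ℝ) ≤ P := by exact_mod_cast h.hP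
  have hRP : (12000 : ℝ) * R * P ≤ V := by exact_mod_cast h.hRP
  have hpP' : (p : ℝ) ≤ P := by exact_mod_cast hpP
  have hp1 : (1 : ℝ) ≤ p := by exact_mod_cast hp.one_lt.le
  have hRpos : (0 : ℝ) < R := by linarith
  have hppos : (0 : ℝ) < p := by linarith
  have hRV : (12000 : ℝ) * R ≤ V := by nlinarith
  have hpRV : (12000 : ℝ) * (p * R) ≤ V := by nlinarith
  have hpR1 : (1 : ℝ) ≤ p * R := by nlinarith
  have hV0 : (0 : ℝ) < V := by linarith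
  have ha0 : (0 : ℝ) < a := by linarith
  have hlV : 0 ≤ Real.log V := Real.log_nonneg (by linarith)
  have hL1 : 1 ≤ L := by have := h.hL; linarith
  obtain ⟨m, hm, hm1, hm2⟩ := wup_m V a p hV hVa haV hp1
  obtain ⟨U, hU, hU1, hU2⟩ := wup_U V a (p * R) hpR1 hpRV hV hVa
  obtain ⟨E, hE, hE1, hE2⟩ := wup_U V a R hR0 hRV hV hVa
  have hUr : (1 : ℝ) ≤ U := by exact_mod_cast hU
  have hEr1 : (1 : ℝ) ≤ E := by exact_mod_cast hE
  have hVaV3 : (V : ℝ) * a ≤ (V : ℝ) ^ 3 := by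
    have h3 : (a : ℝ) ≤ (V : ℝ) ^ 2 := by nlinarith
    calc (V : ℝ) * a ≤ V * (V : ℝ) ^ 2 := mul_le_mul_of_nonneg_left h3 hV0.le
      _ = (V : ℝ) ^ 3 := by ring
  have hlog : ∀ X : ℕ, 1 ≤ X → (X : ℝ) ≤ V * a → 1 + Real.log X ≤ L := by
    intro X hX hXV
    have hX1 : (1 : ℝ) ≤ X := by exact_mod_cast hX
    have h2 : Real.log X ≤ Real.log ((V : ℝ) ^ 3) :=
      Real.log_le_log (by linarith) (hXV.trans hVaV3)
    rw [Real.log_pow] at h2
    push_cast at h2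
    have := h.hL
    linarith
  have hVap : 0 < (V : ℝ) * a := by positivity
  have hUVa : (U : ℝ) ≤ V * a := by
    have h1 : (U : ℝ) ≤ p * R * U := le_mul_of_one_le_left (by linarith) hpR1
    nlinarith
  have hEVa : (E : ℝ) ≤ V * a := by
    have h1 : (E : ℝ) ≤ R * E := le_mul_of_one_le_left (by linarith) hR0
    nlinarith
  have hUL := hlog U hU hUVa
  have hEL := hlog E hE hEVa
  have hlU : 0 ≤ Real.log U := Real.log_nonneg hUr
  have hlE : 0 ≤ Real.log E := Real.log_nonneg hEr1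
  -- the sum over the pairs
  have hcard : (S.card : ℝ) = ∑ x ∈ PP V,
      ((S.filter fun q => (q.2.2.1, q.2.2.2.1) = x).card : ℝ) := by
    have := Finset.card_eq_sum_card_fiberwise (s := S) (t := PP V)
      (f := fun q : Pt => (q.2.2.1, q.2.2.2.1)) (by
        intro q hq
        obtain ⟨hfr, -⟩ := hS q hq
        have hfr' : Fr V a s q.1 q.2.1 q.2.2.1 q.2.2.2.1 q.2.2.2.2.1 q.2.2.2.2.2.1
          q.2.2.2.2.2.2.1 q.2.2.2.2.2.2.2 := hfr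
        rw [Finset.mem_coe, mem_PP]
        exact ⟨⟨⟨hfr'.c1, hfr'.c2⟩, hfr'.pc⟩, ⟨⟨hfr'.v1, hfr'.v2⟩, hfr'.pv⟩, hfr'.ne⟩)
    rw [this]
    push_cast
    rfl
  set K : ℝ := √((U : ℝ) * E) with hK
  have hKK : √((U : ℝ) * (E : ℝ) * (1 + Real.log U) * (1 + Real.log E)) ≤ K * L := by
    rw [hK]
    apply Real.sqrt_le_iff.2
    refine ⟨by positivity, ?_⟩
    rw [mul_pow, Real.sq_sqrt (by positivity)]
    have h1 : (1 + Real.log U) * (1 + Real.log E) ≤ L * L :=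
      mul_le_mul hUL hEL (by positivity) (by linarith)
    calc (U : ℝ) * (E : ℝ) * (1 + Real.log U) * (1 + Real.log E) =
        (U : ℝ) * E * ((1 + Real.log U) * (1 + Real.log E)) := by ring
      _ ≤ (U : ℝ) * E * (L * L) := mul_le_mul_of_nonneg_left h1 (by positivity)
      _ = (U : ℝ) * E * L ^ 2 := by ring
  set t : ℝ := √(p : ℝ) with ht
  have ht2 : t ^ 2 = p := by rw [ht, Real.sq_sqrt hppos.le]
  have ht1 : 1 ≤ t := by
    rw [ht]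
    rw [Real.one_le_sqrt]
    exact hp1
  have ht0 : 0 < t := by linarith
  have hUE : (U : ℝ) * E ≤ 103 / 100 * ((V : ℝ) ^ 2 * (a : ℝ) ^ 2 /
      (4 * 10 ^ 6 * t ^ 2 * (R : ℝ) ^ 2)) := by
    have h1 : (U : ℝ) ≤ 101 / 100 * (V * a) / (2000 * (p * R)) := by
      rw [le_div_iff₀ (by positivity)]
      linarith
    have h2 : (E : ℝ) ≤ 101 / 100 * (V * a) / (2000 * R) := by
      rw [le_div_iff₀ (by positivity)]
      linarith
    calc (U : ℝ) * E ≤ (101 / 100 * (V * a) / (2000 * (p * R))) *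
          (101 / 100 * (V * a) / (2000 * R)) := mul_le_mul h1 h2 (by positivity) (by positivity)
      _ = (101 / 100) ^ 2 * ((V : ℝ) ^ 2 * (a : ℝ) ^ 2 / (4 * 10 ^ 6 * p * (R : ℝ) ^ 2)) := by
          field_simp
          try ring
      _ ≤ 103 / 100 * ((V : ℝ) ^ 2 * (a : ℝ) ^ 2 / (4 * 10 ^ 6 * t ^ 2 * (R : ℝ) ^ 2)) := by
          rw [ht2]
          apply mul_le_mul_of_nonneg_right _ (by positivity)
          norm_num
  have hKle : K ≤ (V : ℝ) * a / (1900 * R * t) := by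
    rw [hK]
    apply Real.sqrt_le_iff.2
    refine ⟨by positivity, hUE.trans ?_⟩
    have h1 : ((V : ℝ) * a / (1900 * R * t)) ^ 2 = (4 * 10 ^ 6 / 1900 ^ 2) *
        ((V : ℝ) ^ 2 * (a : ℝ) ^ 2 / (4 * 10 ^ 6 * t ^ 2 * (R : ℝ) ^ 2)) := by
      field_simp
      try ring
    rw [h1]
    apply mul_le_mul_of_nonneg_right _ (by positivity)
    norm_num
  have hm0 : (0 : ℝ) < m := by exact_mod_cast hm
  have hws := ws1 V a R P Z T Q L h p m (Or.inr hp) hpP (by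
    have : 0 < (p : ℝ) * (V : ℝ) ^ 4 := by positivity
    nlinarith)
  set S1 : ℝ := ∑ x ∈ PP V, ∑ j ∈ Finset.Ico 1 m,
    √((BK p (sp V a R p) (5 * (j * R ^ 2)) x.1 x.2).card : ℝ) with hS1
  have hws' : S1 ≤ Q * T ^ 2 * (R : ℝ) ^ 2 * √L *
    (2 * 10 ^ 13 * (t ^ 2) ^ 2 * (V : ℝ) ^ 7 / (a : ℝ) ^ 3 +
      3 * 10 ^ 11 * t ^ 2 * t * (V : ℝ) ^ 6 / (a : ℝ) ^ 2) := by
    rw [ht2]
    exact hws
  have hfin := wup_fin V a R T Q L m t K (U * E) (PP V).card S1 hV hVa hR0 h.hT.1 h.hQ.1 hL1 ht1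
    hm0 (by rw [ht2]; exact hm2) hUE (by positivity) hKle (by positivity)
    (wup_card V (by have := h.hV; omega)) hws'
  have hErd : Er V a R T Q L p = 10 ^ 15 * (R : ℝ) * T ^ 2 * Q * L ^ 2 *
      (t * (V : ℝ) ^ 4 + (V : ℝ) ^ 3 * a) := rfl
  rw [hErd, ← ht2]
  refine le_trans ?_ hfin
  rw [hcard]
  have hb : ∀ x ∈ PP V, ((S.filter fun q => (q.2.2.1, q.2.2.2.1) = x).card : ℝ) ≤
      2 / (m : ℝ) * (9 * (U * E) + 14 * (K * L) * ((m - 1 : ℕ) : ℝ)) +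
      2 / (m : ℝ) * (14 * (K * L)) * ∑ j ∈ Finset.Ico 1 m,
        √((BK p (sp V a R p) (5 * (j * R ^ 2)) x.1 x.2).card : ℝ) := by
    intro x hx
    refine (wup_pair V a R P Z T Q L h p hp hpP hpR s S hS m U E hm hm1 hU hU1 hU2 hE hE1 hE2 x
      hx).trans ?_
    have h1 : 0 ≤ ∑ j ∈ Finset.Ico 1 m,
        (1 + √((BK p (sp V a R p) (5 * (j * R ^ 2)) x.1 x.2).card : ℝ)) :=
      Finset.sum_nonneg fun j _ => by positivity
    have h2 : 14 * √((U : ℝ) * (E : ℝ) * (1 + Real.log U) * (1 + Real.log E)) *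
        ∑ j ∈ Finset.Ico 1 m,
          (1 + √((BK p (sp V a R p) (5 * (j * R ^ 2)) x.1 x.2).card : ℝ)) ≤
        14 * (K * L) * ∑ j ∈ Finset.Ico 1 m,
          (1 + √((BK p (sp V a R p) (5 * (j * R ^ 2)) x.1 x.2).card : ℝ)) := by
      apply mul_le_mul_of_nonneg_right _ h1
      linarith
    have h3 : ∑ j ∈ Finset.Ico 1 m,
          (1 + √((BK p (sp V a R p) (5 * (j * R ^ 2)) x.1 x.2).card : ℝ)) =
        ((m - 1 : ℕ) : ℝ) + ∑ j ∈ Finset.Ico 1 m,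
          √((BK p (sp V a R p) (5 * (j * R ^ 2)) x.1 x.2).card : ℝ) := by
      rw [Finset.sum_add_distrib, Finset.sum_const, Nat.card_Ico, nsmul_eq_mul, mul_one]
    rw [h3] at h2 ⊢
    have h4 : 0 < 2 / (m : ℝ) := by positivity
    have h5 := mul_le_mul_of_nonneg_left (add_le_add_right h2 (9 * (U : ℝ) * E)) h4.le
    refine h5.trans (le_of_eq ?_)
    ring
  refine (Finset.sum_le_sum hb).trans ?_
  have e5 : ∑ x ∈ PP V, 2 / (m : ℝ) * (14 * (K * L)) * ∑ j ∈ Finset.Ico 1 m,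
      √((BK p (sp V a R p) (5 * (j * R ^ 2)) x.1 x.2).card : ℝ) =
      2 / (m : ℝ) * (14 * (K * L)) * S1 := by
    rw [hS1, Finset.mul_sum]
  rw [Finset.sum_add_distrib, e5, Finset.sum_const, nsmul_eq_mul]
  have e2 : ((m - 1 : ℕ) : ℝ) ≤ m := by exact_mod_cast Nat.sub_le m 1
  have hKL : 0 ≤ K * L := by positivity
  have e6 : (PP V).card * (2 / (m : ℝ) * (9 * (U * E) + 14 * (K * L) * ((m - 1 : ℕ) : ℝ))) ≤
      (PP V).card * (2 / (m : ℝ) * (9 * (U * E) + 14 * (K * L) * m)) := by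
    apply mul_le_mul_of_nonneg_left _ (by positivity)
    apply mul_le_mul_of_nonneg_left _ (by positivity)
    have : 14 * (K * L) * ((m - 1 : ℕ) : ℝ) ≤ 14 * (K * L) * m :=
      mul_le_mul_of_nonneg_left e2 (by positivity)
    linarith
  have e7 : (PP V).card * (2 / (m : ℝ) * (9 * (U * E) + 14 * (K * L) * m)) +
      2 / (m : ℝ) * (14 * (K * L)) * S1 =
      2 / (m : ℝ) * ((PP V).card * (9 * (U * E)) + 14 * (K * L) * (m * (PP V).card + S1)) := by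
    ring
  linarith

end Pool.Agent.FTL
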