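import Pool.Agent.FTL.DefsW

/-!
# FTL/WXa: the points with `v ∣ u`, `v ∤ e`

PROOF of `wxa`.  `u e = v ^ 2 N - c ^ 2 k` and `v ∣ u` give `v ∣ k` (`v` prime, `c ≠ v` primes), `k = v k'`,
`1 ≤ k' ≤ 4 a ^ 2 / V`.  `c z = v ^ 3 k' - e ^ 2 > 0`, so `c` divides the positive integer
`v ^ 3 k' - e ^ 2 ≤ v ^ 2 k ≤ 5 V ^ 2 a ^ 2 ≤ 5 V ^ 6 ≤ Z`: at most `T` values of `c` for given
`(v, k', e)`, and `c` determines `z`.  The number of `(v, k', e)` is at most `V * (4 a ^ 2 / V) * (V a)`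
(the number of `v ∈ [V, 1.001 V]` is at most `V / 1000 + 1 ≤ V`, the number of `e` at most
`V a / 1000 + 1 ≤ V a`, `k' ≤ 4 a ^ 2 / V`).  It remains to see that `u, N, w` are determined by
`c, v, k', e, z`.  `u = v u'` and `v w = u ^ 2 - c ^ 2 N` give `v ∣ N`, `N = v N'`, so
`u' e = v ^ 2 N' - c ^ 2 k'` (cancel `v`), so `u'` is determined modulo `v ^ 2` (`v ∤ e`); and
`0 < u' = u / v ≤ 1.001 a < V ^ 2 ≤ v ^ 2`.  Then `N` from the first and `w` from the second equation.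
So the map `q ↦ (v, k / v, e, c)` is injective on `S`.
-/

set_option autoImplicit false

namespace Pool.Agent.FTL

open Pool.Agent.FTB

private theorem wxaDvd (V a : ℕ) (s : ℤ) (N k c v : ℕ) (u e w z : ℤ)
    (h : Fr V a s N k c v u e w z) (hu : (v : ℤ) ∣ u) : v ∣ k ∧ v ∣ N := by
  have hvp : Prime (v : ℤ) := Nat.prime_iff_prime_int.1 h.pv
  have hvc : ¬ (v : ℤ) ∣ (c : ℤ) := by
    intro hd
    have h1 : v ∣ c := Int.natCast_dvd_natCast.1 hd
    exact h.ne ((Nat.prime_dvd_prime_iff_eq h.pv h.pc).1 h1).symm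
  have key : ∀ x : ℕ, (v : ℤ) ∣ (c : ℤ) ^ 2 * x → v ∣ x := by
    intro x hx
    rcases hvp.dvd_or_dvd hx with h1 | h1
    · exact absurd (hvp.dvd_of_dvd_pow h1) hvc
    · exact Int.natCast_dvd_natCast.1 h1
  constructor
  · apply key
    have e1 : (c : ℤ) ^ 2 * k = (v : ℤ) ^ 2 * N - u * e := by
      have := h.t1
      linarith
    rw [e1]
    exact Int.dvd_sub (Dvd.dvd.mul_right (dvd_pow_self _ (by norm_num)) _)
      (Dvd.dvd.mul_right hu _)
  · apply key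
    have e1 : (c : ℤ) ^ 2 * N = u ^ 2 - (v : ℤ) * w := by
      have := h.t2
      linarith
    rw [e1]
    exact Int.dvd_sub (dvd_pow hu (by norm_num)) (Dvd.intro _ rfl)

private theorem wxaU (V a : ℕ) (s : ℤ) (N k c v : ℕ) (u e w z U : ℤ) (hV : 10 ^ 6 ≤ V)
    (haV : 10 ^ 5 * a ≤ V ^ 2) (ha : 1 ≤ a)
    (h : Fr V a s N k c v u e w z) (hU : u = v * U) : 0 < U ∧ U < (v : ℤ) ^ 2 := by
  have hv0 : (0 : ℤ) < v := by
    have := h.pv.pos
    exact_mod_cast this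
  have hVv : (V : ℤ) ≤ v := by exact_mod_cast h.v1
  have hV0 : (0 : ℤ) < V := by
    have : 0 < V := by omega
    exact_mod_cast this
  have ha0 : (0 : ℤ) < a := by exact_mod_cast ha
  have hU0 : 0 < U := by
    have h1 := h.u1
    rw [hU] at h1
    have h2 : (0 : ℤ) < V * a := mul_pos hV0 ha0
    exact (mul_pos_iff_of_pos_left hv0).1 (by linarith)
  refine ⟨hU0, ?_⟩
  have h2 := h.u2
  rw [hU] at h2
  have h3 : (V : ℤ) * U ≤ v * U := mul_le_mul_of_nonneg_right hVv hU0.le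
  have h4 : (V : ℤ) * (1000 * U) ≤ V * (1001 * a) := by linarith
  have h5 : 1000 * U ≤ 1001 * (a : ℤ) := le_of_mul_le_mul_left h4 hV0
  have h6 : (10 : ℤ) ^ 5 * a ≤ (V : ℤ) ^ 2 := by exact_mod_cast haV
  have h7 : (V : ℤ) ^ 2 ≤ (v : ℤ) ^ 2 := pow_le_pow_left₀ hV0.le hVv 2
  linarith

private theorem wxaInj (V a : ℕ) (s : ℤ) (N N' k c v : ℕ) (u u' e w w' z z' : ℤ)
    (hV : 10 ^ 6 ≤ V) (haV : 10 ^ 5 * a ≤ V ^ 2) (ha : 1 ≤ a)
    (h : Fr V a s N k c v u e w z) (h' : Fr V a s N' k c v u' e w' z')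
    (hu : (v : ℤ) ∣ u) (hu' : (v : ℤ) ∣ u') (he : ¬ (v : ℤ) ∣ e) :
    N = N' ∧ u = u' ∧ w = w' ∧ z = z' := by
  have hv0 : (v : ℤ) ≠ 0 := by
    have := h.pv.pos
    have h1 : (0 : ℤ) < v := by exact_mod_cast this
    exact h1.ne'
  have hc0 : (c : ℤ) ≠ 0 := by
    have := h.pc.pos
    have h1 : (0 : ℤ) < c := by exact_mod_cast this
    exact h1.ne'
  have hz : z = z' := by
    apply mul_left_cancel₀ hc0
    rw [h.t3, h'.t3]
  obtain ⟨-, hN⟩ := wxaDvd V a s N k c v u e w z h hu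
  obtain ⟨-, hN'⟩ := wxaDvd V a s N' k c v u' e w' z' h' hu'
  obtain ⟨M, hM⟩ := hN
  obtain ⟨M', hM'⟩ := hN'
  obtain ⟨U, hU⟩ := hu
  obtain ⟨U', hU'⟩ := hu'
  obtain ⟨hU1, hU2⟩ := wxaU V a s N k c v u e w z U hV haV ha h hU
  obtain ⟨hU1', hU2'⟩ := wxaU V a s N' k c v u' e w' z' U' hV haV ha h' hU'
  have hMz : (N : ℤ) = v * M := by
    rw [hM]
    push_cast
    ring
  have hMz' : (N' : ℤ) = v * M' := by
    rw [hM']
    push_cast
    ring
  have e1 : (U - U') * e = (v : ℤ) ^ 2 * ((M : ℤ) - M') := by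
    apply mul_left_cancel₀ hv0
    have h1 := h.t1
    have h2 := h'.t1
    rw [hU, hMz] at h1
    rw [hU', hMz'] at h2
    linear_combination h1 - h2
  have hvp : Prime (v : ℤ) := Nat.prime_iff_prime_int.1 h.pv
  have hcop : IsCoprime ((v : ℤ) ^ 2) e := by
    apply IsCoprime.pow_left
    exact (Prime.coprime_iff_not_dvd hvp).2 he
  have hd : (v : ℤ) ^ 2 ∣ U - U' := by
    apply hcop.dvd_of_dvd_mul_right
    rw [e1]
    exact Dvd.intro _ rfl
  have hUU : U - U' = 0 := by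
    apply Int.eq_zero_of_abs_lt_dvd hd
    rw [abs_lt]
    constructor <;> linarith
  have hUe : U = U' := by linarith
  have hMM : (M : ℤ) = M' := by
    rw [hUU, zero_mul] at e1
    have h2 : (v : ℤ) ^ 2 ≠ 0 := pow_ne_zero 2 hv0
    have h3 : ((M : ℤ) - M') = 0 := by
      rcases mul_eq_zero.1 e1.symm with h4 | h4
      · exact absurd h4 h2
      · exact h4
    linarith
  have hMe : M = M' := by exact_mod_cast hMM
  have hNe : N = N' := by rw [hM, hM', hMe]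
  have hue : u = u' := by rw [hU, hU', hUe]
  refine ⟨hNe, hue, ?_, hz⟩
  apply mul_left_cancel₀ hv0
  rw [h.t2, h'.t2, hue, hNe]

theorem wxa (V a R P Z : ℕ) (T Q L : ℝ) (h : PW V a R P Z T Q L) (s : ℤ) (S : Finset Pt)
    (hS : ∀ q ∈ S, Frq V a s q ∧ (q.2.2.2.1 : ℤ) ∣ q.2.2.2.2.1 ∧
      ¬ (q.2.2.2.1 : ℤ) ∣ q.2.2.2.2.2.1) :
    (S.card : ℝ) ≤ 4 * T * V * (a : ℝ) ^ 3 := by
  classical
  have hV6 := h.hV
  have haV := h.haV
  have ha : 1 ≤ a := le_trans (by omega) h.hVa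
  have hV0 : 0 < V := by omega
  obtain ⟨B, hB⟩ : ∃ B : Finset (ℕ × ℕ × ℤ), B = Finset.Icc V (1001 * V / 1000) ×ˢ
      (Finset.Icc 1 (4 * a ^ 2 / V) ×ˢ
        Finset.Icc ((V : ℤ) * a) (1001 * ((V : ℤ) * a) / 1000)) := ⟨_, rfl⟩
  have hmap : ∀ q ∈ S, ((q.2.2.2.1, q.2.1 / q.2.2.2.1, s * q.2.2.2.2.2.1) : ℕ × ℕ × ℤ) ∈ B := by
    intro q hq
    obtain ⟨hF, hu, -⟩ := hS q hq
    obtain ⟨hk, -⟩ := wxaDvd V a s _ _ _ _ _ _ _ _ hF hu
    rw [hB, Finset.mem_product, Finset.mem_product, Finset.mem_Icc, Finset.mem_Icc,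
      Finset.mem_Icc]
    have hv1 := hF.v1
    have hv2 := hF.v2
    have hvp := hF.pv.pos
    have hk1 := hF.k1
    have hk2 := hF.k2
    refine ⟨⟨hv1, ?_⟩, ⟨?_, ?_⟩, ⟨hF.e1, ?_⟩⟩
    · rw [Nat.le_div_iff_mul_le (by norm_num)]
      dsimp only
      omega
    · exact Nat.div_pos (Nat.le_of_dvd hk1 hk) hvp
    · rw [Nat.le_div_iff_mul_le hV0]
      dsimp only
      calc q.2.1 / q.2.2.2.1 * V ≤ q.2.1 / q.2.2.2.1 * q.2.2.2.1 := Nat.mul_le_mul_left _ hv1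
        _ = q.2.1 := Nat.div_mul_cancel hk
        _ ≤ 4 * a ^ 2 := hk2
    · have h1 := hF.e2
      rw [Int.le_ediv_iff_mul_le (by norm_num)]
      dsimp only
      linarith
  have h1 := Finset.card_eq_sum_card_fiberwise (s := S) (t := B)
    (f := fun q => ((q.2.2.2.1, q.2.1 / q.2.2.2.1, s * q.2.2.2.2.2.1) : ℕ × ℕ × ℤ))
    (fun q hq => hmap q hq)
  have h2 : ∀ b ∈ B, ((S.filter fun q =>
      ((q.2.2.2.1, q.2.1 / q.2.2.2.1, s * q.2.2.2.2.2.1) : ℕ × ℕ × ℤ) = b).card : ℝ) ≤ T := by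
    intro b _
    rcases (S.filter fun q =>
      ((q.2.2.2.1, q.2.1 / q.2.2.2.1, s * q.2.2.2.2.2.1) : ℕ × ℕ × ℤ) = b).eq_empty_or_nonempty
      with he | ⟨q0, hq0⟩
    · rw [he]
      simp only [Finset.card_empty, Nat.cast_zero]
      linarith [h.hT.1]
    · rw [Finset.mem_filter] at hq0
      obtain ⟨hq0S, hq0b⟩ := hq0
      obtain ⟨hF0, hu0, he0⟩ := hS q0 hq0S
      have hss : s * s = 1 := by
        rcases hF0.hs with h3 | h3 <;> rw [h3] <;> norm_num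
      obtain ⟨n, hn⟩ : ∃ n : ℕ, n = q0.2.2.1 * q0.2.2.2.2.2.2.2.toNat := ⟨_, rfl⟩
      have hz0 := hF0.z1
      have hnz : (n : ℤ) = (q0.2.2.1 : ℤ) * q0.2.2.2.2.2.2.2 := by
        rw [hn]
        push_cast
        rw [Int.toNat_of_nonneg hz0.le]
      have hn1 : 1 ≤ n := by
        have h3 : (0 : ℤ) < n := by
          rw [hnz]
          have := hF0.pc.pos
          have h4 : (0 : ℤ) < (q0.2.2.1 : ℤ) := by exact_mod_cast this
          exact mul_pos h4 hz0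
        exact_mod_cast h3
      have hnZ : n ≤ Z := by
        have h3 : (n : ℤ) ≤ (q0.2.2.2.1 : ℤ) ^ 2 * q0.2.1 := by
          rw [hnz, hF0.t3]
          have := sq_nonneg q0.2.2.2.2.2.1
          linarith
        have h4 : n ≤ q0.2.2.2.1 ^ 2 * q0.2.1 := by exact_mod_cast h3
        have h5 : q0.2.2.2.1 ≤ 2 * V := by
          have := hF0.v2
          omega
        have h6 : a ≤ V ^ 2 := by
          have : a ≤ 10 ^ 5 * a := Nat.le_mul_of_pos_left _ (by norm_num)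
          omega
        calc n ≤ q0.2.2.2.1 ^ 2 * q0.2.1 := h4
          _ ≤ (2 * V) ^ 2 * (4 * a ^ 2) := by
              have := hF0.k2
              gcongr
          _ ≤ (2 * V) ^ 2 * (4 * (V ^ 2) ^ 2) := by gcongr
          _ = 16 * V ^ 6 := by ring
          _ ≤ 200 ^ 8 * V ^ 40 := by
              have h7 : V ^ 6 ≤ V ^ 40 := Nat.pow_le_pow_right hV0 (by norm_num)
              have h8 : 16 ≤ 200 ^ 8 := by norm_num
              exact Nat.mul_le_mul h8 h7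
          _ = (200 * V ^ 5) ^ 8 := by ring
          _ ≤ Z := h.hZ
      refine le_trans ?_ (h.hT.2 n hn1 hnZ)
      have hcard : (S.filter fun q =>
          ((q.2.2.2.1, q.2.1 / q.2.2.2.1, s * q.2.2.2.2.2.1) : ℕ × ℕ × ℤ) = b).card ≤
          n.divisors.card := by
        have hcmp : ∀ q ∈ S.filter fun q =>
            ((q.2.2.2.1, q.2.1 / q.2.2.2.1, s * q.2.2.2.2.2.1) : ℕ × ℕ × ℤ) = b,
            q ∈ S ∧ q.2.2.2.1 = q0.2.2.2.1 ∧ q.2.1 = q0.2.1 ∧
              q.2.2.2.2.2.1 = q0.2.2.2.2.2.1 := by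
          intro q hq
          rw [Finset.mem_filter] at hq
          obtain ⟨hqS, hqb⟩ := hq
          rw [← hq0b] at hqb
          obtain ⟨hF, hu, -⟩ := hS q hqS
          obtain ⟨hk, -⟩ := wxaDvd V a s _ _ _ _ _ _ _ _ hF hu
          obtain ⟨hk0, -⟩ := wxaDvd V a s _ _ _ _ _ _ _ _ hF0 hu0
          rw [Prod.mk.injEq, Prod.mk.injEq] at hqb
          obtain ⟨b1, b2, b3⟩ := hqb
          refine ⟨hqS, b1, ?_, ?_⟩
          · rw [← Nat.div_mul_cancel hk, ← Nat.div_mul_cancel hk0, b2, b1]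
          · have h5 : s * (s * q.2.2.2.2.2.1) = s * (s * q0.2.2.2.2.2.1) := by rw [b3]
            rw [← mul_assoc, ← mul_assoc, hss, one_mul, one_mul] at h5
            exact h5
        apply Finset.card_le_card_of_injOn (fun q => q.2.2.1)
        · intro q hq
          obtain ⟨hqS, b1, b2, b3⟩ := hcmp q hq
          obtain ⟨hF, hu, -⟩ := hS q hqS
          rw [Finset.mem_coe, Nat.mem_divisors]
          refine ⟨?_, by omega⟩
          apply Int.natCast_dvd_natCast.1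
          rw [hnz, hF0.t3, ← b1, ← b2, ← b3, ← hF.t3]
          exact Dvd.intro _ rfl
        · intro q hq q' hq' hcc
          obtain ⟨hqS, b1, b2, b3⟩ := hcmp q hq
          obtain ⟨hqS', b1', b2', b3'⟩ := hcmp q' hq'
          obtain ⟨hF, hu, he⟩ := hS q hqS
          obtain ⟨hF', hu', he'⟩ := hS q' hqS'
          have c1 : q'.2.2.2.1 = q.2.2.2.1 := by rw [b1, b1']
          have c2 : q'.2.1 = q.2.1 := by rw [b2, b2']
          have c3 : q'.2.2.2.2.2.1 = q.2.2.2.2.2.1 := by rw [b3, b3']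
          have c4 : q'.2.2.1 = q.2.2.1 := hcc.symm
          unfold Frq at hF hF'
          rw [c1, c2, c3, c4] at hF'
          rw [c1] at hu'
          obtain ⟨d1, d2, d3, d4⟩ := wxaInj V a s _ _ _ _ _ _ _ _ _ _ _ _ hV6 haV ha
            hF hF' hu hu' he
          exact Prod.ext d1 (Prod.ext c2.symm (Prod.ext c4.symm (Prod.ext c1.symm
            (Prod.ext d2 (Prod.ext c3.symm (Prod.ext d3 d4))))))
      exact_mod_cast hcard
  have hBcard : (B.card : ℝ) ≤ 4 * V * (a : ℝ) ^ 3 := by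
    rw [hB, Finset.card_product, Finset.card_product, Nat.card_Icc, Nat.card_Icc, Int.card_Icc]
    have b1 : 1001 * V / 1000 + 1 - V ≤ V := by omega
    have b2 : (4 * a ^ 2 / V + 1 - 1) * V ≤ 4 * a ^ 2 := by
      rw [Nat.add_sub_cancel]
      exact Nat.div_mul_le_self _ _
    have b3 : (1001 * ((V : ℤ) * a) / 1000 + 1 - (V : ℤ) * a).toNat ≤ V * a := by
      have h5 : (1000 : ℤ) ≤ (V : ℤ) * a := by
        have h6 : 1000 ≤ V * a := by
          calc 1000 ≤ V * 1 := by omega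
            _ ≤ V * a := Nat.mul_le_mul_left _ ha
        exact_mod_cast h6
      have h7 : ((V * a : ℕ) : ℤ) = (V : ℤ) * a := by push_cast; ring
      rw [Int.toNat_le, h7]
      omega
    obtain ⟨x, hx⟩ : ∃ x : ℕ, x = 1001 * V / 1000 + 1 - V := ⟨_, rfl⟩
    obtain ⟨y, hy⟩ : ∃ y : ℕ, y = 4 * a ^ 2 / V + 1 - 1 := ⟨_, rfl⟩
    obtain ⟨t, ht⟩ : ∃ t : ℕ, t = (1001 * ((V : ℤ) * a) / 1000 + 1 - (V : ℤ) * a).toNat :=
      ⟨_, rfl⟩
    rw [← hx] at b1 ⊢
    rw [← hy] at b2 ⊢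
    rw [← ht] at b3 ⊢
    have h8 : x * (y * t) ≤ 4 * V * a ^ 3 := by
      calc x * (y * t) ≤ V * (y * (V * a)) := by gcongr
        _ = (y * V) * (V * a) := by ring
        _ ≤ 4 * a ^ 2 * (V * a) := by gcongr
        _ = 4 * V * a ^ 3 := by ring
    exact_mod_cast h8
  rw [h1]
  push_cast
  calc ∑ b ∈ B, ((S.filter fun q =>
      ((q.2.2.2.1, q.2.1 / q.2.2.2.1, s * q.2.2.2.2.2.1) : ℕ × ℕ × ℤ) = b).card : ℝ) ≤
        ∑ _b ∈ B, T := Finset.sum_le_sum h2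
    _ = T * (B.card : ℝ) := by
        rw [Finset.sum_const, nsmul_eq_mul]
        ring
    _ ≤ T * (4 * V * (a : ℝ) ^ 3) := by
        have := h.hT.1
        gcongr
    _ = 4 * T * V * (a : ℝ) ^ 3 := by ring

end Pool.Agent.FTL
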