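import Pool.Agent.FTB.Geo

/-!
# FTL/Way: Weyl differencing in two variables, with linear terms

PROOF of `wayl`: the same as the proof of `Pool.Agent.FTB.wey` (file `Pool/Agent/FTB/Wey.lean`: copy it);
with `Q x = qf α β γ x + l1 x.1 + l2 x.2`,
`Q (x + h) - Q x = (Q h) + x.1 (2 α h.1 + β h.2) + x.2 (β h.1 + 2 γ h.2)`: the linear terms only
contribute to `Q h`.
-/

set_option autoImplicit false

namespace Pool.Agent.FTL

open Pool.Agent.FTB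

/-- the quadratic polynomial -/
private noncomputable def Way_Q (α β γ l1 l2 : ℝ) (x : ℤ × ℤ) : ℝ :=
  qf α β γ x + l1 * (x.1 : ℝ) + l2 * (x.2 : ℝ)

theorem wayl (α β γ l1 l2 : ℝ) (U E : ℕ) :
    ‖∑ x ∈ bx U E, ex (qf α β γ x + l1 * (x.1 : ℝ) + l2 * (x.2 : ℝ))‖ ^ 2 ≤
      ∑ h ∈ bx (2 * U) (2 * E), gm U (2 * α * (h.1 : ℝ) + β * (h.2 : ℝ)) *
        gm E (β * (h.1 : ℝ) + 2 * γ * (h.2 : ℝ)) := by
  have hgoal : ∀ x : ℤ × ℤ, qf α β γ x + l1 * (x.1 : ℝ) + l2 * (x.2 : ℝ) = Way_Q α β γ l1 l2 x :=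
    fun _ => rfl
  simp only [hgoal]
  classical
  have h1 : ‖∑ x ∈ bx U E, ex (Way_Q α β γ l1 l2 x)‖ ^ 2 =
      ‖∑ x ∈ bx U E, ∑ y ∈ bx U E, ex (Way_Q α β γ l1 l2 y - Way_Q α β γ l1 l2 x)‖ := by
    have e1 : (∑ x ∈ bx U E, ∑ y ∈ bx U E, ex (Way_Q α β γ l1 l2 y - Way_Q α β γ l1 l2 x)) =
        (∑ x ∈ bx U E, (starRingEnd ℂ) (ex (Way_Q α β γ l1 l2 x))) * (∑ y ∈ bx U E, ex (Way_Q α β γ l1 l2 y)) := by
      rw [Finset.sum_mul_sum]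
      refine Finset.sum_congr rfl fun x _ => Finset.sum_congr rfl fun y _ => ?_
      rw [ex_conj, ← ex_add, sub_eq_add_neg, add_comm]
    rw [e1, norm_mul, ← map_sum, RCLike.norm_conj, sq]
  have h2 : (∑ x ∈ bx U E, ∑ y ∈ bx U E, ex (Way_Q α β γ l1 l2 y - Way_Q α β γ l1 l2 x)) =
      ∑ h ∈ bx (2 * U) (2 * E), ∑ x ∈ (bx U E).filter (fun x => x + h ∈ bx U E),
        ex (Way_Q α β γ l1 l2 (x + h) - Way_Q α β γ l1 l2 x) := by
    have e1 : (∑ x ∈ bx U E, ∑ y ∈ bx U E, ex (Way_Q α β γ l1 l2 y - Way_Q α β γ l1 l2 x)) =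
        ∑ p ∈ bx U E ×ˢ bx U E, ex (Way_Q α β γ l1 l2 p.2 - Way_Q α β γ l1 l2 p.1) :=
      (Finset.sum_product' (bx U E) (bx U E)
        (fun x y => ex (Way_Q α β γ l1 l2 y - Way_Q α β γ l1 l2 x))).symm
    have e2 : ∀ p ∈ bx U E ×ˢ bx U E, p.2 - p.1 ∈ bx (2 * U) (2 * E) := by
      intro p hp
      obtain ⟨hp1, hp2⟩ := Finset.mem_product.1 hp
      rw [mem_bx] at hp1 hp2 ⊢
      obtain ⟨a1, a2⟩ := hp1
      obtain ⟨b1, b2⟩ := hp2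
      rw [abs_le] at a1 a2 b1 b2
      refine ⟨abs_le.2 ⟨?_, ?_⟩, abs_le.2 ⟨?_, ?_⟩⟩
      · show -((2 * U : ℕ) : ℤ) ≤ p.2.1 - p.1.1
        push_cast; linarith
      · show p.2.1 - p.1.1 ≤ ((2 * U : ℕ) : ℤ)
        push_cast; linarith
      · show -((2 * E : ℕ) : ℤ) ≤ p.2.2 - p.1.2
        push_cast; linarith
      · show p.2.2 - p.1.2 ≤ ((2 * E : ℕ) : ℤ)
        push_cast; linarith
    rw [e1, ← Finset.sum_fiberwise_of_maps_to e2]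
    refine Finset.sum_congr rfl fun h _ => ?_
    refine Finset.sum_bij' (fun p _ => p.1) (fun x _ => (x, x + h)) ?_ ?_ ?_ ?_ ?_
    · intro p hp
      obtain ⟨hp1, hp2⟩ := Finset.mem_filter.1 hp
      obtain ⟨hp3, hp4⟩ := Finset.mem_product.1 hp1
      refine Finset.mem_filter.2 ⟨hp3, ?_⟩
      rw [← hp2]
      simpa using hp4
    · intro x hx
      obtain ⟨hx1, hx2⟩ := Finset.mem_filter.1 hx
      exact Finset.mem_filter.2 ⟨Finset.mem_product.2 ⟨hx1, hx2⟩, by simp⟩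
    · intro p hp
      obtain ⟨hp1, hp2⟩ := Finset.mem_filter.1 hp
      refine Prod.ext rfl ?_
      show p.1 + h = p.2
      rw [← hp2]
      simp
    · intro x hx
      rfl
    · intro p hp
      obtain ⟨hp1, hp2⟩ := Finset.mem_filter.1 hp
      have h3 : p.1 + h = p.2 := by
        rw [← hp2]
        simp
      show ex (Way_Q α β γ l1 l2 p.2 - Way_Q α β γ l1 l2 p.1) = ex (Way_Q α β γ l1 l2 (p.1 + h) - Way_Q α β γ l1 l2 p.1)
      rw [h3]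
  rw [h1, h2]
  refine (norm_sum_le _ _).trans (Finset.sum_le_sum fun h _ => ?_)
  have h4 : (bx U E).filter (fun x => x + h ∈ bx U E) =
      Finset.Icc (max (-(U : ℤ)) (-(U : ℤ) - h.1)) (min (U : ℤ) (U - h.1)) ×ˢ
        Finset.Icc (max (-(E : ℤ)) (-(E : ℤ) - h.2)) (min (E : ℤ) (E - h.2)) := by
    ext x
    rw [Finset.mem_filter, mem_bx, mem_bx, Finset.mem_product, Finset.mem_Icc, Finset.mem_Icc,
      abs_le, abs_le, abs_le, abs_le, max_le_iff, max_le_iff, le_min_iff, le_min_iff]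
    have e1 : (x + h).1 = x.1 + h.1 := rfl
    have e2 : (x + h).2 = x.2 + h.2 := rfl
    rw [e1, e2]
    constructor
    · rintro ⟨⟨⟨a1, a2⟩, a3, a4⟩, ⟨a5, a6⟩, a7, a8⟩
      exact ⟨⟨⟨a1, by linarith⟩, a2, by linarith⟩, ⟨a3, by linarith⟩, a4, by linarith⟩
    · rintro ⟨⟨⟨a1, a2⟩, a3, a4⟩, ⟨a5, a6⟩, a7, a8⟩
      exact ⟨⟨⟨a1, a3⟩, a5, a7⟩, ⟨by linarith, by linarith⟩, by linarith, by linarith⟩
  rw [h4]
  have h5 : (∑ x ∈ Finset.Icc (max (-(U : ℤ)) (-(U : ℤ) - h.1)) (min (U : ℤ) (U - h.1)) ×ˢ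
        Finset.Icc (max (-(E : ℤ)) (-(E : ℤ) - h.2)) (min (E : ℤ) (E - h.2)),
        ex (Way_Q α β γ l1 l2 (x + h) - Way_Q α β γ l1 l2 x)) =
      ex (Way_Q α β γ l1 l2 h) *
      ((∑ n ∈ Finset.Icc (max (-(U : ℤ)) (-(U : ℤ) - h.1)) (min (U : ℤ) (U - h.1)),
        ex ((n : ℝ) * (2 * α * (h.1 : ℝ) + β * (h.2 : ℝ)))) *
      (∑ n ∈ Finset.Icc (max (-(E : ℤ)) (-(E : ℤ) - h.2)) (min (E : ℤ) (E - h.2)),
        ex ((n : ℝ) * (β * (h.1 : ℝ) + 2 * γ * (h.2 : ℝ))))) := by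
    rw [Finset.sum_mul_sum, ← Finset.sum_product', Finset.mul_sum]
    refine Finset.sum_congr rfl fun x _ => ?_
    rw [← ex_add, ← ex_add]
    congr 1
    unfold Way_Q qf
    have e1 : (x + h).1 = x.1 + h.1 := rfl
    have e2 : (x + h).2 = x.2 + h.2 := rfl
    rw [e1, e2]
    push_cast
    ring
  rw [h5, norm_mul, norm_ex, one_mul, norm_mul]
  refine mul_le_mul (geo _ _ _ U ?_) (geo _ _ _ E ?_) (norm_nonneg _) (gm_nonneg _ _)
  · have a1 := min_le_left (U : ℤ) (U - h.1)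
    have a2 := le_max_left (-(U : ℤ)) (-(U : ℤ) - h.1)
    linarith
  · have a1 := min_le_left (E : ℤ) (E - h.2)
    have a2 := le_max_left (-(E : ℤ)) (-(E : ℤ) - h.2)
    linarith

end Pool.Agent.FTL
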